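import Pool.Agent.H.MP_027d00_lc.strong.KW

/-!
# Assignments that compare the rows in a set only
-/

set_option autoImplicit false

open Finset

namespace Pool.Agent.H.MP_027d00_lc.SComp

open UComp

/-- The assignment of Alice; outside of the rows in `I` the entries are not compared. -/
def asgAI {m n : ℕ} (a : Fin m → Bool) (I : Finset (Fin m)) (X : Mat m n) : Lit m n → Bool :=
  fun v => if v.1 ∈ I then (X v.1 v.2.1 == v.2.2.1) && (a v.1 == v.2.2.2) else (a v.1 == v.2.2.2)

/-- The assignment of Bob; outside of the rows in `I` the entries are not compared. -/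
def asgBI {m n : ℕ} (b : Fin m → Bool) (I : Finset (Fin m)) (Y : Mat m n) : Lit m n → Bool :=
  fun v => if v.1 ∈ I then (Y v.1 v.2.1 == v.2.2.1) || (b v.1 == v.2.2.2) else (b v.1 == v.2.2.2)

/-- The matrices accepted by `F`. -/
def setAI {m n : ℕ} (F : MF (Lit m n)) (a : Fin m → Bool) (I : Finset (Fin m)) :
    Finset (Mat m n) :=
  univ.filter (fun X => F.eval (asgAI a I X) = true)

/-- The matrices rejected by `F`. -/
def setBI {m n : ℕ} (F : MF (Lit m n)) (b : Fin m → Bool) (I : Finset (Fin m)) :
    Finset (Mat m n) :=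
  univ.filter (fun Y => F.eval (asgBI b I Y) = false)

/-- Families of sets of matrices, indexed by the sets of rows that are looked at, which increase if
fewer rows are looked at, and are given row by row by formulas with at most `w` leaves. -/
structure IsFam {m n : ℕ} (w : ℕ) (U : Finset (Fin m) → Finset (Mat m n)) : Prop where
  anti : ∀ I I' : Finset (Fin m), I ⊆ I' → U I' ⊆ U I
  loc : ∀ (I : Finset (Fin m)) (i : Fin m) (X : Mat m n) (x : Fin n → Bool), i ∉ I →
    Function.update X i x ∈ U I → X ∈ U I
  row : ∀ (I : Finset (Fin m)) (i : Fin m) (X : Mat m n),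
    Comp w (fun x : Fin n → Bool => decide (Function.update X i x ∈ U I))

/-- Substitution of constants and literals (functions with a formula with at most one leaf) in a
monotone formula. Proof: induction on `F` with `Comp.and`, `Comp.or`. -/
theorem MF.toComp {V W : Type} (F : MF V) (σ : V → (W → Bool) → Bool) (hσ : ∀ v, Comp 1 (σ v)) :
    Comp F.size (fun x => F.eval (fun v => σ v x)) := by
  induction F with
  | var v => exact hσ v
  | and F G ihF ihG => exact ihF.and ihG
  | or F G ihF ihG => exact ihF.or ihG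

theorem Asg_A_mono {m n : ℕ} {a : Fin m → Bool} {I I' : Finset (Fin m)} (h : I ⊆ I')
    (X : Mat m n) (v : Lit m n) (hv : asgAI a I' X v = true) : asgAI a I X v = true := by
  unfold asgAI at hv ⊢
  by_cases h1 : v.1 ∈ I
  · rw [if_pos h1]
    rwa [if_pos (h h1)] at hv
  · rw [if_neg h1]
    by_cases h2 : v.1 ∈ I'
    · rw [if_pos h2, Bool.and_eq_true] at hv
      exact hv.2
    · rwa [if_neg h2] at hv

theorem Asg_B_mono {m n : ℕ} {b : Fin m → Bool} {I I' : Finset (Fin m)} (h : I ⊆ I')
    (Y : Mat m n) (v : Lit m n) (hv : asgBI b I Y v = true) : asgBI b I' Y v = true := by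
  unfold asgBI at hv ⊢
  by_cases h2 : v.1 ∈ I'
  · rw [if_pos h2]
    by_cases h1 : v.1 ∈ I
    · rwa [if_pos h1] at hv
    · rw [if_neg h1] at hv
      rw [hv, Bool.or_true]
  · rw [if_neg h2]
    rwa [if_neg fun h1 => h2 (h h1)] at hv

theorem Asg_A_loc {m n : ℕ} {a : Fin m → Bool} {I : Finset (Fin m)} {i : Fin m} (hi : i ∉ I)
    (X : Mat m n) (x : Fin n → Bool) : asgAI a I (Function.update X i x) = asgAI a I X := by
  funext v
  unfold asgAI
  by_cases h1 : v.1 ∈ I
  · have h2 : v.1 ≠ i := fun h => hi (h ▸ h1)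
    rw [Function.update_of_ne h2]
  · rw [if_neg h1, if_neg h1]

theorem Asg_B_loc {m n : ℕ} {b : Fin m → Bool} {I : Finset (Fin m)} {i : Fin m} (hi : i ∉ I)
    (X : Mat m n) (x : Fin n → Bool) : asgBI b I (Function.update X i x) = asgBI b I X := by
  funext v
  unfold asgBI
  by_cases h1 : v.1 ∈ I
  · have h2 : v.1 ≠ i := fun h => hi (h ▸ h1)
    rw [Function.update_of_ne h2]
  · rw [if_neg h1, if_neg h1]

theorem Asg_A_row {m n : ℕ} (a : Fin m → Bool) (I : Finset (Fin m)) (i : Fin m) (X : Mat m n)
    (v : Lit m n) : Comp 1 (fun x : Fin n → Bool => asgAI a I (Function.update X i x) v) := by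
  unfold asgAI
  by_cases h1 : v.1 ∈ I
  · simp only [if_pos h1]
    by_cases h2 : v.1 = i
    · have e : (fun x : Fin n → Bool => (Function.update X i x v.1 v.2.1 == v.2.2.1) &&
          (a v.1 == v.2.2.2)) = fun x => (x v.2.1 == v.2.2.1) && (a v.1 == v.2.2.2) := by
        funext x
        rw [h2, Function.update_self]
      rw [e]
      cases a v.1 == v.2.2.2 with
      | true => simpa using Comp.lit v.2.1 v.2.2.1
      | false => simpa using Comp.const (V := Fin n) 1 false
    · simp only [Function.update_of_ne h2]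
      exact Comp.const 1 _
  · simp only [if_neg h1]
    exact Comp.const 1 _

theorem Asg_B_row {m n : ℕ} (b : Fin m → Bool) (I : Finset (Fin m)) (i : Fin m) (X : Mat m n)
    (v : Lit m n) : Comp 1 (fun x : Fin n → Bool => asgBI b I (Function.update X i x) v) := by
  unfold asgBI
  by_cases h1 : v.1 ∈ I
  · simp only [if_pos h1]
    by_cases h2 : v.1 = i
    · have e : (fun x : Fin n → Bool => (Function.update X i x v.1 v.2.1 == v.2.2.1) ||
          (b v.1 == v.2.2.2)) = fun x => (x v.2.1 == v.2.2.1) || (b v.1 == v.2.2.2) := by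
        funext x
        rw [h2, Function.update_self]
      rw [e]
      cases b v.1 == v.2.2.2 with
      | true => simpa using Comp.const (V := Fin n) 1 true
      | false => simpa using Comp.lit v.2.1 v.2.2.1
    · simp only [Function.update_of_ne h2]
      exact Comp.const 1 _
  · simp only [if_neg h1]
    exact Comp.const 1 _

theorem Asg_mem_A {m n : ℕ} (F : MF (Lit m n)) (a : Fin m → Bool) (I : Finset (Fin m))
    (X : Mat m n) : X ∈ setAI F a I ↔ F.eval (asgAI a I X) = true := by
  rw [setAI, Finset.mem_filter]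
  exact and_iff_right (Finset.mem_univ _)

theorem Asg_mem_B {m n : ℕ} (F : MF (Lit m n)) (b : Fin m → Bool) (I : Finset (Fin m))
    (Y : Mat m n) : Y ∈ setBI F b I ↔ F.eval (asgBI b I Y) = false := by
  rw [setBI, Finset.mem_filter]
  exact and_iff_right (Finset.mem_univ _)

/-- Proof. `anti`: if `I ⊆ I'` then `asgAI a I' X v = true` implies `asgAI a I X v = true`; use
`MF.eval_mono`. `loc`: if `i ∉ I` then `asgAI a I (Function.update X i x) = asgAI a I X` (for
`v.1 ∈ I` we have `v.1 ≠ i`). `row`: `asgAI a I (Function.update X i x) v` is, as a function of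
`x`, a constant unless `v.1 = i`, `i ∈ I` and `a i = v.2.2.2`, when it is the literal
`x v.2.1 == v.2.2.1`; use `MF.toComp` and `Comp.mono`. -/
theorem isFam_A {m n w : ℕ} (F : MF (Lit m n)) (hF : F.size ≤ w) (a : Fin m → Bool) :
    IsFam w (setAI F a) := by
  refine ⟨fun I I' h X hX => ?_, fun I i X x hi hX => ?_, fun I i X => ?_⟩
  · rw [Asg_mem_A] at hX ⊢
    exact F.eval_mono (Asg_A_mono h X) hX
  · rw [Asg_mem_A] at hX ⊢
    rwa [Asg_A_loc hi] at hX
  · have h1 := (F.toComp (fun v (x : Fin n → Bool) => asgAI a I (Function.update X i x) v)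
      (Asg_A_row a I i X)).mono hF
    have e : (fun x : Fin n → Bool => decide (Function.update X i x ∈ setAI F a I)) =
        fun x => F.eval fun v => asgAI a I (Function.update X i x) v := by
      funext x
      rw [Bool.eq_iff_iff, decide_eq_true_iff, Asg_mem_A]
    rw [e]
    exact h1

/-- Proof: as for `isFam_A`; a set of rejected matrices, so `Comp.not` is needed in `row`. -/
theorem isFam_B {m n w : ℕ} (F : MF (Lit m n)) (hF : F.size ≤ w) (b : Fin m → Bool) :
    IsFam w (setBI F b) := by
  refine ⟨fun I I' h X hX => ?_, fun I i X x hi hX => ?_, fun I i X => ?_⟩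
  · rw [Asg_mem_B] at hX ⊢
    by_contra hcon
    rw [Bool.not_eq_false] at hcon
    rw [F.eval_mono (Asg_B_mono h X) hcon] at hX
    exact absurd hX (by simp)
  · rw [Asg_mem_B] at hX ⊢
    rwa [Asg_B_loc hi] at hX
  · have h1 := ((F.toComp (fun v (x : Fin n → Bool) => asgBI b I (Function.update X i x) v)
      (Asg_B_row b I i X)).mono hF).not
    have e : (fun x : Fin n → Bool => decide (Function.update X i x ∈ setBI F b I)) =
        fun x => !(F.eval fun v => asgBI b I (Function.update X i x) v) := by
      funext x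
      rw [Bool.eq_iff_iff, decide_eq_true_iff, Asg_mem_B, Bool.not_eq_true']
    rw [e]
    exact h1

theorem mem_setAI_univ {m n : ℕ} (F : MF (Lit m n)) (a : Fin m → Bool) (X : Mat m n) :
    X ∈ setAI F a univ ↔ F.eval (asgA a X) = true := by
  have e : asgAI a univ X = asgA a X := by
    funext v
    simp [asgAI, asgA]
  rw [setAI, Finset.mem_filter, e]
  simp

theorem mem_setBI_univ {m n : ℕ} (F : MF (Lit m n)) (b : Fin m → Bool) (Y : Mat m n) :
    Y ∈ setBI F b univ ↔ F.eval (asgB b Y) = false := by
  have e : asgBI b univ Y = asgB b Y := by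
    funext v
    simp [asgBI, asgB]
  rw [setBI, Finset.mem_filter, e]
  simp

/-- The conflict. Proof: by `MF.conflict` there is `v` with `asgAI a I X v = true` and
`asgBI b I' Y v = false`; take `i = v.1`. -/
theorem conflictI {m n : ℕ} {F : MF (Lit m n)} {a b : Fin m → Bool} {I I' : Finset (Fin m)}
    {X Y : Mat m n} (hX : X ∈ setAI F a I) (hY : Y ∈ setBI F b I') :
    ∃ i, a i ≠ b i ∧ (i ∈ I → i ∈ I' → X i ≠ Y i) := by
  rw [Asg_mem_A] at hX
  rw [Asg_mem_B] at hY
  obtain ⟨v, h1, h2⟩ := F.conflict hX hY
  refine ⟨v.1, fun h => ?_, fun hI hI' h => ?_⟩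
  · have h3 : a v.1 = v.2.2.2 := by
      unfold asgAI at h1
      by_cases hv : v.1 ∈ I
      · rw [if_pos hv, Bool.and_eq_true] at h1
        simpa using h1.2
      · rw [if_neg hv] at h1
        simpa using h1
    have h4 : ¬ b v.1 = v.2.2.2 := by
      unfold asgBI at h2
      by_cases hv : v.1 ∈ I'
      · rw [if_pos hv, Bool.or_eq_false_iff] at h2
        simpa using h2.2
      · rw [if_neg hv] at h2
        simpa using h2
    exact h4 (h ▸ h3)
  · unfold asgAI at h1
    unfold asgBI at h2
    rw [if_pos hI, Bool.and_eq_true] at h1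
    rw [if_pos hI', Bool.or_eq_false_iff] at h2
    have h3 : X v.1 v.2.1 = v.2.2.1 := by simpa using h1.1
    have h4 : ¬ Y v.1 v.2.1 = v.2.2.1 := by simpa using h2.1
    exact h4 (by rw [← h]; exact h3)

end Pool.Agent.H.MP_027d00_lc.SComp
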