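import Pool.Agent.H.MP_027d00_lc.ucomp.Amp

/-!
# Two-sided hard distributions
-/

set_option autoImplicit false

open Finset

namespace Pool.Agent.H.MP_027d00_lc.SComp

open UComp

/-- `μ true` and `μ false` are distributions on `g⁻¹(1)` and `g⁻¹(0)` that no function with a
formula with at most `w` leaves tells apart, up to the factor `1 + 1 / (8 m)` and the error `τ`. -/
structure Hard {n : ℕ} (m w : ℕ) (τ : ℝ) (g : (Fin n → Bool) → Bool)
    (μ : Bool → (Fin n → Bool) → ℝ) : Prop where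
  nonneg : ∀ b x, 0 ≤ μ b x
  sum : ∀ b, ∑ x, μ b x = 1
  supp : ∀ b x, μ b x ≠ 0 → g x = b
  hard : ∀ h : (Fin n → Bool) → Bool, Comp w h → ∀ c : Bool,
    ∑ x, μ c x * ind (h x) ≤ (1 + 1 / (8 * (m : ℝ))) * ∑ x, μ (!c) x * ind (h x) + τ

end Pool.Agent.H.MP_027d00_lc.SComp
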