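import Pool.Agent.H.MP_027d00_lc.strong.Mea
import Pool.Agent.H.MP_027d00_lc.strong.Asg
import Pool.Agent.H.MP_027d00_lc.strong.HardDef

/-!
# Changing the type of one row
-/

set_option autoImplicit false

open Finset

namespace Pool.Agent.H.MP_027d00_lc.SComp

open UComp

/-- The exchange of the row `i` with `x`. -/
def switchE {m n : ℕ} (i : Fin m) : Mat m n × (Fin n → Bool) ≃ Mat m n × (Fin n → Bool) :=
  Function.Involutive.toPerm (fun p => (Function.update p.1 i p.2, p.1 i)) fun p => by
    simp

theorem W_update_row {m n : ℕ} (μ : Bool → (Fin n → Bool) → ℝ) (t : Fin m → Bool) (i : Fin m)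
    (X : Mat m n) (x : Fin n → Bool) :
    W μ t (Function.update X i x) = μ (t i) x * ∏ j ∈ univ.erase i, μ (t j) (X j) := by
  rw [W, ← Finset.mul_prod_erase univ _ (Finset.mem_univ i), Function.update_self]
  congr 1
  refine Finset.prod_congr rfl fun j hj => ?_
  rw [Function.update_of_ne (Finset.ne_of_mem_erase hj)]

theorem W_update_type {m n : ℕ} (μ : Bool → (Fin n → Bool) → ℝ) (t : Fin m → Bool) (i : Fin m)
    (c : Bool) (X : Mat m n) :
    W μ (Function.update t i c) X = μ c (X i) * ∏ j ∈ univ.erase i, μ (t j) (X j) := by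
  rw [W, ← Finset.mul_prod_erase univ _ (Finset.mem_univ i), Function.update_self]
  congr 1
  refine Finset.prod_congr rfl fun j hj => ?_
  rw [Function.update_of_ne (Finset.ne_of_mem_erase hj)]

/-- The same with the type changed in row `i`. -/
theorem sum_update' {m n : ℕ} {μ : Bool → (Fin n → Bool) → ℝ} (h1 : ∀ b, ∑ x, μ b x = 1)
    (t : Fin m → Bool) (i : Fin m) (c : Bool) (φ : Mat m n → ℝ) :
    ∑ X, W μ (Function.update t i c) X * φ X =
      ∑ X, W μ t X * ∑ x, μ c x * φ (Function.update X i x) := by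
  have e1 : ∑ X : Mat m n, W μ t X * ∑ x, μ c x * φ (Function.update X i x) =
      ∑ p : Mat m n × (Fin n → Bool), W μ t p.1 * (μ c p.2 * φ (Function.update p.1 i p.2)) := by
    rw [Fintype.sum_prod_type]
    exact Finset.sum_congr rfl fun X _ => Finset.mul_sum _ _ _
  have e2 : ∑ p : Mat m n × (Fin n → Bool),
      W μ t p.1 * (μ c p.2 * φ (Function.update p.1 i p.2)) =
      ∑ p : Mat m n × (Fin n → Bool),
        W μ t (Function.update p.1 i p.2) * (μ c (p.1 i) * φ p.1) := by
    rw [← Equiv.sum_comp (switchE i)]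
    refine Finset.sum_congr rfl fun p _ => ?_
    have h : switchE i p = (Function.update p.1 i p.2, p.1 i) := rfl
    rw [h]
    simp
  rw [e1, e2, Fintype.sum_prod_type]
  refine Finset.sum_congr rfl fun X _ => ?_
  rw [W_update_type]
  have e3 : ∀ x : Fin n → Bool, W μ t (Function.update X i x) * (μ c (X i) * φ X) =
      μ (t i) x * ((∏ j ∈ univ.erase i, μ (t j) (X j)) * (μ c (X i) * φ X)) := by
    intro x
    rw [W_update_row]
    ring
  simp only [e3]
  rw [← Finset.sum_mul, h1, one_mul]
  ring

/-- The expectation over the matrix, row `i` last. -/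
theorem sum_update {m n : ℕ} {μ : Bool → (Fin n → Bool) → ℝ} (h1 : ∀ b, ∑ x, μ b x = 1)
    (t : Fin m → Bool) (i : Fin m) (φ : Mat m n → ℝ) :
    ∑ X, W μ t X * φ X = ∑ X, W μ t X * ∑ x, μ (t i) x * φ (Function.update X i x) := by
  have h := sum_update' h1 t i (t i) φ
  rwa [Function.update_eq_self] at h

/-- Changing the type of row `i`. -/
theorem switch {m n w : ℕ} {τ : ℝ} (hτ : 0 ≤ τ) {g : (Fin n → Bool) → Bool}
    {μ : Bool → (Fin n → Bool) → ℝ} (hH : Hard m w τ g μ)
    {U : Finset (Fin m) → Finset (Mat m n)} (hU : IsFam w U) (I : Finset (Fin m))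
    (t : Fin m → Bool) (i : Fin m) :
    pr μ t (U I) ≤ (1 + 1 / (8 * (m : ℝ))) * pr μ (Function.update t i (!(t i))) (U I) +
      τ * pr μ t (U (I.erase i)) := by
  classical
  have hpr : ∀ (s : Fin m → Bool) (S : Finset (Mat m n)),
      pr μ s S = ∑ X, W μ s X * (if X ∈ S then (1 : ℝ) else 0) := by
    intro s S
    rw [pr]
    simp only [mul_ite, mul_one, mul_zero]
    rw [Finset.sum_ite_mem, Finset.univ_inter]
  rw [hpr, hpr, hpr, sum_update hH.sum, sum_update' hH.sum, Finset.mul_sum, Finset.mul_sum,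
    ← Finset.sum_add_distrib]
  refine Finset.sum_le_sum fun X _ => ?_
  have hW : 0 ≤ W μ t X := W_nonneg hH.nonneg t X
  have key : ∑ x, μ (t i) x * (if Function.update X i x ∈ U I then (1 : ℝ) else 0) ≤
      (1 + 1 / (8 * (m : ℝ))) *
        (∑ x, μ (!(t i)) x * (if Function.update X i x ∈ U I then (1 : ℝ) else 0)) +
      τ * (if X ∈ U (I.erase i) then (1 : ℝ) else 0) := by
    by_cases hX : X ∈ U (I.erase i)
    · rw [if_pos hX, mul_one]
      have h := hH.hard _ (hU.row I i X) (t i)
      have e : ∀ x, ind (decide (Function.update X i x ∈ U I)) =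
          if Function.update X i x ∈ U I then (1 : ℝ) else 0 := by
        intro x
        by_cases hx : Function.update X i x ∈ U I <;> simp [ind, hx]
      simp only [e] at h
      exact h
    · have h0 : ∀ x, Function.update X i x ∉ U I := by
        intro x hx
        exact hX (hU.loc (I.erase i) i X x (Finset.notMem_erase i I)
          (hU.anti (I.erase i) I (Finset.erase_subset i I) hx))
      simp [h0, hX]
  calc W μ t X * ∑ x, μ (t i) x * (if Function.update X i x ∈ U I then (1 : ℝ) else 0)
      ≤ W μ t X * ((1 + 1 / (8 * (m : ℝ))) *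
        (∑ x, μ (!(t i)) x * (if Function.update X i x ∈ U I then (1 : ℝ) else 0)) +
      τ * (if X ∈ U (I.erase i) then (1 : ℝ) else 0)) := mul_le_mul_of_nonneg_left key hW
    _ = _ := by ring

end Pool.Agent.H.MP_027d00_lc.SComp
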