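import Pool.Agent.H.MP_027d00_lc.strong.Main2

/-!
# The lower bound for the strong composition with a random inner function
-/

set_option autoImplicit false

open Finset

namespace Pool.Agent.H.MP_027d00_lc.SComp

open UComp

/-- `log (1 + x) ≤ x - x^2/2 + x^3/3`. -/
theorem log_cubic {x : ℝ} (hx : 0 ≤ x) : Real.log (1 + x) ≤ x - x ^ 2 / 2 + x ^ 3 / 3 := by
  have hmono : MonotoneOn (fun y : ℝ => y - y ^ 2 / 2 + y ^ 3 / 3 - Real.log (1 + y))
      (Set.Ici 0) := by
    apply monotoneOn_of_deriv_nonneg (convex_Ici 0)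
    · apply ContinuousOn.sub (by fun_prop)
      apply ContinuousOn.log (by fun_prop)
      intro y hy
      have : (0 : ℝ) ≤ y := hy
      positivity
    · intro y hy
      rw [interior_Ici] at hy
      have hy0 : (0 : ℝ) < y := hy
      have h1 : (1 : ℝ) + y ≠ 0 := by positivity
      apply DifferentiableAt.differentiableWithinAt
      fun_prop (disch := exact h1)
    · intro y hy
      rw [interior_Ici] at hy
      have hy0 : (0 : ℝ) < y := hy
      have h1 : (1 : ℝ) + y ≠ 0 := by positivity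
      have hd : HasDerivAt (fun y : ℝ => y - y ^ 2 / 2 + y ^ 3 / 3 - Real.log (1 + y))
          (1 - 2 * y / 2 + 3 * y ^ 2 / 3 - 1 / (1 + y)) y := by
        have a1 : HasDerivAt (fun y : ℝ => y) 1 y := hasDerivAt_id y
        have a2 : HasDerivAt (fun y : ℝ => y ^ 2 / 2) (2 * y / 2) y := by
          have := (hasDerivAt_pow 2 y).div_const 2
          simpa using this
        have a3 : HasDerivAt (fun y : ℝ => y ^ 3 / 3) (3 * y ^ 2 / 3) y := by
          have := (hasDerivAt_pow 3 y).div_const 3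
          simpa using this
        have a4 : HasDerivAt (fun y : ℝ => Real.log (1 + y)) (1 / (1 + y)) y := by
          have b1 : HasDerivAt (fun y : ℝ => 1 + y) 1 y := by
            simpa using (hasDerivAt_id y).const_add 1
          exact b1.log h1
        exact ((a1.sub a2).add a3).sub a4
      rw [hd.deriv]
      have e : 1 - 2 * y / 2 + 3 * y ^ 2 / 3 - 1 / (1 + y) = y ^ 3 / (1 + y) := by
        field_simp
        ring
      rw [e]
      positivity
  have h := hmono (Set.mem_Ici.2 le_rfl) (Set.mem_Ici.2 hx) hx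
  simp at h
  linarith

/-- The numerical inequality behind the constant `8`. -/
theorem num_ineq {l : ℝ} (hl : 0 < l) (hl1 : l ≤ 1) :
    32 / 31 * (3 / 2 * l ^ 2 + 3 * l) / 8 ≤ l - Real.logb 2 (1 + l / 3) := by
  have h2 : (0.6931 : ℝ) < Real.log 2 := by
    have := Real.log_two_gt_d9
    linarith
  have h3 := log_cubic (x := l / 3) (by positivity)
  have h4 : Real.logb 2 (1 + l / 3) ≤ (l / 3 - (l / 3) ^ 2 / 2 + (l / 3) ^ 3 / 3) / 0.6931 := by
    rw [Real.logb]
    have h5 : 0 ≤ l / 3 - (l / 3) ^ 2 / 2 + (l / 3) ^ 3 / 3 := by nlinarith [sq_nonneg l]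
    calc Real.log (1 + l / 3) / Real.log 2
        ≤ (l / 3 - (l / 3) ^ 2 / 2 + (l / 3) ^ 3 / 3) / Real.log 2 := by gcongr
      _ ≤ (l / 3 - (l / 3) ^ 2 / 2 + (l / 3) ^ 3 / 3) / 0.6931 := by gcongr
  have h6 : 0 ≤ l * (1 - l) := by nlinarith
  have h7 : 0 ≤ l * (1 - l) * (1 + l) := by nlinarith
  have h8 : (l / 3 - (l / 3) ^ 2 / 2 + (l / 3) ^ 3 / 3) / 0.6931 =
      (10000 / 20793) * l - (5000 / 62379) * l ^ 2 + (10000 / 561411) * l ^ 3 := by
    norm_num
    ring
  rw [h8] at h4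
  nlinarith

/-- The final computation. -/
theorem final_num {m : ℕ} (hm : 1 ≤ m) {l x : ℝ} (hl : 0 ≤ l)
    (hlm : l ≤ m + Real.logb 2 m) (hx : 0 ≤ x)
    (h : ∀ θ : ℝ, 0 < θ → θ ≤ 1 / 3 →
      l ≤ (1 + 16 / 31 + 32 / 31 / θ) * x + m * Real.logb 2 (1 + θ)) :
    l ^ 2 / (8 * m) ≤ x + Real.logb 2 m := by
  have hmR : (1 : ℝ) ≤ m := by exact_mod_cast hm
  have hm0 : (0 : ℝ) < m := by linarith
  have hlg0 : 0 ≤ Real.logb 2 m := Real.logb_nonneg (by norm_num) hmR
  have hlgm : Real.logb 2 m ≤ m := by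
    rw [Real.logb_le_iff_le_rpow (by norm_num) (by linarith), Real.rpow_natCast]
    exact_mod_cast (Nat.lt_two_pow_self).le
  -- the bound for `l ≤ m`
  have key : ∀ l' : ℝ, 0 < l' → l' ≤ m → l' ≤ l → l' ^ 2 / (8 * m) ≤ x := by
    intro l' h0 h1 h2
    set t : ℝ := l' / m with ht
    have ht0 : 0 < t := by positivity
    have ht1 : t ≤ 1 := by rw [ht, div_le_one hm0]; exact h1
    have hl' : l' = t * m := by rw [ht]; field_simp
    have h3 := h (t / 3) (by positivity) (by linarith)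
    have h4 := num_ineq ht0 ht1
    have h5 : (1 + 16 / 31 + 32 / 31 / (t / 3)) * x ≤ 32 / 31 * (3 / 2 + 3 / t) * x := by
      refine mul_le_mul_of_nonneg_right ?_ hx
      have e : (32 : ℝ) / 31 / (t / 3) = 32 / 31 * (3 / t) := by field_simp
      rw [e]
      linarith
    have h6 : t * m ≤ 32 / 31 * (3 / 2 + 3 / t) * x + m * Real.logb 2 (1 + t / 3) := by
      rw [← hl']
      linarith
    have h7 : (t - Real.logb 2 (1 + t / 3)) * m ≤ 32 / 31 * (3 / 2 + 3 / t) * x := by linarith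
    have h8 : 32 / 31 * (3 / 2 * t ^ 2 + 3 * t) / 8 * m ≤ 32 / 31 * (3 / 2 + 3 / t) * x :=
      (mul_le_mul_of_nonneg_right h4 hm0.le).trans h7
    have h9 : 32 / 31 * (3 / 2 * t ^ 2 + 3 * t) / 8 * m =
        32 / 31 * (3 / 2 + 3 / t) * (t ^ 2 * m / 8) := by field_simp
    rw [h9] at h8
    have h10 : (0 : ℝ) < 32 / 31 * (3 / 2 + 3 / t) := by positivity
    have h11 := le_of_mul_le_mul_left h8 h10
    refine le_trans (le_of_eq ?_) h11
    rw [hl']
    field_simp
  rcases eq_or_lt_of_le hl with h0 | h0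
  · rw [← h0]
    have : (0 : ℝ) ^ 2 / (8 * m) = 0 := by simp
    rw [this]
    linarith
  rcases le_total l m with hle | hle
  · have := key l h0 hle le_rfl
    linarith
  · have h1 := key m hm0 le_rfl hle
    have h2 : (m : ℝ) ^ 2 / (8 * m) = m / 8 := by field_simp
    rw [h2] at h1
    have h3 : l ^ 2 / (8 * m) ≤ (m + Real.logb 2 m) ^ 2 / (8 * m) := by gcongr
    refine h3.trans ?_
    rw [div_le_iff₀ (by positivity)]
    nlinarith

/-- The logarithm of the size bound. -/
theorem log_size {m n N L : ℕ} (hm : 1 ≤ m) (hn : 1 ≤ n) (hN : 1 ≤ N) {θ : ℝ} (hθ : 0 < θ)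
    (hθ1 : θ ≤ 1 / 2) (hLpos : 1 ≤ L)
    (hL : L ≤ N * (216 * m ^ 3 * (⌊SS m n (1 / (4 * N)) θ⌋₊ * m))) :
    Real.logb 2 L ≤ (1 + 16 / 31 + 32 / 31 / θ) *
        (Real.logb 2 N + (5 * (Real.logb 2 m + Real.logb 2 n) + (18 + 2 * Real.logb 2 momC))) +
      m * Real.logb 2 (1 + θ) := by
  have hmR : (1 : ℝ) ≤ m := by exact_mod_cast hm
  have hnR : (1 : ℝ) ≤ n := by exact_mod_cast hn
  have hNR : (1 : ℝ) ≤ N := by exact_mod_cast hN
  have hC := momC_pos
  have hC1 : 1 ≤ momC := by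
    unfold momC
    have : 1 ≤ Real.exp (2 ^ 32) := Real.one_le_exp (by positivity)
    linarith
  have lb : ∀ x : ℝ, 1 ≤ x → 0 ≤ Real.logb 2 x := fun x hx =>
    Real.logb_nonneg (by norm_num) hx
  have hlm := lb m hmR
  have hln := lb n hnR
  have hlN := lb N hNR
  have hlC := lb momC hC1
  have hlog2 : 0 < Real.log 2 := Real.log_pos (by norm_num)
  have hlog2' : Real.log 2 < 0.6931471808 := Real.log_two_lt_d9
  set r : ℝ := 1 / (4 * (N : ℝ)) with hr
  have hr0 : 0 < r := by positivity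
  have hrr0 := rr_pos hr0
  have hLR : (1 : ℝ) ≤ L := by exact_mod_cast hLpos
  -- the size as a real number
  have h1 : (L : ℝ) ≤ N * (216 * m ^ 3 * (SS m n r θ * m)) := by
    have h2 : (L : ℝ) ≤ N * (216 * m ^ 3 * ((⌊SS m n r θ⌋₊ : ℝ) * m)) := by exact_mod_cast hL
    have h3 : (⌊SS m n r θ⌋₊ : ℝ) ≤ SS m n r θ := by
      apply Nat.floor_le
      unfold SS
      positivity
    refine h2.trans ?_
    gcongr
  have hln1 : 1 + (m : ℝ) * (n + 1) * Real.log 2 ≤ 2 ^ 2 * m * n := by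
    have hmn : (1 : ℝ) ≤ m * n := one_le_mul_of_one_le_of_one_le hmR hnR
    have hmn1 : (m : ℝ) * (n + 1) ≤ 2 * (m * n) := by nlinarith
    have hl1 : Real.log 2 ≤ 1 := by linarith
    have h0 : 0 ≤ (m : ℝ) * (n + 1) := by positivity
    have := mul_le_mul_of_nonneg_left hl1 h0
    linarith
  have hpos1 : 0 < 1 + (m : ℝ) * (n + 1) * Real.log 2 := by positivity
  have h4 : (L : ℝ) ≤ N * (2 ^ 8 * m ^ 3 * ((2 ^ 2 / Real.sqrt (rr r) *
      ((1 + θ) ^ m / (rr r / 2 ^ 4) ^ (1 / θ) * (2 ^ 2 * m * n))) * m)) := by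
    refine h1.trans ?_
    unfold SS
    have h5 : (rr r / 2 ^ 4) ^ (1 / θ) ≤ (rr r / 12) ^ (1 / θ) :=
      Real.rpow_le_rpow (by positivity) (by
        apply div_le_div_of_nonneg_left hrr0.le (by norm_num) (by norm_num)) (by positivity)
    have h6 : 0 < (rr r / 2 ^ 4) ^ (1 / θ) := Real.rpow_pos_of_pos (by positivity) _
    have h7 : 0 < (rr r / 12) ^ (1 / θ) := Real.rpow_pos_of_pos (by positivity) _
    gcongr
    · norm_num
    · norm_num
  have h5 := Real.logb_le_logb_of_le (b := 2) (by norm_num) (by linarith) h4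
  have hsq : Real.logb 2 (Real.sqrt (rr r)) = 1 / 2 * Real.logb 2 (rr r) := by
    rw [Real.sqrt_eq_rpow, Real.logb_rpow_eq_mul_logb_of_pos hrr0]
  have hrrl : Real.logb 2 (rr r) = -(32 / 31 * (Real.logb 2 N + 2 + 2 * Real.logb 2 momC)) := by
    unfold rr
    rw [Real.logb_rpow_eq_mul_logb_of_pos (by positivity), Real.logb_div (by positivity)
      (by positivity), hr, Real.logb_pow, one_div, Real.logb_inv, Real.logb_mul (by norm_num)
      (by positivity)]
    have : Real.logb 2 4 = 2 := by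
      rw [show (4 : ℝ) = 2 ^ (2 : ℕ) by norm_num, Real.logb_pow, Real.logb_self_eq_one (by norm_num)]
      norm_num
    rw [this]
    push_cast
    ring
  have h6 : 0 < (rr r / 2 ^ 4) ^ (1 / θ) := Real.rpow_pos_of_pos (by positivity) _
  have h7 : 0 < Real.sqrt (rr r) := Real.sqrt_pos.2 hrr0
  have h8 : 0 < (1 + θ) ^ m := by positivity
  have hm0 : (m : ℝ) ≠ 0 := by positivity
  have hn0 : (n : ℝ) ≠ 0 := by positivity
  rw [Real.logb_mul (by positivity) (by positivity), Real.logb_mul (by positivity) (by positivity),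
    Real.logb_mul (by positivity) (by positivity), Real.logb_mul (by positivity) (by positivity),
    Real.logb_mul (by positivity) (by positivity), Real.logb_div (by positivity) (by positivity),
    Real.logb_mul (by positivity) (by positivity), Real.logb_div (by positivity) (by positivity),
    Real.logb_mul (by positivity) (by positivity), Real.logb_mul (by positivity) (by positivity),
    Real.logb_pow, Real.logb_pow, Real.logb_pow, Real.logb_pow,
    Real.logb_rpow_eq_mul_logb_of_pos (by positivity), Real.logb_div (by positivity)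
      (by positivity), Real.logb_pow, Real.logb_self_eq_one (by norm_num), hsq, hrrl] at h5
  push_cast at h5
  set k : ℝ := Real.logb 2 N with hk
  set M : ℝ := Real.logb 2 momC with hM
  have hθinv : 2 ≤ 1 / θ := by
    rw [le_div_iff₀ hθ]
    linarith
  have e1 : (32 : ℝ) / 31 / θ = 32 / 31 * (1 / θ) := by ring
  rw [e1]
  set T : ℝ := 1 / θ with hT
  have h9 : 0 ≤ T * (5 * (Real.logb 2 m + Real.logb 2 n)) := by positivity
  nlinarith

/-- **Strong composition with a random inner function.** -/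
theorem strong_composition2 : ∃ C : ℕ, 1 ≤ C ∧ ∀ m n : ℕ, 1 ≤ m → 1 ≤ n →
    ∃ Bad : Finset ((Fin n → Bool) → Bool),
      Bad.card * 2 ^ (2 ^ n / (C * m ^ C * n ^ C)) ≤ 2 ^ 2 ^ n ∧
      ∀ g : (Fin n → Bool) → Bool, g ∉ Bad →
        ∀ f : (Fin m → Bool) → Bool, (∃ a b, f a ≠ f b) →
          ∀ P : Prot (Mat m n) (Mat m n) (Fin m × Fin n), StrongSolves f g P →
            (n : ℝ) + Real.logb 2 (fsize f) ^ 2 / (8 * m) -
              C * (Real.logb 2 m + Real.logb 2 n + 1) ≤ Real.logb 2 P.leaves := by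
  classical
  obtain ⟨K, hK, hgood⟩ := goodJ_most
  have hC := momC_pos
  have hC1 : 1 ≤ momC := by
    unfold momC
    have : 1 ≤ Real.exp (2 ^ 32) := Real.one_le_exp (by positivity)
    linarith
  have hlC : 0 ≤ Real.logb 2 momC := Real.logb_nonneg (by norm_num) hC1
  set C₂ : ℕ := ⌈2 * Real.logb 2 momC⌉₊ with hC₂
  have hC₂' : 2 * Real.logb 2 momC ≤ C₂ := Nat.le_ceil _
  refine ⟨K + C₂ + 50, by omega, fun m n hm hn => ?_⟩
  set C : ℕ := K + C₂ + 50 with hCdef
  have hmR : (1 : ℝ) ≤ m := by exact_mod_cast hm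
  have hnR : (1 : ℝ) ≤ n := by exact_mod_cast hn
  have hden : K * m ^ K * n ^ K ≤ C * m ^ C * n ^ C :=
    Nat.mul_le_mul (Nat.mul_le_mul (by omega) (Nat.pow_le_pow_right hm (by omega)))
      (Nat.pow_le_pow_right hn (by omega))
  have hden' : 20 * m ^ 3 * n ≤ C * m ^ C * n ^ C := by
    refine Nat.mul_le_mul (Nat.mul_le_mul (by omega) (Nat.pow_le_pow_right hm (by omega))) ?_
    calc n = n ^ 1 := (pow_one n).symm
      _ ≤ n ^ C := Nat.pow_le_pow_right hn (by omega)
  have hKpos : 0 < K * m ^ K * n ^ K := by positivity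
  by_cases hbig : C * m ^ C * n ^ C ≤ 2 ^ n
  swap
  · refine ⟨Finset.univ, ?_, fun g hg => absurd (Finset.mem_univ g) hg⟩
    rw [Nat.div_eq_of_lt (by omega)]
    simp
  obtain ⟨Bad, hBad, hG⟩ := hgood m n hm hn (hden.trans hbig)
  refine ⟨Bad, ?_, ?_⟩
  · refine le_trans (Nat.mul_le_mul_left _ (Nat.pow_le_pow_right (by norm_num) ?_)) hBad
    exact Nat.div_le_div_left hden hKpos
  intro g hg f hf P hP
  set w : ℕ := 2 ^ n / (20 * m ^ 3 * n) with hw
  have hD : 0 < 20 * m ^ 3 * n := by positivity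
  have hw1 : 1 ≤ w := (Nat.one_le_div_iff hD).2 (hden'.trans hbig)
  have hf' : ∃ a b, f a = true ∧ f b = false := by
    obtain ⟨a, b, hab⟩ := hf
    cases ha : f a <;> cases hb : f b
    · exact absurd (ha.trans hb.symm) hab
    · exact ⟨b, a, hb, ha⟩
    · exact ⟨a, b, ha, hb⟩
    · exact absurd (ha.trans hb.symm) hab
  obtain ⟨N, hN, hwN, hmain⟩ := main_explicit2 hm hw1 (hG g hg) hf' hP
  have hNR : (1 : ℝ) ≤ N := by exact_mod_cast hN
  have hlm : 0 ≤ Real.logb 2 m := Real.logb_nonneg (by norm_num) hmR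
  have hln : 0 ≤ Real.logb 2 n := Real.logb_nonneg (by norm_num) hnR
  set l : ℝ := Real.logb 2 (fsize f) with hl
  set k : ℝ := Real.logb 2 N with hk
  have hk0 : 0 ≤ k := Real.logb_nonneg (by norm_num) hNR
  have hl0 : 0 ≤ l := by
    rcases Nat.eq_zero_or_pos (fsize f) with h | h
    · rw [hl, h]; simp
    · exact Real.logb_nonneg (by norm_num) (by exact_mod_cast h)
  have hl2 : l ≤ m + Real.logb 2 m := by
    rcases Nat.eq_zero_or_pos (fsize f) with h | h
    · rw [hl, h]; simp; linarith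
    · have h1 : ((fsize f : ℕ) : ℝ) ≤ 2 ^ m * m := by exact_mod_cast fsize_le_all f
      have h2 := Real.logb_le_logb_of_le (b := 2) (by norm_num)
        (by exact_mod_cast h : (0 : ℝ) < (fsize f : ℕ)) h1
      rw [Real.logb_mul (by positivity) (by positivity), Real.logb_pow,
        Real.logb_self_eq_one (by norm_num)] at h2
      rw [hl]
      linarith
  set x : ℝ := k + (5 * (Real.logb 2 m + Real.logb 2 n) + (18 + 2 * Real.logb 2 momC)) with hx
  have hx0 : 0 ≤ x := by positivity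
  have hfin := final_num hm hl0 hl2 hx0 (by
    intro θ hθ hθ1
    rcases Nat.eq_zero_or_pos (fsize f) with h | h
    · have h1 : l = 0 := by rw [hl, h]; simp
      have h2 : 0 ≤ Real.logb 2 (1 + θ) := Real.logb_nonneg (by norm_num) (by linarith)
      rw [h1]
      positivity
    · exact log_size hm hn hN hθ (by linarith) h (hmain θ hθ (by linarith)))
  -- the number of leaves
  have hPpos : (0 : ℝ) < P.leaves := by exact_mod_cast P.leaves_pos
  have hwR : (2 : ℝ) ^ n / (40 * m ^ 3 * n) ≤ w := by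
    have h1 : 2 ^ n < (w + 1) * (20 * m ^ 3 * n) := by
      have := Nat.lt_div_mul_add (a := 2 ^ n) hD
      rw [← hw] at this
      nlinarith
    have h2 : ((2 : ℝ) ^ n) ≤ (w + 1) * (20 * m ^ 3 * n) := by exact_mod_cast h1.le
    have h3 : (1 : ℝ) ≤ w := by exact_mod_cast hw1
    rw [div_le_iff₀ (by positivity)]
    have h4 : (0 : ℝ) ≤ 20 * m ^ 3 * n := by positivity
    nlinarith
  have h5 : (2 : ℝ) ^ n / (40 * m ^ 3 * n) * N ≤ 6 * P.leaves := by
    calc (2 : ℝ) ^ n / (40 * m ^ 3 * n) * N ≤ w * N :=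
          mul_le_mul_of_nonneg_right hwR (by linarith)
      _ ≤ 6 * P.leaves := by exact_mod_cast hwN
  have h6 : (2 : ℝ) ^ n * N ≤ 2 ^ 8 * m ^ 3 * n * P.leaves := by
    have h7 : (2 : ℝ) ^ n * N = (2 : ℝ) ^ n / (40 * m ^ 3 * n) * N * (40 * m ^ 3 * n) := by
      field_simp
    rw [h7]
    calc (2 : ℝ) ^ n / (40 * m ^ 3 * n) * N * (40 * m ^ 3 * n)
        ≤ 6 * P.leaves * (40 * m ^ 3 * n) := mul_le_mul_of_nonneg_right h5 (by positivity)
      _ = 240 * (m ^ 3 * n * P.leaves) := by ring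
      _ ≤ 2 ^ 8 * (m ^ 3 * n * P.leaves) :=
          mul_le_mul_of_nonneg_right (by norm_num) (by positivity)
      _ = 2 ^ 8 * m ^ 3 * n * P.leaves := by ring
  have h8 := Real.logb_le_logb_of_le (b := 2) (by norm_num) (by positivity) h6
  rw [Real.logb_mul (by positivity) (by positivity), Real.logb_mul (by positivity) (by positivity),
    Real.logb_mul (by positivity) (by positivity), Real.logb_mul (by positivity) (by positivity),
    Real.logb_pow, Real.logb_pow, Real.logb_pow, Real.logb_self_eq_one (by norm_num)] at h8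
  push_cast at h8
  have hCR : (C : ℝ) = K + C₂ + 50 := by rw [hCdef]; push_cast; ring
  have hKR : (1 : ℝ) ≤ K := by exact_mod_cast hK
  have hC₂R : (0 : ℝ) ≤ C₂ := by positivity
  have h10 : 9 * Real.logb 2 m + 6 * Real.logb 2 n + 26 + C₂ ≤
      C * (Real.logb 2 m + Real.logb 2 n + 1) := by
    rw [hCR]
    nlinarith
  linarith

end Pool.Agent.H.MP_027d00_lc.SComp
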