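import Pool.Agent.H.MP_027d00_lc.strong.Race

/-!
# Amplification by a race: formulas
-/

set_option autoImplicit false

open Finset

namespace Pool.Agent.H.MP_027d00_lc.SComp

open UComp

/-- Proof: let `ε = 1 / (8 * m)`, `t = ⌈4 * (5 + m) / τ⌉₊`, so `t * τ ≤ 4 * (5 + m) + τ ≤ 25 * m`
and `exp (- t * τ / 4) ≤ exp (- 5) * exp (- m) ≤ (1 / 100) * (1 / (8 * m)) * ... `: in detail
`exp 5 ≥ 128` (`Real.exp_one_gt_d9`) and `exp m ≥ m`, so `exp (-(t * τ / 4)) ≤ 1 / (128 * m) =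
ε / 16` and `ε / 8 - ε / 16 ≥ ε / 36 = 1 / (288 * m)`. Let `c = c' * (1 - ε / 2)`; `c' ≤ 1` by
`h1` for some `x` with `g x = true` (`hg1`) and `Rnd2.mem`. Apply `Rnd.boost` to `Rnd2.race`. -/
theorem race_comp {n m s : ℕ} (hn : 1 ≤ n) (hm : 1 ≤ m) {P M : (Fin n → Bool) → ℝ}
    (h : Rnd2 s P M) (g : (Fin n → Bool) → Bool) (hg1 : ∃ x, g x = true) {c' τ : ℝ}
    (hc' : 0 ≤ c') (hτ : 0 < τ) (hτ1 : τ ≤ 1)
    (h1 : ∀ x, g x = true → (1 + 1 / (8 * (m : ℝ))) * M x + c' + τ / 2 ≤ P x)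
    (h0 : ∀ x, g x = false → (1 + 1 / (8 * (m : ℝ))) * P x ≤ M x + c' - τ / 2) :
    ∃ t : ℕ, (t : ℝ) * τ ≤ 25 * m ∧ Comp (288 ^ 6 * 216 * (m ^ 6 * n ^ 3 * (t * s))) g := by
  have hmR : (1 : ℝ) ≤ m := by exact_mod_cast hm
  have hm0 : (0 : ℝ) < m := by linarith
  obtain ⟨x₀, hx₀⟩ := hg1
  have hmemx := h.mem x₀
  have hc'1 : c' ≤ 1 := by
    have h2 := h1 x₀ hx₀
    have h3 : 0 ≤ (1 + 1 / (8 * (m : ℝ))) * M x₀ := mul_nonneg (by positivity) hmemx.2.1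
    linarith [hmemx.2.1, hmemx.2.2]
  have hε : (0 : ℝ) < 1 / (8 * (m : ℝ)) := by positivity
  have hε1 : 1 / (8 * (m : ℝ)) ≤ 1 / 2 := by
    apply one_div_le_one_div_of_le (by norm_num)
    linarith
  have hc0 : 0 ≤ c' * (1 - 1 / (8 * (m : ℝ)) / 2) := mul_nonneg hc' (by linarith)
  have hc1 : c' * (1 - 1 / (8 * (m : ℝ)) / 2) ≤ 1 := by
    have : c' * (1 - 1 / (8 * (m : ℝ)) / 2) ≤ c' * 1 :=
      mul_le_mul_of_nonneg_left (by linarith) hc'
    linarith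
  have hq0 : 0 ≤ 4 * (5 + (m : ℝ)) / τ := by positivity
  refine ⟨⌈4 * (5 + (m : ℝ)) / τ⌉₊, ?_, ?_⟩
  · have h2 : (⌈4 * (5 + (m : ℝ)) / τ⌉₊ : ℝ) < 4 * (5 + (m : ℝ)) / τ + 1 := Nat.ceil_lt_add_one hq0
    have h3 : (⌈4 * (5 + (m : ℝ)) / τ⌉₊ : ℝ) * τ ≤ (4 * (5 + (m : ℝ)) / τ + 1) * τ :=
      mul_le_mul_of_nonneg_right h2.le hτ.le
    have h4 : (4 * (5 + (m : ℝ)) / τ + 1) * τ = 4 * (5 + (m : ℝ)) + τ := by field_simp
    rw [h4] at h3
    linarith
  · have h2 : 4 * (5 + (m : ℝ)) ≤ (⌈4 * (5 + (m : ℝ)) / τ⌉₊ : ℝ) * τ := by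
      have h3 := mul_le_mul_of_nonneg_right (Nat.le_ceil (4 * (5 + (m : ℝ)) / τ)) hτ.le
      have h4 : 4 * (5 + (m : ℝ)) / τ * τ = 4 * (5 + (m : ℝ)) := by field_simp
      rwa [h4] at h3
    have h5 : Real.exp (-((⌈4 * (5 + (m : ℝ)) / τ⌉₊ : ℝ) * τ / 4)) ≤ 1 / (128 * (m : ℝ)) := by
      have e1 : Real.exp (-((⌈4 * (5 + (m : ℝ)) / τ⌉₊ : ℝ) * τ / 4)) ≤ Real.exp (-(5 + (m : ℝ))) :=
        Real.exp_le_exp.2 (by linarith)
      refine e1.trans ?_
      rw [Real.exp_neg, ← one_div]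
      apply one_div_le_one_div_of_le (by positivity)
      rw [Real.exp_add]
      have e2 : (128 : ℝ) ≤ Real.exp 5 := by
        have e3 : Real.exp 5 = Real.exp 1 ^ 5 := by
          rw [← Real.exp_nat_mul]
          norm_num
        rw [e3]
        have e4 := Real.exp_one_gt_d9
        calc (128 : ℝ) ≤ (2.7182818283 : ℝ) ^ 5 := by norm_num
          _ ≤ Real.exp 1 ^ 5 := pow_le_pow_left₀ (by norm_num) e4.le 5
      have e5 : (m : ℝ) ≤ Real.exp m := by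
        have := Real.add_one_le_exp (m : ℝ)
        linarith
      exact mul_le_mul e2 e5 hm0.le (by positivity)
    refine Rnd.boost hn hm (h.race hc0 hc1 _) g ?_ ?_
    · intro x hx
      have hx' := h.mem x
      have := raceV_ge (t := ⌈4 * (5 + (m : ℝ)) / τ⌉₊) hx'.2.1 hx'.2.2 hc' hε hε1 hτ rfl hc1
        (h1 x hx)
      have e6 : 1 / (8 * (m : ℝ)) / 8 = 2 * (1 / (128 * (m : ℝ))) := by field_simp; norm_num
      have e7 : 1 / (288 * (m : ℝ)) ≤ 1 / (128 * (m : ℝ)) := by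
        apply one_div_le_one_div_of_le (by positivity)
        linarith
      rw [e6] at this
      linarith
    · intro x hx
      have hx' := h.mem x
      have := raceV_le (t := ⌈4 * (5 + (m : ℝ)) / τ⌉₊) hx'.1 hx'.2.1 hx'.2.2 hc' hε hε1 hτ rfl hc1
        (h0 x hx)
      have e6 : 1 / (8 * (m : ℝ)) / 18 = 2 * (1 / (288 * (m : ℝ))) := by field_simp; norm_num
      have e7 : 0 < 1 / (288 * (m : ℝ)) := by positivity
      rw [e6] at this
      linarith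

/-- Proof: let `u x = P x - (1 + ε) * M x` and `v y = (1 + ε) * P y - M y` with `ε = 1 / (8 * m)`;
by `hA` `v y + τ ≤ u x` if `g x = true`, `g y = false`. Let `c'` be the average of
`min {u x : g x = true}` and `max {v y : g y = false}`. If `c' ≥ 0` use `race_comp` for `g`, `P`,
`M`, `c'`. If `c' < 0` use `race_comp` for `fun x => !(g x)`, `M`, `P` (`Rnd2.swap`), `-c'`, and
`Comp.not`. -/
theorem race_comp2 {n m s : ℕ} (hm : 1 ≤ m) {P M : (Fin n → Bool) → ℝ}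
    (h : Rnd2 s P M) (g : (Fin n → Bool) → Bool) (hg1 : ∃ x, g x = true) (hg0 : ∃ x, g x = false)
    {τ : ℝ} (hτ : 0 < τ) (hτ1 : τ ≤ 1)
    (hA : ∀ x y, g x = true → g y = false →
      (1 + 1 / (8 * (m : ℝ))) * P y - M y + τ ≤ P x - (1 + 1 / (8 * (m : ℝ))) * M x) :
    ∃ t : ℕ, (t : ℝ) * τ ≤ 25 * m ∧ Comp (288 ^ 6 * 216 * (m ^ 6 * n ^ 3 * (t * s))) g := by
  have hmR : (1 : ℝ) ≤ m := by exact_mod_cast hm
  have hm0 : (0 : ℝ) < m := by linarith
  have hn : 1 ≤ n := by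
    rcases Nat.eq_zero_or_pos n with h | h
    · exfalso
      subst h
      obtain ⟨x, hx⟩ := hg1
      obtain ⟨y, hy⟩ := hg0
      have : x = y := funext fun i => i.elim0
      rw [this, hy] at hx
      exact absurd hx (by simp)
    · exact h
  obtain ⟨x₁, hx₁, hmin⟩ := Finset.exists_min_image
    (Finset.univ.filter (fun x : Fin n → Bool => g x = true))
    (fun x => P x - (1 + 1 / (8 * (m : ℝ))) * M x)
    (by obtain ⟨x, hx⟩ := hg1; exact ⟨x, by simp [hx]⟩)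
  obtain ⟨x₀, hx₀, hmax⟩ := Finset.exists_max_image
    (Finset.univ.filter (fun x : Fin n → Bool => g x = false))
    (fun x => (1 + 1 / (8 * (m : ℝ))) * P x - M x)
    (by obtain ⟨x, hx⟩ := hg0; exact ⟨x, by simp [hx]⟩)
  simp only [Finset.mem_filter, Finset.mem_univ, true_and] at hx₁ hx₀ hmin hmax
  have hgap := hA x₁ x₀ hx₁ hx₀
  set u : ℝ := P x₁ - (1 + 1 / (8 * (m : ℝ))) * M x₁ with hu
  set v : ℝ := (1 + 1 / (8 * (m : ℝ))) * P x₀ - M x₀ with hv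
  rcases le_or_gt 0 ((u + v) / 2) with hc | hc
  · refine race_comp hn hm h g hg1 hc hτ hτ1 ?_ ?_
    · intro x hx
      have := hmin x hx
      linarith
    · intro x hx
      have := hmax x hx
      linarith
  · have hc' : 0 ≤ -((u + v) / 2) := by linarith
    obtain ⟨t, ht, hcomp⟩ := race_comp hn hm h.swap (fun x => !(g x))
      (by obtain ⟨y, hy⟩ := hg0; exact ⟨y, by simp [hy]⟩) hc' hτ hτ1
      (by
        intro x hx
        have hx' : g x = false := by simpa using hx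
        have := hmax x hx'
        linarith)
      (by
        intro x hx
        have hx' : g x = true := by simpa using hx
        have := hmin x hx'
        linarith)
    refine ⟨t, ht, ?_⟩
    have h2 := hcomp.not
    simpa using h2

end Pool.Agent.H.MP_027d00_lc.SComp
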