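import Pool.Agent.H.MP_027d00_lc.ucomp.Hard
import Pool.Agent.H.MP_027d00_lc.strong.RaceC
import Pool.Agent.H.MP_027d00_lc.strong.HardDef

/-!
# Two-sided hard distributions from the minimax theorem
-/

set_option autoImplicit false

open Finset

namespace Pool.Agent.H.MP_027d00_lc.SComp

open UComp

/-- Proof: as `UComp.exists_hard`, with the game `matrix_game` whose first player has the pairs
`(x, y)` with `g x = true` and `g y = false`, and whose second player has the pairs `(h, c)` of a
function `h` with `Comp s h` and a sign `c`; the payoff is `ind (h x) - (1 + ε) * ind (h y)` if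
`c = true`, and `ind (h y) - (1 + ε) * ind (h x)` if `c = false`. In the first case of
`matrix_game` the second player has a mixed strategy `q` that gives at least `τ` against each pair,
which contradicts `hL` by `race_comp2` with `P x = ∑ q (h, c) * (if c then ind (h x) else 0)` and
`M` likewise. In the second case the mixed strategy of the first player gives the distributions as
in `UComp.exists_hard`, and the bound for `(h, true)` is the claim for `c = true`, the bound for
`(h, false)` is the claim for `c = false`. -/
theorem exists_hard2 {n m s : ℕ} (hm : 1 ≤ m) (g : (Fin n → Bool) → Bool)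
    (hg1 : ∃ x, g x = true) (hg0 : ∃ x, g x = false) {τ : ℝ} (hτ : 0 < τ) (hτ1 : τ ≤ 1)
    (hL : ∀ t : ℕ, (t : ℝ) * τ ≤ 25 * m →
      ¬ Comp (288 ^ 6 * 216 * (m ^ 6 * n ^ 3 * (t * s))) g) :
    ∃ μ : Bool → (Fin n → Bool) → ℝ, Hard m s τ g μ := by
  classical
  have : Nonempty ({x // g x = true} × {y // g y = false}) := by
    obtain ⟨x, hx⟩ := hg1
    obtain ⟨y, hy⟩ := hg0
    exact ⟨(⟨x, hx⟩, ⟨y, hy⟩)⟩
  have : Nonempty ({h : (Fin n → Bool) → Bool // Comp s h} × Bool) :=
    ⟨(⟨fun _ => false, Comp.const s false⟩, true)⟩
  have : Fintype {h : (Fin n → Bool) → Bool // Comp s h} := Fintype.ofFinite _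
  rcases matrix_game (fun (i : {x // g x = true} × {y // g y = false})
    (h : {h : (Fin n → Bool) → Bool // Comp s h} × Bool) =>
      if h.2 = true then ind (h.1.1 i.1.1) - (1 + 1 / (8 * (m : ℝ))) * ind (h.1.1 i.2.1)
      else ind (h.1.1 i.2.1) - (1 + 1 / (8 * (m : ℝ))) * ind (h.1.1 i.1.1)) τ with
    ⟨q, hq0, hq1, hq⟩ | ⟨p, hp0, hp1, hp⟩
  · exfalso
    have hR : Rnd2 s
        (fun x => ∑ h : {h : (Fin n → Bool) → Bool // Comp s h} × Bool,
          q h * (if h.2 = true then ind (h.1.1 x) else 0))
        (fun x => ∑ h : {h : (Fin n → Bool) → Bool // Comp s h} × Bool,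
          q h * (if h.2 = true then 0 else ind (h.1.1 x))) :=
      ⟨{h : (Fin n → Bool) → Bool // Comp s h} × Bool, inferInstance, q, fun h => h.1.1,
        fun h => h.2, hq0, hq1, fun h => h.1.2, fun x => rfl, fun x => rfl⟩
    obtain ⟨t, ht, hc⟩ := race_comp2 hm hR g hg1 hg0 hτ hτ1 (by
      intro x y hx hy
      have h1 := hq (⟨x, hx⟩, ⟨y, hy⟩)
      simp only at h1
      have h2 : ∑ h : {h : (Fin n → Bool) → Bool // Comp s h} × Bool,
          q h * (if h.2 = true then ind (h.1.1 x) - (1 + 1 / (8 * (m : ℝ))) * ind (h.1.1 y)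
            else ind (h.1.1 y) - (1 + 1 / (8 * (m : ℝ))) * ind (h.1.1 x)) =
          (∑ h : {h : (Fin n → Bool) → Bool // Comp s h} × Bool,
            q h * (if h.2 = true then ind (h.1.1 x) else 0)) -
          (1 + 1 / (8 * (m : ℝ))) * (∑ h : {h : (Fin n → Bool) → Bool // Comp s h} × Bool,
            q h * (if h.2 = true then ind (h.1.1 y) else 0)) +
          (∑ h : {h : (Fin n → Bool) → Bool // Comp s h} × Bool,
            q h * (if h.2 = true then 0 else ind (h.1.1 y))) -
          (1 + 1 / (8 * (m : ℝ))) * (∑ h : {h : (Fin n → Bool) → Bool // Comp s h} × Bool,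
            q h * (if h.2 = true then 0 else ind (h.1.1 x))) := by
        rw [Finset.mul_sum, Finset.mul_sum, ← Finset.sum_sub_distrib, ← Finset.sum_add_distrib,
          ← Finset.sum_sub_distrib]
        refine Finset.sum_congr rfl fun h _ => ?_
        by_cases hc : h.2 = true
        · simp only [hc, if_true]
          ring
        · simp only [hc, if_false, Bool.false_eq_true]
          ring
      rw [h2] at h1
      linarith)
    exact hL t ht hc
  · set pt : Bool → ({x // g x = true} × {y // g y = false}) → (Fin n → Bool) :=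
      fun b i => if b = true then i.1.1 else i.2.1 with hpt
    have hpt' : ∀ b i, g (pt b i) = b := by
      intro b i
      cases b with
      | true => simpa [hpt] using i.1.2
      | false => simpa [hpt] using i.2.2
    set μ : Bool → (Fin n → Bool) → ℝ := fun b x => ∑ i, if pt b i = x then p i else 0 with hμ
    have hE : ∀ (b : Bool) (G : (Fin n → Bool) → ℝ), ∑ x, μ b x * G x = ∑ i, p i * G (pt b i) := by
      intro b G
      simp only [hμ, Finset.sum_mul]
      rw [Finset.sum_comm]
      refine Finset.sum_congr rfl fun i _ => ?_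
      simp only [ite_mul, zero_mul, Finset.sum_ite_eq, Finset.mem_univ, if_true]
    refine ⟨μ, ?_, ?_, ?_, ?_⟩
    · intro b x
      exact Finset.sum_nonneg fun i _ => by split_ifs; exacts [hp0 i, le_rfl]
    · intro b
      have := hE b (fun _ => 1)
      simpa [hp1] using this
    · intro b x hx
      obtain ⟨i, _, hi⟩ := Finset.exists_ne_zero_of_sum_ne_zero hx
      have : pt b i = x := by
        by_contra hne
        exact hi (by simp [hne])
      rw [← this]
      exact hpt' b i
    · intro h hh c
      rw [hE, hE]
      have h1 := hp (⟨h, hh⟩, c)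
      cases c with
      | true =>
        simp only [if_true] at h1
        have h2 : ∑ i, p i * (ind (h i.1.1) - (1 + 1 / (8 * (m : ℝ))) * ind (h i.2.1)) =
            ∑ i, p i * ind (h (pt true i)) - (1 + 1 / (8 * (m : ℝ))) *
              ∑ i, p i * ind (h (pt (!true) i)) := by
          rw [Finset.mul_sum, ← Finset.sum_sub_distrib]
          refine Finset.sum_congr rfl fun i _ => by simp only [hpt]; simp; ring
        rw [h2] at h1
        linarith
      | false =>
        simp only [Bool.false_eq_true, if_false] at h1
        have h2 : ∑ i, p i * (ind (h i.2.1) - (1 + 1 / (8 * (m : ℝ))) * ind (h i.1.1)) =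
            ∑ i, p i * ind (h (pt false i)) - (1 + 1 / (8 * (m : ℝ))) *
              ∑ i, p i * ind (h (pt (!false) i)) := by
          rw [Finset.mul_sum, ← Finset.sum_sub_distrib]
          refine Finset.sum_congr rfl fun i _ => by simp only [hpt]; simp; ring
        rw [h2] at h1
        linarith

end Pool.Agent.H.MP_027d00_lc.SComp
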