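import Pool.Agent.H.MP_027d00_lc.strong.TTwDef

/-!
# The set of marked coordinates
-/

set_option autoImplicit false

open Finset

namespace Pool.Agent.H.MP_027d00_lc.SComp

variable {Q : Type} [Fintype Q] [DecidableEq Q]

/-- The weight of the set of marked coordinates. -/
noncomputable def wtc (θ : ℝ) {m : ℕ} (c : Fin m → Bool) : ℝ :=
  ∏ i, (if c i = true then θ else 1 - θ)

/-- Proof: `∑ κ = ∑ c, ∑ y` over `c i = (κ i).1`, `y i = (κ i).2`
(`Equiv.arrowProdEquivProdArrow`), where `wtw θ ν κ = wtc θ c * ∏ i, ν (y i)`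
(`Finset.prod_mul_distrib`); for each `c` and `y` the indicator of `mix κ Z ∈ v` is at most the
indicator of the event on the right (take `Y = mix κ Z`), and `∑ y, ∏ i, ν (y i) = 1`
(`Finset.prod_univ_sum`). -/
theorem TTw_le {θ : ℝ} (hθ : 0 < θ) (hθ1 : θ ≤ 1 / 2) {ν : Q → ℝ} (hν : ∀ x, 0 ≤ ν x)
    (hν1 : ∑ x, ν x = 1) {m : ℕ} (v : Finset (Fin m → Q)) (Z : Fin m → Q)
    [∀ c : Fin m → Bool, Decidable (∃ Y ∈ v, ∀ i, c i = false → Y i = Z i)] :
    TTw θ ν v Z ≤ ∑ c : Fin m → Bool,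
      wtc θ c * (if (∃ Y ∈ v, ∀ i, c i = false → Y i = Z i) then 1 else 0) := by
  classical
  have hprod : ∑ y : Fin m → Q, ∏ i, ν (y i) = 1 := by
    have h2 := Finset.prod_univ_sum (fun _ : Fin m => (univ : Finset Q)) (fun _ k => ν k)
    rw [Fintype.piFinset_univ] at h2
    rw [← h2, hν1, Finset.prod_const_one]
  have hwtc : ∀ c : Fin m → Bool, 0 ≤ wtc θ c := by
    intro c
    refine Finset.prod_nonneg fun i _ => ?_
    split_ifs
    · exact hθ.le
    · linarith
  have e1 : TTw θ ν v Z = ∑ p : (Fin m → Bool) × (Fin m → Q),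
      wtc θ p.1 * (∏ i, ν (p.2 i)) *
        (if mix (fun i => (p.1 i, p.2 i)) Z ∈ v then 1 else 0) := by
    rw [TTw]
    refine Fintype.sum_equiv (Equiv.arrowProdEquivProdArrow (Fin m) (fun _ => Bool) (fun _ => Q))
      _ _ fun κ => ?_
    have h1 : wtw θ ν κ = wtc θ (fun i => (κ i).1) * ∏ i, ν ((κ i).2) := by
      rw [wtw, wtc, ← Finset.prod_mul_distrib]
    rw [h1]
    rfl
  rw [e1, Fintype.sum_prod_type]
  refine Finset.sum_le_sum fun c _ => ?_
  have h3 : ∀ y : Fin m → Q, wtc θ c * (∏ i, ν (y i)) *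
      (if mix (fun i => (c i, y i)) Z ∈ v then 1 else 0) ≤
      (∏ i, ν (y i)) *
        (wtc θ c * (if (∃ Y ∈ v, ∀ i, c i = false → Y i = Z i) then 1 else 0)) := by
    intro y
    have h4 : (if mix (fun i => (c i, y i)) Z ∈ v then (1 : ℝ) else 0) ≤
        (if (∃ Y ∈ v, ∀ i, c i = false → Y i = Z i) then 1 else 0) := by
      by_cases h5 : mix (fun i => (c i, y i)) Z ∈ v
      · have h6 : ∃ Y ∈ v, ∀ i, c i = false → Y i = Z i :=
          ⟨_, h5, fun i hi => by simp [mix, hi]⟩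
        rw [if_pos h5, if_pos h6]
      · rw [if_neg h5]
        split_ifs <;> norm_num
    have h7 : 0 ≤ wtc θ c * ∏ i, ν (y i) :=
      mul_nonneg (hwtc c) (Finset.prod_nonneg fun i _ => hν _)
    calc wtc θ c * (∏ i, ν (y i)) * (if mix (fun i => (c i, y i)) Z ∈ v then 1 else 0)
        ≤ wtc θ c * (∏ i, ν (y i)) *
          (if (∃ Y ∈ v, ∀ i, c i = false → Y i = Z i) then 1 else 0) :=
          mul_le_mul_of_nonneg_left h4 h7
      _ = _ := by ring
  refine (Finset.sum_le_sum fun y _ => h3 y).trans (le_of_eq ?_)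
  rw [← Finset.sum_mul, hprod, one_mul]

/-- Proof: `∏ i, ((1 - θ) + 2 θ)` (`Finset.prod_univ_sum`), as in `wt_cost`. -/
theorem wtc_cost {θ : ℝ} (m : ℕ) :
    ∑ c : Fin m → Bool, wtc θ c * 2 ^ (univ.filter (fun i => c i = true)).card =
      (1 + θ) ^ m := by
  have h1 : ∀ c : Fin m → Bool,
      wtc θ c * 2 ^ (univ.filter (fun i => c i = true)).card =
      ∏ i, ((if c i = true then θ else 1 - θ) * (if c i = true then 2 else 1)) := by
    intro c
    have h0 : (2 : ℝ) ^ (univ.filter (fun i => c i = true)).card =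
        ∏ i, (if c i = true then (2 : ℝ) else 1) := by
      rw [Finset.prod_ite, Finset.prod_const, Finset.prod_const_one, mul_one]
    rw [Finset.prod_mul_distrib, h0]
    rfl
  simp only [h1]
  have h2 := Finset.prod_univ_sum (fun _ : Fin m => (univ : Finset Bool))
    (fun _ k => (if k = true then θ else 1 - θ) * (if k = true then (2 : ℝ) else 1))
  rw [Fintype.piFinset_univ] at h2
  rw [← h2, Finset.prod_const, Finset.card_univ, Fintype.card_fin]
  congr 1
  rw [Fintype.sum_bool]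
  simp only [if_true, Bool.false_eq_true, if_false]
  ring

/-- The total measure. Proof: `Finset.prod_univ_sum`, as `∑ x, ν x = 1`. -/
theorem mea_univ {ν : Q → ℝ} (hν1 : ∑ x, ν x = 1) (m : ℕ) :
    mea ν (univ : Finset (Fin m → Q)) = 1 := by
  have h2 := Finset.prod_univ_sum (fun _ : Fin m => (univ : Finset Q)) (fun _ k => ν k)
  rw [Fintype.piFinset_univ] at h2
  rw [mea, ← h2, hν1, Finset.prod_const_one]

theorem mea_mono {ν : Q → ℝ} (hν : ∀ x, 0 ≤ ν x) {m : ℕ} {v v' : Finset (Fin m → Q)}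
    (h : v ⊆ v') : mea ν v ≤ mea ν v' :=
  Finset.sum_le_sum_of_subset_of_nonneg h fun _ _ _ => Finset.prod_nonneg fun _ _ => hν _

end Pool.Agent.H.MP_027d00_lc.SComp
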