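import Pool.Agent.H.MP_027d00_lc.strong.OneDim

/-!
# The one-dimensional inequality and the reverse Minkowski inequality with weights
-/

set_option autoImplicit false

open Finset

namespace Pool.Agent.H.MP_027d00_lc.SComp

variable {Q : Type} [Fintype Q]

/-- The averaged one-dimensional inequality, for a distribution.

Proof: as `one_dim`: let `H = ∑ z, ν z * h z > 0` and `y x = h x / H`. By `star` for each `x`
`(θ + (1 - θ) y x)^(-θ) + (y x)^θ ≤ 2 + θ^2 * (y x - 1)`; the average with the weights `ν x` is at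
most `2`, so the product of the two averages is at most `1`; and
`(θ + (1 - θ) y x)^(-θ) = H^θ * (θ H + (1 - θ) h x)^(-θ)`, `(y x)^θ = (h x)^θ * H^(-θ)`. -/
theorem one_dim_w {θ : ℝ} (hθ : 0 < θ) (hθ1 : θ ≤ 1 / 2) {ν : Q → ℝ} (hν : ∀ x, 0 ≤ ν x)
    (hν1 : ∑ x, ν x = 1) (h : Q → ℝ) (h0 : ∀ x, 0 ≤ h x) (hpos : ∃ x, 0 < ν x * h x) :
    (∑ x, ν x * (θ * (∑ z, ν z * h z) + (1 - θ) * h x) ^ (-θ)) * ∑ x, ν x * (h x) ^ θ ≤ 1 := by
  obtain ⟨x0, hx0⟩ := hpos
  have hsum : 0 < ∑ z, ν z * h z :=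
    Finset.sum_pos' (fun x _ => mul_nonneg (hν x) (h0 x)) ⟨x0, Finset.mem_univ _, hx0⟩
  set H : ℝ := ∑ z, ν z * h z with hH
  have hH0 : 0 < H := hsum
  set A : ℝ := ∑ x, ν x * (θ + (1 - θ) * (h x / H)) ^ (-θ) with hA
  set B : ℝ := ∑ x, ν x * (h x / H) ^ θ with hB
  have hy0 : ∀ x, 0 ≤ h x / H := fun x => div_nonneg (h0 x) hH0.le
  have hbase : ∀ x, 0 ≤ θ + (1 - θ) * (h x / H) := fun x => by
    have := hy0 x
    have h1 : 0 ≤ 1 - θ := by linarith
    positivity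
  have hA0 : 0 ≤ A :=
    Finset.sum_nonneg fun x _ => mul_nonneg (hν x) (Real.rpow_nonneg (hbase x) _)
  have hB0 : 0 ≤ B :=
    Finset.sum_nonneg fun x _ => mul_nonneg (hν x) (Real.rpow_nonneg (hy0 x) _)
  have hAB : A + B ≤ 2 := by
    have h1 : A + B = ∑ x, ν x * ((θ + (1 - θ) * (h x / H)) ^ (-θ) + (h x / H) ^ θ) := by
      rw [hA, hB, ← Finset.sum_add_distrib]
      refine Finset.sum_congr rfl fun x _ => ?_
      ring
    have h2 : ∑ x, ν x * ((θ + (1 - θ) * (h x / H)) ^ (-θ) + (h x / H) ^ θ) ≤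
        ∑ x, ν x * (2 + θ ^ 2 * (h x / H - 1)) :=
      Finset.sum_le_sum fun x _ => mul_le_mul_of_nonneg_left (star hθ hθ1 (hy0 x)) (hν x)
    have h3 : ∑ x, ν x * (2 + θ ^ 2 * (h x / H - 1)) = 2 := by
      have e1 : ∀ x, ν x * (2 + θ ^ 2 * (h x / H - 1)) =
          (2 - θ ^ 2) * ν x + θ ^ 2 / H * (ν x * h x) := by
        intro x
        field_simp
        ring
      simp only [e1]
      rw [Finset.sum_add_distrib, ← Finset.mul_sum, ← Finset.mul_sum, hν1, ← hH]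
      field_simp
      ring
    rw [h1]; linarith
  have hAB2 : A * B ≤ 1 := by nlinarith [sq_nonneg (A - B)]
  have e1 : ∑ x, ν x * (θ * H + (1 - θ) * h x) ^ (-θ) = H ^ (-θ) * A := by
    rw [hA, Finset.mul_sum Finset.univ _ (H ^ (-θ))]
    refine Finset.sum_congr rfl fun x _ => ?_
    have e : θ * H + (1 - θ) * h x = H * (θ + (1 - θ) * (h x / H)) := by
      field_simp
    rw [e, Real.mul_rpow hH0.le (hbase x)]
    ring
  have e2 : ∑ x, ν x * (h x) ^ θ = H ^ θ * B := by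
    rw [hB, Finset.mul_sum Finset.univ _ (H ^ θ)]
    refine Finset.sum_congr rfl fun x _ => ?_
    have e : h x = H * (h x / H) := by
      field_simp
    have e' : (h x) ^ θ = H ^ θ * (h x / H) ^ θ := by
      rw [← Real.mul_rpow hH0.le (hy0 x), ← e]
    rw [e']
    ring
  rw [e1, e2]
  have e3 : H ^ (-θ) * H ^ θ = 1 := by
    rw [← Real.rpow_add hH0]; simp
  calc H ^ (-θ) * A * (H ^ θ * B) = (H ^ (-θ) * H ^ θ) * (A * B) := by ring
    _ = A * B := by rw [e3, one_mul]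
    _ ≤ 1 := hAB2

/-- Superadditivity of the negative moments, with weights `P Z ≥ 0`.

Proof: as `rev_minkowski`. First replace `t j Z` by `0` if `h j = 0`: this only makes
`(∑ j, w j * t j Z) ^ (-θ)` larger, since the sum of the remaining terms is positive
(`Real.rpow_le_rpow_of_nonpos`). For each `Z`, by convexity
`(∑ j, w j * t j Z)^(-θ) ≤ s^(-θ) * ∑ j, (w j h j / s) * (t j Z / h j)^(-θ)` with
`s = ∑ j, w j * h j`; multiply with `P Z` and sum over `Z` with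
`∑ Z, P Z * (t j Z)^(-θ) ≤ (h j)^(-θ)`. -/
theorem rev_minkowski_w {J Ω : Type} [Fintype J] [Fintype Ω] {θ : ℝ} (hθ : 0 < θ)
    (P : Ω → ℝ) (hP : ∀ Z, 0 ≤ P Z)
    (w h : J → ℝ) (t : J → Ω → ℝ) (hw : ∀ j, 0 ≤ w j) (hh : ∀ j, 0 ≤ h j)
    (ht : ∀ j, 0 < h j → ∀ Z, 0 < t j Z) (ht0 : ∀ j Z, 0 ≤ t j Z)
    (hN : ∀ j, 0 < h j → ∑ Z, P Z * (t j Z) ^ (-θ) ≤ (h j) ^ (-θ))
    (hs : 0 < ∑ j, w j * h j) :
    ∑ Z, P Z * (∑ j, w j * t j Z) ^ (-θ) ≤ (∑ j, w j * h j) ^ (-θ) := by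
  classical
  set s : ℝ := ∑ j, w j * h j with hsdef
  set a : J → ℝ := fun j => w j * h j / s with ha
  set r : Ω → J → ℝ := fun Z j => if h j = 0 then 1 else t j Z / h j with hr
  have ha0 : ∀ j, 0 ≤ a j := fun j => div_nonneg (mul_nonneg (hw j) (hh j)) hs.le
  have ha1 : ∑ j, a j = 1 := by
    rw [ha, ← Finset.sum_div, ← hsdef, div_self hs.ne']
  have hr0 : ∀ Z j, 0 < r Z j := by
    intro Z j
    rw [hr]
    dsimp only
    split_ifs with hj
    · exact one_pos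
    · have hj' : 0 < h j := lt_of_le_of_ne (hh j) (Ne.symm hj)
      exact div_pos (ht j hj' Z) hj'
  have key : ∀ Z, s * ∑ j, a j * r Z j ≤ ∑ j, w j * t j Z := by
    intro Z
    rw [Finset.mul_sum]
    refine Finset.sum_le_sum fun j _ => ?_
    rw [ha, hr]
    dsimp only
    split_ifs with hj
    · rw [hj]
      simp only [mul_zero, zero_div, zero_mul]
      exact mul_nonneg (hw j) (ht0 j Z)
    · refine le_of_eq ?_
      field_simp
  have hspos : ∀ Z, 0 < ∑ j, a j * r Z j := by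
    intro Z
    have hne : ∃ j, 0 < a j := by
      by_contra hcon
      push Not at hcon
      have : ∑ j, a j = 0 := Finset.sum_eq_zero fun j _ => le_antisymm (hcon j) (ha0 j)
      rw [this] at ha1
      exact zero_ne_one ha1
    obtain ⟨j, hj⟩ := hne
    exact Finset.sum_pos' (fun i _ => mul_nonneg (ha0 i) (hr0 Z i).le)
      ⟨j, Finset.mem_univ _, mul_pos hj (hr0 Z j)⟩
  have step : ∀ Z, (∑ j, w j * t j Z) ^ (-θ) ≤ s ^ (-θ) * ∑ j, a j * (r Z j) ^ (-θ) := by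
    intro Z
    have h1 : (∑ j, w j * t j Z) ^ (-θ) ≤ (s * ∑ j, a j * r Z j) ^ (-θ) :=
      Real.rpow_le_rpow_of_nonpos (mul_pos hs (hspos Z)) (key Z) (by linarith)
    refine h1.trans ?_
    rw [Real.mul_rpow hs.le (hspos Z).le]
    exact mul_le_mul_of_nonneg_left (jensen_neg_rpow hθ a (r Z) ha0 ha1 (hr0 Z))
      (Real.rpow_nonneg hs.le _)
  have hcol : ∀ j, a j * ∑ Z, P Z * (r Z j) ^ (-θ) ≤ a j := by
    intro j
    by_cases hj : h j = 0
    · have : a j = 0 := by rw [ha]; simp [hj]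
      rw [this]; simp
    · have hj' : 0 < h j := lt_of_le_of_ne (hh j) (Ne.symm hj)
      have e1 : ∀ Z, P Z * (r Z j) ^ (-θ) = P Z * (t j Z) ^ (-θ) * (h j) ^ θ := by
        intro Z
        rw [hr]
        dsimp only
        rw [if_neg hj, Real.div_rpow (ht j hj' Z).le hj'.le, Real.rpow_neg hj'.le, div_inv_eq_mul,
          mul_assoc]
      simp only [e1]
      rw [← Finset.sum_mul]
      have e2 : (h j) ^ (-θ) * (h j) ^ θ = 1 := by
        rw [← Real.rpow_add hj']; simp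
      have e3 : (∑ Z, P Z * (t j Z) ^ (-θ)) * (h j) ^ θ ≤ 1 := by
        calc (∑ Z, P Z * (t j Z) ^ (-θ)) * (h j) ^ θ ≤ (h j) ^ (-θ) * (h j) ^ θ :=
              mul_le_mul_of_nonneg_right (hN j hj') (Real.rpow_nonneg hj'.le _)
          _ = 1 := e2
      calc a j * ((∑ Z, P Z * (t j Z) ^ (-θ)) * (h j) ^ θ) ≤ a j * 1 :=
            mul_le_mul_of_nonneg_left e3 (ha0 j)
        _ = a j := mul_one _
  calc ∑ Z, P Z * (∑ j, w j * t j Z) ^ (-θ)
      ≤ ∑ Z, P Z * (s ^ (-θ) * ∑ j, a j * (r Z j) ^ (-θ)) :=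
        Finset.sum_le_sum fun Z _ => mul_le_mul_of_nonneg_left (step Z) (hP Z)
    _ = s ^ (-θ) * ∑ j, a j * ∑ Z, P Z * (r Z j) ^ (-θ) := by
        simp only [Finset.mul_sum]
        rw [Finset.sum_comm]
        refine Finset.sum_congr rfl fun j _ => Finset.sum_congr rfl fun Z _ => ?_
        ring
    _ ≤ s ^ (-θ) * ∑ j, a j := by
        refine mul_le_mul_of_nonneg_left ?_ (Real.rpow_nonneg hs.le _)
        exact Finset.sum_le_sum fun j _ => hcol j
    _ = s ^ (-θ) := by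
        rw [ha1, mul_one]

end Pool.Agent.H.MP_027d00_lc.SComp
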