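import Pool.Agent.H.MP_027d00_lc.strong.TTwDef
import Pool.Agent.H.MP_027d00_lc.strong.OneDimW

/-!
# Reverse hypercontractivity for sets, for products of any distribution
-/

set_option autoImplicit false

open Finset

namespace Pool.Agent.H.MP_027d00_lc.SComp

variable {Q : Type} [Fintype Q] [DecidableEq Q]

theorem RHw_mea_nonneg {ν : Q → ℝ} (hν : ∀ x, 0 ≤ ν x) {m : ℕ} (v : Finset (Fin m → Q)) :
    0 ≤ mea ν v :=
  Finset.sum_nonneg fun Z _ => Finset.prod_nonneg fun i _ => hν (Z i)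

theorem RHw_mea_cons (ν : Q → ℝ) {m : ℕ} (v : Finset (Fin (m + 1) → Q)) :
    mea ν v = ∑ x, ν x * mea ν (RH_S v x) := by
  have h1 : ∀ {k : ℕ} (v : Finset (Fin k → Q)),
      mea ν v = ∑ Z : Fin k → Q, if Z ∈ v then ∏ i, ν (Z i) else 0 := by
    intro k v
    rw [mea, ← Finset.sum_filter]
    congr 1
    ext Z
    simp
  rw [h1, RH_sum_cons]
  refine Finset.sum_congr rfl (fun x _ => ?_)
  rw [h1, Finset.mul_sum]
  refine Finset.sum_congr rfl (fun Y _ => ?_)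
  simp only [RH_mem_S, Fin.prod_univ_succ, Fin.cons_zero, Fin.cons_succ]
  split_ifs
  · rfl
  · rw [mul_zero]

theorem RHw_wtw_nonneg {m : ℕ} {θ : ℝ} (hθ : 0 < θ) (hθ1 : θ ≤ 1 / 2) {ν : Q → ℝ}
    (hν : ∀ x, 0 ≤ ν x) (κ : Fin m → Bool × Q) : 0 ≤ wtw θ ν κ := by
  unfold wtw
  refine Finset.prod_nonneg (fun i _ => mul_nonneg ?_ (hν _))
  split_ifs <;> linarith

theorem RHw_TTw_nonneg {m : ℕ} {θ : ℝ} (hθ : 0 < θ) (hθ1 : θ ≤ 1 / 2) {ν : Q → ℝ}
    (hν : ∀ x, 0 ≤ ν x) (v : Finset (Fin m → Q)) (Z : Fin m → Q) : 0 ≤ TTw θ ν v Z := by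
  unfold TTw
  refine Finset.sum_nonneg (fun κ _ => mul_nonneg (RHw_wtw_nonneg hθ hθ1 hν κ) ?_)
  split_ifs <;> norm_num

theorem RHw_wtw_cons {m : ℕ} (θ : ℝ) (ν : Q → ℝ) (k : Bool × Q) (κ : Fin m → Bool × Q) :
    wtw θ ν (Fin.cons k κ : Fin (m + 1) → Bool × Q) =
      ((if k.1 = true then θ else 1 - θ) * ν k.2) * wtw θ ν κ := by
  unfold wtw
  rw [Fin.prod_univ_succ]
  simp only [Fin.cons_zero, Fin.cons_succ]

theorem RHw_TTw_cons {m : ℕ} (θ : ℝ) {ν : Q → ℝ} (hν1 : ∑ x, ν x = 1)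
    (v : Finset (Fin (m + 1) → Q)) (x : Q) (Z : Fin m → Q) :
    TTw θ ν v (Fin.cons x Z : Fin (m + 1) → Q) =
      ∑ j, ((if j = x then 1 - θ else 0) + θ * ν j) * TTw θ ν (RH_S v j) Z := by
  have h1 : TTw θ ν v (Fin.cons x Z : Fin (m + 1) → Q) = ∑ k : Bool × Q,
      ((if k.1 = true then θ else 1 - θ) * ν k.2) *
        TTw θ ν (RH_S v (if k.1 = true then k.2 else x)) Z := by
    unfold TTw
    rw [RH_sum_cons]
    refine Finset.sum_congr rfl (fun k _ => ?_)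
    rw [Finset.mul_sum]
    refine Finset.sum_congr rfl (fun κ _ => ?_)
    rw [RHw_wtw_cons, RH_mix_cons]
    simp only [RH_mem_S]
    ring
  rw [h1, Fintype.sum_prod_type, Fintype.sum_bool]
  simp only [if_true, Bool.false_eq_true, if_false]
  have h2 : ∑ j, (1 - θ) * ν j * TTw θ ν (RH_S v x) Z = (1 - θ) * TTw θ ν (RH_S v x) Z := by
    rw [← Finset.sum_mul, ← Finset.mul_sum, hν1, mul_one]
  rw [h2]
  simp only [add_mul, Finset.sum_add_distrib, ite_mul, zero_mul, Finset.sum_ite_eq',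
    Finset.mem_univ, if_true]
  ring

theorem RHw_wsum (x : Q) (θ : ℝ) (ν h : Q → ℝ) :
    ∑ j, ((if j = x then 1 - θ else 0) + θ * ν j) * h j =
      θ * (∑ z, ν z * h z) + (1 - θ) * h x := by
  simp only [add_mul, Finset.sum_add_distrib, ite_mul, zero_mul, Finset.sum_ite_eq',
    Finset.mem_univ, if_true]
  rw [Finset.mul_sum, add_comm]
  congr 1
  exact Finset.sum_congr rfl fun j _ => by ring

theorem RHw_rpow {θ : ℝ} (hθ : 0 < θ) {a : ℝ} (ha : 0 ≤ a) : (a ^ (1 / θ)) ^ θ = a := by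
  rw [← Real.rpow_mul ha, one_div, inv_mul_cancel₀ hθ.ne', Real.rpow_one]

/-- Proof: if `0 < mea ν v` then there is `Y ∈ v` with `∏ i, ν (Y i) > 0`; the `κ` in which all
coordinates are marked, with the values `Y i`, has the weight `θ ^ m * ∏ i, ν (Y i) > 0`. -/
theorem TTw_pos {θ : ℝ} (hθ : 0 < θ) (hθ1 : θ ≤ 1 / 2) {ν : Q → ℝ} (hν : ∀ x, 0 ≤ ν x)
    {m : ℕ} {v : Finset (Fin m → Q)} (hv : 0 < mea ν v) (Z : Fin m → Q) : 0 < TTw θ ν v Z := by
  obtain ⟨Y, hY, hY0⟩ : ∃ Y ∈ v, 0 < ∏ i, ν (Y i) := by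
    by_contra hcon
    push Not at hcon
    exact absurd hv (not_lt.2 (Finset.sum_nonpos hcon))
  have h1 : 0 < wtw θ ν (fun i => (true, Y i)) *
      (if mix (fun i => (true, Y i)) Z ∈ v then (1 : ℝ) else 0) := by
    have h2 : mix (fun i => (true, Y i)) Z = Y := by
      funext i; simp [mix]
    rw [h2, if_pos hY, mul_one]
    unfold wtw
    simp only [if_true]
    rw [Finset.prod_mul_distrib]
    exact mul_pos (Finset.prod_pos fun i _ => hθ) hY0
  unfold TTw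
  refine lt_of_lt_of_le h1 (Finset.single_le_sum (f := fun κ : Fin m → Bool × Q =>
    wtw θ ν κ * (if mix κ Z ∈ v then (1 : ℝ) else 0)) (fun κ _ => ?_) (Finset.mem_univ _))
  refine mul_nonneg (RHw_wtw_nonneg hθ hθ1 hν κ) ?_
  split_ifs <;> norm_num

/-- Reverse hypercontractivity.

Proof: as `rh`, by induction on `m`. Let `S x = RH_S v x = {Y | Fin.cons x Y ∈ v}`, so
`mea ν v = ∑ x, ν x * mea ν (S x)` (`RH_sum_cons`, `Fin.prod_univ_succ`). Splitting off the first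
coordinate of `κ`: `TTw θ ν v (Fin.cons x Z) = ∑ j, w_x j * TTw θ ν (S j) Z` with
`w_x j = (if j = x then 1 - θ else 0) + θ * ν j` (using `∑ j, ν j = 1`; compare `RH_TT_cons`).
Let `h j = (mea ν (S j))^(1/θ)`, so `h j ^ θ = mea ν (S j)`, `h j > 0` iff `mea ν (S j) > 0`, and
then `TTw θ ν (S j) Z > 0` by `TTw_pos` and, by the induction hypothesis,
`∑ Z, (∏ i, ν (Z i)) * (TTw θ ν (S j) Z)^(-θ) ≤ (h j)^(-θ)`. By `rev_minkowski_w` with
`P Z = ∏ i, ν (Z i)` for each `x`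
`∑ Z, P Z * (TTw θ ν v (Fin.cons x Z)) ^ (-θ) ≤ ((1 - θ) h x + θ ∑ z, ν z * h z)^(-θ)`.
Multiply with `ν x`, sum over `x`, multiply with `∑ x, ν x * (h x)^θ = mea ν v`, and use
`one_dim_w` (there is `x` with `0 < ν x * h x` since `0 < mea ν v`). -/
theorem rhw {θ : ℝ} (hθ : 0 < θ) (hθ1 : θ ≤ 1 / 2) {ν : Q → ℝ} (hν : ∀ x, 0 ≤ ν x)
    (hν1 : ∑ x, ν x = 1) (m : ℕ) (v : Finset (Fin m → Q)) (hv : 0 < mea ν v) :
    (∑ Z, (∏ i, ν (Z i)) * (TTw θ ν v Z) ^ (-θ)) * mea ν v ≤ 1 := by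
  induction m with
  | zero =>
    have hne : v.Nonempty := by
      rw [Finset.nonempty_iff_ne_empty]
      rintro rfl
      simp [mea] at hv
    have h1 : ∀ Z : Fin 0 → Q, Z ∈ v := by
      intro Z
      obtain ⟨Y, hY⟩ := hne
      rwa [Subsingleton.elim Z Y]
    have h2 : v = univ := Finset.eq_univ_of_forall h1
    have h3 : ∀ Z : Fin 0 → Q, TTw θ ν v Z = 1 := by
      intro Z
      simp [TTw, wtw, h1]
    simp only [h3, Real.one_rpow]
    rw [h2]
    simp [mea]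
  | succ m ih =>
    set h : Q → ℝ := fun x => (mea ν (RH_S v x)) ^ (1 / θ) with hh
    have hm0 : ∀ x, 0 ≤ mea ν (RH_S v x) := fun x => RHw_mea_nonneg hν _
    have hh0 : ∀ x, 0 ≤ h x := fun x => Real.rpow_nonneg (hm0 x) _
    have hhθ : ∀ x, (h x) ^ θ = mea ν (RH_S v x) := fun x => RHw_rpow hθ (hm0 x)
    have hmp : ∀ x, 0 < h x → 0 < mea ν (RH_S v x) := fun x hx => by
      rw [← hhθ x]
      exact Real.rpow_pos_of_pos hx _
    have hsum : ∑ x, ν x * (h x) ^ θ = mea ν v := by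
      simp only [hhθ]
      rw [RHw_mea_cons]
    have hpos : ∃ x, 0 < ν x * h x := by
      obtain ⟨x, hx⟩ : ∃ x, 0 < ν x * mea ν (RH_S v x) := by
        by_contra hcon
        push Not at hcon
        rw [RHw_mea_cons] at hv
        exact absurd hv (not_lt.2 (Finset.sum_nonpos fun x _ => hcon x))
      refine ⟨x, ?_⟩
      have h1 : 0 < ν x := by
        rcases (hν x).lt_or_eq with h2 | h2
        · exact h2
        · rw [← h2, zero_mul] at hx
          exact absurd hx (lt_irrefl _)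
      have h2 : 0 < mea ν (RH_S v x) := (mul_pos_iff_of_pos_left h1).1 hx
      exact mul_pos h1 (Real.rpow_pos_of_pos h2 _)
    have hodm := one_dim_w hθ hθ1 hν hν1 h hh0 hpos
    rw [hsum] at hodm
    have hP0 : ∀ Z : Fin m → Q, 0 ≤ ∏ i, ν (Z i) := fun Z => Finset.prod_nonneg fun i _ => hν _
    have hH : 0 < ∑ z, ν z * h z := by
      obtain ⟨x0, hx0⟩ := hpos
      exact lt_of_lt_of_le hx0 (Finset.single_le_sum (f := fun z => ν z * h z)
        (fun z _ => mul_nonneg (hν z) (hh0 z)) (Finset.mem_univ x0))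
    have key : ∀ x : Q, ∑ Z : Fin m → Q, (∏ i, ν (Z i)) *
        (TTw θ ν v (Fin.cons x Z : Fin (m + 1) → Q)) ^ (-θ) ≤
        (θ * (∑ z, ν z * h z) + (1 - θ) * h x) ^ (-θ) := by
      intro x
      have hw0 : ∀ j, 0 ≤ (if j = x then 1 - θ else 0) + θ * ν j := by
        intro j
        have h1 : 0 ≤ θ * ν j := mul_nonneg hθ.le (hν j)
        split_ifs <;> linarith
      have hs : ∑ j, ((if j = x then 1 - θ else 0) + θ * ν j) * h j =
          θ * (∑ z, ν z * h z) + (1 - θ) * h x := RHw_wsum x θ ν h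
      have hs0 : 0 < ∑ j, ((if j = x then 1 - θ else 0) + θ * ν j) * h j := by
        rw [hs]
        have h2 : 0 ≤ (1 - θ) * h x := mul_nonneg (by linarith) (hh0 x)
        have h3 : 0 < θ * (∑ z, ν z * h z) := mul_pos hθ hH
        linarith
      have hr := rev_minkowski_w (J := Q) (Ω := Fin m → Q) hθ (fun Z => ∏ i, ν (Z i)) hP0
        (fun j => (if j = x then 1 - θ else 0) + θ * ν j) h (fun j Z => TTw θ ν (RH_S v j) Z)
        hw0 hh0 (fun j hj Z => TTw_pos hθ hθ1 hν (hmp j hj) Z)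
        (fun j Z => RHw_TTw_nonneg hθ hθ1 hν _ Z) (fun j hj => by
          have h1 := ih (RH_S v j) (hmp j hj)
          have h2 := hmp j hj
          have h3 : (h j) ^ (-θ) = 1 / mea ν (RH_S v j) := by
            rw [Real.rpow_neg (hh0 j), hhθ, one_div]
          rw [h3, le_div_iff₀ h2]
          exact h1) hs0
      rw [hs] at hr
      simp only [RHw_TTw_cons θ hν1]
      exact hr
    have hv0 : 0 ≤ mea ν v := hv.le
    calc (∑ Z, (∏ i, ν (Z i)) * (TTw θ ν v Z) ^ (-θ)) * mea ν v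
        = (∑ x, ν x * ∑ Z : Fin m → Q, (∏ i, ν (Z i)) *
            (TTw θ ν v (Fin.cons x Z : Fin (m + 1) → Q)) ^ (-θ)) * mea ν v := by
          rw [RH_sum_cons]
          congr 1
          refine Finset.sum_congr rfl (fun x _ => ?_)
          rw [Finset.mul_sum]
          refine Finset.sum_congr rfl (fun Z _ => ?_)
          rw [Fin.prod_univ_succ]
          simp only [Fin.cons_zero, Fin.cons_succ]
          ring
      _ ≤ (∑ x, ν x * (θ * (∑ z, ν z * h z) + (1 - θ) * h x) ^ (-θ)) * mea ν v :=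
          mul_le_mul_of_nonneg_right (Finset.sum_le_sum (fun x _ =>
            mul_le_mul_of_nonneg_left (key x) (hν x))) hv0
      _ ≤ 1 := hodm

/-- Few points have a small probability to be moved into `v`.

Proof: Markov's inequality for `(TTw θ ν v Z)^(-θ)`, as in `rh_tail`: if
`TTw θ ν v Z < (ε q)^(1/θ)` then `(TTw θ ν v Z)^(-θ) ≥ 1 / (ε q)`; so the measure of these `Z` is
at most `ε q / mea ν v ≤ ε`. -/
theorem rhw_tail {θ : ℝ} (hθ : 0 < θ) (hθ1 : θ ≤ 1 / 2) {ν : Q → ℝ} (hν : ∀ x, 0 ≤ ν x)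
    (hν1 : ∑ x, ν x = 1) {m : ℕ} (v : Finset (Fin m → Q)) {q ε : ℝ} (hq : 0 < q) (hε : 0 < ε)
    (hv : q ≤ mea ν v) :
    mea ν (univ.filter (fun Z : Fin m → Q => TTw θ ν v Z < (ε * q) ^ (1 / θ))) ≤ ε := by
  have hvp : 0 < mea ν v := lt_of_lt_of_le hq hv
  have hrh := rhw hθ hθ1 hν hν1 m v hvp
  set B := univ.filter (fun Z : Fin m → Q => TTw θ ν v Z < (ε * q) ^ (1 / θ)) with hB
  have hεq : 0 < ε * q := mul_pos hε hq
  have hP0 : ∀ Z : Fin m → Q, 0 ≤ ∏ i, ν (Z i) := fun Z => Finset.prod_nonneg fun i _ => hν _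
  have h1 : mea ν B * (ε * q)⁻¹ ≤ ∑ Z, (∏ i, ν (Z i)) * (TTw θ ν v Z) ^ (-θ) := by
    calc mea ν B * (ε * q)⁻¹ = ∑ Z ∈ B, (∏ i, ν (Z i)) * (ε * q)⁻¹ := by
          rw [mea, Finset.sum_mul]
      _ ≤ ∑ Z ∈ B, (∏ i, ν (Z i)) * (TTw θ ν v Z) ^ (-θ) := by
          refine Finset.sum_le_sum (fun Z hZ => mul_le_mul_of_nonneg_left ?_ (hP0 Z))
          have h2 : TTw θ ν v Z < (ε * q) ^ (1 / θ) := (Finset.mem_filter.1 hZ).2
          have h3 : 0 < TTw θ ν v Z := TTw_pos hθ hθ1 hν hvp Z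
          have h4 : (TTw θ ν v Z) ^ θ ≤ ε * q := by
            calc (TTw θ ν v Z) ^ θ ≤ ((ε * q) ^ (1 / θ)) ^ θ :=
                  Real.rpow_le_rpow h3.le h2.le hθ.le
              _ = ε * q := RHw_rpow hθ hεq.le
          rw [Real.rpow_neg h3.le]
          exact inv_anti₀ (Real.rpow_pos_of_pos h3 _) h4
      _ ≤ ∑ Z, (∏ i, ν (Z i)) * (TTw θ ν v Z) ^ (-θ) :=
          Finset.sum_le_sum_of_subset_of_nonneg (Finset.subset_univ _)
            (fun Z _ _ => mul_nonneg (hP0 Z) (Real.rpow_nonneg (RHw_TTw_nonneg hθ hθ1 hν v Z) _))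
  have h5 : (mea ν B * (ε * q)⁻¹) * q ≤ 1 := by
    calc (mea ν B * (ε * q)⁻¹) * q
        ≤ (mea ν B * (ε * q)⁻¹) * mea ν v := mul_le_mul_of_nonneg_left hv
          (mul_nonneg (RHw_mea_nonneg hν B) (inv_nonneg.2 hεq.le))
      _ ≤ (∑ Z, (∏ i, ν (Z i)) * (TTw θ ν v Z) ^ (-θ)) * mea ν v :=
          mul_le_mul_of_nonneg_right h1 hvp.le
      _ ≤ 1 := hrh
  have h6 : (mea ν B * (ε * q)⁻¹) * q = mea ν B / ε := by
    field_simp
  rw [h6, div_le_iff₀ hε, one_mul] at h5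
  exact h5

end Pool.Agent.H.MP_027d00_lc.SComp
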