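import Pool.Agent.H.MP_027d00_lc.strong.Sep2
import Pool.Agent.H.MP_027d00_lc.strong.RHw
import Pool.Agent.H.MP_027d00_lc.strong.Marks

/-!
# Separation from a family of conflicting sets, for products of any distribution
-/

set_option autoImplicit false

open Finset

namespace Pool.Agent.H.MP_027d00_lc.SComp

open UComp

/-- The values of `b` at the coordinates in `S`. -/
def patS {m : ℕ} (S : Finset (Fin m)) (b : Fin m → Bool) : Fin m → Option Bool :=
  fun i => if i ∈ S then some (b i) else none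

theorem patS_image_card {m : ℕ} (S : Finset (Fin m)) (B : Finset (Fin m → Bool)) :
    (B.image (patS S)).card ≤ 2 ^ S.card := by
  classical
  have h1 : B.image (patS S) ⊆ Fintype.piFinset (fun i =>
      if i ∈ S then ({some true, some false} : Finset (Option Bool)) else {none}) := by
    intro π hπ
    obtain ⟨b, _, rfl⟩ := Finset.mem_image.1 hπ
    rw [Fintype.mem_piFinset]
    intro i
    by_cases h : i ∈ S
    · cases hb : b i <;> simp [patS, h, hb]
    · simp [patS, h]
  refine (Finset.card_le_card h1).trans ?_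
  rw [Fintype.card_piFinset]
  have h2 : ∀ i, (if i ∈ S then ({some true, some false} : Finset (Option Bool))
      else {none}).card = if i ∈ S then 2 else 1 := by
    intro i
    by_cases h : i ∈ S
    · rw [if_pos h, if_pos h]; rfl
    · rw [if_neg h, if_neg h]; rfl
  rw [Finset.prod_congr rfl (fun i _ => h2 i), Finset.prod_ite, Finset.prod_const_one, mul_one,
    Finset.prod_const]
  simp

/-- The marked coordinates. -/
def mk {m : ℕ} (c : Fin m → Bool) : Finset (Fin m) := univ.filter (fun i => c i = true)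

/-- The separation lemma. -/
theorem unit_sep3 {m n : ℕ} (hm : 1 ≤ m) {θ : ℝ} (hθ : 0 < θ) (hθ1 : θ ≤ 1 / 2)
    {ν : (Fin n → Bool) → ℝ} (hν : ∀ x, 0 ≤ ν x) (hν1 : ∑ x, ν x = 1)
    (A B : Finset (Fin m → Bool)) (𝒳 𝒴 : (Fin m → Bool) → Finset (Mat m n)) (S₀ : Finset (Fin m))
    {p q : ℝ} (hp : 0 < p) (hq : 0 < q) (hX : ∀ a ∈ A, p ≤ mea ν (𝒳 a))
    (hY : ∀ b ∈ B, q ≤ mea ν (𝒴 b))
    (hc : ∀ a ∈ A, ∀ b ∈ B, ∀ X ∈ 𝒳 a, ∀ Y ∈ 𝒴 b, ∃ i, a i ≠ b i ∧ (i ∉ S₀ → X i ≠ Y i)) :
    ∃ t s : ℕ, (t : ℝ) * p ≤ 3 ∧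
      (s : ℝ) ≤ (1 + θ) ^ m / (p / 12 * q) ^ (1 / θ) * (1 + m * Real.log 2) ∧
      SepF (216 * m ^ 3 * (t * (2 ^ S₀.card * s * m))) A B := by
  classical
  have hη0 : 0 < (p / 12 * q) ^ (1 / θ) := Real.rpow_pos_of_pos (by positivity) _
  have hlog2 : 0 < Real.log 2 := Real.log_pos (by norm_num)
  have hRHS : 0 ≤ (1 + θ) ^ m / (p / 12 * q) ^ (1 / θ) * (1 + m * Real.log 2) := by
    positivity
  rcases A.eq_empty_or_nonempty with hA | ⟨a₀, ha₀⟩
  · refine ⟨0, 0, by norm_num, by simpa using hRHS, fun _ => false, Comp.const _ false, ?_,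
      fun _ _ => rfl⟩
    intro a ha
    rw [hA] at ha
    exact absurd ha (Finset.notMem_empty a)
  have hp1 : p ≤ 1 := by
    have h1 := hX a₀ ha₀
    have h2 : mea ν (𝒳 a₀) ≤ 1 := by
      rw [← mea_univ hν1 m]
      exact mea_mono hν (Finset.subset_univ _)
    exact h1.trans h2
  set η : ℝ := (p / 12 * q) ^ (1 / θ) with hη
  have hwtc0 : ∀ c : Fin m → Bool, 0 ≤ wtc θ c := by
    intro c
    unfold wtc
    refine Finset.prod_nonneg fun i _ => ?_
    split_ifs <;> linarith
  -- the covering, for each `Z`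
  have hcov : ∀ Z : Mat m n, ∃ J : Finset (Fin m → Bool),
      (∀ b ∈ B.filter (fun b => ¬ TTw θ ν (𝒴 b) Z < η),
        ∃ c ∈ J, ∃ Y ∈ 𝒴 b, ∀ i, c i = false → Y i = Z i) ∧
      ∑ c ∈ J, (2 : ℝ) ^ (mk c).card ≤ (1 + θ) ^ m / η * (1 + m * Real.log 2) := by
    intro Z
    obtain ⟨J, hJ1, hJ2⟩ := greedy
      (R := fun (c : Fin m → Bool) (b : Fin m → Bool) => ∃ Y ∈ 𝒴 b, ∀ i, c i = false → Y i = Z i)
      (π := fun c => wtc θ c) (c := fun c => (2 : ℝ) ^ (mk c).card) hwtc0
      (fun c => by positivity) (K := (1 + θ) ^ m) (η := η)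
      (le_of_eq (wtc_cost (θ := θ) m)) hη0 (B.filter (fun b => ¬ TTw θ ν (𝒴 b) Z < η)) (by
        intro b hb
        have h1 := not_lt.1 (Finset.mem_filter.1 hb).2
        exact h1.trans (TTw_le hθ hθ1 hν hν1 (𝒴 b) Z))
    refine ⟨J, hJ1, hJ2.trans (mul_le_mul_of_nonneg_left ?_ (by positivity))⟩
    set U := B.filter (fun b => ¬ TTw θ ν (𝒴 b) Z < η) with hU
    have hUlog : Real.log U.card ≤ m * Real.log 2 := by
      rcases Nat.eq_zero_or_pos U.card with h | h
      · rw [h]; simp only [Nat.cast_zero, Real.log_zero]; positivity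
      · have h1 : (U.card : ℝ) ≤ 2 ^ m := by
          have h2 : U.card ≤ 2 ^ m := by
            refine (Finset.card_le_univ _).trans ?_
            simp
          exact_mod_cast h2
        have h3 := Real.log_le_log (by exact_mod_cast h) h1
        rw [Real.log_pow] at h3
        exact h3
    linarith
  choose J hJ1 hJ2 using hcov
  set s : ℕ := ⌊(1 + θ) ^ m / η * (1 + m * Real.log 2)⌋₊ with hs
  have hsR : (s : ℝ) ≤ (1 + θ) ^ m / η * (1 + m * Real.log 2) := Nat.floor_le (by positivity)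
  have hsJ : ∀ Z, ∑ c ∈ J Z, 2 ^ (mk c).card ≤ s := by
    intro Z
    apply Nat.le_floor
    have := hJ2 Z
    push_cast
    exact this
  -- the random function
  set PP : Mat m n → Finset (Fin m → Option Bool) :=
    fun Z => (J Z).biUnion (fun c => (B.filter (fun b => ∃ Y ∈ 𝒴 b, ∀ i, c i = false → Y i = Z i)).image
      (patS (mk c ∪ S₀))) with hPP
  have hPcard : ∀ Z, (PP Z).card ≤ 2 ^ S₀.card * s := by
    intro Z
    refine (Finset.card_biUnion_le).trans ?_
    calc ∑ c ∈ J Z, ((B.filter (fun b => ∃ Y ∈ 𝒴 b, ∀ i, c i = false → Y i = Z i)).image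
            (patS (mk c ∪ S₀))).card ≤ ∑ c ∈ J Z, 2 ^ S₀.card * 2 ^ (mk c).card := by
          refine Finset.sum_le_sum fun c _ => (patS_image_card _ _).trans ?_
          rw [← pow_add]
          exact Nat.pow_le_pow_right (by norm_num) ((Finset.card_union_le _ _).trans (by omega))
      _ = 2 ^ S₀.card * ∑ c ∈ J Z, 2 ^ (mk c).card := by rw [Finset.mul_sum]
      _ ≤ 2 ^ S₀.card * s := Nat.mul_le_mul_left _ (hsJ Z)
  set H : Mat m n → (Fin m → Bool) → Bool := fun Z x =>
    !(decide (∃ π ∈ PP Z, decide (∀ i ∈ univ.filter (fun i => π i ≠ none),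
        (x i == (π i).getD false) = true) = true)) with hH
  have hHc : ∀ Z, Comp (2 ^ S₀.card * s * m) (H Z) := fun Z =>
    ((comp_match' (PP Z)).not).mono (Nat.mul_le_mul_right _ (hPcard Z))
  set Wt : Mat m n → ℝ := fun Z => ∏ i, ν (Z i) with hWt
  have hWt0 : ∀ Z, 0 ≤ Wt Z := fun Z => Finset.prod_nonneg fun i _ => hν _
  set Φ : (Fin m → Bool) → ℝ := fun x => ∑ Z : Mat m n, Wt Z * MP_027d00_lc.ind (H Z x) with hΦ
  have hR : Rnd (2 ^ S₀.card * s * m) Φ := by
    refine ⟨Mat m n, inferInstance, Wt, H, hWt0, mea_univ hν1 m, hHc, fun x => rfl⟩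
  have hΦ' : ∀ x, Φ x = mea ν (univ.filter (fun Z : Mat m n => H Z x = true)) := by
    intro x
    simp only [hΦ, mea]
    rw [Finset.sum_filter]
    refine Finset.sum_congr rfl fun Z _ => ?_
    simp only [MP_027d00_lc.ind, hWt]
    split_ifs <;> simp
  -- the two bounds
  have hΦA : ∀ a ∈ A, p ≤ Φ a := by
    intro a ha
    have h1 : 𝒳 a ⊆ univ.filter (fun Z : Mat m n => H Z a = true) := by
      intro Z hZ
      rw [Finset.mem_filter]
      refine ⟨Finset.mem_univ _, ?_⟩
      simp only [hH, Bool.not_eq_true', decide_eq_false_iff_not]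
      rintro ⟨π, hπ, hm'⟩
      rw [decide_eq_true_eq] at hm'
      rw [hPP] at hπ
      obtain ⟨c, hcJ, hπ'⟩ := Finset.mem_biUnion.1 hπ
      obtain ⟨b, hb, rfl⟩ := Finset.mem_image.1 hπ'
      rw [Finset.mem_filter] at hb
      obtain ⟨hbB, Y, hY', hYZ⟩ := hb
      obtain ⟨i, hi1, hi2⟩ := hc a ha b hbB Z hZ Y hY'
      have hmem : i ∈ mk c ∪ S₀ := by
        by_contra hne
        rw [Finset.mem_union, not_or] at hne
        have h3 : c i = false := by
          by_contra h4
          exact hne.1 (by rw [mk, Finset.mem_filter]; exact ⟨Finset.mem_univ _, by simpa using h4⟩)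
        exact hi2 hne.2 (hYZ i h3).symm
      have h3 := hm' i (by
        rw [Finset.mem_filter]
        refine ⟨Finset.mem_univ _, ?_⟩
        simp only [patS, if_pos hmem]
        exact Option.some_ne_none _)
      simp only [patS, if_pos hmem, Option.getD_some, beq_iff_eq] at h3
      exact hi1 h3
    rw [hΦ']
    exact (hX a ha).trans (mea_mono hν h1)
  have hΦB : ∀ b ∈ B, Φ b ≤ p / 12 := by
    intro b hb
    have h1 : univ.filter (fun Z : Mat m n => H Z b = true) ⊆
        univ.filter (fun Z : Fin m → (Fin n → Bool) => TTw θ ν (𝒴 b) Z < η) := by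
      intro Z hZ
      rw [Finset.mem_filter] at hZ ⊢
      refine ⟨Finset.mem_univ _, ?_⟩
      by_contra hn
      have h2 := hZ.2
      simp only [hH, Bool.not_eq_true', decide_eq_false_iff_not] at h2
      apply h2
      obtain ⟨c, hcJ, hc'⟩ := hJ1 Z b (Finset.mem_filter.2 ⟨hb, hn⟩)
      refine ⟨patS (mk c ∪ S₀) b, ?_, ?_⟩
      · rw [hPP]
        exact Finset.mem_biUnion.2 ⟨c, hcJ, Finset.mem_image.2
          ⟨b, Finset.mem_filter.2 ⟨hb, hc'⟩, rfl⟩⟩
      · rw [decide_eq_true_eq]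
        intro i hi
        rw [Finset.mem_filter] at hi
        have h3 : i ∈ mk c ∪ S₀ := by
          by_contra hne
          exact hi.2 (by simp only [patS, if_neg hne])
        simp only [patS, if_pos h3, Option.getD_some, beq_self_eq_true]
    rw [hΦ']
    exact (mea_mono hν h1).trans
      (rhw_tail hθ hθ1 hν hν1 (𝒴 b) (ε := p / 12) hq (by positivity) (hY b hb))
  obtain ⟨t, ht, hsep⟩ := amp hm hR A B hp hp1 (δ := p / 12) (by linarith) hΦA hΦB
  exact ⟨t, s, ht, hsR, hsep⟩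

end Pool.Agent.H.MP_027d00_lc.SComp
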