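import Pool.Agent.H.MP_027d00_lc.strong.Switch

/-!
# Dropping a few rows
-/

set_option autoImplicit false

open Finset

namespace Pool.Agent.H.MP_027d00_lc.SComp

open UComp

private theorem drop_exp : Real.exp (1 / 8) ≤ 1.14 := by
  have h1 : Real.exp (1 / 8) ^ 8 = Real.exp 1 := by
    rw [← Real.exp_nat_mul]
    norm_num
  have h2 := Real.exp_one_lt_d9
  by_contra h
  push Not at h
  have h3 : (1.14 : ℝ) ^ 8 ≤ Real.exp (1 / 8) ^ 8 := pow_le_pow_left₀ (by norm_num) h.le 8
  rw [h1] at h3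
  norm_num at h3
  linarith

private theorem drop_pow {m : ℕ} (hm : 1 ≤ m) {d : ℕ} (hd : d ≤ m) :
    (1 + 1 / (8 * (m : ℝ))) ^ d ≤ 1.14 := by
  have hm0 : (0 : ℝ) < m := by exact_mod_cast hm
  have hk : (1 : ℝ) ≤ 1 + 1 / (8 * (m : ℝ)) := by
    have : (0 : ℝ) ≤ 1 / (8 * (m : ℝ)) := by positivity
    linarith
  calc (1 + 1 / (8 * (m : ℝ))) ^ d ≤ (1 + 1 / (8 * (m : ℝ))) ^ m := pow_le_pow_right₀ hk hd
    _ ≤ (Real.exp (1 / (8 * (m : ℝ)))) ^ m := by
        refine pow_le_pow_left₀ (by linarith) ?_ m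
        have := Real.add_one_le_exp (1 / (8 * (m : ℝ)))
        linarith
    _ = Real.exp (1 / 8) := by
        rw [← Real.exp_nat_mul]
        congr 1
        field_simp
    _ ≤ 1.14 := drop_exp

private theorem drop_hyb {m : ℕ} (P : (Fin m → Bool) → ℝ) {k e : ℝ}
    (hk : 1 ≤ k) (he : 0 ≤ e) (h : ∀ (t : Fin m → Bool) (i : Fin m),
      P t ≤ k * P (Function.update t i (!(t i))) + e) (t' : Fin m → Bool) (d : ℕ) :
    ∀ t : Fin m → Bool, (univ.filter (fun i => t i ≠ t' i)).card = d →
      P t ≤ k ^ d * (P t' + d * e) := by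
  induction d with
  | zero =>
    intro t ht
    have ht2 : t = t' := by
      rw [Finset.card_eq_zero] at ht
      funext i
      by_contra hi
      have : i ∈ (univ.filter (fun i => t i ≠ t' i)) := by simp [hi]
      rw [ht] at this
      simp at this
    rw [ht2]
    simp
  | succ d ih =>
    intro t ht
    obtain ⟨i, hi⟩ : (univ.filter (fun i => t i ≠ t' i)).Nonempty := by
      rw [← Finset.card_pos, ht]
      omega
    have hi2 : t i ≠ t' i := by simpa using hi
    have hc : (univ.filter (fun j => Function.update t i (!(t i)) j ≠ t' j)).card = d := by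
      have he : univ.filter (fun j => Function.update t i (!(t i)) j ≠ t' j) =
          (univ.filter (fun i => t i ≠ t' i)).erase i := by
        ext j
        simp only [mem_filter, mem_univ, true_and, mem_erase]
        by_cases hj : j = i
        · subst hj
          rw [Function.update_self]
          constructor
          · intro h1
            exfalso
            apply h1
            cases h2 : t j <;> cases h3 : t' j <;> simp_all
          · intro h1
            exact absurd rfl h1.1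
        · rw [Function.update_of_ne hj]
          exact ⟨fun h1 => ⟨hj, h1⟩, fun h1 => h1.2⟩
      rw [he, Finset.card_erase_of_mem hi, ht]
      omega
    have h1 := ih _ hc
    have h2 := h t i
    have hk0 : 0 ≤ k := by linarith
    have h3 : k * P (Function.update t i (!(t i))) ≤ k * (k ^ d * (P t' + d * e)) :=
      mul_le_mul_of_nonneg_left h1 hk0
    have h4 : (1 : ℝ) ≤ k ^ (d + 1) := one_le_pow₀ hk
    have h5 : e ≤ k ^ (d + 1) * e := by nlinarith
    have h6 : k ^ (d + 1) * (P t' + ((d + 1 : ℕ) : ℝ) * e) =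
        k * (k ^ d * (P t' + d * e)) + k ^ (d + 1) * e := by
      push_cast
      ring
    rw [h6]
    linarith

/-- The hybrid argument with the additive error `e` in each step.

Proof: let `k = 1 + 1 / (8 m) ≥ 1`. By induction on `D = univ.filter (fun i => t i ≠ t' i)`
(or on its number of elements): `P t ≤ k ^ |D| * (P t' + |D| * e)`. If `t ≠ t'` take `i` with
`t i ≠ t' i`, so `t' i = !(t i)`, let `t₁ = Function.update t i (!(t i))`, which differs from `t'`
in one place less: `P t ≤ k * P t₁ + e ≤ k * k ^ (|D| - 1) * (P t' + (|D| - 1) * e) + e ≤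
k ^ |D| * (P t' + |D| * e)`. Finally `|D| ≤ m` and `k ^ m ≤ exp (1 / 8) ≤ 1.14`
(`Real.add_one_le_exp`; `exp (1/8) ≤ 1.14`, as `exp 1 ≤ 2.7182818286` and `1.14 ^ 8 ≥ 2.85`). -/
theorem hyb_steps {m : ℕ} (hm : 1 ≤ m) (P : (Fin m → Bool) → ℝ) (hP : ∀ t, 0 ≤ P t) {e : ℝ}
    (he : 0 ≤ e) (h : ∀ (t : Fin m → Bool) (i : Fin m),
      P t ≤ (1 + 1 / (8 * (m : ℝ))) * P (Function.update t i (!(t i))) + e) (t t' : Fin m → Bool) :
    P t ≤ 1.14 * (P t' + m * e) := by
  have hm0 : (0 : ℝ) < m := by exact_mod_cast hm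
  have hk : (1 : ℝ) ≤ 1 + 1 / (8 * (m : ℝ)) := by
    have : (0 : ℝ) ≤ 1 / (8 * (m : ℝ)) := by positivity
    linarith
  have h1 := drop_hyb P hk he h t' _ t rfl
  have hd : (univ.filter (fun i => t i ≠ t' i)).card ≤ m := by
    calc _ ≤ (univ : Finset (Fin m)).card := Finset.card_filter_le _ _
      _ = m := by simp
  obtain ⟨d, hdd⟩ : ∃ d, d = (univ.filter (fun i => t i ≠ t' i)).card := ⟨_, rfl⟩
  rw [← hdd] at h1 hd
  have h2 := drop_pow hm hd
  have h3 : (d : ℝ) * e ≤ m * e := mul_le_mul_of_nonneg_right (by exact_mod_cast hd) he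
  have h4 : 0 ≤ P t' + d * e := add_nonneg (hP t') (by positivity)
  calc P t ≤ (1 + 1 / (8 * (m : ℝ))) ^ d * (P t' + d * e) := h1
    _ ≤ 1.14 * (P t' + d * e) := mul_le_mul_of_nonneg_right h2 h4
    _ ≤ 1.14 * (P t' + m * e) := by linarith

/-- All types have nearly the same probability. Proof: `hyb_steps` with `P t = pr μ t (U I)` and
`e = τ`, by `switch` and `pr μ t (U (I.erase i)) ≤ 1` (`pr_mono`, `pr_univ`). -/
theorem all_types {m n w : ℕ} (hm : 1 ≤ m) {τ : ℝ} (hτ : 0 ≤ τ) {g : (Fin n → Bool) → Bool}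
    {μ : Bool → (Fin n → Bool) → ℝ} (hH : Hard m w τ g μ)
    {U : Finset (Fin m) → Finset (Mat m n)} (hU : IsFam w U) (I : Finset (Fin m))
    (t t' : Fin m → Bool) : pr μ t (U I) ≤ 1.14 * (pr μ t' (U I) + m * τ) := by
  refine hyb_steps hm (fun t => pr μ t (U I)) (fun t => pr_nonneg hH.nonneg t _) hτ ?_ t t'
  intro t i
  have h1 := switch hτ hH hU I t i
  have h2 : pr μ t (U (I.erase i)) ≤ 1 := by
    rw [← pr_univ hH.sum t]
    exact pr_mono hH.nonneg t (Finset.subset_univ _)
  have h3 : τ * pr μ t (U (I.erase i)) ≤ τ * 1 := mul_le_mul_of_nonneg_left h2 hτ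
  linarith

/-- Proof: `mea (nu μ) S` is the average of the `2 ^ m` numbers `pr μ t S` (`mea_nu`). -/
theorem mea_ge_of_all {m n : ℕ} {μ : Bool → (Fin n → Bool) → ℝ} {S : Finset (Mat m n)} {x : ℝ}
    (h : ∀ t : Fin m → Bool, x ≤ pr μ t S) : x ≤ mea (nu μ) S := by
  rw [mea_nu, le_div_iff₀ (by positivity)]
  have h1 : ∑ _t : Fin m → Bool, x ≤ ∑ t : Fin m → Bool, pr μ t S :=
    Finset.sum_le_sum fun t _ => h t
  rw [Finset.sum_const, Finset.card_univ, Fintype.card_fun, Fintype.card_bool, Fintype.card_fin,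
    nsmul_eq_mul] at h1
  push_cast at h1
  linarith

/-- A set of probability at least `p` under one type has measure at least `p / 2` under the
reference measure if at most `r` suitable rows are dropped.

Proof: induction on `r`, for all `I`, `t` and `p`. For `r = 0`: `3 * m * τ ≤ p ≤ pr μ t (U I)` and
`all_types` give for all `t'`: `pr μ t' (U I) ≥ p / 1.14 - m * τ ≥ p / 1.14 - p / 3 ≥ p / 2`;
take `J = ∅`. Step: let `p` with `(8 * m * τ) ^ (r + 1) * (3 * m * τ) ≤ p`. If
`τ * pr μ t' (U (I.erase i)) ≤ p / (8 * m)` for all `t'`, `i`, then by `switch` and `hyb_steps`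
with `e = p / (8 * m)`: `p ≤ pr μ t (U I) ≤ 1.14 * (pr μ t' (U I) + p / 8)`, so
`pr μ t' (U I) ≥ p / 1.14 - p / 8 ≥ p / 2` for all `t'`; take `J = ∅`. Otherwise there are `t'`,
`i` with `pr μ t' (U (I.erase i)) > p / (8 * m * τ) =: p'` (`τ > 0`). Since
`(8 * m * τ) ^ r * (3 * m * τ) ≤ p'`, by induction there is `J'` with at most `r` elements and
`p' / 2 ≤ mea (nu μ) (U ((I.erase i) \ J'))`; and `p ≤ p'` as `8 * m * τ ≤ 1`. Take
`J = insert i J'`; `I \ J = (I.erase i) \ J'`. -/
theorem drop_rows {m n w : ℕ} (hm : 1 ≤ m) {τ : ℝ} (hτ : 0 < τ) (hτ1 : 8 * m * τ ≤ 1)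
    {g : (Fin n → Bool) → Bool} {μ : Bool → (Fin n → Bool) → ℝ} (hH : Hard m w τ g μ)
    {U : Finset (Fin m) → Finset (Mat m n)} (hU : IsFam w U) (r : ℕ) :
    ∀ (I : Finset (Fin m)) (t : Fin m → Bool) (p : ℝ), 0 < p →
      (8 * m * τ) ^ r * (3 * m * τ) ≤ p → p ≤ pr μ t (U I) →
      ∃ J : Finset (Fin m), J.card ≤ r ∧ p / 2 ≤ mea (nu μ) (U (I \ J)) := by
  have hm0 : (0 : ℝ) < m := by exact_mod_cast hm
  have hmτ : 0 < 8 * m * τ := by positivity
  induction r with
  | zero =>
    intro I t p hp h1 h2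
    refine ⟨∅, by simp, ?_⟩
    rw [Finset.sdiff_empty]
    refine mea_ge_of_all fun t' => ?_
    have h3 := all_types hm hτ.le hH hU I t t'
    rw [pow_zero, one_mul] at h1
    linarith
  | succ r ih =>
    intro I t p hp h1 h2
    by_cases H : ∀ (t' : Fin m → Bool) (i : Fin m), τ * pr μ t' (U (I.erase i)) ≤ p / (8 * m)
    · refine ⟨∅, by simp, ?_⟩
      rw [Finset.sdiff_empty]
      refine mea_ge_of_all fun t' => ?_
      have h3 := hyb_steps hm (fun t => pr μ t (U I)) (fun t => pr_nonneg hH.nonneg t _)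
        (e := p / (8 * m)) (by positivity) (fun t i => by
          have h4 := switch hτ.le hH hU I t i
          have h5 := H t i
          linarith) t t'
      have h6 : (m : ℝ) * (p / (8 * m)) = p / 8 := by
        field_simp
      rw [h6] at h3
      have h7 : pr μ t (U I) ≤ 1.14 * (pr μ t' (U I) + p / 8) := h3
      linarith
    · push Not at H
      obtain ⟨t', i, hi⟩ := H
      have hp' : 0 < p / (8 * m * τ) := by positivity
      have h3 : p / (8 * m * τ) ≤ pr μ t' (U (I.erase i)) := by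
        rw [div_le_iff₀ hmτ]
        rw [div_lt_iff₀ (by positivity)] at hi
        linarith
      have h4 : (8 * m * τ) ^ r * (3 * m * τ) ≤ p / (8 * m * τ) := by
        rw [le_div_iff₀ hmτ]
        calc (8 * m * τ) ^ r * (3 * m * τ) * (8 * m * τ) = (8 * m * τ) ^ (r + 1) * (3 * m * τ) := by
              ring
          _ ≤ p := h1
      obtain ⟨J', hJ1, hJ2⟩ := ih (I.erase i) t' _ hp' h4 h3
      refine ⟨insert i J', (Finset.card_insert_le _ _).trans (by omega), ?_⟩
      have h5 : I \ insert i J' = (I.erase i) \ J' := by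
        ext j
        simp only [mem_sdiff, mem_insert, mem_erase, not_or]
        tauto
      rw [h5]
      refine le_trans ?_ hJ2
      have h6 : p ≤ p / (8 * m * τ) := by
        rw [le_div_iff₀ hmτ]
        nlinarith
      linarith

end Pool.Agent.H.MP_027d00_lc.SComp
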