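import Pool.Agent.H.MP_027d00_lc.strong.Base

/-!
# Almost all functions are balanced
-/

set_option autoImplicit false

open Finset

namespace Pool.Agent.H.MP_027d00_lc.SComp

open UComp

/-- The Chernoff bound for the number of functions that take a value rarely.

Proof: let `M = 2^n`, `λ = 1 / (2 m)`, `sg b = 1` if `b = c` and `-1` otherwise. If
`|{x : g x = c}| < (1 - 1/(2m)) M/2` then `∑ x, sg (g x) = 2 |{x : g x = c}| - M < - M / (2m)`. And
`∑ g, exp (- λ ∑ x, sg (g x)) = ∏ x, (exp λ + exp (-λ)) = (2 cosh λ)^M ≤ 2^M exp (λ² M / 2)`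
(`Finset.prod_univ_sum`, `Fintype.piFinset_univ`, `Real.cosh_le_exp_half_sq`). So the number of
these `g` is at most `2^M exp (λ² M / 2 - λ M / (2m)) = 2^M exp (- M / (8 m²))`. -/
theorem rare_card {m n : ℕ} (hm : 1 ≤ m) (c : Bool) :
    ((univ.filter (fun g : (Fin n → Bool) → Bool =>
      ((univ.filter (fun x => g x = c)).card : ℝ) < (1 - 1 / (2 * (m : ℝ))) * (2 ^ n / 2))).card :
      ℝ) ≤ 2 ^ 2 ^ n * Real.exp (-(2 ^ n / (8 * (m : ℝ) ^ 2))) := by
  classical
  have hm0 : (0 : ℝ) < m := by exact_mod_cast hm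
  have hM0 : (0 : ℝ) < 2 ^ n := by positivity
  set l : ℝ := 1 / (2 * (m : ℝ)) with hl
  have hl0 : 0 < l := by positivity
  set G := univ.filter (fun g : (Fin n → Bool) → Bool =>
      ((univ.filter (fun x => g x = c)).card : ℝ) < (1 - l) * (2 ^ n / 2)) with hG
  -- the sum of the signs
  have hS : ∀ g : (Fin n → Bool) → Bool,
      ∑ x, (if g x = c then (1 : ℝ) else -1) =
        2 * ((univ.filter (fun x => g x = c)).card : ℝ) - 2 ^ n := by
    intro g
    have h1 : ∀ x : Fin n → Bool, (if g x = c then (1 : ℝ) else -1) =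
        2 * (if g x = c then 1 else 0) - 1 := by
      intro x
      split_ifs <;> norm_num
    simp_rw [h1]
    rw [Finset.sum_sub_distrib, ← Finset.mul_sum, Finset.sum_boole]
    simp
  -- the exponential moment
  have hE : ∑ g : (Fin n → Bool) → Bool,
      Real.exp (-l * ∑ x, (if g x = c then (1 : ℝ) else -1)) = (2 * Real.cosh l) ^ 2 ^ n := by
    have h1 : ∀ g : (Fin n → Bool) → Bool,
        Real.exp (-l * ∑ x, (if g x = c then (1 : ℝ) else -1)) =
          ∏ x, Real.exp (-l * (if g x = c then (1 : ℝ) else -1)) := by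
      intro g
      rw [Finset.mul_sum, Real.exp_sum]
    simp_rw [h1]
    have h2 := Finset.prod_univ_sum (fun _ : Fin n → Bool => (univ : Finset Bool))
      (fun _ b => Real.exp (-l * (if b = c then (1 : ℝ) else -1)))
    rw [Fintype.piFinset_univ] at h2
    rw [← h2, Finset.prod_const]
    have h3 : ∑ b : Bool, Real.exp (-l * (if b = c then (1 : ℝ) else -1)) = 2 * Real.cosh l := by
      rw [Real.cosh_eq]
      cases c <;> simp <;> ring
    rw [h3]
    simp
  have hcosh : (2 * Real.cosh l) ^ 2 ^ n ≤ 2 ^ 2 ^ n * Real.exp (l ^ 2 / 2 * 2 ^ n) := by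
    rw [mul_pow]
    refine mul_le_mul_of_nonneg_left ?_ (by positivity)
    have h1 : Real.cosh l ≤ Real.exp (l ^ 2 / 2) := Real.cosh_le_exp_half_sq l
    refine (pow_le_pow_left₀ (Real.cosh_pos l).le h1 _).trans ?_
    rw [← Real.exp_nat_mul]
    apply le_of_eq
    congr 1
    push_cast
    ring
  have hmain : (G.card : ℝ) * Real.exp (2 ^ n / (4 * (m : ℝ) ^ 2)) ≤
      2 ^ 2 ^ n * Real.exp (2 ^ n / (8 * (m : ℝ) ^ 2)) := by
    calc (G.card : ℝ) * Real.exp (2 ^ n / (4 * (m : ℝ) ^ 2))
        = ∑ g ∈ G, Real.exp (2 ^ n / (4 * (m : ℝ) ^ 2)) := by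
          rw [Finset.sum_const, nsmul_eq_mul]
      _ ≤ ∑ g ∈ G, Real.exp (-l * ∑ x, (if g x = c then (1 : ℝ) else -1)) := by
          refine Finset.sum_le_sum (fun g hg => Real.exp_le_exp.2 ?_)
          have h1 := (Finset.mem_filter.1 hg).2
          rw [hS]
          have h2 : 2 * ((univ.filter (fun x => g x = c)).card : ℝ) - 2 ^ n ≤ -(l * 2 ^ n) := by
            linarith
          have h3 : (2 : ℝ) ^ n / (4 * (m : ℝ) ^ 2) = l * (l * 2 ^ n) := by
            rw [hl]
            field_simp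
            ring
          rw [h3]
          nlinarith
      _ ≤ ∑ g : (Fin n → Bool) → Bool,
            Real.exp (-l * ∑ x, (if g x = c then (1 : ℝ) else -1)) :=
          Finset.sum_le_sum_of_subset_of_nonneg (Finset.subset_univ _)
            (fun g _ _ => (Real.exp_pos _).le)
      _ = (2 * Real.cosh l) ^ 2 ^ n := hE
      _ ≤ 2 ^ 2 ^ n * Real.exp (l ^ 2 / 2 * 2 ^ n) := hcosh
      _ = 2 ^ 2 ^ n * Real.exp (2 ^ n / (8 * (m : ℝ) ^ 2)) := by
          congr 2
          rw [hl]
          field_simp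
          ring
  have h1 : Real.exp (2 ^ n / (8 * (m : ℝ) ^ 2)) =
      Real.exp (-(2 ^ n / (8 * (m : ℝ) ^ 2))) * Real.exp (2 ^ n / (4 * (m : ℝ) ^ 2)) := by
    rw [← Real.exp_add]
    congr 1
    field_simp
    ring
  rw [h1, ← mul_assoc] at hmain
  exact le_of_mul_le_mul_right hmain (Real.exp_pos _)

/-- For balanced `g`, the matrices with `f (rows g X) = f a` have density at least `1/2` at `a`.

Proof: a matrix of type `a` is in this set, and there are `∏ i, |{x : g x = a i}|` matrices of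
type `a` (`Fintype.card_piFinset`), at least `((1 - 1/(2m)) (M/2))^m`, and
`(1 - 1/(2m))^m ≥ 1 - m/(2m) = 1/2` (Bernoulli, `one_add_mul_le_pow`). -/
theorem dens_root {m n : ℕ} (hm : 1 ≤ m) {g : (Fin n → Bool) → Bool}
    (hg : ∀ c : Bool, (1 - 1 / (2 * (m : ℝ))) * (2 ^ n / 2) ≤
      ((univ.filter (fun x => g x = c)).card : ℝ)) (f : (Fin m → Bool) → Bool)
    (a : Fin m → Bool) :
    1 / 2 ≤ dens g (univ.filter (fun X : Mat m n => f (rows g X) = f a)) a := by
  classical
  have hm0 : (0 : ℝ) < m := by exact_mod_cast hm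
  have hm1 : (1 : ℝ) ≤ m := by exact_mod_cast hm
  have hM0 : (0 : ℝ) < 2 ^ n := by positivity
  have hset : (univ.filter (fun X : Mat m n => f (rows g X) = f a)).filter
      (fun X => rows g X = a) =
      Fintype.piFinset (fun i : Fin m => univ.filter (fun x : Fin n → Bool => g x = a i)) := by
    ext X
    simp only [Finset.mem_filter, Finset.mem_univ, true_and, Fintype.mem_piFinset]
    constructor
    · rintro ⟨-, h⟩ i
      exact congrFun h i
    · intro h
      have h1 : rows g X = a := funext h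
      exact ⟨by rw [h1], h1⟩
  unfold dens
  rw [hset, Fintype.card_piFinset, le_div_iff₀ (by positivity)]
  push_cast
  have hl1 : (0 : ℝ) ≤ 1 - 1 / (2 * (m : ℝ)) := by
    have : 1 / (2 * (m : ℝ)) ≤ 1 := by
      rw [div_le_one (by positivity)]
      linarith
    linarith
  have h1 : ((1 - 1 / (2 * (m : ℝ))) * (2 ^ n / 2)) ^ m ≤
      ∏ i : Fin m, ((univ.filter (fun x : Fin n → Bool => g x = a i)).card : ℝ) := by
    have h2 : ∏ _i : Fin m, ((1 - 1 / (2 * (m : ℝ))) * (2 ^ n / 2)) ≤
        ∏ i : Fin m, ((univ.filter (fun x : Fin n → Bool => g x = a i)).card : ℝ) :=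
      Finset.prod_le_prod (fun i _ => by positivity) (fun i _ => hg (a i))
    rwa [Finset.prod_const, Finset.card_univ, Fintype.card_fin] at h2
  refine le_trans ?_ h1
  rw [mul_pow]
  refine mul_le_mul_of_nonneg_right ?_ (by positivity)
  have h3 := one_add_mul_le_pow (a := -(1 / (2 * (m : ℝ)))) (by
    have : 1 / (2 * (m : ℝ)) ≤ 1 := by
      rw [div_le_one (by positivity)]
      linarith
    linarith) m
  have h4 : 1 + (m : ℝ) * -(1 / (2 * (m : ℝ))) = 1 / 2 := by
    field_simp
    ring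
  rw [h4] at h3
  have h5 : (1 : ℝ) + -(1 / (2 * (m : ℝ))) = 1 - 1 / (2 * (m : ℝ)) := by ring
  rwa [h5] at h3

end Pool.Agent.H.MP_027d00_lc.SComp
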