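import Pool.Agent.H.MP_027d00_lc.strong.Moment

/-!
# The moment method with Hölder's inequality
-/

set_option autoImplicit false

open Finset

namespace Pool.Agent.H.MP_027d00_lc.SComp

open UComp

/-- Each coincidence costs a factor `b`: the same proof as `coll_sum` (which is `b = 4`). -/
theorem coll_sum' {Q : Type} [Fintype Q] [DecidableEq Q] (R : ℕ) {b : ℝ} (hb : 1 ≤ b) :
    ∑ x : Fin R → Q, b ^ (R - (univ.image x).card) ≤
      ((Fintype.card Q : ℝ) + (b - 1) * R) ^ R := by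
  have hb0 : 0 ≤ b := by linarith
  have hb1 : 0 ≤ b - 1 := by linarith
  induction R with
  | zero => simp
  | succ R ih =>
    have hdR : ∀ y : Fin R → Q, (univ.image y).card ≤ R := by
      intro y
      have h := Finset.card_image_le (s := (univ : Finset (Fin R))) (f := y)
      simpa using h
    have himg : ∀ (q : Q) (y : Fin R → Q),
        univ.image (Fin.cons q y : Fin (R + 1) → Q) = insert q (univ.image y) := by
      intro q y
      ext z
      simp only [Finset.mem_image, Finset.mem_univ, true_and, Finset.mem_insert]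
      constructor
      · rintro ⟨i, rfl⟩
        refine Fin.cases ?_ (fun j => ?_) i
        · left; simp
        · right; exact ⟨j, by simp⟩
      · rintro (rfl | ⟨j, rfl⟩)
        · exact ⟨0, by simp⟩
        · exact ⟨j.succ, by simp⟩
    have hterm : ∀ (q : Q) (y : Fin R → Q),
        b ^ (R + 1 - (univ.image (Fin.cons q y : Fin (R + 1) → Q)).card) =
          b ^ (R - (univ.image y).card) * (if q ∈ univ.image y then b else 1) := by
      intro q y
      rw [himg]
      by_cases hq : q ∈ univ.image y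
      · rw [if_pos hq, Finset.insert_eq_of_mem hq, Nat.succ_sub (hdR y), pow_succ]
      · rw [if_neg hq, Finset.card_insert_of_notMem hq, Nat.add_sub_add_right, mul_one]
    have hsum : ∀ y : Fin R → Q, ∑ q : Q, (if q ∈ univ.image y then b else 1) ≤
        (Fintype.card Q : ℝ) + (b - 1) * R := by
      intro y
      have h1 : ∀ q : Q, (if q ∈ univ.image y then b else 1) =
          1 + (if q ∈ univ.image y then b - 1 else 0) := by
        intro q
        split_ifs <;> ring
      simp_rw [h1]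
      rw [Finset.sum_add_distrib, ← Finset.sum_filter, Finset.sum_const, Finset.sum_const,
        Finset.filter_mem_eq_inter, Finset.univ_inter]
      have h2 : ((univ.image y).card : ℝ) ≤ R := by exact_mod_cast hdR y
      simp only [nsmul_eq_mul, mul_one, Finset.card_univ]
      have h3 := mul_le_mul_of_nonneg_right h2 hb1
      linarith
    have key : ∑ x : Fin (R + 1) → Q, b ^ (R + 1 - (univ.image x).card) =
        ∑ y : Fin R → Q, b ^ (R - (univ.image y).card) *
          ∑ q : Q, (if q ∈ univ.image y then b else 1) := by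
      rw [← (Fin.consEquiv (fun _ : Fin (R + 1) => Q)).sum_comp, Fintype.sum_prod_type,
        Finset.sum_comm]
      refine Finset.sum_congr rfl (fun y _ => ?_)
      rw [Finset.mul_sum]
      refine Finset.sum_congr rfl (fun q _ => ?_)
      exact hterm q y
    rw [key]
    have hc0 : (0 : ℝ) ≤ (Fintype.card Q : ℝ) + (b - 1) * R :=
      add_nonneg (Nat.cast_nonneg _) (mul_nonneg hb1 (Nat.cast_nonneg _))
    calc ∑ y : Fin R → Q, b ^ (R - (univ.image y).card) *
          ∑ q : Q, (if q ∈ univ.image y then b else 1)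
        ≤ ∑ y : Fin R → Q, b ^ (R - (univ.image y).card) *
            ((Fintype.card Q : ℝ) + (b - 1) * R) :=
          Finset.sum_le_sum (fun y _ => mul_le_mul_of_nonneg_left (hsum y) (pow_nonneg hb0 _))
      _ = (∑ y : Fin R → Q, b ^ (R - (univ.image y).card)) *
            ((Fintype.card Q : ℝ) + (b - 1) * R) := by rw [Finset.sum_mul]
      _ ≤ ((Fintype.card Q : ℝ) + (b - 1) * R) ^ R * ((Fintype.card Q : ℝ) + (b - 1) * R) :=
          mul_le_mul_of_nonneg_right ih hc0
      _ = ((Fintype.card Q : ℝ) + (b - 1) * R) ^ (R + 1) := by rw [pow_succ]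
      _ ≤ ((Fintype.card Q : ℝ) + (b - 1) * ((R + 1 : ℕ) : ℝ)) ^ (R + 1) := by
          apply pow_le_pow_left₀ hc0
          push_cast
          nlinarith

/-- The constant of `moment'`. -/
noncomputable def momC : ℝ := 2 * Real.exp (2 ^ 32)

/-- all entries (rows) of a tuple of matrices in one list -/
private def momJEquiv (r m n : ℕ) :
    (Fin r → Mat m n) ≃ (Fin (r * m) → (Fin n → Bool)) :=
  (Equiv.curry (Fin r) (Fin m) (Fin n → Bool)).symm.trans
    (finProdFinEquiv.arrowCongr (Equiv.refl (Fin n → Bool)))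

private theorem momJEquiv_apply (r m n : ℕ) (x : Fin r → Mat m n) (k : Fin r) (i : Fin m) :
    momJEquiv r m n x (finProdFinEquiv (k, i)) = x k i := by
  simp [momJEquiv, Equiv.arrowCongr]

/-- the number of `g` with prescribed types on a tuple of matrices -/
private theorem momJ_count {m n : ℕ} (r : ℕ) (x : Fin r → Mat m n) (a : Fin m → Bool) :
    ((univ.filter (fun g : (Fin n → Bool) → Bool => ∀ k, rows g (x k) = a)).card : ℝ) ≤
      2 ^ 2 ^ n / 2 ^ (r * m) * 2 ^ (r * m - (univ.image (momJEquiv r m n x)).card) := by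
  classical
  set D := univ.image (momJEquiv r m n x) with hD
  have hDR : D.card ≤ r * m := by
    have h := Finset.card_image_le (s := (univ : Finset (Fin (r * m))))
      (f := momJEquiv r m n x)
    simpa using h
  have hDM : D.card ≤ 2 ^ n := by
    have h := Finset.card_le_univ D
    simpa using h
  have hval : (2 : ℝ) ^ 2 ^ n / 2 ^ (r * m) * 2 ^ (r * m - D.card) =
      ((2 ^ (2 ^ n - D.card) : ℕ) : ℝ) := by
    push_cast
    have h1 : (2 : ℝ) ^ 2 ^ n = 2 ^ (2 ^ n - D.card) * 2 ^ D.card := by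
      rw [← pow_add, Nat.sub_add_cancel hDM]
    have h2 : (2 : ℝ) ^ (r * m) = 2 ^ (r * m - D.card) * 2 ^ D.card := by
      rw [← pow_add, Nat.sub_add_cancel hDR]
    rw [h1, h2]
    have h3 : (2 : ℝ) ^ (r * m - D.card) ≠ 0 := by positivity
    have h4 : (2 : ℝ) ^ D.card ≠ 0 := by positivity
    field_simp
  rw [hval]
  norm_cast
  rcases (univ.filter (fun g : (Fin n → Bool) → Bool => ∀ k, rows g (x k) = a)).eq_empty_or_nonempty
    with h0 | ⟨g₀, hg₀⟩
  · rw [h0]
    simp
  · have hg₀' : ∀ k, rows g₀ (x k) = a := (Finset.mem_filter.1 hg₀).2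
    have hsub : univ.filter (fun g : (Fin n → Bool) → Bool => ∀ k, rows g (x k) = a) ⊆
        univ.filter (fun g : (Fin n → Bool) → Bool => ∀ q ∈ D, g q = g₀ q) := by
      intro g hg
      have hg' : ∀ k, rows g (x k) = a := (Finset.mem_filter.1 hg).2
      refine Finset.mem_filter.2 ⟨Finset.mem_univ _, fun q hq => ?_⟩
      obtain ⟨p, -, rfl⟩ := Finset.mem_image.1 hq
      obtain ⟨⟨k, i⟩, rfl⟩ := finProdFinEquiv.surjective p
      rw [momJEquiv_apply]
      have h1 := congrFun (hg' k) i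
      have h2 := congrFun (hg₀' k) i
      unfold rows at h1 h2
      rw [h1, h2]
    refine (Finset.card_le_card hsub).trans ?_
    rw [card_prescribed]
    simp

private theorem momJ_mean {X : Type} (T : Finset X) (f : X → ℝ) (hf : ∀ x ∈ T, 0 ≤ f x) (hT : T.Nonempty) :
    (∑ x ∈ T, f x) ^ 32 ≤ (T.card : ℝ) ^ 31 * ∑ x ∈ T, f x ^ 32 := by
  have h := pow_sum_div_card_le_sum_pow (s := T) (f := f) hf 31
  have hc : (0 : ℝ) < (T.card : ℝ) ^ 31 := pow_pos (by exact_mod_cast hT.card_pos) 31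
  rw [div_le_iff₀ hc] at h
  rw [mul_comm]
  exact h

/-- The `r`-th moment with the 32-nd power mean. -/
private theorem momJ_pow {m n : ℕ} (r : ℕ) {u : Finset (Mat m n)} (hu : u.Nonempty)
    (a : Fin m → Bool) :
    (∑ g : (Fin n → Bool) → Bool, ((u.filter (fun X => rows g X = a)).card : ℝ) ^ r) ^ 32 ≤
      (2 ^ 2 ^ n / 2 ^ (r * m)) ^ 32 *
        (((u.card : ℝ) ^ r) ^ 31 * ((2 : ℝ) ^ n + (2 ^ 32 - 1) * (r * m)) ^ (r * m)) := by
  classical
  set T : Finset (Fin r → Mat m n) := Fintype.piFinset (fun _ => u) with hT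
  have hTcard : T.card = u.card ^ r := by
    rw [hT, Fintype.card_piFinset_const]
  have hTpos : (0 : ℝ) < T.card := by
    rw [hTcard]
    have : 0 < u.card := hu.card_pos
    positivity
  have hpow : ∀ g : (Fin n → Bool) → Bool,
      ((u.filter (fun X => rows g X = a)).card : ℝ) ^ r =
        ((T.filter (fun x => ∀ k, rows g (x k) = a)).card : ℝ) := by
    intro g
    have h1 : T.filter (fun x => ∀ k, rows g (x k) = a) =
        Fintype.piFinset (fun _ : Fin r => u.filter (fun X => rows g X = a)) := by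
      ext x
      simp only [hT, Finset.mem_filter, Fintype.mem_piFinset]
      exact forall_and.symm
    rw [h1, Fintype.card_piFinset_const]
    push_cast
    rfl
  have hexch : ∑ g : (Fin n → Bool) → Bool, ((u.filter (fun X => rows g X = a)).card : ℝ) ^ r =
      ∑ x ∈ T, ((univ.filter (fun g : (Fin n → Bool) → Bool =>
        ∀ k, rows g (x k) = a)).card : ℝ) := by
    simp_rw [hpow, Finset.card_filter]
    push_cast
    rw [Finset.sum_comm]
  rw [hexch]
  have hle : ∑ x ∈ T, ((univ.filter (fun g : (Fin n → Bool) → Bool =>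
      ∀ k, rows g (x k) = a)).card : ℝ) ≤
      2 ^ 2 ^ n / 2 ^ (r * m) *
        ∑ x ∈ T, (2 : ℝ) ^ (r * m - (univ.image (momJEquiv r m n x)).card) := by
    rw [Finset.mul_sum]
    exact Finset.sum_le_sum (fun x _ => momJ_count r x a)
  have h0 : 0 ≤ ∑ x ∈ T, ((univ.filter (fun g : (Fin n → Bool) → Bool =>
      ∀ k, rows g (x k) = a)).card : ℝ) := Finset.sum_nonneg (fun x _ => Nat.cast_nonneg _)
  have hCS : (∑ x ∈ T, (2 : ℝ) ^ (r * m - (univ.image (momJEquiv r m n x)).card)) ^ 32 ≤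
      ((u.card : ℝ) ^ r) ^ 31 * ((2 : ℝ) ^ n + (2 ^ 32 - 1) * (r * m)) ^ (r * m) := by
    have h1 := momJ_mean T
      (fun x => (2 : ℝ) ^ (r * m - (univ.image (momJEquiv r m n x)).card))
      (fun x _ => by positivity) (Finset.card_pos.1 (by exact_mod_cast hTpos))
    refine h1.trans ?_
    rw [hTcard]
    push_cast
    refine mul_le_mul_of_nonneg_left ?_ (by positivity)
    have h2 : ∑ x ∈ T, ((2 : ℝ) ^ (r * m - (univ.image (momJEquiv r m n x)).card)) ^ 32 ≤
        ∑ x : Fin r → Mat m n,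
          ((2 : ℝ) ^ 32) ^ (r * m - (univ.image (momJEquiv r m n x)).card) := by
      have h3 : ∀ x : Fin r → Mat m n,
          ((2 : ℝ) ^ (r * m - (univ.image (momJEquiv r m n x)).card)) ^ 32 =
            ((2 : ℝ) ^ 32) ^ (r * m - (univ.image (momJEquiv r m n x)).card) := by
        intro x
        rw [← pow_mul, mul_comm, pow_mul]
      simp_rw [h3]
      exact Finset.sum_le_sum_of_subset_of_nonneg (Finset.subset_univ _)
        (fun x _ _ => by positivity)
    refine h2.trans ?_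
    have h4 := Equiv.sum_comp (momJEquiv r m n)
      (fun y : Fin (r * m) → (Fin n → Bool) => ((2 : ℝ) ^ 32) ^ (r * m - (univ.image y).card))
    rw [h4]
    have h5 := coll_sum' (Q := Fin n → Bool) (r * m) (b := (2 : ℝ) ^ 32)
      (one_le_pow₀ (by norm_num))
    have h6 : (Fintype.card (Fin n → Bool) : ℝ) = 2 ^ n := by simp
    rw [h6] at h5
    push_cast at h5
    exact h5
  calc (∑ x ∈ T, ((univ.filter (fun g : (Fin n → Bool) → Bool =>
        ∀ k, rows g (x k) = a)).card : ℝ)) ^ 32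
      ≤ (2 ^ 2 ^ n / 2 ^ (r * m) *
        ∑ x ∈ T, (2 : ℝ) ^ (r * m - (univ.image (momJEquiv r m n x)).card)) ^ 32 :=
        pow_le_pow_left₀ h0 hle 32
    _ = (2 ^ 2 ^ n / 2 ^ (r * m)) ^ 32 *
        (∑ x ∈ T, (2 : ℝ) ^ (r * m - (univ.image (momJEquiv r m n x)).card)) ^ 32 :=
        mul_pow _ _ _
    _ ≤ _ := mul_le_mul_of_nonneg_left hCS (by positivity)

/-- For most `g`, the density of `u` at the type `a` is at most `momC` times the power `31/32` of
the density of `u` among all matrices.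

Proof: as in `moment_sq` and `moment`, with the exponent `j = 32` instead of `2`: the power mean
inequality `(∑_{x ∈ T} f x)^32 ≤ |T|^31 ∑_{x ∈ T} (f x)^32` (e.g. `inner_le_nnorm_mul_nnorm` or
`pow_sum_div_card_le_sum_pow`) for `f = 2^(R - d)` and `coll_sum'` for `b = 2^32` give
`(∑ g, |{X ∈ u : rows g X = a}|^r)^32 ≤ (2^M / 2^R)^32 * (|u|^r)^31 * (M + 2^32 R)^R` with
`M = 2^n`, `R = r m`. Let `μ = |u| / M^m` (`u` nonempty). If `momC^32 μ^31 < (dens g u a)^32` then
`|{X ∈ u : rows g X = a}|^32 > momC^32 μ^31 (M/2)^(32 m)`; so the number `b` of these `g` satisfies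
`b^32 * (momC^32 μ^31 (M/2)^(32 m))^r ≤ (2^M / 2^R)^32 (μ M^m)^(31 r) (M + 2^32 R)^R`, i.e.
`b^32 * momC^(32 r) ≤ 2^(32 M) (1 + 2^32 R / M)^R ≤ 2^(32 M) exp (2^32 R^2 / M) ≤
2^(32 M) exp (2^32 r)` as `R^2 ≤ r M`. As `momC^(32 r) = 2^(32 r) exp (2^32 * 32 r)` this gives
`b^32 * 2^(32 r) ≤ 2^(32 M)`. (`Finset.card * x^r ≤ ∑` uses `x^r` for the real number
`x = |{X ∈ u : ...}|`; to avoid roots work with the sums of the 32-nd powers as written: for
`g` in the set, `(|{..}|^r)^32 ≥ (momC^32 μ^31 (M/2)^(32 m))^r`, and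
`b^32 * y ≤ (∑ g, |{..}|^r)^32` whenever each `(|{..}|^r)^32 ≥ y`, e.g. by taking the 32-nd root
of `y` by `Real.rpow` or the minimum over `g` in the set.) -/
theorem moment' {m n r : ℕ} (hr : r * m ^ 2 ≤ 2 ^ n) (u : Finset (Mat m n))
    (a : Fin m → Bool) :
    ((univ.filter (fun g : (Fin n → Bool) → Bool =>
      momC ^ 32 * ((u.card : ℝ) / ((2 : ℝ) ^ n) ^ m) ^ 31 < dens g u a ^ 32)).card : ℝ) * 2 ^ r ≤
      2 ^ 2 ^ n := by
  classical
  rcases u.eq_empty_or_nonempty with hu | hu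
  · subst hu
    have : (univ.filter (fun g : (Fin n → Bool) → Bool =>
      momC ^ 32 * (((∅ : Finset (Mat m n)).card : ℝ) / ((2 : ℝ) ^ n) ^ m) ^ 31 <
        dens g (∅ : Finset (Mat m n)) a ^ 32)) = ∅ := by
      refine Finset.filter_eq_empty_iff.2 (fun g _ => ?_)
      simp [dens]
    rw [this]
    simp
  -- abstract the two large constants
  obtain ⟨ex, hex0, hex1, hmomC⟩ : ∃ ex : ℝ, 0 < ex ∧
      (∀ x : ℝ, 0 ≤ x → ∀ R : ℕ, x * R ≤ r → (1 + (2 ^ 32 - 1) * x) ^ R ≤ ex ^ (32 * r)) ∧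
        momC = 2 * ex := by
    refine ⟨Real.exp (2 ^ 32), Real.exp_pos _, fun x hx R hxR => ?_, rfl⟩
    have hK : (0 : ℝ) ≤ 2 ^ 32 - 1 := by norm_num
    have h1 : 1 + (2 ^ 32 - 1) * x ≤ Real.exp ((2 ^ 32 - 1) * x) := by
      have := Real.add_one_le_exp ((2 ^ 32 - 1) * x)
      linarith
    have h2 : (1 + (2 ^ 32 - 1) * x) ^ R ≤ Real.exp ((2 ^ 32 - 1) * x) ^ R :=
      pow_le_pow_left₀ (by positivity) h1 R
    refine h2.trans ?_
    rw [← Real.exp_nat_mul, ← Real.exp_nat_mul]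
    refine Real.exp_le_exp.2 ?_
    have h3 : (R : ℝ) * ((2 ^ 32 - 1) * x) = (2 ^ 32 - 1) * (x * R) := by ring
    rw [h3]
    have h4 : (2 ^ 32 - 1) * (x * R) ≤ (2 ^ 32 - 1) * (r : ℝ) := mul_le_mul_of_nonneg_left hxR hK
    have hr0 : (0 : ℝ) ≤ r := Nat.cast_nonneg r
    refine h4.trans ?_
    push_cast
    have h5 : (2 ^ 32 - 1 : ℝ) ≤ 32 * 2 ^ 32 := by norm_num
    have h6 := mul_le_mul_of_nonneg_right h5 hr0
    linarith
  have hP := momJ_pow r hu a
  set M : ℝ := (2 : ℝ) ^ n with hM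
  have hM0 : 0 < M := by positivity
  set μ : ℝ := (u.card : ℝ) / M ^ m with hμ
  have huc : (0 : ℝ) < u.card := by exact_mod_cast hu.card_pos
  have hμ0 : 0 < μ := by positivity
  have hC0 : 0 < momC := by rw [hmomC]; positivity
  set G := univ.filter (fun g : (Fin n → Bool) → Bool =>
    momC ^ 32 * μ ^ 31 < dens g u a ^ 32) with hG
  set b : ℝ := (G.card : ℝ) with hb
  have hb0 : 0 ≤ b := Nat.cast_nonneg _
  set lam : ℝ := momC ^ 32 * μ ^ 31 * ((M / 2) ^ m) ^ 32 with hlam
  have hlam0 : 0 < lam := by positivity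
  set ρ : ℝ := (lam ^ r) ^ ((1 : ℝ) / 32) with hρ
  have hρ0 : 0 ≤ ρ := by positivity
  have hρ32 : ρ ^ 32 = lam ^ r := by
    rw [hρ, ← Real.rpow_natCast, ← Real.rpow_mul (by positivity)]
    norm_num
  have hGx : ∀ g ∈ G, ρ ≤ ((u.filter (fun X => rows g X = a)).card : ℝ) ^ r := by
    intro g hg
    have h2 : momC ^ 32 * μ ^ 31 < dens g u a ^ 32 := (Finset.mem_filter.1 hg).2
    have h3 : lam ≤ ((u.filter (fun X => rows g X = a)).card : ℝ) ^ 32 := by
      unfold dens at h2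
      rw [div_pow (((u.filter (fun X => rows g X = a)).card : ℝ)) _ 32,
        lt_div_iff₀ (by positivity)] at h2
      exact h2.le
    have h4 : ρ ^ 32 ≤ (((u.filter (fun X => rows g X = a)).card : ℝ) ^ r) ^ 32 := by
      rw [hρ32]
      have h5 := pow_le_pow_left₀ hlam0.le h3 r
      have h6 : (((u.filter (fun X => rows g X = a)).card : ℝ) ^ 32) ^ r =
          (((u.filter (fun X => rows g X = a)).card : ℝ) ^ r) ^ 32 := by
        rw [← pow_mul, ← pow_mul, mul_comm]
      rwa [h6] at h5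
    exact le_of_pow_le_pow_left₀ (by norm_num) (by positivity) h4
  have h1 : b * ρ ≤
      ∑ g : (Fin n → Bool) → Bool, ((u.filter (fun X => rows g X = a)).card : ℝ) ^ r := by
    calc b * ρ = ∑ g ∈ G, ρ := by rw [Finset.sum_const, nsmul_eq_mul]
      _ ≤ ∑ g ∈ G, ((u.filter (fun X => rows g X = a)).card : ℝ) ^ r :=
          Finset.sum_le_sum hGx
      _ ≤ _ := Finset.sum_le_sum_of_subset_of_nonneg (Finset.subset_univ _)
          (fun g _ _ => by positivity)
  have h2 : (b * ρ) ^ 32 ≤ (2 ^ 2 ^ n / 2 ^ (r * m)) ^ 32 *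
        (((u.card : ℝ) ^ r) ^ 31 * (M + (2 ^ 32 - 1) * (r * m)) ^ (r * m)) :=
    (pow_le_pow_left₀ (by positivity) h1 32).trans hP
  rw [mul_pow, hρ32] at h2
  have hucμ : (u.card : ℝ) = μ * M ^ m := by
    rw [hμ, div_mul_cancel₀]
    positivity
  have hgen : ∀ N : ℝ, ((N ^ m) ^ 32) ^ r = (N ^ (r * m)) ^ 32 := fun N => by ring
  have hlam2 : lam ^ r =
      momC ^ (32 * r) * (μ ^ (31 * r) * (M ^ (r * m)) ^ 32 / (2 ^ (r * m)) ^ 32) := by
    have h3 : lam ^ r = (momC ^ 32) ^ r * (μ ^ 31) ^ r * (((M / 2) ^ m) ^ 32) ^ r := by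
      rw [hlam, mul_pow, mul_pow]
    rw [h3, hgen (M / 2), div_pow M 2 (r * m), div_pow, ← pow_mul, ← pow_mul]
    ring
  have hfac : (M + (2 ^ 32 - 1) * (r * m)) ^ (r * m) =
      M ^ (r * m) * (1 + (2 ^ 32 - 1) * ((r : ℝ) * m / M)) ^ (r * m) := by
    rw [← mul_pow]
    congr 1
    field_simp
  have hexp : (1 + (2 ^ 32 - 1) * ((r : ℝ) * m / M)) ^ (r * m) ≤ ex ^ (32 * r) := by
    refine hex1 _ (by positivity) _ ?_
    push_cast
    rw [div_mul_eq_mul_div, div_le_iff₀ hM0]
    have h6 : (r : ℝ) * m ^ 2 ≤ M := by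
      rw [hM]
      exact_mod_cast hr
    have h7 : (0 : ℝ) ≤ r := Nat.cast_nonneg _
    nlinarith [mul_le_mul_of_nonneg_left h6 h7]
  have hu31 : ((u.card : ℝ) ^ r) ^ 31 = μ ^ (31 * r) * (M ^ (r * m)) ^ 31 := by
    rw [hucμ]
    ring
  rw [hlam2, hfac, hu31] at h2
  set W : ℝ := μ ^ (31 * r) * (M ^ (r * m)) ^ 32 / (2 ^ (r * m)) ^ 32 with hW
  have hW0 : 0 < W := div_pos (mul_pos (pow_pos hμ0 _) (pow_pos (pow_pos hM0 _) _))
    (pow_pos (pow_pos two_pos _) _)
  set Ex : ℝ := (1 + (2 ^ 32 - 1) * ((r : ℝ) * m / M)) ^ (r * m) with hEx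
  have h3 : (b ^ 32 * momC ^ (32 * r)) * W ≤ ((2 ^ 2 ^ n) ^ 32 * Ex) * W := by
    have h4 : (2 ^ 2 ^ n / 2 ^ (r * m)) ^ 32 * (μ ^ (31 * r) * (M ^ (r * m)) ^ 31 *
        (M ^ (r * m) * Ex)) = ((2 ^ 2 ^ n) ^ 32 * Ex) * W := by
      rw [hW, div_pow]
      ring
    rw [← h4]
    calc b ^ 32 * momC ^ (32 * r) * W = b ^ 32 * (momC ^ (32 * r) * W) := by ring
      _ ≤ _ := h2
  have h4 := le_of_mul_le_mul_right h3 hW0
  have h5 : b ^ 32 * momC ^ (32 * r) ≤ (2 ^ 2 ^ n) ^ 32 * ex ^ (32 * r) :=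
    h4.trans (mul_le_mul_of_nonneg_left hexp (by positivity))
  have h6 : (b * 2 ^ r) ^ 32 * ex ^ (32 * r) ≤ (2 ^ 2 ^ n) ^ 32 * ex ^ (32 * r) := by
    have h7 : (b * 2 ^ r) ^ 32 * ex ^ (32 * r) = b ^ 32 * momC ^ (32 * r) := by
      rw [hmomC, mul_pow, mul_pow, ← pow_mul, mul_comm r 32]
      ring
    rw [h7]
    exact h5
  have h7 := le_of_mul_le_mul_right h6 (pow_pos hex0 _)
  exact le_of_pow_le_pow_left₀ (by norm_num) (by positivity) h7

end Pool.Agent.H.MP_027d00_lc.SComp
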