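import Pool.Agent.H.MP_027d00_lc.strong.KW
import Pool.Agent.H.MP_027d00_lc.strong.MomentJ
import Pool.Agent.H.MP_027d00_lc.strong.Balanced

/-!
# The good inner functions and their number
-/

set_option autoImplicit false

open Finset

namespace Pool.Agent.H.MP_027d00_lc.SComp

open UComp

/-- The matrices accepted by `F` under the assignment of Alice for the type `a`. -/
def setA {m n : ℕ} (F : MF (Lit m n)) (a : Fin m → Bool) : Finset (Mat m n) :=
  univ.filter (fun X => F.eval (asgA a X) = true)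

/-- The matrices rejected by `F` under the assignment of Bob for the type `b`. -/
def setB {m n : ℕ} (F : MF (Lit m n)) (b : Fin m → Bool) : Finset (Mat m n) :=
  univ.filter (fun Y => F.eval (asgB b Y) = false)

/-- The good inner functions. -/
structure GoodJ (m : ℕ) {n : ℕ} (w : ℕ) (g : (Fin n → Bool) → Bool) : Prop where
  balanced : ∀ c : Bool, (1 - 1 / (2 * (m : ℝ))) * (2 ^ n / 2) ≤
    ((univ.filter (fun x => g x = c)).card : ℝ)
  densA : ∀ F : MF (Lit m n), F.size ≤ w → ∀ a : Fin m → Bool,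
    dens g (setA F a) a ^ 32 ≤ momC ^ 32 * (((setA F a).card : ℝ) / ((2 : ℝ) ^ n) ^ m) ^ 31
  densB : ∀ F : MF (Lit m n), F.size ≤ w → ∀ b : Fin m → Bool,
    dens g (setB F b) b ^ 32 ≤ momC ^ 32 * (((setB F b).card : ℝ) / ((2 : ℝ) ^ n) ^ m) ^ 31
  hard : ∀ F : MF (Lit m n), F.size ≤ w → ∀ (a : Fin m → Bool) (X : Mat m n) (i : Fin m),
    ¬ ∀ x : Fin n → Bool, F.eval (asgA a (Function.update X i x)) = (g x == a i)

/-- The formulas of size at most `w`, the numbers. -/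
private theorem good_pow (k : ℕ) (hk : 1 ≤ k) : 4 * k + 3 ≤ 2 ^ (3 * k) := by
  rw [pow_mul]
  induction k, hk using Nat.le_induction with
  | base => norm_num
  | succ k hk ih =>
    rw [pow_succ]
    omega

/-- The numerical part of `good_most`. -/
private theorem good_num {m n w ρ r M q : ℕ} (hm : 1 ≤ m) (hn : 1 ≤ n)
    (hq : m ^ 3 * n ≤ q) (hM : 100 * q ≤ M) (hρ : ρ * (100 * q) ≤ M)
    (hw : w * (20 * m ^ 3 * n) ≤ M) (hr : r = M / m ^ 2) :
    3 * (m * n) * (2 * w) + m + ρ + 3 ≤ r ∧ r ≤ M ∧ r * m ^ 2 ≤ M ∧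
      3 * (m * n) * (2 * w) + 2 * m + m * n + ρ + 3 ≤ M ∧ (ρ + 3) * (8 * m ^ 2) ≤ M := by
  have hm2 : 1 ≤ m ^ 2 := Nat.one_le_pow _ _ hm
  have hm3 : m ^ 3 = m * m ^ 2 := by ring
  have hm2q : m ^ 2 ≤ q := by
    have : m ^ 2 * 1 ≤ m ^ 3 * n := Nat.mul_le_mul (Nat.pow_le_pow_right hm (by norm_num)) hn
    omega
  have hm3q : m ^ 3 ≤ q := by
    have : m ^ 3 * 1 ≤ m ^ 3 * n := Nat.mul_le_mul le_rfl hn
    omega
  have hmq : m ≤ q := by
    have : m * 1 ≤ m * m ^ 2 := Nat.mul_le_mul le_rfl hm2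
    omega
  have hmnq : m * n ≤ q := by
    have : m * n ≤ m ^ 3 * n := Nat.mul_le_mul (by
      have : m * 1 ≤ m * m ^ 2 := Nat.mul_le_mul le_rfl hm2
      omega) le_rfl
    omega
  have hρm : ρ * m ^ 2 ≤ ρ * q := Nat.mul_le_mul le_rfl hm2q
  have hρ1 : ρ * 1 ≤ ρ * q := Nat.mul_le_mul le_rfl (hm2.trans hm2q)
  have hρ' : ρ * (100 * q) = 100 * (ρ * q) := by ring
  have hw' : w * (20 * m ^ 3 * n) = 20 * (m ^ 3 * n * w) := by ring
  have hw2 : 3 * (m * n) * (2 * w) * m ^ 2 = 6 * (m ^ 3 * n * w) := by ring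
  have hw3 : 3 * (m * n) * (2 * w) * 1 ≤ 3 * (m * n) * (2 * w) * m ^ 2 :=
    Nat.mul_le_mul le_rfl hm2
  have hrr : r * m ^ 2 ≤ M := by rw [hr]; exact Nat.div_mul_le_self _ _
  refine ⟨?_, ?_, hrr, ?_, ?_⟩
  · rw [hr, Nat.le_div_iff_mul_le hm2]
    have : (3 * (m * n) * (2 * w) + m + ρ + 3) * m ^ 2 =
        3 * (m * n) * (2 * w) * m ^ 2 + m ^ 3 + ρ * m ^ 2 + 3 * m ^ 2 := by ring
    omega
  · rw [hr]; exact Nat.div_le_self _ _
  · omega
  · have : (ρ + 3) * (8 * m ^ 2) = 8 * (ρ * m ^ 2) + 24 * m ^ 2 := by ring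
    omega

/-- Almost all functions are good.

Proof: let `M = 2^n`, `w = M / (20 m^3 n)`, `r = M / m^2`, `ρ = M / (K m^K n^K)`. By `MF.count`
(`|Lit m n| = 4 m n`) there are at most `N = (4 m n + 3)^(2w)` formulas `F`, and
`4mn + 3 ≤ 7 m n ≤ 2^(m+n+1) ≤ 2^(3mn)` (`m ≤ 2^(m-1)` and so on), so
`N ≤ 2^(6 m n w)` and `6 m n w ≤ 0.3 M / m^2`. The functions `g` that are not good:
* not balanced: at most `2 * 2^M exp (-M / (8m²))` (`rare_card`, two values of `c`);
* bad for `(F, a)` in `densA` or `densB`: at most `2 * N * 2^m * 2^M / 2^r` (`moment'`);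
* `hard` fails for `(F, a, X, i)`: one `g` for each, at most `N * 2^m * 2^(m n) * m`.
As `exp (-x) ≤ 2^(-x)`, it is enough that `ρ + 3 ≤ M / (8 m²)`, `ρ + m + 4 ≤ 0.7 M / m²` and
`ρ + 2 m + m n + 2 ≤ 0.7 M`, which hold for `K = 100` by `K m^K n^K ≤ M`: then each of
the three numbers is at most `2^(M - 2 - ρ)`. -/
theorem goodJ_most : ∃ K : ℕ, 1 ≤ K ∧ ∀ m n : ℕ, 1 ≤ m → 1 ≤ n → K * m ^ K * n ^ K ≤ 2 ^ n →
    ∃ Bad : Finset ((Fin n → Bool) → Bool),
      Bad.card * 2 ^ (2 ^ n / (K * m ^ K * n ^ K)) ≤ 2 ^ 2 ^ n ∧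
      ∀ g, g ∉ Bad → GoodJ m (2 ^ n / (20 * m ^ 3 * n)) g := by
  classical
  refine ⟨100, by norm_num, fun m n hm hn hK => ?_⟩
  set ρ : ℕ := 2 ^ n / (100 * m ^ 100 * n ^ 100) with hρdef
  set w : ℕ := 2 ^ n / (20 * m ^ 3 * n) with hwdef
  set r : ℕ := 2 ^ n / m ^ 2 with hrdef
  have hq : m ^ 3 * n ≤ m ^ 100 * n ^ 100 :=
    Nat.mul_le_mul (Nat.pow_le_pow_right hm (by norm_num))
      (Nat.le_self_pow (by norm_num) n)
  obtain ⟨h1, h2, h3, h4, h5⟩ := good_num (ρ := ρ) (w := w) (r := r) (M := 2 ^ n)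
    (q := m ^ 100 * n ^ 100) hm hn hq (by rw [← mul_assoc]; exact hK)
    (by rw [hρdef, ← mul_assoc 100 (m ^ 100) (n ^ 100)]; exact Nat.div_mul_le_self _ _)
    (by rw [hwdef]; exact Nat.div_mul_le_self _ _) hrdef
  obtain ⟨S, hS, hScard⟩ := MF.count (V := Lit m n) w
  have hScard' : S.card ≤ 2 ^ (3 * (m * n) * (2 * w)) := by
    have hL : Fintype.card (Lit m n) = 4 * (m * n) := by
      simp only [Lit, Fintype.card_prod, Fintype.card_fin, Fintype.card_bool]
      ring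
    rw [hL] at hScard
    refine hScard.trans ?_
    rw [pow_mul 2 (3 * (m * n)) (2 * w)]
    exact Nat.pow_le_pow_left (good_pow (m * n) (Nat.mul_pos hm hn)) _
  -- the parts
  set Bc : Bool → Finset ((Fin n → Bool) → Bool) := fun c =>
    univ.filter (fun g : (Fin n → Bool) → Bool =>
      ((univ.filter (fun x => g x = c)).card : ℝ) < (1 - 1 / (2 * (m : ℝ))) * (2 ^ n / 2))
    with hBc
  set BA : MF (Lit m n) × (Fin m → Bool) → Finset ((Fin n → Bool) → Bool) := fun p =>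
    univ.filter (fun g : (Fin n → Bool) → Bool =>
      momC ^ 32 * (((setA p.1 p.2).card : ℝ) / ((2 : ℝ) ^ n) ^ m) ^ 31 <
        dens g (setA p.1 p.2) p.2 ^ 32) with hBA
  set BB : MF (Lit m n) × (Fin m → Bool) → Finset ((Fin n → Bool) → Bool) := fun p =>
    univ.filter (fun g : (Fin n → Bool) → Bool =>
      momC ^ 32 * (((setB p.1 p.2).card : ℝ) / ((2 : ℝ) ^ n) ^ m) ^ 31 <
        dens g (setB p.1 p.2) p.2 ^ 32) with hBB
  set φ : MF (Lit m n) × ((Fin m → Bool) × Mat m n × Fin m) → ((Fin n → Bool) → Bool) :=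
    fun p x => (p.1.eval (asgA p.2.1 (Function.update p.2.2.1 p.2.2.2 x)) == p.2.1 p.2.2.2)
    with hφ
  set P : Finset (MF (Lit m n) × (Fin m → Bool)) := S ×ˢ univ with hP
  set Bad : Finset ((Fin n → Bool) → Bool) :=
    Bc true ∪ Bc false ∪ P.biUnion BA ∪ P.biUnion BB ∪ (S ×ˢ univ).image φ with hBad
  -- the sizes
  have hPcard : P.card = S.card * 2 ^ m := by
    rw [hP, Finset.card_product, Finset.card_univ, Fintype.card_fun, Fintype.card_bool,
      Fintype.card_fin]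
  have hBcard : ∀ c, (Bc c).card * 2 ^ (ρ + 3) ≤ 2 ^ 2 ^ n := by
    intro c
    have hr1 := rare_card (m := m) (n := n) hm c
    have hm0 : (0 : ℝ) < m := by exact_mod_cast hm
    have h5' : ((ρ + 3 : ℕ) : ℝ) ≤ 2 ^ n / (8 * (m : ℝ) ^ 2) := by
      rw [le_div_iff₀ (by positivity)]
      exact_mod_cast h5
    have he : (2 : ℝ) ^ (ρ + 3) ≤ Real.exp (2 ^ n / (8 * (m : ℝ) ^ 2)) := by
      calc (2 : ℝ) ^ (ρ + 3) ≤ (Real.exp 1) ^ (ρ + 3) := by
            refine pow_le_pow_left₀ (by norm_num) ?_ _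
            have := Real.add_one_le_exp (1 : ℝ)
            linarith
        _ = Real.exp ((ρ + 3 : ℕ) : ℝ) := by rw [← Real.exp_nat_mul, mul_one]
        _ ≤ _ := Real.exp_le_exp.2 h5'
    have : ((Bc c).card : ℝ) * 2 ^ (ρ + 3) ≤ 2 ^ 2 ^ n := by
      calc ((Bc c).card : ℝ) * 2 ^ (ρ + 3) ≤
            (2 ^ 2 ^ n * Real.exp (-(2 ^ n / (8 * (m : ℝ) ^ 2)))) *
              Real.exp (2 ^ n / (8 * (m : ℝ) ^ 2)) :=
            mul_le_mul hr1 he (by positivity) (by positivity)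
        _ = 2 ^ 2 ^ n := by
            rw [mul_assoc, ← Real.exp_add, neg_add_cancel, Real.exp_zero, mul_one]
    exact_mod_cast this
  have hpart : ∀ B : MF (Lit m n) × (Fin m → Bool) → Finset ((Fin n → Bool) → Bool),
      (∀ p, ((B p).card : ℝ) * 2 ^ r ≤ 2 ^ 2 ^ n) →
      (P.biUnion B).card * 2 ^ (ρ + 3) ≤ 2 ^ 2 ^ n := by
    intro B hB
    have hB' : ∀ p ∈ P, (B p).card ≤ 2 ^ (2 ^ n - r) := by
      intro p _
      have h6 : (B p).card * 2 ^ r ≤ 2 ^ 2 ^ n := by exact_mod_cast hB p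
      have h7 : 2 ^ 2 ^ n = 2 ^ (2 ^ n - r) * 2 ^ r := by
        rw [← pow_add]; congr 1; omega
      rw [h7] at h6
      exact Nat.le_of_mul_le_mul_right h6 (by positivity)
    have h8 := Finset.card_biUnion_le_card_mul P B _ hB'
    calc (P.biUnion B).card * 2 ^ (ρ + 3)
        ≤ (P.card * 2 ^ (2 ^ n - r)) * 2 ^ (ρ + 3) := Nat.mul_le_mul_right _ h8
      _ ≤ ((2 ^ (3 * (m * n) * (2 * w)) * 2 ^ m) * 2 ^ (2 ^ n - r)) * 2 ^ (ρ + 3) := by
          rw [hPcard]
          exact Nat.mul_le_mul_right _ (Nat.mul_le_mul_right _ (Nat.mul_le_mul_right _ hScard'))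
      _ = 2 ^ (3 * (m * n) * (2 * w) + m + (2 ^ n - r) + (ρ + 3)) := by
          rw [pow_add 2 (3 * (m * n) * (2 * w) + m + (2 ^ n - r)) (ρ + 3),
            pow_add 2 (3 * (m * n) * (2 * w) + m) (2 ^ n - r),
            pow_add 2 (3 * (m * n) * (2 * w)) m]
      _ ≤ 2 ^ 2 ^ n := Nat.pow_le_pow_right (by norm_num) (by omega)
  have hAcard := hpart BA (fun p => moment' (r := r) h3 (setA p.1 p.2) p.2)
  have hBBcard := hpart BB (fun p => moment' (r := r) h3 (setB p.1 p.2) p.2)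
  have hHcard : (((S ×ˢ univ).image φ).card) * 2 ^ (ρ + 3) ≤ 2 ^ 2 ^ n := by
    have hM : Fintype.card (Mat m n) = 2 ^ (n * m) := by
      simp only [Mat, Fintype.card_fun, Fintype.card_bool, Fintype.card_fin]
      rw [← pow_mul]
    have h6 : ((S ×ˢ (univ : Finset ((Fin m → Bool) × Mat m n × Fin m))).image φ).card ≤
        S.card * (2 ^ m * (2 ^ (n * m) * m)) := by
      refine Finset.card_image_le.trans ?_
      rw [Finset.card_product, Finset.card_univ, Fintype.card_prod, Fintype.card_prod, hM,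
        Fintype.card_fun, Fintype.card_bool, Fintype.card_fin]
    have hm2 : m ≤ 2 ^ m := Nat.lt_two_pow_self.le
    calc (((S ×ˢ univ).image φ).card) * 2 ^ (ρ + 3)
        ≤ (S.card * (2 ^ m * (2 ^ (n * m) * m))) * 2 ^ (ρ + 3) := Nat.mul_le_mul_right _ h6
      _ ≤ (2 ^ (3 * (m * n) * (2 * w)) * (2 ^ m * (2 ^ (n * m) * 2 ^ m))) * 2 ^ (ρ + 3) :=
          Nat.mul_le_mul_right _ (Nat.mul_le_mul hScard' (Nat.mul_le_mul_left _
            (Nat.mul_le_mul_left _ hm2)))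
      _ = 2 ^ (3 * (m * n) * (2 * w) + (m + (n * m + m)) + (ρ + 3)) := by
          rw [pow_add 2 (3 * (m * n) * (2 * w) + (m + (n * m + m))) (ρ + 3),
            pow_add 2 (3 * (m * n) * (2 * w)) (m + (n * m + m)), pow_add 2 m (n * m + m),
            pow_add 2 (n * m) m]
      _ ≤ 2 ^ 2 ^ n := Nat.pow_le_pow_right (by norm_num) (by
          have : n * m = m * n := Nat.mul_comm _ _
          omega)
  refine ⟨Bad, ?_, fun g hg => ?_⟩
  · have hc : Bad.card ≤ (Bc true).card + (Bc false).card + (P.biUnion BA).card +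
        (P.biUnion BB).card + ((S ×ˢ univ).image φ).card := by
      rw [hBad]
      refine (Finset.card_union_le _ _).trans (Nat.add_le_add_right ?_ _)
      refine (Finset.card_union_le _ _).trans (Nat.add_le_add_right ?_ _)
      refine (Finset.card_union_le _ _).trans (Nat.add_le_add_right ?_ _)
      exact Finset.card_union_le _ _
    have hp : 2 ^ (ρ + 3) = 8 * 2 ^ ρ := by rw [pow_add]; ring
    have e1 := hBcard true
    have e2 := hBcard false
    rw [hp] at e1 e2 hAcard hBBcard hHcard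
    have h8 : Bad.card * 2 ^ ρ ≤ ((Bc true).card + (Bc false).card + (P.biUnion BA).card +
        (P.biUnion BB).card + ((S ×ˢ univ).image φ).card) * 2 ^ ρ := Nat.mul_le_mul_right _ hc
    have f1 : (Bc true).card * (8 * 2 ^ ρ) = 8 * ((Bc true).card * 2 ^ ρ) := by ring
    have f2 : (Bc false).card * (8 * 2 ^ ρ) = 8 * ((Bc false).card * 2 ^ ρ) := by ring
    have f3 : (P.biUnion BA).card * (8 * 2 ^ ρ) = 8 * ((P.biUnion BA).card * 2 ^ ρ) := by ring
    have f4 : (P.biUnion BB).card * (8 * 2 ^ ρ) = 8 * ((P.biUnion BB).card * 2 ^ ρ) := by ring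
    have f5 : (((S ×ˢ univ).image φ).card) * (8 * 2 ^ ρ) =
        8 * ((((S ×ˢ univ).image φ).card) * 2 ^ ρ) := by ring
    rw [f1] at e1
    rw [f2] at e2
    rw [f3] at hAcard
    rw [f4] at hBBcard
    rw [f5] at hHcard
    rw [add_mul, add_mul, add_mul, add_mul] at h8
    omega
  · rw [hBad] at hg
    simp only [Finset.mem_union, not_or] at hg
    obtain ⟨⟨⟨⟨g1, g2⟩, g3⟩, g4⟩, g5⟩ := hg
    refine ⟨?_, ?_, ?_, ?_⟩
    · intro c
      by_contra hcon
      push Not at hcon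
      cases c
      · exact g2 (by rw [hBc]; exact Finset.mem_filter.2 ⟨Finset.mem_univ _, hcon⟩)
      · exact g1 (by rw [hBc]; exact Finset.mem_filter.2 ⟨Finset.mem_univ _, hcon⟩)
    · intro F hF a
      by_contra hcon
      push Not at hcon
      refine g3 (Finset.mem_biUnion.2 ⟨(F, a), ?_, ?_⟩)
      · rw [hP]; exact Finset.mem_product.2 ⟨hS F hF, Finset.mem_univ _⟩
      · rw [hBA]; exact Finset.mem_filter.2 ⟨Finset.mem_univ _, hcon⟩
    · intro F hF b
      by_contra hcon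
      push Not at hcon
      refine g4 (Finset.mem_biUnion.2 ⟨(F, b), ?_, ?_⟩)
      · rw [hP]; exact Finset.mem_product.2 ⟨hS F hF, Finset.mem_univ _⟩
      · rw [hBB]; exact Finset.mem_filter.2 ⟨Finset.mem_univ _, hcon⟩
    · intro F hF a X i hcon
      refine g5 (Finset.mem_image.2 ⟨(F, (a, X, i)), ?_, ?_⟩)
      · exact Finset.mem_product.2 ⟨hS F hF, Finset.mem_univ _⟩
      · funext x
        simp only [hφ]
        rw [hcon x]
        cases g x <;> cases a i <;> rfl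

end Pool.Agent.H.MP_027d00_lc.SComp
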