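import Mathlib

/-!
# Greedy covering with costs
-/

set_option autoImplicit false

open Finset

namespace Pool.Agent.H.MP_027d00_lc.SComp

/-- Greedy covering: if under the weights `π` the cost is at most `K` and each element of `U` is
covered with weight at least `η`, then `U` is covered at the cost `K / η * (1 + log |U|)`.

Proof: strong induction on `|U|`. If `U = ∅` take `J = ∅` (and `K ≥ 0`). Otherwise
`∑ i, π i * (|U ∩ R_i| - (η |U| / K) c i) ≥ 0`, where `K > 0` (as some `π i > 0` since `η > 0`), so
there is `i` with `π i > 0` and `x := |U ∩ R_i| ≥ (η |U| / K) c i > 0`, i.e. `c i ≤ (K/η) (x/|U|)`.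
Let `U' = U \ R_i`. If `U'` is empty take `J = {i}`. Otherwise `|U'| = |U| - x` and by induction
`J'` for `U'`; `J = insert i J'` costs at most
`(K/η) (x/|U| + 1 + log (|U| - x)) ≤ (K/η) (1 + log |U|)` as `log (1 - x/|U|) ≤ - x/|U|`. -/
theorem greedy {ι Ω : Type} [Fintype ι] (R : ι → Ω → Prop) [∀ i ω, Decidable (R i ω)]
    (π c : ι → ℝ) (hπ : ∀ i, 0 ≤ π i) (hc : ∀ i, 0 < c i) {K η : ℝ} (hK : ∑ i, π i * c i ≤ K)
    (hη : 0 < η) (U : Finset Ω) (hU : ∀ ω ∈ U, η ≤ ∑ i, π i * (if R i ω then 1 else 0)) :
    ∃ J : Finset ι, (∀ ω ∈ U, ∃ i ∈ J, R i ω) ∧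
      ∑ i ∈ J, c i ≤ K / η * (1 + Real.log U.card) := by
  classical
  obtain ⟨n, hn⟩ : ∃ n, n = U.card := ⟨_, rfl⟩
  induction n using Nat.strong_induction_on generalizing U with
  | _ n ih =>
    have hK0 : 0 ≤ K := le_trans (Finset.sum_nonneg fun i _ => mul_nonneg (hπ i) (hc i).le) hK
    rcases U.eq_empty_or_nonempty with hU0 | ⟨ω0, hω0⟩
    · refine ⟨∅, ?_, ?_⟩
      · intro ω hω
        rw [hU0] at hω
        simp at hω
      · rw [hU0]
        simp only [Finset.sum_empty, Finset.card_empty, Nat.cast_zero, Real.log_zero, add_zero,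
          mul_one]
        positivity
    · have hnpos : 0 < n := by rw [hn]; exact Finset.card_pos.2 ⟨ω0, hω0⟩
      have hnR : (0 : ℝ) < n := by exact_mod_cast hnpos
      obtain ⟨i0, hi0⟩ : ∃ i, 0 < π i := by
        by_contra hcon
        push Not at hcon
        have h1 := hU ω0 hω0
        have h2 : ∑ i, π i * (if R i ω0 then (1 : ℝ) else 0) = 0 := by
          refine Finset.sum_eq_zero fun i _ => ?_
          rw [le_antisymm (hcon i) (hπ i), zero_mul]
        linarith
      have hKpos : 0 < K := by
        refine lt_of_lt_of_le (mul_pos hi0 (hc i0)) (le_trans ?_ hK)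
        exact Finset.single_le_sum (f := fun i => π i * c i)
          (fun i _ => mul_nonneg (hπ i) (hc i).le) (Finset.mem_univ i0)
      have hsum : η * n ≤ ∑ i, π i * ((U.filter (R i)).card : ℝ) := by
        have e : ∑ i, π i * ((U.filter (R i)).card : ℝ) =
            ∑ ω ∈ U, ∑ i, π i * (if R i ω then (1 : ℝ) else 0) := by
          rw [Finset.sum_comm]
          refine Finset.sum_congr rfl fun i _ => ?_
          rw [← Finset.mul_sum, Finset.card_filter]
          push_cast
          rfl
        rw [e]
        have h1 : ∑ _ω ∈ U, η ≤ ∑ ω ∈ U, ∑ i, π i * (if R i ω then (1 : ℝ) else 0) :=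
          Finset.sum_le_sum hU
        rw [Finset.sum_const, nsmul_eq_mul, ← hn] at h1
        linarith
      obtain ⟨i, hi, hix⟩ : ∃ i, 0 < π i ∧ (η * n / K) * c i ≤ ((U.filter (R i)).card : ℝ) := by
        by_contra hcon
        push Not at hcon
        have h1 : ∑ i, π i * ((U.filter (R i)).card : ℝ) < ∑ i, π i * ((η * n / K) * c i) := by
          refine Finset.sum_lt_sum ?_ ⟨i0, Finset.mem_univ i0, ?_⟩
          · intro i _
            rcases (hπ i).eq_or_lt with h | h
            · rw [← h, zero_mul, zero_mul]
            · exact (mul_lt_mul_of_pos_left (hcon i h) h).le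
          · exact mul_lt_mul_of_pos_left (hcon i0 hi0) hi0
        have h2 : ∑ i, π i * ((η * n / K) * c i) = (η * n / K) * ∑ i, π i * c i := by
          rw [Finset.mul_sum]
          refine Finset.sum_congr rfl fun i _ => ?_
          ring
        have h3 : (η * n / K) * ∑ i, π i * c i ≤ (η * n / K) * K :=
          mul_le_mul_of_nonneg_left hK (by positivity)
        have h4 : (η * n / K) * K = η * n := div_mul_cancel₀ _ hKpos.ne'
        linarith
      obtain ⟨x, hx⟩ : ∃ x, x = (U.filter (R i)).card := ⟨_, rfl⟩
      rw [← hx] at hix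
      have hxpos : (0 : ℝ) < x := lt_of_lt_of_le (mul_pos (by positivity) (hc i)) hix
      have hxn : x ≤ n := by rw [hx, hn]; exact Finset.card_filter_le _ _
      have hxnR : (x : ℝ) ≤ n := by exact_mod_cast hxn
      have hci : c i ≤ K / η * (x / n) := by
        have h1 : c i = (K / (η * n)) * ((η * n / K) * c i) := by
          field_simp
        have h2 : K / η * ((x : ℝ) / n) = (K / (η * n)) * x := by
          field_simp
        rw [h1, h2]
        exact mul_le_mul_of_nonneg_left hix (by positivity)
      have hcard : (U.filter fun ω => ¬ R i ω).card = n - x := by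
        have h1 := Finset.card_filter_add_card_filter_not (s := U) (R i)
        omega
      rcases Nat.eq_zero_or_pos (n - x) with h0 | h0
      · refine ⟨{i}, ?_, ?_⟩
        · intro ω hω
          refine ⟨i, Finset.mem_singleton_self i, ?_⟩
          by_contra hR
          rw [h0] at hcard
          have h1 : ω ∈ U.filter fun ω => ¬ R i ω := Finset.mem_filter.2 ⟨hω, hR⟩
          rw [Finset.card_eq_zero.1 hcard] at h1
          simp at h1
        · rw [Finset.sum_singleton, ← hn]
          have h1 : (x : ℝ) / n ≤ 1 := (div_le_one hnR).2 hxnR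
          have h2 : 0 ≤ Real.log n := Real.log_natCast_nonneg n
          refine hci.trans (mul_le_mul_of_nonneg_left ?_ (by positivity))
          linarith
      · have hxposN : 0 < x := by exact_mod_cast hxpos
        obtain ⟨J, hJ1, hJ2⟩ := ih (n - x) (by omega) (U.filter fun ω => ¬ R i ω)
          (fun ω hω => hU ω (Finset.mem_filter.1 hω).1) hcard.symm
        refine ⟨insert i J, ?_, ?_⟩
        · intro ω hω
          by_cases hR : R i ω
          · exact ⟨i, Finset.mem_insert_self i J, hR⟩
          · obtain ⟨j, hj, hjR⟩ := hJ1 ω (Finset.mem_filter.2 ⟨hω, hR⟩)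
            exact ⟨j, Finset.mem_insert_of_mem hj, hjR⟩
        · have h1 : ∑ j ∈ insert i J, c j ≤ c i + ∑ j ∈ J, c j := by
            by_cases hiJ : i ∈ J
            · rw [Finset.insert_eq_of_mem hiJ]
              linarith [(hc i).le]
            · rw [Finset.sum_insert hiJ]
          rw [hcard] at hJ2
          rw [← hn]
          have hlt : x < n := by omega
          have hltR : (x : ℝ) < n := by exact_mod_cast hlt
          have h2 : Real.log ((n - x : ℕ) : ℝ) + x / n ≤ Real.log n := by
            have h3 : Real.log (((n : ℝ) - x) / n) ≤ ((n : ℝ) - x) / n - 1 :=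
              Real.log_le_sub_one_of_pos (div_pos (by linarith) hnR)
            rw [Real.log_div (by linarith) hnR.ne'] at h3
            have h4 : ((n : ℝ) - x) / n - 1 = - (x / n) := by
              field_simp
              ring
            rw [Nat.cast_sub hxn]
            linarith
          calc ∑ j ∈ insert i J, c j ≤ c i + ∑ j ∈ J, c j := h1
            _ ≤ K / η * (x / n) + K / η * (1 + Real.log ((n - x : ℕ) : ℝ)) := add_le_add hci hJ2
            _ = K / η * (1 + (Real.log ((n - x : ℕ) : ℝ) + x / n)) := by ring
            _ ≤ K / η * (1 + Real.log n) := by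
                refine mul_le_mul_of_nonneg_left ?_ (by positivity)
                linarith

end Pool.Agent.H.MP_027d00_lc.SComp
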