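import Pool.Agent.H.MP_027d00_lc.strong.OneDim

/-!
# Reverse hypercontractivity for sets
-/

set_option autoImplicit false

open Finset

namespace Pool.Agent.H.MP_027d00_lc.SComp

variable {Q : Type} [Fintype Q] [DecidableEq Q]

/-- The point `Z` with the coordinates `i` with `(κ i).1 = true` replaced by `(κ i).2`. -/
def mix {m : ℕ} (κ : Fin m → Bool × Q) (Z : Fin m → Q) : Fin m → Q :=
  fun i => if (κ i).1 = true then (κ i).2 else Z i

/-- The probability of `κ`: each coordinate is marked with probability `θ`, and gets a uniform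
value. -/
noncomputable def wt (θ : ℝ) {m : ℕ} (κ : Fin m → Bool × Q) : ℝ :=
  ∏ i, (if (κ i).1 = true then θ else 1 - θ) / (Fintype.card Q : ℝ)

/-- The probability that the point obtained from `Z` by resampling each coordinate with
probability `θ` lies in `v`. -/
noncomputable def TT (θ : ℝ) {m : ℕ} (v : Finset (Fin m → Q)) (Z : Fin m → Q) : ℝ :=
  ∑ κ : Fin m → Bool × Q, wt θ κ * (if mix κ Z ∈ v then 1 else 0)

theorem RH_card_pi (m : ℕ) : ((univ : Finset (Fin m → Q)).card : ℝ) = (Fintype.card Q : ℝ) ^ m := by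
  rw [Finset.card_univ, Fintype.card_fun, Fintype.card_fin]
  push_cast
  rfl

/-- the slices of a set -/
def RH_S {m : ℕ} (v : Finset (Fin (m + 1) → Q)) (x : Q) : Finset (Fin m → Q) :=
  univ.filter (fun Y => (Fin.cons x Y : Fin (m + 1) → Q) ∈ v)

theorem RH_mem_S {m : ℕ} (v : Finset (Fin (m + 1) → Q)) (x : Q) (Y : Fin m → Q) :
    Y ∈ RH_S v x ↔ (Fin.cons x Y : Fin (m + 1) → Q) ∈ v := by
  simp [RH_S]

theorem RH_sum_cons {m : ℕ} {R : Type} [Fintype R] (f : (Fin (m + 1) → R) → ℝ) :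
    ∑ Z, f Z = ∑ x : R, ∑ Y : Fin m → R, f (Fin.cons x Y) := by
  rw [← (Fin.consEquiv (fun _ : Fin (m + 1) => R)).sum_comp, Fintype.sum_prod_type]
  rfl

theorem RH_card_v {m : ℕ} (v : Finset (Fin (m + 1) → Q)) :
    ∑ x, ((RH_S v x).card : ℝ) = (v.card : ℝ) := by
  have h1 : (v.card : ℝ) = ∑ Z : Fin (m + 1) → Q, (if Z ∈ v then (1 : ℝ) else 0) := by
    simp
  rw [h1, RH_sum_cons]
  refine Finset.sum_congr rfl (fun x _ => ?_)
  have h2 : ((RH_S v x).card : ℝ) = ∑ Y : Fin m → Q, (if Y ∈ RH_S v x then (1 : ℝ) else 0) := by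
    simp
  rw [h2]
  refine Finset.sum_congr rfl (fun Y _ => ?_)
  simp only [RH_mem_S]

theorem RH_wt_cons {m : ℕ} (θ : ℝ) (k : Bool × Q) (κ : Fin m → Bool × Q) :
    wt θ (Fin.cons k κ : Fin (m + 1) → Bool × Q) =
      ((if k.1 = true then θ else 1 - θ) / (Fintype.card Q : ℝ)) * wt θ κ := by
  unfold wt
  rw [Fin.prod_univ_succ]
  simp only [Fin.cons_zero, Fin.cons_succ]

theorem RH_mix_cons {m : ℕ} (k : Bool × Q) (κ : Fin m → Bool × Q) (x : Q) (Z : Fin m → Q) :
    mix (Fin.cons k κ : Fin (m + 1) → Bool × Q) (Fin.cons x Z : Fin (m + 1) → Q) =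
      (Fin.cons (if k.1 = true then k.2 else x) (mix κ Z) : Fin (m + 1) → Q) := by
  funext i
  refine Fin.cases ?_ (fun j => ?_) i
  · simp only [mix, Fin.cons_zero]
  · simp only [mix, Fin.cons_succ]

theorem RH_TT_cons {m : ℕ} (θ : ℝ) (v : Finset (Fin (m + 1) → Q)) (x : Q) (Z : Fin m → Q) :
    TT θ v (Fin.cons x Z : Fin (m + 1) → Q) =
      ∑ j, ((if j = x then 1 - θ else 0) + θ / (Fintype.card Q : ℝ)) * TT θ (RH_S v j) Z := by
  haveI : Nonempty Q := ⟨x⟩
  have hM : (Fintype.card Q : ℝ) ≠ 0 := by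
    exact_mod_cast Fintype.card_ne_zero
  have h1 : TT θ v (Fin.cons x Z : Fin (m + 1) → Q) = ∑ k : Bool × Q,
      ((if k.1 = true then θ else 1 - θ) / (Fintype.card Q : ℝ)) *
        TT θ (RH_S v (if k.1 = true then k.2 else x)) Z := by
    unfold TT
    rw [RH_sum_cons]
    refine Finset.sum_congr rfl (fun k _ => ?_)
    rw [Finset.mul_sum]
    refine Finset.sum_congr rfl (fun κ _ => ?_)
    rw [RH_wt_cons, RH_mix_cons]
    simp only [RH_mem_S]
    ring
  rw [h1, Fintype.sum_prod_type, Fintype.sum_bool]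
  simp only [if_true, Bool.false_eq_true, if_false]
  rw [Finset.sum_const, Finset.card_univ, nsmul_eq_mul]
  simp only [add_mul, Finset.sum_add_distrib, ite_mul, zero_mul, Finset.sum_ite_eq',
    Finset.mem_univ, if_true]
  field_simp
  ring

theorem RH_wt_nonneg {m : ℕ} {θ : ℝ} (hθ : 0 < θ) (hθ1 : θ ≤ 1 / 2) (κ : Fin m → Bool × Q) :
    0 ≤ wt θ κ := by
  unfold wt
  refine Finset.prod_nonneg (fun i _ => div_nonneg ?_ (Nat.cast_nonneg _))
  split_ifs <;> linarith

theorem RH_TT_nonneg {m : ℕ} {θ : ℝ} (hθ : 0 < θ) (hθ1 : θ ≤ 1 / 2) (v : Finset (Fin m → Q))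
    (Z : Fin m → Q) : 0 ≤ TT θ v Z := by
  unfold TT
  refine Finset.sum_nonneg (fun κ _ => mul_nonneg (RH_wt_nonneg hθ hθ1 κ) ?_)
  split_ifs <;> norm_num

theorem RH_TT_pos {m : ℕ} {θ : ℝ} (hθ : 0 < θ) (hθ1 : θ ≤ 1 / 2) {v : Finset (Fin m → Q)}
    (hv : v.Nonempty) (Z : Fin m → Q) : 0 < TT θ v Z := by
  obtain ⟨Y, hY⟩ := hv
  have h1 : 0 < wt θ (fun i => (true, Y i)) * (if mix (fun i => (true, Y i)) Z ∈ v then (1 : ℝ) else 0) := by
    have h2 : mix (fun i => (true, Y i)) Z = Y := by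
      funext i; simp [mix]
    rw [h2, if_pos hY, mul_one]
    unfold wt
    refine Finset.prod_pos (fun i _ => ?_)
    haveI : Nonempty Q := ⟨Y i⟩
    have hM : (0 : ℝ) < Fintype.card Q := by exact_mod_cast Fintype.card_pos
    simp only [if_true]
    positivity
  unfold TT
  refine lt_of_lt_of_le h1 (Finset.single_le_sum (f := fun κ : Fin m → Bool × Q =>
    wt θ κ * (if mix κ Z ∈ v then (1 : ℝ) else 0)) (fun κ _ => ?_) (Finset.mem_univ _))
  refine mul_nonneg (RH_wt_nonneg hθ hθ1 κ) ?_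
  split_ifs <;> norm_num

theorem RH_wsum (x : Q) (θ M : ℝ) (h : Q → ℝ) :
    ∑ j, ((if j = x then 1 - θ else 0) + θ / M) * h j =
      θ * ((∑ z, h z) / M) + (1 - θ) * h x := by
  simp only [add_mul, Finset.sum_add_distrib, ite_mul, zero_mul, Finset.sum_ite_eq',
    Finset.mem_univ, if_true]
  rw [← Finset.mul_sum]
  ring

theorem RH_h {m : ℕ} {θ : ℝ} (hθ : 0 < θ) {v : Finset (Fin (m + 1) → Q)} {M : ℝ} (hM : 0 < M)
    (hv : v.Nonempty) : ∃ h : Q → ℝ, (∀ x, 0 ≤ h x) ∧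
      (∀ x, (h x) ^ θ = ((RH_S v x).card : ℝ) / M ^ m) ∧ (∀ x, 0 < h x → (RH_S v x).Nonempty) ∧
      (∀ x, h x = 0 → RH_S v x = ∅) ∧ ∃ x, 0 < h x := by
  obtain ⟨Y0, hY0⟩ := hv
  have hMm : 0 < M ^ m := by positivity
  refine ⟨fun x => (((RH_S v x).card : ℝ) / M ^ m) ^ (1 / θ), ?_, ?_, ?_, ?_, ?_⟩
  · exact fun x => Real.rpow_nonneg (by positivity) _
  · intro x
    simp only
    rw [← Real.rpow_mul (by positivity), one_div, inv_mul_cancel₀ hθ.ne', Real.rpow_one]
  · intro x hx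
    by_contra hcon
    rw [Finset.not_nonempty_iff_eq_empty] at hcon
    simp only [hcon, Finset.card_empty, Nat.cast_zero, zero_div] at hx
    rw [Real.zero_rpow (by positivity)] at hx
    exact lt_irrefl _ hx
  · intro x hx
    by_contra hcon
    have h1 : (RH_S v x).Nonempty := Finset.nonempty_iff_ne_empty.2 hcon
    have h2 : (0 : ℝ) < (RH_S v x).card := by exact_mod_cast h1.card_pos
    have h3 : 0 < (((RH_S v x).card : ℝ) / M ^ m) ^ (1 / θ) := Real.rpow_pos_of_pos (by positivity) _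
    exact h3.ne' hx
  · refine ⟨Y0 0, ?_⟩
    have h1 : Fin.tail Y0 ∈ RH_S v (Y0 0) := by
      rw [RH_mem_S, Fin.cons_self_tail]; exact hY0
    have h2 : (0 : ℝ) < (RH_S v (Y0 0)).card := by exact_mod_cast (Finset.card_pos.2 ⟨_, h1⟩)
    exact Real.rpow_pos_of_pos (by positivity) _

theorem RH_final (a b v : ℝ) (ha : a ≠ 0) : (a * b) * v = (a * a) * (b * (v / a)) := by
  field_simp

theorem RH_TT_empty {m : ℕ} (θ : ℝ) (Z : Fin m → Q) : TT θ (∅ : Finset (Fin m → Q)) Z = 0 := by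
  simp [TT]

/-- The `(-θ)`-th moment of `TT θ v` is at most `1 / density of v`.

Proof: induction on `m`. `m = 0`: `v` is everything and `TT θ v Z = 1`. `m + 1`: for `x : Q` let
`S x = {Y : Fin.cons x Y ∈ v}` and `M = card Q`. Splitting off the first coordinate of `κ`
(`Fin.consEquiv`, `Fin.prod_univ_succ`)
`TT θ v (Fin.cons x Z) = (1 - θ) * TT θ (S x) Z + θ * ((∑ x', TT θ (S x') Z) / M)`
`= ∑ j, w_x j * TT θ (S j) Z` with `w_x j = (if j = x then 1 - θ else 0) + θ / M`.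
Let `h j = (|S j| / M^m)^(1/θ)`, so `h j ^ (-θ) = M^m / |S j|` if `S j` is nonempty; by the
induction hypothesis `∑ Z, (TT θ (S j) Z)^(-θ) ≤ M^m * (h j)^(-θ)` if `S j` is nonempty; if `S j`
is empty, both `h j = 0` and `TT θ (S j) Z = 0`; if it is nonempty then `TT θ (S j) Z > 0` (all
coordinates marked; `0 < θ`). So by `rev_minkowski` with `N = M^m` for each `x`
`∑ Z, TT θ v (Fin.cons x Z) ^ (-θ) ≤ M^m * ((1-θ) h x + θ (∑ h)/M)^(-θ)`. Sum over `x`, multiply
with `∑ x, (h x)^θ = |v| / M^m`, and use `one_dim`. -/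
theorem rh {θ : ℝ} (hθ : 0 < θ) (hθ1 : θ ≤ 1 / 2) (m : ℕ) (v : Finset (Fin m → Q))
    (hv : v.Nonempty) :
    (∑ Z, (TT θ v Z) ^ (-θ)) * (v.card : ℝ) ≤ ((Fintype.card Q : ℝ) ^ m) ^ 2 := by
  induction m with
  | zero =>
    have h1 : ∀ Z : Fin 0 → Q, Z ∈ v := by
      intro Z
      obtain ⟨Y, hY⟩ := hv
      rwa [Subsingleton.elim Z Y]
    have h2 : v = univ := Finset.eq_univ_of_forall h1
    have h3 : ∀ Z : Fin 0 → Q, TT θ v Z = 1 := by
      intro Z
      simp [TT, wt, h1]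
    simp only [h3, Real.one_rpow]
    rw [h2]
    simp
  | succ m ih =>
    obtain ⟨Y0, hY0⟩ := hv
    haveI : Nonempty Q := ⟨Y0 0⟩
    have hM : (0 : ℝ) < Fintype.card Q := by exact_mod_cast Fintype.card_pos
    set M : ℝ := (Fintype.card Q : ℝ) with hMd
    have hMm : 0 < M ^ m := by positivity
    obtain ⟨h, hh0, hhθ, hne, hemp, hpos⟩ := RH_h (m := m) hθ hM ⟨Y0, hY0⟩
    have hsum : ∑ x, (h x) ^ θ = (v.card : ℝ) / M ^ m := by
      simp only [hhθ]
      rw [← Finset.sum_div, RH_card_v]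
    have hodm := one_dim hθ hθ1 h hh0 hpos
    rw [hsum] at hodm
    have key : ∀ x : Q, ∑ Z : Fin m → Q, (TT θ v (Fin.cons x Z : Fin (m + 1) → Q)) ^ (-θ) ≤
        M ^ m * (θ * ((∑ z, h z) / M) + (1 - θ) * h x) ^ (-θ) := by
      intro x
      have hw0 : ∀ j, 0 ≤ (if j = x then 1 - θ else 0) + θ / M := by
        intro j
        have : 0 < θ / M := by positivity
        split_ifs <;> linarith
      have hs : ∑ j, ((if j = x then 1 - θ else 0) + θ / M) * h j =
          θ * ((∑ z, h z) / M) + (1 - θ) * h x := RH_wsum x θ M h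
      have hs0 : 0 < ∑ j, ((if j = x then 1 - θ else 0) + θ / M) * h j := by
        rw [hs]
        obtain ⟨x0, hx0⟩ := hpos
        have h1 : 0 < ∑ z, h z := by
          refine lt_of_lt_of_le hx0 (Finset.single_le_sum (fun z _ => hh0 z) (Finset.mem_univ x0))
        have h2 : 0 ≤ (1 - θ) * h x := mul_nonneg (by linarith) (hh0 x)
        have h3 : 0 < θ * ((∑ z, h z) / M) := by positivity
        linarith
      have hr := rev_minkowski (J := Q) (Ω := Fin m → Q) (N := M ^ m) hθ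
        (fun j => (if j = x then 1 - θ else 0) + θ / M) h (fun j Z => TT θ (RH_S v j) Z)
        hw0 hh0 (fun j hj Z => RH_TT_pos hθ hθ1 (hne j hj) Z)
        (fun j hj Z => by
          change TT θ (RH_S v j) Z = 0
          rw [hemp j hj, RH_TT_empty]) (fun j hj => by
          have h1 := ih (RH_S v j) (hne j hj)
          have h2 : (0 : ℝ) < (RH_S v j).card := by exact_mod_cast (hne j hj).card_pos
          have h3 : (h j) ^ (-θ) = M ^ m / (RH_S v j).card := by
            rw [Real.rpow_neg (hh0 j), hhθ, inv_div]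
          rw [h3, mul_div_assoc', le_div_iff₀ h2]
          calc _ ≤ (M ^ m) ^ 2 := h1
            _ = M ^ m * M ^ m := by ring) hs0
      rw [hs] at hr
      simp only [RH_TT_cons]
      exact hr
    have hv0 : (0 : ℝ) ≤ v.card := Nat.cast_nonneg _
    calc (∑ Z, (TT θ v Z) ^ (-θ)) * (v.card : ℝ)
        = (∑ x, ∑ Z : Fin m → Q, (TT θ v (Fin.cons x Z : Fin (m + 1) → Q)) ^ (-θ)) * (v.card : ℝ) := by
          rw [RH_sum_cons]
      _ ≤ (∑ x, M ^ m * (θ * ((∑ z, h z) / M) + (1 - θ) * h x) ^ (-θ)) * (v.card : ℝ) :=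
          mul_le_mul_of_nonneg_right (Finset.sum_le_sum (fun x _ => key x)) hv0
      _ = (M ^ m * M ^ m) * ((∑ x, (θ * ((∑ z, h z) / M) + (1 - θ) * h x) ^ (-θ)) *
            ((v.card : ℝ) / M ^ m)) := by
          rw [← Finset.mul_sum]
          exact RH_final _ _ _ hMm.ne'
      _ ≤ (M ^ m * M ^ m) * M ^ 2 := mul_le_mul_of_nonneg_left hodm (by positivity)
      _ = (M ^ (m + 1)) ^ 2 := by ring

/-- Few points have a small probability to be moved into `v`.

Proof: if `Fintype.card Q = 0` and `m > 0` there is no `Z`; otherwise `(card Q)^m > 0`, so `v` is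
nonempty. Markov's inequality for `(TT θ v Z)^(-θ)`, which is larger than
`((ε q)^(1/θ))^(-θ) = 1/(ε q)` if `TT θ v Z < (ε q)^(1/θ)` (note `TT θ v Z > 0`). -/
theorem rh_tail {θ : ℝ} (hθ : 0 < θ) (hθ1 : θ ≤ 1 / 2) {m : ℕ} (v : Finset (Fin m → Q))
    {q ε : ℝ} (hq : 0 < q) (hε : 0 < ε) (hv : q * (Fintype.card Q : ℝ) ^ m ≤ v.card) :
    ((univ.filter (fun Z : Fin m → Q => TT θ v Z < (ε * q) ^ (1 / θ))).card : ℝ) ≤
      ε * (Fintype.card Q : ℝ) ^ m := by
  rcases v.eq_empty_or_nonempty with hve | hvn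
  · have h1 : (Fintype.card Q : ℝ) ^ m ≤ 0 := by
      rw [hve, Finset.card_empty, Nat.cast_zero] at hv
      by_contra hcon
      push Not at hcon
      have := mul_pos hq hcon
      linarith
    have h2 : ((univ : Finset (Fin m → Q)).card : ℝ) ≤ 0 := by rw [RH_card_pi]; exact h1
    have h3 : (univ.filter (fun Z : Fin m → Q => TT θ v Z < (ε * q) ^ (1 / θ))).card ≤
        (univ : Finset (Fin m → Q)).card := Finset.card_filter_le _ _
    have h4 : ((univ.filter (fun Z : Fin m → Q => TT θ v Z < (ε * q) ^ (1 / θ))).card : ℝ) ≤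
        ((univ : Finset (Fin m → Q)).card : ℝ) := by exact_mod_cast h3
    have h5 : 0 ≤ ε * (Fintype.card Q : ℝ) ^ m := by positivity
    linarith
  · have hvc : (0 : ℝ) < v.card := by exact_mod_cast hvn.card_pos
    have hMm : 0 < (Fintype.card Q : ℝ) ^ m := by
      rw [← RH_card_pi]
      obtain ⟨Y, _⟩ := hvn
      exact_mod_cast Finset.card_pos.2 ⟨Y, Finset.mem_univ Y⟩
    have hrh := rh hθ hθ1 m v hvn
    set B := univ.filter (fun Z : Fin m → Q => TT θ v Z < (ε * q) ^ (1 / θ)) with hB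
    have h1 : (B.card : ℝ) * (ε * q)⁻¹ ≤ ∑ Z, (TT θ v Z) ^ (-θ) := by
      calc (B.card : ℝ) * (ε * q)⁻¹ = ∑ _Z ∈ B, (ε * q)⁻¹ := by
            rw [Finset.sum_const, nsmul_eq_mul]
        _ ≤ ∑ Z ∈ B, (TT θ v Z) ^ (-θ) := by
            refine Finset.sum_le_sum (fun Z hZ => ?_)
            have h2 : TT θ v Z < (ε * q) ^ (1 / θ) := (Finset.mem_filter.1 hZ).2
            have h3 : 0 < TT θ v Z := RH_TT_pos hθ hθ1 hvn Z
            have h4 : (TT θ v Z) ^ θ ≤ ε * q := by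
              calc (TT θ v Z) ^ θ ≤ ((ε * q) ^ (1 / θ)) ^ θ :=
                    Real.rpow_le_rpow h3.le h2.le hθ.le
                _ = ε * q := by
                    rw [← Real.rpow_mul (by positivity), one_div, inv_mul_cancel₀ hθ.ne',
                      Real.rpow_one]
            rw [Real.rpow_neg h3.le]
            exact inv_anti₀ (Real.rpow_pos_of_pos h3 _) h4
        _ ≤ ∑ Z, (TT θ v Z) ^ (-θ) :=
            Finset.sum_le_sum_of_subset_of_nonneg (Finset.subset_univ _)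
              (fun Z _ _ => Real.rpow_nonneg (RH_TT_nonneg hθ hθ1 v Z) _)
    have h5 : ((B.card : ℝ) * (ε * q)⁻¹) * (q * (Fintype.card Q : ℝ) ^ m) ≤
        ((Fintype.card Q : ℝ) ^ m) ^ 2 := by
      calc ((B.card : ℝ) * (ε * q)⁻¹) * (q * (Fintype.card Q : ℝ) ^ m)
          ≤ ((B.card : ℝ) * (ε * q)⁻¹) * v.card := mul_le_mul_of_nonneg_left hv (by positivity)
        _ ≤ (∑ Z, (TT θ v Z) ^ (-θ)) * v.card := mul_le_mul_of_nonneg_right h1 hvc.le
        _ ≤ _ := hrh
    have h6 : ((B.card : ℝ) * (ε * q)⁻¹) * (q * (Fintype.card Q : ℝ) ^ m) =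
        ((B.card : ℝ) / ε) * (Fintype.card Q : ℝ) ^ m := by field_simp
    rw [h6, pow_two] at h5
    have h7 := le_of_mul_le_mul_right h5 hMm
    rw [div_le_iff₀ hε] at h7
    linarith

/-- The average of `2 ^ (number of marked coordinates)`: `∏ i, ((1 - θ) + 2 θ)`
(`Finset.prod_univ_sum`; if `card Q = 0` and `m > 0` both sides... so assume `Q` nonempty). -/
theorem wt_cost [Nonempty Q] {θ : ℝ} (m : ℕ) :
    ∑ κ : Fin m → Bool × Q, wt θ κ * 2 ^ (univ.filter (fun i => (κ i).1 = true)).card =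
      (1 + θ) ^ m := by
  have hM : (Fintype.card Q : ℝ) ≠ 0 := by exact_mod_cast Fintype.card_ne_zero
  have h1 : ∀ κ : Fin m → Bool × Q,
      wt θ κ * 2 ^ (univ.filter (fun i => (κ i).1 = true)).card =
      ∏ i, ((if (κ i).1 = true then θ else 1 - θ) / (Fintype.card Q : ℝ) *
        (if (κ i).1 = true then 2 else 1)) := by
    intro κ
    rw [Finset.prod_mul_distrib, Finset.prod_ite, Finset.prod_const, Finset.prod_const_one, mul_one]
    rfl
  simp only [h1]
  have h2 := Finset.prod_univ_sum (fun _ : Fin m => (univ : Finset (Bool × Q)))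
    (fun _ k => (if k.1 = true then θ else 1 - θ) / (Fintype.card Q : ℝ) *
        (if k.1 = true then (2 : ℝ) else 1))
  rw [Fintype.piFinset_univ] at h2
  rw [← h2, Finset.prod_const, Finset.card_univ, Fintype.card_fin]
  congr 1
  rw [Fintype.sum_prod_type, Fintype.sum_bool]
  simp only [if_true, Bool.false_eq_true, if_false, Finset.sum_const, Finset.card_univ,
    nsmul_eq_mul]
  field_simp
  ring

end Pool.Agent.H.MP_027d00_lc.SComp
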