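import Pool.Agent.H.MP_027d00_lc.strong.Amp
import Pool.Agent.H.MP_027d00_lc.strong.RH
import Pool.Agent.H.MP_027d00_lc.strong.Cover

/-!
# Separation from a family of conflicting sets, by reverse hypercontractivity
-/

set_option autoImplicit false

open Finset

namespace Pool.Agent.H.MP_027d00_lc.SComp

open UComp

/-- The number of marked coordinates. -/
def marked {Q : Type} {m : ℕ} (κ : Fin m → Bool × Q) : ℕ :=
  (univ.filter (fun i => (κ i).1 = true)).card

/-- The values of `b` at the marked coordinates. -/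
def pat {Q : Type} {m : ℕ} (κ : Fin m → Bool × Q) (b : Fin m → Bool) : Fin m → Option Bool :=
  fun i => if (κ i).1 = true then some (b i) else none

theorem pat_image_card {Q : Type} {m : ℕ} (κ : Fin m → Bool × Q) (B : Finset (Fin m → Bool)) :
    (B.image (pat κ)).card ≤ 2 ^ marked κ := by
  classical
  have h1 : B.image (pat κ) ⊆ Fintype.piFinset (fun i =>
      if (κ i).1 = true then ({some true, some false} : Finset (Option Bool)) else {none}) := by
    intro π hπ
    obtain ⟨b, _, rfl⟩ := Finset.mem_image.1 hπ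
    rw [Fintype.mem_piFinset]
    intro i
    by_cases h : (κ i).1 = true
    · cases hb : b i <;> simp [pat, h, hb]
    · simp [pat, h]
  refine (Finset.card_le_card h1).trans ?_
  rw [Fintype.card_piFinset]
  have h2 : ∀ i, (if (κ i).1 = true then ({some true, some false} : Finset (Option Bool))
      else {none}).card = if (κ i).1 = true then 2 else 1 := by
    intro i
    by_cases h : (κ i).1 = true
    · rw [if_pos h, if_pos h]; rfl
    · rw [if_neg h, if_neg h]; rfl
  rw [Finset.prod_congr rfl (fun i _ => h2 i), Finset.prod_ite, Finset.prod_const_one, mul_one,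
    Finset.prod_const]
  exact le_rfl

theorem comp_congr {V : Type} {s : ℕ} {h k : (V → Bool) → Bool} (hh : Comp s h)
    (e : ∀ x, h x = k x) : Comp s k := by
  obtain ⟨F, hF, he⟩ := hh
  exact ⟨F, hF, fun x => (he x).trans (e x)⟩

/-- Matching a set of patterns. -/
theorem comp_match' {m : ℕ} (P : Finset (Fin m → Option Bool)) :
    Comp (P.card * m)
      (fun x : Fin m → Bool => decide (∃ π ∈ P, decide (∀ i ∈ univ.filter (fun i => π i ≠ none),
        (x i == (π i).getD false) = true) = true)) := by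
  classical
  have h1 : ∀ π ∈ P, Comp m (fun x : Fin m → Bool =>
      decide (∀ i ∈ univ.filter (fun i => π i ≠ none), (x i == (π i).getD false) = true)) := by
    intro π _
    have h2 := Comp.finset_and (V := Fin m) (s := 1) (univ.filter (fun i => π i ≠ none))
      (fun i x => x i == (π i).getD false) (fun i _ => Comp.lit i _)
    have h3 := h2.mono (t := m) (by
      rw [mul_one]
      exact (Finset.card_le_univ _).trans (by simp))
    exact comp_congr h3 fun x => decide_eq_decide.2 Iff.rfl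
  have h2 := Comp.finset_or P (fun π x => decide (∀ i ∈ univ.filter (fun i => π i ≠ none),
    (x i == (π i).getD false) = true)) h1
  exact comp_congr h2 fun x => decide_eq_decide.2 Iff.rfl

/-- The separation lemma. -/
theorem unit_sep2 {m n : ℕ} (hm : 1 ≤ m) {θ : ℝ} (hθ : 0 < θ) (hθ1 : θ ≤ 1 / 2)
    (A B : Finset (Fin m → Bool)) (𝒳 𝒴 : (Fin m → Bool) → Finset (Mat m n)) {p q : ℝ}
    (hp : 0 < p) (hq : 0 < q) (hX : ∀ a ∈ A, p * ((2 : ℝ) ^ n) ^ m ≤ (𝒳 a).card)
    (hY : ∀ b ∈ B, q * ((2 : ℝ) ^ n) ^ m ≤ (𝒴 b).card)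
    (hc : ∀ a ∈ A, ∀ b ∈ B, ∀ X ∈ 𝒳 a, ∀ Y ∈ 𝒴 b, ∃ i, X i ≠ Y i ∧ a i ≠ b i) :
    ∃ t s : ℕ, (t : ℝ) * p ≤ 3 ∧
      (s : ℝ) ≤ (1 + θ) ^ m / (p / 12 * q) ^ (1 / θ) * (1 + m * (n + 1) * Real.log 2) ∧
      SepF (216 * m ^ 3 * (t * (s * m))) A B := by
  classical
  have hη0 : 0 < (p / 12 * q) ^ (1 / θ) := Real.rpow_pos_of_pos (by positivity) _
  have hlog2 : 0 < Real.log 2 := Real.log_pos (by norm_num)
  have hRHS : 0 ≤ (1 + θ) ^ m / (p / 12 * q) ^ (1 / θ) * (1 + m * (n + 1) * Real.log 2) := by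
    positivity
  rcases A.eq_empty_or_nonempty with hA | ⟨a₀, ha₀⟩
  · refine ⟨0, 0, by norm_num, by simpa using hRHS, fun _ => false, Comp.const _ false, ?_,
      fun _ _ => rfl⟩
    intro a ha
    rw [hA] at ha
    exact absurd ha (Finset.notMem_empty a)
  have hM : (0 : ℝ) < ((2 : ℝ) ^ n) ^ m := by positivity
  have hcardM : ((Finset.univ : Finset (Mat m n)).card : ℝ) = ((2 : ℝ) ^ n) ^ m := by
    rw [Finset.card_univ]
    simp only [Mat, Fintype.card_fun, Fintype.card_bool, Fintype.card_fin]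
    push_cast
    rfl
  have hp1 : p ≤ 1 := by
    have h1 := hX a₀ ha₀
    have h2 : ((𝒳 a₀).card : ℝ) ≤ ((2 : ℝ) ^ n) ^ m := by
      rw [← hcardM]
      exact_mod_cast Finset.card_le_card (Finset.subset_univ _)
    by_contra hcon
    push Not at hcon
    nlinarith
  have hQ : (Fintype.card (Fin n → Bool) : ℝ) = 2 ^ n := by simp
  set η : ℝ := (p / 12 * q) ^ (1 / θ) with hη
  -- the covering
  set U : Finset ((Fin m → Bool) × Mat m n) :=
    univ.filter (fun ω => ω.1 ∈ B ∧ ¬ TT θ (𝒴 ω.1) ω.2 < η) with hU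
  set c : (Fin m → Bool × (Fin n → Bool)) → ℝ := fun κ => 2 ^ marked κ with hcdef
  obtain ⟨J, hJ1, hJ2⟩ := greedy
    (R := fun (κ : Fin m → Bool × (Fin n → Bool)) (ω : (Fin m → Bool) × Mat m n) =>
      mix κ ω.2 ∈ 𝒴 ω.1)
    (π := fun κ => wt θ κ) (c := c) (fun κ => by
      unfold wt
      refine Finset.prod_nonneg fun i _ => div_nonneg ?_ (by positivity)
      split_ifs
      · exact hθ.le
      · linarith) (fun κ => by positivity) (K := (1 + θ) ^ m) (η := η)
    (le_of_eq (wt_cost (Q := Fin n → Bool) (θ := θ) m)) hη0 U (by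
      intro ω hω
      rw [hU, Finset.mem_filter] at hω
      exact not_lt.1 hω.2.2)
  have hUlog : Real.log U.card ≤ m * (n + 1) * Real.log 2 := by
    rcases Nat.eq_zero_or_pos U.card with h | h
    · rw [h]; simp only [Nat.cast_zero, Real.log_zero]; positivity
    · have h1 : (U.card : ℝ) ≤ 2 ^ (m * (n + 1)) := by
        have h2 : U.card ≤ 2 ^ (m * (n + 1)) := by
          refine (Finset.card_le_univ _).trans ?_
          rw [Fintype.card_prod]
          simp only [Mat, Fintype.card_fun, Fintype.card_bool, Fintype.card_fin]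
          rw [← pow_mul, ← pow_add]
          exact Nat.pow_le_pow_right (by norm_num) (by ring_nf; omega)
        exact_mod_cast h2
      have h3 := Real.log_le_log (by exact_mod_cast h) h1
      rw [Real.log_pow] at h3
      push_cast at h3
      exact h3
  set s : ℕ := ∑ κ ∈ J, 2 ^ marked κ with hs
  have hsR : (s : ℝ) ≤ (1 + θ) ^ m / η * (1 + m * (n + 1) * Real.log 2) := by
    have e : (s : ℝ) = ∑ κ ∈ J, c κ := by rw [hs, hcdef]; push_cast; rfl
    rw [e]
    refine hJ2.trans (mul_le_mul_of_nonneg_left (by linarith) (by positivity))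
  -- the random function
  set PP : Mat m n → Finset (Fin m → Option Bool) :=
    fun Z => J.biUnion (fun κ => (B.filter (fun b => mix κ Z ∈ 𝒴 b)).image (pat κ)) with hPP
  have hPcard : ∀ Z, (PP Z).card ≤ s := by
    intro Z
    refine (Finset.card_biUnion_le).trans ?_
    exact Finset.sum_le_sum fun κ _ => pat_image_card κ _
  set H : Mat m n → (Fin m → Bool) → Bool := fun Z x =>
    !(decide (∃ π ∈ PP Z, decide (∀ i ∈ univ.filter (fun i => π i ≠ none),
        (x i == (π i).getD false) = true) = true)) with hH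
  have hHc : ∀ Z, Comp (s * m) (H Z) := fun Z =>
    ((comp_match' (PP Z)).not).mono (Nat.mul_le_mul_right _ (hPcard Z))
  set W : ℝ := 1 / ((2 : ℝ) ^ n) ^ m with hW
  set Φ : (Fin m → Bool) → ℝ := fun x => ∑ Z : Mat m n, W * MP_027d00_lc.ind (H Z x) with hΦ
  have hR : Rnd (s * m) Φ := by
    refine ⟨Mat m n, inferInstance, fun _ => W, H, fun _ => by positivity, ?_, hHc,
      fun x => rfl⟩
    rw [Finset.sum_const, nsmul_eq_mul, hcardM, hW]
    field_simp
  have hΦ' : ∀ x, Φ x = W * ((univ.filter (fun Z : Mat m n => H Z x = true)).card : ℝ) := by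
    intro x
    simp only [hΦ]
    rw [← Finset.mul_sum]
    congr 1
    rw [Finset.card_filter]
    push_cast
    refine Finset.sum_congr rfl fun Z _ => ?_
    simp [MP_027d00_lc.ind]
  -- the two bounds
  have hΦA : ∀ a ∈ A, p ≤ Φ a := by
    intro a ha
    have h1 : 𝒳 a ⊆ univ.filter (fun Z : Mat m n => H Z a = true) := by
      intro Z hZ
      rw [Finset.mem_filter]
      refine ⟨Finset.mem_univ _, ?_⟩
      simp only [hH, Bool.not_eq_true', decide_eq_false_iff_not]
      rintro ⟨π, hπ, hm'⟩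
      rw [decide_eq_true_eq] at hm'
      rw [hPP] at hπ
      obtain ⟨κ, hκ, hπ'⟩ := Finset.mem_biUnion.1 hπ
      obtain ⟨b, hb, rfl⟩ := Finset.mem_image.1 hπ'
      rw [Finset.mem_filter] at hb
      obtain ⟨i, hi1, hi2⟩ := hc a ha b hb.1 Z hZ (mix κ Z) hb.2
      have hmk : (κ i).1 = true := by
        by_contra hne
        exact hi1 (by simp [mix, hne])
      have h3 := hm' i (by simp [pat, hmk])
      simp only [pat, hmk, if_true, Option.getD_some, beq_iff_eq] at h3
      exact hi2 h3
    have h2 : ((𝒳 a).card : ℝ) ≤ ((univ.filter (fun Z : Mat m n => H Z a = true)).card : ℝ) := by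
      exact_mod_cast Finset.card_le_card h1
    rw [hΦ', hW]
    rw [one_div, inv_mul_eq_div, le_div_iff₀ hM]
    exact (hX a ha).trans h2
  have hΦB : ∀ b ∈ B, Φ b ≤ p / 12 := by
    intro b hb
    have h1 : univ.filter (fun Z : Mat m n => H Z b = true) ⊆
        univ.filter (fun Z : Fin m → (Fin n → Bool) => TT θ (𝒴 b) Z < η) := by
      intro Z hZ
      rw [Finset.mem_filter] at hZ ⊢
      refine ⟨Finset.mem_univ _, ?_⟩
      by_contra hn
      have h2 := hZ.2
      simp only [hH, Bool.not_eq_true', decide_eq_false_iff_not] at h2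
      apply h2
      obtain ⟨κ, hκ, hκ'⟩ := hJ1 (b, Z) (by
        rw [hU, Finset.mem_filter]
        exact ⟨Finset.mem_univ _, hb, hn⟩)
      refine ⟨pat κ b, ?_, ?_⟩
      · rw [hPP]
        exact Finset.mem_biUnion.2 ⟨κ, hκ, Finset.mem_image.2
          ⟨b, Finset.mem_filter.2 ⟨hb, hκ'⟩, rfl⟩⟩
      · rw [decide_eq_true_eq]
        intro i hi
        rw [Finset.mem_filter] at hi
        have h3 : (κ i).1 = true := by
          by_contra hne
          exact hi.2 (by simp [pat, hne])
        simp [pat, h3]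
    have h2 : ((univ.filter (fun Z : Mat m n => H Z b = true)).card : ℝ) ≤
        ((univ.filter (fun Z : Fin m → (Fin n → Bool) => TT θ (𝒴 b) Z < η)).card : ℝ) := by
      exact_mod_cast Finset.card_le_card h1
    have h3 := rh_tail (Q := Fin n → Bool) hθ hθ1 (𝒴 b) (ε := p / 12) hq (by positivity)
      (by rw [hQ]; exact hY b hb)
    rw [hQ] at h3
    rw [hΦ', hW, one_div, inv_mul_eq_div, div_le_iff₀ hM]
    exact h2.trans h3
  obtain ⟨t, ht, hsep⟩ := amp hm hR A B hp hp1 (δ := p / 12) (by linarith) hΦA hΦB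
  exact ⟨t, s, ht, hsR, hsep⟩

end Pool.Agent.H.MP_027d00_lc.SComp
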