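import Pool.Agent.H.MP_027d00_lc.strong.Heavy
import Pool.Agent.H.MP_027d00_lc.strong.Sep2
import Pool.Agent.H.MP_027d00_lc.strong.GoodJ

/-!
# The explicit bound for good inner functions
-/

set_option autoImplicit false

open Finset

namespace Pool.Agent.H.MP_027d00_lc.SComp

open UComp

theorem SepF.empty_left {m : ℕ} (s : ℕ) (B : Finset (Fin m → Bool)) : SepF s ∅ B :=
  ⟨fun _ => false, Comp.const s false, fun a ha => absurd ha (Finset.notMem_empty a),
    fun _ _ => rfl⟩

theorem SepF.empty_right {m : ℕ} (s : ℕ) (A : Finset (Fin m → Bool)) : SepF s A ∅ :=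
  ⟨fun _ => true, Comp.const s true, fun _ _ => rfl,
    fun b hb => absurd hb (Finset.notMem_empty b)⟩

theorem dens_empty {m n : ℕ} (g : (Fin n → Bool) → Bool) (a : Fin m → Bool) :
    dens g (∅ : Finset (Mat m n)) a = 0 := by
  simp [dens]

theorem dens_le_of {m n : ℕ} {g : (Fin n → Bool) → Bool} {S T : Finset (Mat m n)}
    {a : Fin m → Bool} (h : ∀ X ∈ S, rows g X = a → X ∈ T) : dens g S a ≤ dens g T a := by
  unfold dens
  have : (S.filter (fun X => rows g X = a)).card ≤ (T.filter (fun X => rows g X = a)).card := by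
    apply Finset.card_le_card
    intro X hX
    rw [Finset.mem_filter] at hX ⊢
    exact ⟨h X hX.1 hX.2, hX.2⟩
  gcongr

theorem SepF.symm {m s : ℕ} {A B : Finset (Fin m → Bool)} (h : SepF s A B) : SepF s B A := by
  obtain ⟨f, hf, h1, h2⟩ := h
  exact ⟨fun X => !(f X), hf.not, fun X hX => by simp [h2 X hX], fun X hX => by simp [h1 X hX]⟩

theorem momC_pos : 0 < momC := by unfold momC; positivity

/-- A set that is heavy at a type for a good `g` has large density. -/
theorem density_ge' {m n : ℕ} {g : (Fin n → Bool) → Bool} {S : Finset (Mat m n)}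
    {a : Fin m → Bool} {p : ℝ} (hp : 0 < p) (h1 : p ≤ dens g S a)
    (h2 : dens g S a ^ 32 ≤ momC ^ 32 * ((S.card : ℝ) / ((2 : ℝ) ^ n) ^ m) ^ 31) :
    (p / momC) ^ ((32 : ℝ) / 31) * ((2 : ℝ) ^ n) ^ m ≤ S.card := by
  have hC := momC_pos
  set μ : ℝ := (S.card : ℝ) / ((2 : ℝ) ^ n) ^ m with hμ
  have hμ0 : 0 ≤ μ := by positivity
  have h3 : (p / momC) ^ 32 ≤ μ ^ 31 := by
    rw [div_pow, div_le_iff₀ (by positivity)]
    calc p ^ 32 ≤ dens g S a ^ 32 := pow_le_pow_left₀ hp.le h1 32
      _ ≤ momC ^ 32 * μ ^ 31 := h2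
      _ = μ ^ 31 * momC ^ 32 := by ring
  have h4 : (p / momC) ^ ((32 : ℝ) / 31) ≤ μ := by
    have h5 := Real.rpow_le_rpow (by positivity) h3 (by norm_num : (0 : ℝ) ≤ 1 / 31)
    have e1 : ((p / momC) ^ 32) ^ ((1 : ℝ) / 31) = (p / momC) ^ ((32 : ℝ) / 31) := by
      rw [← Real.rpow_natCast, ← Real.rpow_mul (by positivity)]
      norm_num
    have e2 : (μ ^ 31) ^ ((1 : ℝ) / 31) = μ := by
      rw [← Real.rpow_natCast, ← Real.rpow_mul hμ0]
      norm_num
    rwa [e1, e2] at h5
  rwa [hμ, le_div_iff₀ (by positivity)] at h4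

/-- The lower bound for the product of the densities of the two sets of a piece. -/
noncomputable def rr (r : ℝ) : ℝ := (r / momC ^ 2) ^ ((32 : ℝ) / 31)

theorem rr_pos {r : ℝ} (hr : 0 < r) : 0 < rr r := by
  have := momC_pos
  unfold rr
  positivity

/-- The bound for the size of the separation of a piece. -/
noncomputable def SS (m n : ℕ) (r θ : ℝ) : ℝ :=
  3 / Real.sqrt (rr r) * ((1 + θ) ^ m / (rr r / 12) ^ (1 / θ) * (1 + m * (n + 1) * Real.log 2))

/-- The size bound in terms of `r`. -/
theorem size_le {m n : ℕ} {r θ x y : ℝ} (hr : 0 < r) (hθ : 0 < θ) (hx : 0 < x) (hy : 0 < y)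
    (hxy : y ≤ x) (hrr : rr r ≤ x * y) {t s : ℕ} (ht : (t : ℝ) * x ≤ 3)
    (hs : (s : ℝ) ≤ (1 + θ) ^ m / (x / 12 * y) ^ (1 / θ) * (1 + m * (n + 1) * Real.log 2)) :
    t * s ≤ ⌊SS m n r θ⌋₊ := by
  have hrr0 := rr_pos hr
  have hlog2 : 0 < Real.log 2 := Real.log_pos (by norm_num)
  apply Nat.le_floor
  push_cast
  have h1 : Real.sqrt (rr r) ≤ x := by
    calc Real.sqrt (rr r) ≤ Real.sqrt (x ^ 2) := Real.sqrt_le_sqrt (by nlinarith)
      _ = x := Real.sqrt_sq hx.le
  have h2 : 0 < Real.sqrt (rr r) := Real.sqrt_pos.2 hrr0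
  have h3 : (t : ℝ) ≤ 3 / Real.sqrt (rr r) := by
    rw [le_div_iff₀ h2]
    exact (mul_le_mul_of_nonneg_left h1 (by positivity)).trans ht
  have h4 : (rr r / 12) ^ (1 / θ) ≤ (x / 12 * y) ^ (1 / θ) :=
    Real.rpow_le_rpow (by positivity) (by linarith) (by positivity)
  have h5 : 0 < (rr r / 12) ^ (1 / θ) := Real.rpow_pos_of_pos (by positivity) _
  have h6 : (s : ℝ) ≤ (1 + θ) ^ m / (rr r / 12) ^ (1 / θ) * (1 + m * (n + 1) * Real.log 2) := by
    refine hs.trans ?_
    gcongr
  unfold SS
  exact mul_le_mul h3 h6 (by positivity) (by positivity)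

/-- The separation of the types that are heavy in a small piece. -/
theorem unit_good2 {m n w : ℕ} (hm : 1 ≤ m) {g : (Fin n → Bool) → Bool} (hG : GoodJ m w g)
    {r θ : ℝ} (hr : 0 < r) (hθ : 0 < θ) (hθ1 : θ ≤ 1 / 2)
    (S T : Finset (Mat m n)) (h : SSep g w S T) (p q : ℝ) (hp : 0 < p) (hq : 0 < q)
    (hpq : r ≤ p * q) (A B : Finset (Fin m → Bool))
    (hA : ∀ a ∈ A, p ≤ dens g S a) (hB : ∀ b ∈ B, q ≤ dens g T b) :
    SepF (216 * m ^ 3 * (⌊SS m n r θ⌋₊ * m)) A B := by
  have hC := momC_pos
  rcases h with h | h | ⟨F, hF, h1, h2⟩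
  · have : A = ∅ := by
      rw [Finset.eq_empty_iff_forall_notMem]
      intro a ha
      have := hA a ha
      rw [h, dens_empty] at this
      linarith
    rw [this]
    exact SepF.empty_left _ _
  · have : B = ∅ := by
      rw [Finset.eq_empty_iff_forall_notMem]
      intro a ha
      have := hB a ha
      rw [h, dens_empty] at this
      linarith
    rw [this]
    exact SepF.empty_right _ _
  · set x : ℝ := (p / momC) ^ ((32 : ℝ) / 31) with hx
    set y : ℝ := (q / momC) ^ ((32 : ℝ) / 31) with hy
    have hx0 : 0 < x := Real.rpow_pos_of_pos (by positivity) _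
    have hy0 : 0 < y := Real.rpow_pos_of_pos (by positivity) _
    have hxy : rr r ≤ x * y := by
      rw [hx, hy, ← Real.mul_rpow (by positivity) (by positivity)]
      unfold rr
      refine Real.rpow_le_rpow (by positivity) ?_ (by norm_num)
      have e : p / momC * (q / momC) = p * q / momC ^ 2 := by field_simp
      rw [e]
      gcongr
    have hX : ∀ a ∈ A, x * ((2 : ℝ) ^ n) ^ m ≤ (setA F a).card := by
      intro a ha
      refine density_ge' (g := g) (a := a) hp ((hA a ha).trans (dens_le_of ?_)) (hG.densA F hF a)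
      intro X hX hXa
      rw [setA, Finset.mem_filter]
      refine ⟨Finset.mem_univ _, ?_⟩
      rw [← hXa]
      exact h1 X hX
    have hY : ∀ b ∈ B, y * ((2 : ℝ) ^ n) ^ m ≤ (setB F b).card := by
      intro b hb
      refine density_ge' (g := g) (a := b) hq ((hB b hb).trans (dens_le_of ?_)) (hG.densB F hF b)
      intro X hX hXa
      rw [setB, Finset.mem_filter]
      refine ⟨Finset.mem_univ _, ?_⟩
      rw [← hXa]
      exact h2 X hX
    have hc : ∀ a ∈ A, ∀ b ∈ B, ∀ X ∈ setA F a, ∀ Y ∈ setB F b, ∃ i, X i ≠ Y i ∧ a i ≠ b i := by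
      intro a _ b _ X hX Y hY
      rw [setA, Finset.mem_filter] at hX
      rw [setB, Finset.mem_filter] at hY
      exact conflict F hX.2 hY.2
    rcases le_total y x with hle | hle
    · obtain ⟨t, s, ht, hs, hsep⟩ := unit_sep2 hm hθ hθ1 A B (setA F) (setB F) hx0 hy0 hX hY hc
      refine hsep.mono (Nat.mul_le_mul_left _ ?_) (Finset.Subset.refl _) (Finset.Subset.refl _)
      rw [← Nat.mul_assoc]
      exact Nat.mul_le_mul_right _ (size_le hr hθ hx0 hy0 hle hxy ht hs)
    · obtain ⟨t, s, ht, hs, hsep⟩ := unit_sep2 hm hθ hθ1 B A (setB F) (setA F) hy0 hx0 hY hX (by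
        intro b hb a ha Y hY X hX
        obtain ⟨i, hi1, hi2⟩ := hc a ha b hb X hX Y hY
        exact ⟨i, hi1.symm, hi2.symm⟩)
      refine hsep.symm.mono (Nat.mul_le_mul_left _ ?_) (Finset.Subset.refl _)
        (Finset.Subset.refl _)
      rw [← Nat.mul_assoc]
      exact Nat.mul_le_mul_right _ (size_le hr hθ hy0 hx0 hle (by linarith) ht hs)

/-- A non-constant function has a sensitive edge. -/
theorem exists_edge {m : ℕ} {f : (Fin m → Bool) → Bool} (hf : ∃ a b, f a = true ∧ f b = false) :
    ∃ (a b : Fin m → Bool) (i : Fin m), f a = true ∧ f b = false ∧ b i ≠ a i ∧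
      ∀ j, j ≠ i → b j = a j := by
  classical
  obtain ⟨a, b, ha, hb⟩ := hf
  by_contra hcon
  push Not at hcon
  have key : ∀ s : Finset (Fin m), f (fun i => if i ∈ s then b i else a i) = true := by
    intro s
    induction s using Finset.induction_on with
    | empty => simpa using ha
    | insert i s hi ih =>
      by_contra hne
      have hfalse : f (fun j => if j ∈ insert i s then b j else a j) = false := by
        simpa using hne
      by_cases hab : b i = a i
      · apply hne
        rw [← ih]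
        congr 1
        funext j
        by_cases hj : j = i
        · subst hj; simp [hi, hab]
        · simp [hj]
      · obtain ⟨j, hj, hj'⟩ := hcon _ _ i ih hfalse (by simpa [hi] using hab)
        exact hj' (by simp [hj])
  have := key Finset.univ
  simp only [Finset.mem_univ, if_true] at this
  have hb' : f (fun i => b i) = false := hb
  rw [hb'] at this
  exact absurd this (by simp)

/-- For a good `g` the whole game has no small separation. -/
theorem root_not_small {m n w : ℕ} (hm : 1 ≤ m) {g : (Fin n → Bool) → Bool} (hG : GoodJ m w g)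
    {f : (Fin m → Bool) → Bool} (hf : ∃ a b, f a = true ∧ f b = false) :
    ¬ SSep g w (univ.filter (fun X : Mat m n => f (rows g X) = true))
      (univ.filter (fun X : Mat m n => f (rows g X) = false)) := by
  classical
  intro h
  have hsur : ∀ c : Bool, ∃ x, g x = c := by
    intro c
    have h1 := hG.balanced c
    have hmR : (1 : ℝ) ≤ m := by exact_mod_cast hm
    have h2 : 1 / (2 * (m : ℝ)) ≤ 1 / 2 := by
      apply one_div_le_one_div_of_le (by norm_num)
      linarith
    have h3 : (0 : ℝ) < (1 - 1 / (2 * (m : ℝ))) * (2 ^ n / 2) := by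
      have : (0 : ℝ) < 1 - 1 / (2 * (m : ℝ)) := by linarith
      positivity
    have h4 : (0 : ℝ) < ((univ.filter (fun x => g x = c)).card : ℝ) := lt_of_lt_of_le h3 h1
    have h5 : 0 < (univ.filter (fun x => g x = c)).card := by exact_mod_cast h4
    obtain ⟨x, hx⟩ := Finset.card_pos.1 h5
    exact ⟨x, (Finset.mem_filter.1 hx).2⟩
  choose pt hpt using hsur
  obtain ⟨a, b, i, ha, hb, hab, hj⟩ := exists_edge hf
  have hrow : ∀ c : Fin m → Bool, rows g (fun j => pt (c j)) = c := by
    intro c; funext j; exact hpt (c j)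
  rcases h with h | h | ⟨F, hF, h1, h2⟩
  · have : (fun j => pt (a j)) ∈ (∅ : Finset (Mat m n)) := by
      rw [← h, Finset.mem_filter]
      exact ⟨Finset.mem_univ _, by rw [hrow]; exact ha⟩
    exact absurd this (Finset.notMem_empty _)
  · have : (fun j => pt (b j)) ∈ (∅ : Finset (Mat m n)) := by
      rw [← h, Finset.mem_filter]
      exact ⟨Finset.mem_univ _, by rw [hrow]; exact hb⟩
    exact absurd this (Finset.notMem_empty _)
  · refine hG.hard F hF a (fun j => pt (a j)) i ?_
    intro x
    have hr : ∀ c : Fin m → Bool, (∀ j, j ≠ i → c j = a j) → g x = c i →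
        rows g (Function.update (fun j => pt (a j)) i x) = c := by
      intro c hc hx
      funext j
      by_cases hji : j = i
      · subst hji; simp [rows, hx]
      · simp only [rows, Function.update_of_ne hji, hpt]
        exact (hc j hji).symm
    by_cases hx : g x = a i
    · have e := hr a (fun _ _ => rfl) hx
      have h3 := h1 (Function.update (fun j => pt (a j)) i x) (by
        rw [Finset.mem_filter]
        exact ⟨Finset.mem_univ _, by rw [e]; exact ha⟩)
      rw [e] at h3
      rw [h3, hx]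
      simp
    · have hxb : g x = b i := by
        cases e1 : g x <;> cases e2 : a i <;> cases e3 : b i <;> simp_all
      have e := hr b hj hxb
      have h3 := h2 (Function.update (fun j => pt (a j)) i x) (by
        rw [Finset.mem_filter]
        exact ⟨Finset.mem_univ _, by rw [e]; exact hb⟩)
      rw [e] at h3
      have h4 : F.eval (asgA a (Function.update (fun j => pt (a j)) i x)) = false := by
        by_contra hne
        have hne' : F.eval (asgA a (Function.update (fun j => pt (a j)) i x)) = true := by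
          simpa using hne
        have := F.eval_mono (y := asgB b (Function.update (fun j => pt (a j)) i x)) (by
          intro v hv
          simp only [asgA, asgB, Bool.and_eq_true, Bool.or_eq_true] at hv ⊢
          exact Or.inl hv.1) hne'
        rw [h3] at this
        exact absurd this (by simp)
      rw [h4]
      symm
      simpa using hx

/-- The explicit bound. -/
theorem main_explicit2 {m n w : ℕ} (hm : 1 ≤ m) (hw : 1 ≤ w) {g : (Fin n → Bool) → Bool}
    (hG : GoodJ m w g) {f : (Fin m → Bool) → Bool} (hf : ∃ a b, f a = true ∧ f b = false)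
    {P : Prot (Mat m n) (Mat m n) (Fin m × Fin n)} (hP : StrongSolves f g P) :
    ∃ N : ℕ, 1 ≤ N ∧ w * N ≤ 6 * P.leaves ∧ ∀ θ : ℝ, 0 < θ → θ ≤ 1 / 2 →
      fsize f ≤ N * (216 * m ^ 3 * (⌊SS m n (1 / (4 * N)) θ⌋₊ * m)) := by
  classical
  set S : Finset (Mat m n) := univ.filter (fun X : Mat m n => f (rows g X) = true) with hS
  set T : Finset (Mat m n) := univ.filter (fun X : Mat m n => f (rows g X) = false) with hT
  rcases dec_of_prot (g := g) hw P S T (by
    intro X hX Y hY
    rw [hS, Finset.mem_filter] at hX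
    rw [hT, Finset.mem_filter] at hY
    exact hP X Y hX.2 hY.2) with h | ⟨N, hd, hN⟩
  · exact absurd h (root_not_small hm hG hf)
  refine ⟨N, hd.pos, hN, fun θ hθ hθ1 => ?_⟩
  have hNR : (1 : ℝ) ≤ N := by exact_mod_cast hd.pos
  have hsep := heavy (r := 1 / (4 * (N : ℝ)))
    (K := 216 * m ^ 3 * (⌊SS m n (1 / (4 * N)) θ⌋₊ * m))
    (fun S' T' h' p q hp _ hq _ hpq A B hA hB =>
      unit_good2 hm hG (r := 1 / (4 * (N : ℝ))) (by positivity) hθ hθ1 S' T' h' p q hp hq hpq A B
        hA hB) hd
    (1 / 2) (1 / 2) (by norm_num) le_rfl (by norm_num) le_rfl (by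
      have : 1 / (4 * (N : ℝ)) * N = 1 / 4 := by field_simp
      rw [this]; norm_num) (univ.filter (fun a => f a = true)) (univ.filter (fun b => f b = false))
    (by
      intro a ha
      have hfa := (Finset.mem_filter.1 ha).2
      have := dens_root hm hG.balanced f a
      rw [hfa] at this
      exact this)
    (by
      intro b hb
      have hfb := (Finset.mem_filter.1 hb).2
      have := dens_root hm hG.balanced f b
      rw [hfb] at this
      exact this)
  obtain ⟨h, hc, h1, h2⟩ := hsep
  have e : h = f := by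
    funext a
    cases hfa : f a with
    | true => exact h1 a (by simp [hfa])
    | false => exact h2 a (by simp [hfa])
  rw [e] at hc
  exact fsize_le hc

end Pool.Agent.H.MP_027d00_lc.SComp
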