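import Pool.Agent.H.MP_027d00_lc.strong.Heavy3
import Pool.Agent.H.MP_027d00_lc.strong.Sep3
import Pool.Agent.H.MP_027d00_lc.strong.Drop
import Pool.Agent.H.MP_027d00_lc.strong.Main2

/-!
# The explicit bound for all inner functions
-/

set_option autoImplicit false

open Finset

namespace Pool.Agent.H.MP_027d00_lc.SComp

open UComp

/-! ### unions -/

theorem sepF_biUnion_left {m K : ℕ} {ι : Type} (𝒥 : Finset ι) (A : ι → Finset (Fin m → Bool))
    (B : Finset (Fin m → Bool)) (h : ∀ J ∈ 𝒥, SepF K (A J) B) :
    SepF (𝒥.card * K) (𝒥.biUnion A) B := by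
  classical
  induction 𝒥 using Finset.induction_on with
  | empty => simpa using SepF.empty_left 0 B
  | insert J 𝒥 hJ ih =>
    rw [Finset.biUnion_insert, Finset.card_insert_of_notMem hJ]
    have h1 := (h J (Finset.mem_insert_self _ _)).union_left
      (ih (fun J' hJ' => h J' (Finset.mem_insert_of_mem hJ')))
    exact h1.mono (by ring_nf; exact le_rfl) (Finset.Subset.refl _) (Finset.Subset.refl _)

theorem sepF_biUnion_right {m K : ℕ} {ι : Type} (𝒥 : Finset ι) (A : Finset (Fin m → Bool))
    (B : ι → Finset (Fin m → Bool)) (h : ∀ J ∈ 𝒥, SepF K A (B J)) :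
    SepF (𝒥.card * K) A (𝒥.biUnion B) :=
  (sepF_biUnion_left 𝒥 B A (fun J hJ => (h J hJ).symm)).symm

/-- The sets with at most `r` elements. -/
def smallSets (m r : ℕ) : Finset (Finset (Fin m)) := univ.filter (fun J => J.card ≤ r)

theorem card_smallSets (m r : ℕ) : (smallSets m r).card ≤ (m + 1) ^ r := by
  classical
  have h1 : smallSets m r ⊆ (univ : Finset (Fin r → Option (Fin m))).image
      (fun f => univ.filter (fun i => ∃ k, f k = some i)) := by
    intro J hJ
    have hJr : J.card ≤ r := (Finset.mem_filter.1 hJ).2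
    rw [Finset.mem_image]
    refine ⟨fun k => if h : k.1 < J.card then some (J.equivFin.symm ⟨k.1, h⟩).1 else none,
      Finset.mem_univ _, ?_⟩
    ext i
    rw [Finset.mem_filter]
    constructor
    · rintro ⟨_, k, hk⟩
      by_cases h : k.1 < J.card
      · simp only [dif_pos h, Option.some.injEq] at hk
        rw [← hk]
        exact (J.equivFin.symm ⟨k.1, h⟩).2
      · simp only [dif_neg h] at hk
        exact absurd hk (by simp)
    · intro hi
      refine ⟨Finset.mem_univ _, ⟨(J.equivFin ⟨i, hi⟩).1, lt_of_lt_of_le (J.equivFin ⟨i, hi⟩).2 hJr⟩, ?_⟩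
      have h : (J.equivFin ⟨i, hi⟩).1 < J.card := (J.equivFin ⟨i, hi⟩).2
      simp only [dif_pos h]
      simp
  refine (Finset.card_le_card h1).trans (Finset.card_image_le.trans ?_)
  simp [Finset.card_univ]

/-! ### protocols -/

/-- A protocol gives a separation with as many leaves. -/
theorem ssep_of_prot {m n : ℕ} {g : (Fin n → Bool) → Bool}
    (P : Prot (Mat m n) (Mat m n) (Fin m × Fin n)) :
    ∀ S T : Finset (Mat m n), (∀ X ∈ S, ∀ Y ∈ T,
      X (P.run X Y).1 (P.run X Y).2 ≠ Y (P.run X Y).1 (P.run X Y).2 ∧
        g (X (P.run X Y).1) ≠ g (Y (P.run X Y).1)) → SSep g P.leaves S T := by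
  classical
  induction P with
  | out o =>
    intro S T h
    exact SSep.leaf o h
  | alice q P₀ P₁ ih₀ ih₁ =>
    intro S T h
    have e : S = S.filter (fun X => q X = false) ∪ S.filter (fun X => q X = true) := by
      ext X
      cases hq : q X <;> simp [hq]
    rw [e]
    refine SSep.union_left (ih₀ _ _ ?_) (ih₁ _ _ ?_)
    · intro X hX Y hY
      rw [Finset.mem_filter] at hX
      have := h X hX.1 Y hY
      simpa [Prot.run, hX.2] using this
    · intro X hX Y hY
      rw [Finset.mem_filter] at hX
      have := h X hX.1 Y hY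
      simpa [Prot.run, hX.2] using this
  | bob q P₀ P₁ ih₀ ih₁ =>
    intro S T h
    have e : T = T.filter (fun X => q X = false) ∪ T.filter (fun X => q X = true) := by
      ext X
      cases hq : q X <;> simp [hq]
    rw [e]
    refine SSep.union_right (ih₀ _ _ ?_) (ih₁ _ _ ?_)
    · intro X hX Y hY
      rw [Finset.mem_filter] at hY
      have := h X hX Y hY.1
      simpa [Prot.run, hY.2] using this
    · intro X hX Y hY
      rw [Finset.mem_filter] at hY
      have := h X hX Y hY.1
      simpa [Prot.run, hY.2] using this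

/-- The set of the matrices with a given value of the composition. -/
def rootS {m n : ℕ} (f : (Fin m → Bool) → Bool) (g : (Fin n → Bool) → Bool) (c : Bool) :
    Finset (Mat m n) := univ.filter (fun X : Mat m n => f (rows g X) = c)

/-- A separation of the whole game gives a formula for the inner function. -/
theorem comp_g {m n c : ℕ} {g : (Fin n → Bool) → Bool} (hg : ∀ b : Bool, ∃ x, g x = b)
    {f : (Fin m → Bool) → Bool} (hf : ∃ a b, f a = true ∧ f b = false)
    (h : SSep g c (rootS f g true) (rootS f g false)) : Comp c g := by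
  classical
  choose pt hpt using hg
  obtain ⟨a, b, i, ha, hb, hab, hj⟩ := exists_edge hf
  have hrow : ∀ c : Fin m → Bool, rows g (fun j => pt (c j)) = c := by
    intro c; funext j; exact hpt (c j)
  rcases h with h | h | ⟨F, hF, h1, h2⟩
  · have : (fun j => pt (a j)) ∈ (∅ : Finset (Mat m n)) := by
      rw [← h, rootS, Finset.mem_filter]
      exact ⟨Finset.mem_univ _, by rw [hrow]; exact ha⟩
    exact absurd this (Finset.notMem_empty _)
  · have : (fun j => pt (b j)) ∈ (∅ : Finset (Mat m n)) := by
      rw [← h, rootS, Finset.mem_filter]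
      exact ⟨Finset.mem_univ _, by rw [hrow]; exact hb⟩
    exact absurd this (Finset.notMem_empty _)
  · have hr : ∀ (x : Fin n → Bool) (c : Fin m → Bool), (∀ j, j ≠ i → c j = a j) → g x = c i →
        rows g (Function.update (fun j => pt (a j)) i x) = c := by
      intro x c hc hx
      funext j
      by_cases hji : j = i
      · subst hji; simp [rows, hx]
      · simp only [rows, Function.update_of_ne hji, hpt]
        exact (hc j hji).symm
    have key : ∀ x : Fin n → Bool,
        F.eval (asgA a (Function.update (fun j => pt (a j)) i x)) = (g x == a i) := by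
      intro x
      by_cases hx : g x = a i
      · have e := hr x a (fun _ _ => rfl) hx
        have h3 := h1 (Function.update (fun j => pt (a j)) i x) (by
          rw [rootS, Finset.mem_filter]
          exact ⟨Finset.mem_univ _, by rw [e]; exact ha⟩)
        rw [e] at h3
        rw [h3, hx]
        simp
      · have hxb : g x = b i := by
          cases e1 : g x <;> cases e2 : a i <;> cases e3 : b i <;> simp_all
        have e := hr x b hj hxb
        have h3 := h2 (Function.update (fun j => pt (a j)) i x) (by
          rw [rootS, Finset.mem_filter]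
          exact ⟨Finset.mem_univ _, by rw [e]; exact hb⟩)
        rw [e] at h3
        have h4 : F.eval (asgA a (Function.update (fun j => pt (a j)) i x)) = false := by
          by_contra hne
          have hne' : F.eval (asgA a (Function.update (fun j => pt (a j)) i x)) = true := by
            simpa using hne
          have := F.eval_mono (y := asgB b (Function.update (fun j => pt (a j)) i x)) (by
            intro v hv
            simp only [asgA, asgB, Bool.and_eq_true, Bool.or_eq_true] at hv ⊢
            exact Or.inl hv.1) hne'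
          rw [h3] at this
          exact absurd this (by simp)
        rw [h4]
        symm
        simpa using hx
    have h3 := F.toComp (W := Fin n)
      (fun v x => asgA a (Function.update (fun j => pt (a j)) i x) v) (by
        intro v
        by_cases hv : v.1 = i
        · by_cases hav : a v.1 = v.2.2.2
          · have e : (fun x : Fin n → Bool =>
                asgA a (Function.update (fun j => pt (a j)) i x) v) = fun x => x v.2.1 == v.2.2.1 := by
              funext x
              simp only [asgA, hav, beq_self_eq_true, Bool.and_true]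
              rw [hv, Function.update_self]
            rw [e]
            exact Comp.lit _ _
          · have e : (fun x : Fin n → Bool =>
                asgA a (Function.update (fun j => pt (a j)) i x) v) = fun _ => false := by
              funext x
              have : (a v.1 == v.2.2.2) = false := by simpa using hav
              simp only [asgA, this, Bool.and_false]
            rw [e]
            exact Comp.const _ _
        · have e : (fun x : Fin n → Bool =>
              asgA a (Function.update (fun j => pt (a j)) i x) v) =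
                fun _ => asgA a (fun j => pt (a j)) v := by
            funext x
            simp only [asgA, Function.update_of_ne hv]
          rw [e]
          exact Comp.const _ _)
    have h4 : Comp F.size (fun x : Fin n → Bool => (g x == a i)) := by
      convert h3 using 1
      funext x
      exact (key x).symm
    have h5 := h4.mono hF
    cases hai : a i
    · rw [hai] at h5
      have h6 := h5.not
      convert h6 using 1
      funext x
      cases g x <;> rfl
    · rw [hai] at h5
      convert h5 using 1
      funext x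
      cases g x <;> rfl

/-- A separation of the whole game gives a formula for the outer function. -/
theorem comp_f {m n c : ℕ} {g : (Fin n → Bool) → Bool} (hg : ∀ b : Bool, ∃ x, g x = b)
    {f : (Fin m → Bool) → Bool} (h : SSep g c (rootS f g true) (rootS f g false)) :
    Comp c f := by
  classical
  choose pt hpt using hg
  have hrow : ∀ c : Fin m → Bool, rows g (fun j => pt (c j)) = c := by
    intro c; funext j; exact hpt (c j)
  rcases h with h | h | ⟨F, hF, h1, h2⟩
  · have : f = fun _ => false := by
      funext a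
      by_contra hne
      have : (fun j => pt (a j)) ∈ (∅ : Finset (Mat m n)) := by
        rw [← h, rootS, Finset.mem_filter]
        exact ⟨Finset.mem_univ _, by rw [hrow]; simpa using hne⟩
      exact absurd this (Finset.notMem_empty _)
    rw [this]
    exact Comp.const _ _
  · have : f = fun _ => true := by
      funext a
      by_contra hne
      have : (fun j => pt (a j)) ∈ (∅ : Finset (Mat m n)) := by
        rw [← h, rootS, Finset.mem_filter]
        exact ⟨Finset.mem_univ _, by rw [hrow]; simpa using hne⟩
      exact absurd this (Finset.notMem_empty _)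
    rw [this]
    exact Comp.const _ _
  · have h3 := F.toComp (W := Fin m) (fun v a => asgA a (fun j => pt (a j)) v) (by
        intro v
        by_cases hv : pt v.2.2.2 v.2.1 = v.2.2.1
        · have e : (fun a : Fin m → Bool => asgA a (fun j => pt (a j)) v) =
              fun a => a v.1 == v.2.2.2 := by
            funext a
            by_cases ha : a v.1 = v.2.2.2
            · simp only [asgA, ha, hv, beq_self_eq_true, Bool.and_true]
            · have : (a v.1 == v.2.2.2) = false := by simpa using ha
              simp only [asgA, this, Bool.and_false]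
          rw [e]
          exact Comp.lit _ _
        · have e : (fun a : Fin m → Bool => asgA a (fun j => pt (a j)) v) = fun _ => false := by
            funext a
            by_cases ha : a v.1 = v.2.2.2
            · have : (pt v.2.2.2 v.2.1 == v.2.2.1) = false := by simpa using hv
              simp only [asgA, ha, this, Bool.false_and]
            · have : (a v.1 == v.2.2.2) = false := by simpa using ha
              simp only [asgA, this, Bool.and_false]
          rw [e]
          exact Comp.const _ _)
    have h4 : f = fun a => F.eval (fun v => asgA a (fun j => pt (a j)) v) := by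
      funext a
      cases hfa : f a with
      | true =>
        have := h1 (fun j => pt (a j)) (by
          rw [rootS, Finset.mem_filter]
          exact ⟨Finset.mem_univ _, by rw [hrow]; exact hfa⟩)
        rw [hrow] at this
        exact this.symm
      | false =>
        have h5 := h2 (fun j => pt (a j)) (by
          rw [rootS, Finset.mem_filter]
          exact ⟨Finset.mem_univ _, by rw [hrow]; exact hfa⟩)
        rw [hrow] at h5
        by_contra hne
        have hne' : F.eval (asgA a (fun j => pt (a j))) = true := by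
          have : false ≠ F.eval (asgA a (fun j => pt (a j))) := hne
          cases h6 : F.eval (asgA a (fun j => pt (a j)))
          · exact absurd h6.symm this
          · rfl
        have := F.eval_mono (y := asgB a (fun j => pt (a j))) (by
          intro v hv
          simp only [asgA, asgB, Bool.and_eq_true, Bool.or_eq_true] at hv ⊢
          exact Or.inl hv.1) hne'
        rw [h5] at this
        exact absurd this (by simp)
    rw [h4]
    exact h3.mono hF

/-! ### the pieces -/

/-- The bound for the size of the separation of a piece, up to polynomial factors. -/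
noncomputable def SS3 (m : ℕ) (ρ θ : ℝ) : ℝ :=
  3 / Real.sqrt (ρ / 4) * ((1 + θ) ^ m / (ρ / 48) ^ (1 / θ) * (1 + m * Real.log 2))

theorem size_le3 {m : ℕ} {ρ θ x y : ℝ} (hρ : 0 < ρ) (hθ : 0 < θ) (hx : 0 < x) (hy : 0 < y)
    (hxy : y ≤ x) (hρxy : ρ / 4 ≤ x * y) {t s : ℕ} (ht : (t : ℝ) * x ≤ 3)
    (hs : (s : ℝ) ≤ (1 + θ) ^ m / (x / 12 * y) ^ (1 / θ) * (1 + m * Real.log 2)) :
    t * s ≤ ⌊SS3 m ρ θ⌋₊ := by
  have hlog2 : 0 < Real.log 2 := Real.log_pos (by norm_num)
  apply Nat.le_floor
  push_cast
  have h1 : Real.sqrt (ρ / 4) ≤ x := by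
    calc Real.sqrt (ρ / 4) ≤ Real.sqrt (x ^ 2) := Real.sqrt_le_sqrt (by nlinarith)
      _ = x := Real.sqrt_sq hx.le
  have h2 : 0 < Real.sqrt (ρ / 4) := Real.sqrt_pos.2 (by positivity)
  have h3 : (t : ℝ) ≤ 3 / Real.sqrt (ρ / 4) := by
    rw [le_div_iff₀ h2]
    exact (mul_le_mul_of_nonneg_left h1 (by positivity)).trans ht
  have h4 : (ρ / 48) ^ (1 / θ) ≤ (x / 12 * y) ^ (1 / θ) :=
    Real.rpow_le_rpow (by positivity) (by linarith) (by positivity)
  have h5 : 0 < (ρ / 48) ^ (1 / θ) := Real.rpow_pos_of_pos (by positivity) _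
  have h6 : (s : ℝ) ≤ (1 + θ) ^ m / (ρ / 48) ^ (1 / θ) * (1 + m * Real.log 2) := by
    refine hs.trans ?_
    gcongr
  unfold SS3
  exact mul_le_mul h3 h6 (by positivity) (by positivity)

/-- The separation of the types that are heavy in a small piece. -/
theorem unit3 {m n w r : ℕ} (hm : 1 ≤ m) {τ : ℝ} (hτ : 0 < τ) (hτ1 : 8 * m * τ ≤ 1)
    {g : (Fin n → Bool) → Bool} {μ : Bool → (Fin n → Bool) → ℝ} (hH : Hard m w τ g μ)
    {ρ θ : ℝ} (hρ : 0 < ρ) (hρr : (8 * m * τ) ^ r * (3 * m * τ) ≤ ρ) (hθ : 0 < θ)
    (hθ1 : θ ≤ 1 / 2) (S T : Finset (Mat m n)) (h : SSep g w S T) (p q : ℝ) (hp : 0 < p)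
    (hp1 : p ≤ 1 / 2) (hq : 0 < q) (hq1 : q ≤ 1 / 2) (hpq : ρ ≤ p * q)
    (A B : Finset (Fin m → Bool)) (hA : ∀ a ∈ A, p ≤ pr μ a S) (hB : ∀ b ∈ B, q ≤ pr μ b T) :
    SepF ((m + 1) ^ r * ((m + 1) ^ r * (216 * m ^ 3 * (4 ^ r * ⌊SS3 m ρ θ⌋₊ * m)))) A B := by
  classical
  have hpr0 : ∀ a : Fin m → Bool, pr μ a (∅ : Finset (Mat m n)) = 0 := fun a => by simp [pr]
  rcases h with h | h | ⟨F, hF, h1, h2⟩
  · have : A = ∅ := by
      rw [Finset.eq_empty_iff_forall_notMem]
      intro a ha
      have := hA a ha
      rw [h, hpr0] at this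
      linarith
    rw [this]
    exact SepF.empty_left _ _
  · have : B = ∅ := by
      rw [Finset.eq_empty_iff_forall_notMem]
      intro a ha
      have := hB a ha
      rw [h, hpr0] at this
      linarith
    rw [this]
    exact SepF.empty_right _ _
  · have hρp : ρ ≤ p := by nlinarith
    have hρq : ρ ≤ q := by nlinarith
    have hν0 : ∀ x, 0 ≤ nu μ x := fun x => by
      have h3 := hH.nonneg false x
      have h4 := hH.nonneg true x
      unfold nu
      positivity
    have hν1 : ∑ x, nu μ x = 1 := by
      unfold nu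
      rw [← Finset.sum_div, Finset.sum_add_distrib, hH.sum, hH.sum]
      norm_num
    -- the dropped rows
    have hdA : ∀ a ∈ A, ∃ J : Finset (Fin m), J.card ≤ r ∧
        p / 2 ≤ mea (nu μ) (setAI F a (univ \ J)) := by
      intro a ha
      refine drop_rows hm hτ hτ1 hH (isFam_A F hF a) r univ a p hp (hρr.trans hρp) ?_
      refine (hA a ha).trans (pr_le_of hH.nonneg hH.supp (g := g) ?_)
      intro X hX hXa
      rw [mem_setAI_univ, ← hXa]
      exact h1 X hX
    have hdB : ∀ b ∈ B, ∃ J : Finset (Fin m), J.card ≤ r ∧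
        q / 2 ≤ mea (nu μ) (setBI F b (univ \ J)) := by
      intro b hb
      refine drop_rows hm hτ hτ1 hH (isFam_B F hF b) r univ b q hq (hρr.trans hρq) ?_
      refine (hB b hb).trans (pr_le_of hH.nonneg hH.supp (g := g) ?_)
      intro X hX hXa
      rw [mem_setBI_univ, ← hXa]
      exact h2 X hX
    have hAU : A ⊆ (smallSets m r).biUnion (fun J => A.filter (fun a =>
        p / 2 ≤ mea (nu μ) (setAI F a (univ \ J)))) := by
      intro a ha
      obtain ⟨J, hJ, hJ'⟩ := hdA a ha
      rw [Finset.mem_biUnion]
      exact ⟨J, Finset.mem_filter.2 ⟨Finset.mem_univ _, hJ⟩, Finset.mem_filter.2 ⟨ha, hJ'⟩⟩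
    have hBU : B ⊆ (smallSets m r).biUnion (fun J => B.filter (fun b =>
        q / 2 ≤ mea (nu μ) (setBI F b (univ \ J)))) := by
      intro b hb
      obtain ⟨J, hJ, hJ'⟩ := hdB b hb
      rw [Finset.mem_biUnion]
      exact ⟨J, Finset.mem_filter.2 ⟨Finset.mem_univ _, hJ⟩, Finset.mem_filter.2 ⟨hb, hJ'⟩⟩
    have hcell : ∀ J ∈ smallSets m r, ∀ J' ∈ smallSets m r,
        SepF (216 * m ^ 3 * (4 ^ r * ⌊SS3 m ρ θ⌋₊ * m))
          (A.filter (fun a => p / 2 ≤ mea (nu μ) (setAI F a (univ \ J))))
          (B.filter (fun b => q / 2 ≤ mea (nu μ) (setBI F b (univ \ J')))) := by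
      intro J hJ J' hJ'
      have hJr : J.card ≤ r := (Finset.mem_filter.1 hJ).2
      have hJr' : J'.card ≤ r := (Finset.mem_filter.1 hJ').2
      have hS0 : 2 ^ (J ∪ J').card ≤ 4 ^ r := by
        calc 2 ^ (J ∪ J').card ≤ 2 ^ (2 * r) :=
              Nat.pow_le_pow_right (by norm_num) ((Finset.card_union_le _ _).trans (by omega))
          _ = 4 ^ r := by rw [pow_mul]; norm_num
      have hsz : ∀ t s : ℕ, t * s ≤ ⌊SS3 m ρ θ⌋₊ →
          216 * m ^ 3 * (t * (2 ^ (J ∪ J').card * s * m)) ≤
            216 * m ^ 3 * (4 ^ r * ⌊SS3 m ρ θ⌋₊ * m) := by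
        intro t s hts
        refine Nat.mul_le_mul_left _ ?_
        calc t * (2 ^ (J ∪ J').card * s * m) = 2 ^ (J ∪ J').card * (t * s) * m := by ring
          _ ≤ 4 ^ r * ⌊SS3 m ρ θ⌋₊ * m := Nat.mul_le_mul_right _ (Nat.mul_le_mul hS0 hts)
      have hconf : ∀ a b : Fin m → Bool, ∀ X ∈ setAI F a (univ \ J), ∀ Y ∈ setBI F b (univ \ J'),
          ∃ i, a i ≠ b i ∧ (i ∉ J ∪ J' → X i ≠ Y i) := by
        intro a b X hX Y hY
        obtain ⟨i, hi1, hi2⟩ := conflictI hX hY
        refine ⟨i, hi1, fun hi => hi2 ?_ ?_⟩
        · rw [Finset.mem_sdiff]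
          exact ⟨Finset.mem_univ _, fun h => hi (Finset.mem_union_left _ h)⟩
        · rw [Finset.mem_sdiff]
          exact ⟨Finset.mem_univ _, fun h => hi (Finset.mem_union_right _ h)⟩
      have hxy : ρ / 4 ≤ p / 2 * (q / 2) := by linarith
      rcases le_total q p with hle | hle
      · obtain ⟨t, s, ht, hs, hsep⟩ := unit_sep3 hm hθ hθ1 hν0 hν1
          (A.filter (fun a => p / 2 ≤ mea (nu μ) (setAI F a (univ \ J))))
          (B.filter (fun b => q / 2 ≤ mea (nu μ) (setBI F b (univ \ J'))))
          (fun a => setAI F a (univ \ J)) (fun b => setBI F b (univ \ J')) (J ∪ J')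
          (p := p / 2) (q := q / 2) (by positivity) (by positivity)
          (fun a ha => (Finset.mem_filter.1 ha).2) (fun b hb => (Finset.mem_filter.1 hb).2)
          (fun a _ b _ X hX Y hY => hconf a b X hX Y hY)
        exact hsep.mono (hsz t s (size_le3 hρ hθ (by positivity) (by positivity) (by linarith)
          hxy ht hs)) (Finset.Subset.refl _) (Finset.Subset.refl _)
      · obtain ⟨t, s, ht, hs, hsep⟩ := unit_sep3 hm hθ hθ1 hν0 hν1
          (B.filter (fun b => q / 2 ≤ mea (nu μ) (setBI F b (univ \ J'))))
          (A.filter (fun a => p / 2 ≤ mea (nu μ) (setAI F a (univ \ J))))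
          (fun b => setBI F b (univ \ J')) (fun a => setAI F a (univ \ J)) (J ∪ J')
          (p := q / 2) (q := p / 2) (by positivity) (by positivity)
          (fun b hb => (Finset.mem_filter.1 hb).2) (fun a ha => (Finset.mem_filter.1 ha).2)
          (fun b _ a _ Y hY X hX => by
            obtain ⟨i, hi1, hi2⟩ := hconf a b X hX Y hY
            exact ⟨i, hi1.symm, fun h => (hi2 h).symm⟩)
        exact hsep.symm.mono (hsz t s (size_le3 hρ hθ (by positivity) (by positivity)
          (by linarith) (by linarith) ht hs)) (Finset.Subset.refl _) (Finset.Subset.refl _)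
    have h3 := sepF_biUnion_left (smallSets m r) _ _ (fun J hJ =>
      sepF_biUnion_right (smallSets m r) _ _ (fun J' hJ' => hcell J hJ J' hJ'))
    refine h3.mono ?_ hAU hBU
    exact Nat.mul_le_mul (card_smallSets m r) (Nat.mul_le_mul_right _ (card_smallSets m r))

/-- The explicit bound. -/
theorem main_explicit3 {m n w : ℕ} (hm : 1 ≤ m) (hw : 1 ≤ w) {τ : ℝ} (hτ : 0 < τ)
    (hτ1 : 8 * m * τ ≤ 1) {g : (Fin n → Bool) → Bool} {μ : Bool → (Fin n → Bool) → ℝ}
    (hH : Hard m w τ g μ) (hgw : ¬ Comp w g)
    {f : (Fin m → Bool) → Bool} (hf : ∃ a b, f a = true ∧ f b = false)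
    {P : Prot (Mat m n) (Mat m n) (Fin m × Fin n)} (hP : StrongSolves f g P) :
    ∃ N : ℕ, 1 ≤ N ∧ w * N ≤ 6 * P.leaves ∧
      ∀ r : ℕ, (8 * m * τ) ^ r * (3 * m * τ) ≤ 1 / (4 * N) → ∀ θ : ℝ, 0 < θ → θ ≤ 1 / 2 →
        fsize f ≤ N * ((m + 1) ^ r * ((m + 1) ^ r *
          (216 * m ^ 3 * (4 ^ r * ⌊SS3 m (1 / (4 * N)) θ⌋₊ * m)))) := by
  classical
  have hsur : ∀ c : Bool, ∃ x, g x = c := by
    intro c
    have h1 := hH.sum c
    obtain ⟨x, _, hx⟩ := Finset.exists_ne_zero_of_sum_ne_zero (by rw [h1]; norm_num)
    exact ⟨x, hH.supp c x hx⟩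
  rcases dec_of_prot (g := g) hw P (rootS f g true) (rootS f g false) (by
    intro X hX Y hY
    rw [rootS, Finset.mem_filter] at hX hY
    exact hP X Y hX.2 hY.2) with h | ⟨N, hd, hN⟩
  · exact absurd (comp_g hsur hf h) hgw
  refine ⟨N, hd.pos, hN, fun r hr θ hθ hθ1 => ?_⟩
  have hNR : (1 : ℝ) ≤ N := by exact_mod_cast hd.pos
  have hroot : ∀ (c : Bool) (a : Fin m → Bool), f a = c → 1 / 2 ≤ pr μ a (rootS f g c) := by
    intro c a hc
    have h1 : pr μ a (univ : Finset (Mat m n)) ≤ pr μ a (rootS f g c) :=
      pr_le_of hH.nonneg hH.supp (g := g) (fun X _ hX => by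
        rw [rootS, Finset.mem_filter]
        exact ⟨Finset.mem_univ _, by rw [hX]; exact hc⟩)
    rw [pr_univ hH.sum] at h1
    linarith
  have hsep := heavyD (r := 1 / (4 * (N : ℝ)))
    (K := (m + 1) ^ r * ((m + 1) ^ r * (216 * m ^ 3 * (4 ^ r * ⌊SS3 m (1 / (4 * N)) θ⌋₊ * m))))
    (fun S a => pr μ a S) (fun S T h a => pr_mono hH.nonneg a h)
    (fun S T a => pr_union hH.nonneg a S T)
    (fun S' T' h' p q hp hp1 hq hq1 hpq A B hA hB =>
      unit3 hm hτ hτ1 hH (ρ := 1 / (4 * (N : ℝ))) (by positivity) hr hθ hθ1 S' T' h' p q hp hp1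
        hq hq1 hpq A B hA hB) hd
    (1 / 2) (1 / 2) (by norm_num) le_rfl (by norm_num) le_rfl (by
      have : 1 / (4 * (N : ℝ)) * N = 1 / 4 := by field_simp
      rw [this]; norm_num) (univ.filter (fun a => f a = true)) (univ.filter (fun b => f b = false))
    (fun a ha => hroot true a (Finset.mem_filter.1 ha).2)
    (fun b hb => hroot false b (Finset.mem_filter.1 hb).2)
  obtain ⟨h, hc, h1, h2⟩ := hsep
  have e : h = f := by
    funext a
    cases hfa : f a with
    | true => exact h1 a (by simp [hfa])
    | false => exact h2 a (by simp [hfa])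
  rw [e] at hc
  exact fsize_le hc

end Pool.Agent.H.MP_027d00_lc.SComp
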