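import Pool.Agent.H.MP_027d00_lc.strong.Defs

/-!
# Monotone formulas and their number
-/

set_option autoImplicit false

namespace Pool.Agent.H.MP_027d00_lc.SComp

/-- Monotone formulas without constants. -/
inductive MF (V : Type) : Type
  | var (v : V)
  | and (F G : MF V)
  | or (F G : MF V)

/-- The value. -/
def MF.eval {V : Type} (x : V → Bool) : MF V → Bool
  | .var v => x v
  | .and F G => F.eval x && G.eval x
  | .or F G => F.eval x || G.eval x

/-- The number of leaves. -/
def MF.size {V : Type} : MF V → ℕ
  | .var _ => 1
  | .and F G => F.size + G.size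
  | .or F G => F.size + G.size

/-- Monotonicity. -/
theorem MF.eval_mono {V : Type} (F : MF V) {x y : V → Bool}
    (h : ∀ v, x v = true → y v = true) (hx : F.eval x = true) : F.eval y = true := by
  induction F with
  | var v => exact h v hx
  | and F G ihF ihG =>
    simp only [MF.eval, Bool.and_eq_true] at hx ⊢
    exact ⟨ihF hx.1, ihG hx.2⟩
  | or F G ihF ihG =>
    simp only [MF.eval, Bool.or_eq_true] at hx ⊢
    exact hx.imp ihF ihG

/-- A formula that distinguishes `x` from `y` has a variable that does. -/
theorem MF.conflict {V : Type} (F : MF V) {x y : V → Bool} (hx : F.eval x = true)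
    (hy : F.eval y = false) : ∃ v, x v = true ∧ y v = false := by
  by_contra hcon
  push Not at hcon
  have := F.eval_mono (x := x) (y := y) (fun v hv => by
    have := hcon v hv
    cases h : y v
    · exact absurd h this
    · rfl) hx
  rw [hy] at this
  exact absurd this (by simp)

/-- The Polish notation of a formula. -/
def MF.code {V : Type} : MF V → List (Bool ⊕ V)
  | .var v => [Sum.inr v]
  | .and F G => Sum.inl true :: (F.code ++ G.code)
  | .or F G => Sum.inl false :: (F.code ++ G.code)

theorem MF.length_code {V : Type} (F : MF V) : F.code.length + 1 = 2 * F.size := by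
  induction F with
  | var v => rfl
  | and F G ihF ihG => simp only [MF.code, MF.size, List.length_cons, List.length_append]; omega
  | or F G ihF ihG => simp only [MF.code, MF.size, List.length_cons, List.length_append]; omega

theorem MF.code_inj {V : Type} (F : MF V) : ∀ (G : MF V) (l l' : List (Bool ⊕ V)),
    F.code ++ l = G.code ++ l' → F = G ∧ l = l' := by
  induction F with
  | var v =>
    intro G l l' h
    cases G with
    | var v' => simpa [MF.code] using h
    | and G₀ G₁ => simp [MF.code] at h
    | or G₀ G₁ => simp [MF.code] at h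
  | and F₀ F₁ ih₀ ih₁ =>
    intro G l l' h
    cases G with
    | var v' => simp [MF.code] at h
    | and G₀ G₁ =>
      simp only [MF.code, List.cons_append, List.append_assoc, List.cons.injEq, true_and] at h
      obtain ⟨h1, h2⟩ := ih₀ _ _ _ h
      obtain ⟨h3, h4⟩ := ih₁ _ _ _ h2
      exact ⟨by rw [h1, h3], h4⟩
    | or G₀ G₁ => simp [MF.code] at h
  | or F₀ F₁ ih₀ ih₁ =>
    intro G l l' h
    cases G with
    | var v' => simp [MF.code] at h
    | and G₀ G₁ => simp [MF.code] at h
    | or G₀ G₁ =>
      simp only [MF.code, List.cons_append, List.append_assoc, List.cons.injEq, true_and] at h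
      obtain ⟨h1, h2⟩ := ih₀ _ _ _ h
      obtain ⟨h3, h4⟩ := ih₁ _ _ _ h2
      exact ⟨by rw [h1, h3], h4⟩

/-- There are few small monotone formulas. -/
theorem MF.count {V : Type} [Fintype V] (w : ℕ) :
    ∃ S : Finset (MF V), (∀ F : MF V, F.size ≤ w → F ∈ S) ∧
      S.card ≤ (Fintype.card V + 3) ^ (2 * w) := by
  classical
  set φ : {F : MF V // F.size ≤ w} → (Fin (2 * w) → Option (Bool ⊕ V)) :=
    fun F i => F.1.code[i.1]? with hφ
  have hinj : Function.Injective φ := by
    rintro ⟨F, hF⟩ ⟨G, hG⟩ h
    have h1 : F.code = G.code := by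
      apply List.ext_getElem?
      intro i
      by_cases hi : i < 2 * w
      · exact congrFun h ⟨i, hi⟩
      · have h2 := F.length_code
        have h3 := G.length_code
        rw [List.getElem?_eq_none (by omega), List.getElem?_eq_none (by omega)]
    have h2 := F.code_inj G [] [] (by simpa using h1)
    exact Subtype.ext h2.1
  have : Finite {F : MF V // F.size ≤ w} := Finite.of_injective φ hinj
  have : Fintype {F : MF V // F.size ≤ w} := Fintype.ofFinite _
  refine ⟨(Finset.univ : Finset {F : MF V // F.size ≤ w}).map ⟨Subtype.val, Subtype.val_injective⟩,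
    fun F hF => ?_, ?_⟩
  · rw [Finset.mem_map]
    exact ⟨⟨F, hF⟩, Finset.mem_univ _, rfl⟩
  · rw [Finset.card_map, Finset.card_univ]
    refine (Fintype.card_le_of_injective φ hinj).trans ?_
    rw [Fintype.card_fun, Fintype.card_option, Fintype.card_sum, Fintype.card_bool,
      Fintype.card_fin]
    exact Nat.pow_le_pow_left (by omega) _

end Pool.Agent.H.MP_027d00_lc.SComp
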