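import Pool.Agent.H.MP_027d00_lc.ucomp.Comp
import Pool.Agent.H.MP_027d00_lc.strong.Mono

/-!
# Separation of sets of vectors, density of a set of matrices at a type
-/

set_option autoImplicit false

open Finset

namespace Pool.Agent.H.MP_027d00_lc.SComp

open UComp

/-- There is a de Morgan formula with at most `s` leaves that is true on `A` and false on `B`. -/
def SepF {m : ℕ} (s : ℕ) (A B : Finset (Fin m → Bool)) : Prop :=
  ∃ h : (Fin m → Bool) → Bool, Comp s h ∧ (∀ a ∈ A, h a = true) ∧ ∀ b ∈ B, h b = false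

theorem SepF.mono {m s t : ℕ} {A B A' B' : Finset (Fin m → Bool)} (hs : s ≤ t) (hA : A' ⊆ A)
    (hB : B' ⊆ B) (h : SepF s A B) : SepF t A' B' := by
  obtain ⟨f, hf, h1, h2⟩ := h
  exact ⟨f, hf.mono hs, fun X hX => h1 X (hA hX), fun X hX => h2 X (hB hX)⟩

theorem SepF.union_left {m s t : ℕ} {A A' B : Finset (Fin m → Bool)} (h : SepF s A B)
    (h' : SepF t A' B) : SepF (s + t) (A ∪ A') B := by
  obtain ⟨f, hf, h1, h2⟩ := h
  obtain ⟨f', hf', h1', h2'⟩ := h'
  refine ⟨fun X => f X || f' X, hf.or hf', ?_, ?_⟩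
  · intro X hX
    rcases Finset.mem_union.1 hX with h | h
    · simp [h1 X h]
    · simp [h1' X h]
  · intro X hX
    simp [h2 X hX, h2' X hX]

theorem SepF.union_right {m s t : ℕ} {A B B' : Finset (Fin m → Bool)} (h : SepF s A B)
    (h' : SepF t A B') : SepF (s + t) A (B ∪ B') := by
  obtain ⟨f, hf, h1, h2⟩ := h
  obtain ⟨f', hf', h1', h2'⟩ := h'
  refine ⟨fun X => f X && f' X, hf.and hf', ?_, ?_⟩
  · intro X hX
    simp [h1 X hX, h1' X hX]
  · intro X hX
    rcases Finset.mem_union.1 hX with h | h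
    · simp [h2 X h]
    · simp [h2' X h]

/-- The number of matrices in `S` of type `a`, divided by `(2^n / 2)^m`. -/
noncomputable def dens {m n : ℕ} (g : (Fin n → Bool) → Bool) (S : Finset (Mat m n))
    (a : Fin m → Bool) : ℝ :=
  ((S.filter (fun X => rows g X = a)).card : ℝ) / ((2 : ℝ) ^ n / 2) ^ m

theorem dens_nonneg {m n : ℕ} (g : (Fin n → Bool) → Bool) (S : Finset (Mat m n))
    (a : Fin m → Bool) : 0 ≤ dens g S a := by
  unfold dens; positivity

theorem dens_mono {m n : ℕ} (g : (Fin n → Bool) → Bool) {S T : Finset (Mat m n)} (h : S ⊆ T)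
    (a : Fin m → Bool) : dens g S a ≤ dens g T a := by
  unfold dens
  have := Finset.card_le_card (Finset.filter_subset_filter (fun X => rows g X = a) h)
  gcongr

theorem dens_union {m n : ℕ} (g : (Fin n → Bool) → Bool) (S T : Finset (Mat m n))
    (a : Fin m → Bool) : dens g (S ∪ T) a ≤ dens g S a + dens g T a := by
  unfold dens
  rw [← add_div, Finset.filter_union]
  have : (((S.filter (fun X => rows g X = a)) ∪ (T.filter (fun X => rows g X = a))).card : ℝ) ≤
      ((S.filter (fun X => rows g X = a)).card : ℝ) + ((T.filter (fun X => rows g X = a)).card : ℝ) := by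
    exact_mod_cast Finset.card_union_le _ _
  gcongr

end Pool.Agent.H.MP_027d00_lc.SComp
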