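import Mathlib

/-!
# Counting coincidences and functions with prescribed values
-/

set_option autoImplicit false

open Finset

namespace Pool.Agent.H.MP_027d00_lc.SComp

/-- Each coincidence costs a factor `4`: induction on `R` with `Fin.snoc` (or `Fin.cons`): for the
first `R` points with `d ≤ R` distinct values, the sum over the last point of `4 ^ (is it an old
value)` is `(|Q| - d) + 4 d ≤ |Q| + 3 R`. -/
theorem coll_sum {Q : Type} [Fintype Q] [DecidableEq Q] (R : ℕ) :
    ∑ x : Fin R → Q, (4 : ℝ) ^ (R - (univ.image x).card) ≤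
      ((Fintype.card Q : ℝ) + 3 * R) ^ R := by
  induction R with
  | zero => simp
  | succ R ih =>
    have hdR : ∀ y : Fin R → Q, (univ.image y).card ≤ R := by
      intro y
      have h := Finset.card_image_le (s := (univ : Finset (Fin R))) (f := y)
      simpa using h
    have himg : ∀ (q : Q) (y : Fin R → Q),
        univ.image (Fin.cons q y : Fin (R + 1) → Q) = insert q (univ.image y) := by
      intro q y
      ext z
      simp only [Finset.mem_image, Finset.mem_univ, true_and, Finset.mem_insert]
      constructor
      · rintro ⟨i, rfl⟩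
        refine Fin.cases ?_ (fun j => ?_) i
        · left; simp
        · right; exact ⟨j, by simp⟩
      · rintro (rfl | ⟨j, rfl⟩)
        · exact ⟨0, by simp⟩
        · exact ⟨j.succ, by simp⟩
    have hterm : ∀ (q : Q) (y : Fin R → Q),
        (4 : ℝ) ^ (R + 1 - (univ.image (Fin.cons q y : Fin (R + 1) → Q)).card) =
          4 ^ (R - (univ.image y).card) * (if q ∈ univ.image y then 4 else 1) := by
      intro q y
      rw [himg]
      by_cases hq : q ∈ univ.image y
      · rw [if_pos hq, Finset.insert_eq_of_mem hq, Nat.succ_sub (hdR y), pow_succ]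
      · rw [if_neg hq, Finset.card_insert_of_notMem hq, Nat.add_sub_add_right, mul_one]
    have hsum : ∀ y : Fin R → Q, ∑ q : Q, (if q ∈ univ.image y then (4 : ℝ) else 1) ≤
        (Fintype.card Q : ℝ) + 3 * R := by
      intro y
      have h1 : ∀ q : Q, (if q ∈ univ.image y then (4 : ℝ) else 1) =
          1 + (if q ∈ univ.image y then (3 : ℝ) else 0) := by
        intro q
        split_ifs <;> norm_num
      simp_rw [h1]
      rw [Finset.sum_add_distrib, ← Finset.sum_filter, Finset.sum_const, Finset.sum_const,
        Finset.filter_mem_eq_inter, Finset.univ_inter]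
      have h2 : ((univ.image y).card : ℝ) ≤ R := by exact_mod_cast hdR y
      simp only [nsmul_eq_mul, mul_one, Finset.card_univ]
      linarith
    have key : ∑ x : Fin (R + 1) → Q, (4 : ℝ) ^ (R + 1 - (univ.image x).card) =
        ∑ y : Fin R → Q, 4 ^ (R - (univ.image y).card) *
          ∑ q : Q, (if q ∈ univ.image y then (4 : ℝ) else 1) := by
      rw [← (Fin.consEquiv (fun _ : Fin (R + 1) => Q)).sum_comp, Fintype.sum_prod_type,
        Finset.sum_comm]
      refine Finset.sum_congr rfl (fun y _ => ?_)
      rw [Finset.mul_sum]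
      refine Finset.sum_congr rfl (fun q _ => ?_)
      exact hterm q y
    rw [key]
    have hb0 : (0 : ℝ) ≤ (Fintype.card Q : ℝ) + 3 * R := by positivity
    calc ∑ y : Fin R → Q, 4 ^ (R - (univ.image y).card) *
          ∑ q : Q, (if q ∈ univ.image y then (4 : ℝ) else 1)
        ≤ ∑ y : Fin R → Q, (4 : ℝ) ^ (R - (univ.image y).card) *
            ((Fintype.card Q : ℝ) + 3 * R) :=
          Finset.sum_le_sum (fun y _ => mul_le_mul_of_nonneg_left (hsum y) (by positivity))
      _ = (∑ y : Fin R → Q, (4 : ℝ) ^ (R - (univ.image y).card)) *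
            ((Fintype.card Q : ℝ) + 3 * R) := by rw [Finset.sum_mul]
      _ ≤ ((Fintype.card Q : ℝ) + 3 * R) ^ R * ((Fintype.card Q : ℝ) + 3 * R) :=
          mul_le_mul_of_nonneg_right ih hb0
      _ = ((Fintype.card Q : ℝ) + 3 * R) ^ (R + 1) := by rw [pow_succ]
      _ ≤ ((Fintype.card Q : ℝ) + 3 * ((R + 1 : ℕ) : ℝ)) ^ (R + 1) := by
          apply pow_le_pow_left₀ hb0
          push_cast
          linarith

/-- The number of functions with prescribed values on `D`. -/
theorem card_prescribed {Q : Type} [Fintype Q] [DecidableEq Q] (D : Finset Q) (c : Q → Bool) :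
    (univ.filter (fun g : Q → Bool => ∀ x ∈ D, g x = c x)).card =
      2 ^ (Fintype.card Q - D.card) := by
  have h1 : (univ.filter (fun g : Q → Bool => ∀ x ∈ D, g x = c x)) =
      Fintype.piFinset (fun x : Q => if x ∈ D then ({c x} : Finset Bool) else univ) := by
    ext g
    simp only [Finset.mem_filter, Finset.mem_univ, true_and, Fintype.mem_piFinset]
    refine forall_congr' (fun x => ?_)
    by_cases hx : x ∈ D <;> simp [hx]
  rw [h1, Fintype.card_piFinset]
  have h2 : ∀ x : Q, (if x ∈ D then ({c x} : Finset Bool) else univ).card =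
      if x ∈ D then 1 else 2 := by
    intro x
    split_ifs <;> simp
  simp_rw [h2]
  rw [Finset.prod_ite, Finset.prod_const_one, one_mul, Finset.prod_const]
  congr 1
  have h3 : univ.filter (fun x : Q => x ∉ D) = Dᶜ := by
    ext x; simp
  rw [h3, Finset.card_compl]

end Pool.Agent.H.MP_027d00_lc.SComp
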