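import Pool.Agent.H.MP_027d00_lc.ucomp.Defs

/-!
# The strong composition of two Karchmer-Wigderson games
-/

set_option autoImplicit false

namespace Pool.Agent.H.MP_027d00_lc.SComp

open UComp

/-- `P` solves the strong composition of the Karchmer-Wigderson games of `f` and `g`: whenever
`f (g (X₁), ..., g (X_m)) = 1` and `f (g (Y₁), ..., g (Y_m)) = 0`, the output is an entry `(i, j)`
with `X i j ≠ Y i j` and `g (X i) ≠ g (Y i)`. -/
def StrongSolves {m n : ℕ} (f : (Fin m → Bool) → Bool) (g : (Fin n → Bool) → Bool)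
    (P : Prot (Mat m n) (Mat m n) (Fin m × Fin n)) : Prop :=
  ∀ X Y : Mat m n, f (rows g X) = true → f (rows g Y) = false →
    X (P.run X Y).1 (P.run X Y).2 ≠ Y (P.run X Y).1 (P.run X Y).2 ∧
      g (X (P.run X Y).1) ≠ g (Y (P.run X Y).1)

end Pool.Agent.H.MP_027d00_lc.SComp
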