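import Mathlib

/-!
# The final computation with logarithms
-/

set_option autoImplicit false

open Finset

namespace Pool.Agent.H.MP_027d00_lc.SComp

/-- `logb 2 T ≤ T` for positive `T`. -/
theorem FinalLog_logb_le {T : ℝ} (hT : 0 < T) : Real.logb 2 T ≤ T := by
  have h2 : (0 : ℝ) < Real.log 2 := Real.log_pos (by norm_num)
  have h3 : (1 / 2 : ℝ) ≤ Real.log 2 := by
    have := Real.log_two_gt_d9
    linarith
  have h1 : Real.log T ≤ T / 2 := by
    have e : Real.log T = 2 * Real.log (Real.sqrt T) := by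
      rw [Real.log_sqrt hT.le]
      ring
    have h4 : Real.log (T / 4) ≤ T / 4 - 1 := Real.log_le_sub_one_of_pos (by positivity)
    rw [Real.log_div hT.ne' (by norm_num)] at h4
    have h5 : Real.log 4 = 2 * Real.log 2 := by
      rw [show (4 : ℝ) = 2 ^ 2 by norm_num, Real.log_pow]
      norm_num
    have h6 := Real.log_two_lt_d9
    have h7 : Real.log (T / 2) ≤ T / 2 - 1 := Real.log_le_sub_one_of_pos (by positivity)
    rw [Real.log_div hT.ne' (by norm_num)] at h7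
    linarith
  rw [Real.logb, div_le_iff₀ h2]
  nlinarith

/-- The final computation.

Proof (constants may be chosen differently): suppose not, so with `T = logb 2 (4 m / l)` and
`A = l^2 / (m T^2)`, `k + C (logb 2 m + 1) < A / C`. Then `l > 0`; `T ≥ 1` as `l ≤ 2 m`; and
`A > C^2`, `k + 1 ≤ A / C`, `logb 2 m + 1 ≤ A / C^2`. Let
`s = ⌈sqrt (m (2 k log 2 + 15))⌉₊ ≥ 1`. Then `s^2 ≤ 2 m (2 k log 2 + 15) + 2 ≤ 40 m (k + 1) ≤
40 m A / C = (40 / C) l^2 / T^2`. Let `ε = 1/64` and `σ = ε l / T`; if `40 / C ≤ ε^2` then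
`s ≤ σ`, and `σ ≤ 2 m / 64 ≤ m`. So the hypothesis gives
`l ≤ 18 + 3 logb 2 m + 3 k + logb 2 s + σ (logb 2 (m / σ) + 3)`. Here
`m / σ = m T / (ε l) = (4 m / l) * T * 16`, so `logb 2 (m / σ) = T + logb 2 T + 4 ≤ 2 T + 4` and
`σ (2 T + 7) ≤ 9 σ T = 9 l / 64`. And `A ≤ l * (l / m) ≤ 2 l`, so `3 k ≤ 3 A / C ≤ 6 l / C`,
`logb 2 s ≤ logb 2 m` and `18 + 4 logb 2 m ≤ 18 (logb 2 m + 1) ≤ 18 A / C^2 ≤ 36 l / C^2`. The sum
is less than `l`, a contradiction. -/
theorem final_log : ∃ C : ℕ, 1 ≤ C ∧ ∀ (m : ℕ) (l k : ℝ), 1 ≤ m → 0 ≤ l → l ≤ 2 * m → 0 ≤ k →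
    (∀ (s : ℕ) (σ : ℝ), 1 ≤ s → (m : ℝ) * (2 * k * Real.log 2 + 15) ≤ (s : ℝ) ^ 2 →
      (s : ℝ) ≤ σ → σ ≤ m →
      l ≤ 18 + 3 * Real.logb 2 m + 3 * k + Real.logb 2 s + σ * (Real.logb 2 (m / σ) + 3)) →
    l ^ 2 / (C * m * (Real.logb 2 (4 * m / l)) ^ 2) ≤ k + C * (Real.logb 2 m + 1) := by
  refine ⟨200000, by norm_num, ?_⟩
  intro m l k hm hl0 hl hk hyp
  by_contra hcon
  push Not at hcon
  push_cast at hcon
  have hm' : (1 : ℝ) ≤ m := by exact_mod_cast hm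
  have hmpos : (0 : ℝ) < m := by linarith
  obtain ⟨L, hL⟩ : ∃ L, L = Real.logb 2 (m : ℝ) := ⟨_, rfl⟩
  obtain ⟨T, hT⟩ : ∃ T, T = Real.logb 2 (4 * (m : ℝ) / l) := ⟨_, rfl⟩
  rw [← hL, ← hT] at hcon
  have hL0 : 0 ≤ L := by rw [hL]; exact Real.logb_nonneg (by norm_num) hm'
  have hlpos : 0 < l := by
    rcases hl0.eq_or_lt with h | h
    · rw [← h] at hcon
      norm_num at hcon
      linarith
    · exact h
  have hT1 : 1 ≤ T := by
    rw [hT, Real.le_logb_iff_rpow_le (by norm_num) (by positivity), Real.rpow_one,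
      le_div_iff₀ hlpos]
    linarith
  have hTpos : 0 < T := by linarith
  obtain ⟨A, hA⟩ : ∃ A, A = l ^ 2 / (m * T ^ 2) := ⟨_, rfl⟩
  have hA0 : 0 < A := by rw [hA]; positivity
  have e1 : l ^ 2 / (200000 * m * T ^ 2) = A / 200000 := by
    rw [hA]
    field_simp
  rw [e1] at hcon
  have hA2 : A ≤ 2 * l := by
    rw [hA, div_le_iff₀ (by positivity)]
    have h1 : l ^ 2 ≤ 2 * l * m := by nlinarith
    have h2 : (1 : ℝ) ≤ T ^ 2 := by nlinarith
    have h3 : 2 * l * m * 1 ≤ 2 * l * m * T ^ 2 := mul_le_mul_of_nonneg_left h2 (by positivity)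
    linarith
  have hk1 : k + 1 ≤ A / 200000 := by nlinarith
  have hL1 : L + 1 ≤ A / 200000 / 200000 := by
    rw [le_div_iff₀ (by norm_num)]
    linarith
  -- the number s
  obtain ⟨B, hB⟩ : ∃ B, B = (m : ℝ) * (2 * k * Real.log 2 + 15) := ⟨_, rfl⟩
  have hlog2 : 0 < Real.log 2 := Real.log_pos (by norm_num)
  have hlog2' : Real.log 2 ≤ 1 := by
    have := Real.log_two_lt_d9
    linarith
  have hkl0 : 0 ≤ k * Real.log 2 := by positivity
  have hkl : k * Real.log 2 ≤ k := by nlinarith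
  have hB15 : 15 ≤ B := by rw [hB]; nlinarith
  have hB2 : B ≤ m * (2 * k + 15) := by
    rw [hB]
    refine mul_le_mul_of_nonneg_left ?_ hmpos.le
    linarith
  have hsq0 : 0 < Real.sqrt B := Real.sqrt_pos.2 (by linarith)
  have hsq2 : Real.sqrt B ^ 2 = B := Real.sq_sqrt (by linarith)
  obtain ⟨s, hs⟩ : ∃ s, s = ⌈Real.sqrt B⌉₊ := ⟨_, rfl⟩
  have hs1 : 1 ≤ s := by rw [hs]; exact Nat.ceil_pos.2 hsq0
  have hsB : Real.sqrt B ≤ s := by rw [hs]; exact Nat.le_ceil _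
  have hsB' : (s : ℝ) < Real.sqrt B + 1 := by rw [hs]; exact Nat.ceil_lt_add_one hsq0.le
  have hs2 : B ≤ (s : ℝ) ^ 2 := by
    rw [← hsq2]
    exact pow_le_pow_left₀ hsq0.le hsB 2
  have hs3 : (s : ℝ) ^ 2 ≤ 40 * m * (k + 1) := by
    have h1 : (s : ℝ) ^ 2 ≤ (Real.sqrt B + 1) ^ 2 :=
      pow_le_pow_left₀ (by positivity) hsB'.le 2
    have h2 : (Real.sqrt B + 1) ^ 2 ≤ 2 * B + 2 := by
      nlinarith [sq_nonneg (Real.sqrt B - 1)]
    have h3 : 2 * B + 2 ≤ 2 * (m * (2 * k + 15)) + 2 * m := by linarith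
    have h4 : 2 * ((m : ℝ) * (2 * k + 15)) + 2 * m ≤ 40 * m * (k + 1) := by
      have : 0 ≤ (m : ℝ) * k := by positivity
      nlinarith
    linarith
  obtain ⟨σ, hσ⟩ : ∃ σ, σ = l / (64 * T) := ⟨_, rfl⟩
  have hσpos : 0 < σ := by rw [hσ]; positivity
  have hs4 : (s : ℝ) ≤ σ := by
    have h1 : (s : ℝ) ^ 2 ≤ σ ^ 2 := by
      have h2 : 40 * m * (k + 1) ≤ 40 * m * (A / 200000) :=
        mul_le_mul_of_nonneg_left hk1 (by positivity)
      have h3 : 40 * m * (A / 200000) = (l / T) ^ 2 / 5000 := by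
        rw [hA]
        field_simp
        ring
      have h4 : σ ^ 2 = (l / T) ^ 2 / 4096 := by
        rw [hσ]
        field_simp
        ring
      have h5 : (l / T) ^ 2 / 5000 ≤ (l / T) ^ 2 / 4096 := by
        have : 0 ≤ (l / T) ^ 2 := by positivity
        linarith
      linarith
    exact le_of_sq_le_sq h1 hσpos.le
  have hσm : σ ≤ m := by
    rw [hσ, div_le_iff₀ (by positivity)]
    nlinarith [mul_pos hmpos hTpos]
  have key := hyp s σ hs1 (by rw [← hB]; exact hs2) hs4 hσm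
  rw [← hL] at key
  have hspos : (0 : ℝ) < s := by exact_mod_cast hs1
  have hlogs : Real.logb 2 (s : ℝ) ≤ L := by
    rw [hL]
    exact Real.logb_le_logb_of_le (by norm_num) hspos (hs4.trans hσm)
  have hms : Real.logb 2 ((m : ℝ) / σ) ≤ 2 * T + 4 := by
    have e2 : (m : ℝ) / σ = (4 * m / l) * T * 16 := by
      rw [hσ]
      field_simp
      ring
    have e3 : Real.logb 2 (16 : ℝ) = 4 := by
      rw [show (16 : ℝ) = 2 ^ (4 : ℝ) by norm_num]
      exact Real.logb_rpow (by norm_num) (by norm_num)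
    rw [e2, Real.logb_mul (by positivity) (by norm_num), Real.logb_mul (by positivity) hTpos.ne',
      ← hT, e3]
    have := FinalLog_logb_le hTpos
    linarith
  have h9 : σ * (Real.logb 2 ((m : ℝ) / σ) + 3) ≤ 9 * l / 64 := by
    have h1 : σ * (Real.logb 2 ((m : ℝ) / σ) + 3) ≤ σ * (9 * T) :=
      mul_le_mul_of_nonneg_left (by linarith) hσpos.le
    have h2 : σ * (9 * T) = 9 * l / 64 := by
      rw [hσ]
      field_simp
    linarith
  have h10 : k ≤ 2 * l / 200000 := by linarith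
  have h11 : L + 1 ≤ 2 * l / 200000 / 200000 := by
    have : A / 200000 / 200000 ≤ 2 * l / 200000 / 200000 := by
      refine div_le_div_of_nonneg_right ?_ (by norm_num)
      exact div_le_div_of_nonneg_right hA2 (by norm_num)
    linarith
  linarith

end Pool.Agent.H.MP_027d00_lc.SComp
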