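import Pool.Agent.H.MP_027d00_lc.strong.Main
import Pool.Agent.H.MP_027d00_lc.strong.FinalLog

/-!
# The lower bound for the strong composition with a random inner function
-/

set_option autoImplicit false

open Finset

namespace Pool.Agent.H.MP_027d00_lc.SComp

open UComp

/-- The condition on `s` in terms of logarithms. -/
theorem exp_cond {m N s : ℕ} (hm : 1 ≤ m) (hN : 1 ≤ N)
    (hs : (m : ℝ) * (2 * Real.logb 2 N * Real.log 2 + 15) ≤ (s : ℝ) ^ 2) :
    12 * Real.exp (-((s : ℝ) ^ 2 / m)) ≤ (1 / (400 * (N : ℝ))) ^ 2 := by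
  have hmR : (0 : ℝ) < m := by exact_mod_cast hm
  have hNR : (0 : ℝ) < N := by exact_mod_cast hN
  have h2 : (0 : ℝ) < Real.log 2 := Real.log_pos (by norm_num)
  have e1 : Real.logb 2 N * Real.log 2 = Real.log N := by
    rw [Real.logb, div_mul_cancel₀ _ h2.ne']
  have h3 : 2 * Real.log N + 15 ≤ (s : ℝ) ^ 2 / m := by
    rw [le_div_iff₀ hmR, mul_comm]
    refine le_trans (le_of_eq ?_) hs
    rw [mul_assoc 2, e1]
  have h4 : (N : ℝ) ^ 2 * 1920000 ≤ Real.exp ((s : ℝ) ^ 2 / m) := by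
    refine le_trans ?_ (Real.exp_le_exp.2 h3)
    rw [Real.exp_add]
    have e2 : Real.exp (2 * Real.log N) = (N : ℝ) ^ 2 := by
      rw [mul_comm, Real.exp_mul, Real.exp_log hNR]
      norm_num
    rw [e2]
    refine mul_le_mul_of_nonneg_left ?_ (by positivity)
    have e3 : Real.exp 15 = Real.exp 1 ^ 15 := by
      rw [← Real.exp_nat_mul]; norm_num
    rw [e3]
    have h5 : (2.7 : ℝ) ≤ Real.exp 1 := by
      have := Real.exp_one_gt_d9
      linarith
    calc (1920000 : ℝ) ≤ 2.7 ^ 15 := by norm_num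
      _ ≤ Real.exp 1 ^ 15 := pow_le_pow_left₀ (by norm_num) h5 15
  rw [Real.exp_neg]
  have h6 : (0 : ℝ) < (N : ℝ) ^ 2 * 1920000 := by positivity
  calc 12 * (Real.exp ((s : ℝ) ^ 2 / m))⁻¹ ≤ 12 * ((N : ℝ) ^ 2 * 1920000)⁻¹ :=
        mul_le_mul_of_nonneg_left (inv_anti₀ h6 h4) (by norm_num)
    _ = (1 / (400 * (N : ℝ))) ^ 2 := by field_simp; norm_num

/-- The bound for the formula size in terms of logarithms. -/
theorem log_cond {m N s L : ℕ} {σ : ℝ} (hm : 1 ≤ m) (hN : 1 ≤ N) (hs : 1 ≤ s)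
    (hL : L ≤ N * (216 * m ^ 3 * (1200 * N ^ 2 * ((pats m s).card * s)))) (hsσ : (s : ℝ) ≤ σ)
    (hσ : σ ≤ m) :
    Real.logb 2 L ≤ 18 + 3 * Real.logb 2 m + 3 * Real.logb 2 N + Real.logb 2 s +
      σ * (Real.logb 2 (m / σ) + 3) := by
  have hmR : (1 : ℝ) ≤ m := by exact_mod_cast hm
  have hNR : (1 : ℝ) ≤ N := by exact_mod_cast hN
  have hsR : (1 : ℝ) ≤ s := by exact_mod_cast hs
  have hσ0 : 0 < σ := by linarith
  have h2 : (0 : ℝ) < Real.log 2 := Real.log_pos (by norm_num)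
  have hl2 : 1 / 3 * 2 ≤ Real.log 2 := by
    have := Real.log_two_gt_d9
    linarith
  have lb : ∀ x : ℝ, 1 ≤ x → 0 ≤ Real.logb 2 x := fun x hx =>
    Real.logb_nonneg (by norm_num) hx
  have hmσ : 1 ≤ (m : ℝ) / σ := by rwa [le_div_iff₀ hσ0, one_mul]
  rcases Nat.eq_zero_or_pos L with h0 | hpos
  · subst h0
    have h3 := lb m hmR
    have h4 := lb N hNR
    have h5 := lb s hsR
    have h6 := lb (m / σ) hmσ
    have h7 : 0 ≤ σ * (Real.logb 2 (m / σ) + 3) := by positivity
    simp only [Nat.cast_zero, Real.logb_zero]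
    linarith
  · have hpc := pats_card m s (y := σ / m) (by positivity) (by
      rw [div_le_one (by linarith)]; exact hσ)
    have e1 : 2 * (σ / m) * m = 2 * σ := by field_simp
    rw [e1] at hpc
    have hLR : (L : ℝ) ≤ 2 ^ 18 * (m : ℝ) ^ 3 * (N : ℝ) ^ 3 * ((pats m s).card * s) := by
      have : (L : ℝ) ≤ (N : ℝ) * (216 * (m : ℝ) ^ 3 * (1200 * (N : ℝ) ^ 2 *
          (((pats m s).card : ℝ) * s))) := by exact_mod_cast hL
      have h9 : (0 : ℝ) ≤ (m : ℝ) ^ 3 * (N : ℝ) ^ 3 * (((pats m s).card : ℝ) * s) := by positivity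
      nlinarith
    have hpcpos : (0 : ℝ) < (pats m s).card := by
      have : (0 : ℝ) < (L : ℝ) := by exact_mod_cast hpos
      by_contra hcon
      have h0 : ((pats m s).card : ℝ) = 0 := le_antisymm (not_lt.1 hcon) (by positivity)
      rw [h0] at hLR
      simp at hLR
      exact absurd hLR (by omega)
    have hLpos : (0 : ℝ) < (L : ℝ) := by exact_mod_cast hpos
    have h10 := Real.logb_le_logb_of_le (b := 2) (by norm_num) hLpos hLR
    have hs0 : (s : ℝ) ≠ 0 := by positivity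
    have hm0 : (m : ℝ) ≠ 0 := by positivity
    have hN0 : (N : ℝ) ≠ 0 := by positivity
    rw [Real.logb_mul (by positivity) (by positivity), Real.logb_mul (by positivity) (by positivity),
      Real.logb_mul (by positivity) (by positivity), Real.logb_mul hpcpos.ne' hs0,
      Real.logb_pow, Real.logb_pow, Real.logb_pow, Real.logb_self_eq_one (by norm_num)] at h10
    -- the number of patterns
    have h11 : Real.logb 2 ((pats m s).card * (σ / m) ^ s) ≤ Real.logb 2 (Real.exp (2 * σ)) :=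
      Real.logb_le_logb_of_le (by norm_num) (by positivity) hpc
    have e2 : Real.logb 2 (Real.exp (2 * σ)) ≤ 3 * σ := by
      rw [Real.logb, Real.log_exp, div_le_iff₀ h2]
      nlinarith
    have e3 : Real.logb 2 (σ / m) = - Real.logb 2 (m / σ) := by
      rw [← Real.logb_inv, inv_div]
    rw [Real.logb_mul hpcpos.ne' (by positivity), Real.logb_pow, e3] at h11
    have h12 : (s : ℝ) * Real.logb 2 (m / σ) ≤ σ * Real.logb 2 (m / σ) :=
      mul_le_mul_of_nonneg_right hsσ (lb _ hmσ)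
    push_cast at h10
    linarith

/-- **Strong composition with a random inner function.** -/
theorem strong_composition : ∃ C : ℕ, 1 ≤ C ∧ ∀ m n : ℕ, 1 ≤ m → 1 ≤ n →
    ∃ Bad : Finset ((Fin n → Bool) → Bool),
      Bad.card * 2 ^ (2 ^ n / (C * m ^ C * n ^ C)) ≤ 2 ^ 2 ^ n ∧
      ∀ g : (Fin n → Bool) → Bool, g ∉ Bad →
        ∀ f : (Fin m → Bool) → Bool, (∃ a b, f a ≠ f b) →
          ∀ P : Prot (Mat m n) (Mat m n) (Fin m × Fin n), StrongSolves f g P →
            (n : ℝ) + Real.logb 2 (fsize f) ^ 2 /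
                (C * m * Real.logb 2 (4 * m / Real.logb 2 (fsize f)) ^ 2) -
              C * (Real.logb 2 m + Real.logb 2 n + 1) ≤ Real.logb 2 P.leaves := by
  classical
  obtain ⟨K, hK, hgood⟩ := good_most
  obtain ⟨C₁, hC₁, hlog⟩ := final_log
  refine ⟨K + C₁ + 20, by omega, fun m n hm hn => ?_⟩
  set C : ℕ := K + C₁ + 20 with hC
  have hmR : (1 : ℝ) ≤ m := by exact_mod_cast hm
  have hnR : (1 : ℝ) ≤ n := by exact_mod_cast hn
  have hden : K * m ^ K * n ^ K ≤ C * m ^ C * n ^ C :=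
    Nat.mul_le_mul (Nat.mul_le_mul (by omega) (Nat.pow_le_pow_right hm (by omega)))
      (Nat.pow_le_pow_right hn (by omega))
  have hden' : 20 * m ^ 3 * n ≤ C * m ^ C * n ^ C := by
    refine Nat.mul_le_mul (Nat.mul_le_mul (by omega) (Nat.pow_le_pow_right hm (by omega))) ?_
    calc n = n ^ 1 := (pow_one n).symm
      _ ≤ n ^ C := Nat.pow_le_pow_right hn (by omega)
  have hKpos : 0 < K * m ^ K * n ^ K := by positivity
  by_cases hbig : C * m ^ C * n ^ C ≤ 2 ^ n
  swap
  · refine ⟨Finset.univ, ?_, fun g hg => absurd (Finset.mem_univ g) hg⟩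
    rw [Nat.div_eq_of_lt (by omega)]
    simp
  obtain ⟨Bad, hBad, hG⟩ := hgood m n hm hn (hden.trans hbig)
  refine ⟨Bad, ?_, ?_⟩
  · refine le_trans (Nat.mul_le_mul_left _ (Nat.pow_le_pow_right (by norm_num) ?_)) hBad
    exact Nat.div_le_div_left hden hKpos
  intro g hg f hf P hP
  set w : ℕ := 2 ^ n / (20 * m ^ 3 * n) with hw
  have hD : 0 < 20 * m ^ 3 * n := by positivity
  have hw1 : 1 ≤ w := (Nat.one_le_div_iff hD).2 (hden'.trans hbig)
  have hf' : ∃ a b, f a = true ∧ f b = false := by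
    obtain ⟨a, b, hab⟩ := hf
    cases ha : f a <;> cases hb : f b
    · exact absurd (ha.trans hb.symm) hab
    · exact ⟨b, a, hb, ha⟩
    · exact ⟨a, b, ha, hb⟩
    · exact absurd (ha.trans hb.symm) hab
  obtain ⟨N, hN, hwN, hmain⟩ := main_explicit hm hw1 (hG g hg) hf' hP
  have hNR : (1 : ℝ) ≤ N := by exact_mod_cast hN
  set l : ℝ := Real.logb 2 (fsize f) with hl
  set k : ℝ := Real.logb 2 N with hk
  have hk0 : 0 ≤ k := Real.logb_nonneg (by norm_num) hNR
  have hl0 : 0 ≤ l := by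
    rcases Nat.eq_zero_or_pos (fsize f) with h | h
    · rw [hl, h]; simp
    · exact Real.logb_nonneg (by norm_num) (by exact_mod_cast h)
  have hlogm : Real.logb 2 m ≤ m := by
    rw [Real.logb_le_iff_le_rpow (by norm_num) (by linarith), Real.rpow_natCast]
    exact_mod_cast (Nat.lt_two_pow_self).le
  have hl2 : l ≤ 2 * m := by
    rcases Nat.eq_zero_or_pos (fsize f) with h | h
    · rw [hl, h]; simp
    · have h1 : ((fsize f : ℕ) : ℝ) ≤ 2 ^ m * m := by exact_mod_cast fsize_le_all f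
      have h2 := Real.logb_le_logb_of_le (b := 2) (by norm_num)
        (by exact_mod_cast h : (0 : ℝ) < (fsize f : ℕ)) h1
      rw [Real.logb_mul (by positivity) (by positivity), Real.logb_pow,
        Real.logb_self_eq_one (by norm_num)] at h2
      rw [hl]
      linarith
  have hfin := hlog m l k hm hl0 hl2 hk0 (by
    intro s σ hs hms hsσ hσ
    exact log_cond hm hN hs (hmain s (exp_cond hm hN hms)) hsσ hσ)
  -- the number of leaves
  have hPpos : (0 : ℝ) < P.leaves := by exact_mod_cast P.leaves_pos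
  have hwR : (2 : ℝ) ^ n / (40 * m ^ 3 * n) ≤ w := by
    have h1 : 2 ^ n < (w + 1) * (20 * m ^ 3 * n) := by
      have := Nat.lt_div_mul_add (a := 2 ^ n) hD
      rw [← hw] at this
      nlinarith
    have h2 : ((2 : ℝ) ^ n) ≤ (w + 1) * (20 * m ^ 3 * n) := by exact_mod_cast h1.le
    have h3 : (1 : ℝ) ≤ w := by exact_mod_cast hw1
    rw [div_le_iff₀ (by positivity)]
    have h4 : (0 : ℝ) ≤ 20 * m ^ 3 * n := by positivity
    nlinarith
  have h5 : (2 : ℝ) ^ n / (40 * m ^ 3 * n) * N ≤ 6 * P.leaves := by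
    calc (2 : ℝ) ^ n / (40 * m ^ 3 * n) * N ≤ w * N :=
          mul_le_mul_of_nonneg_right hwR (by linarith)
      _ ≤ 6 * P.leaves := by exact_mod_cast hwN
  have h6 : (2 : ℝ) ^ n * N ≤ 2 ^ 8 * m ^ 3 * n * P.leaves := by
    have h7 : (2 : ℝ) ^ n * N = (2 : ℝ) ^ n / (40 * m ^ 3 * n) * N * (40 * m ^ 3 * n) := by
      field_simp
    rw [h7]
    calc (2 : ℝ) ^ n / (40 * m ^ 3 * n) * N * (40 * m ^ 3 * n)
        ≤ 6 * P.leaves * (40 * m ^ 3 * n) := mul_le_mul_of_nonneg_right h5 (by positivity)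
      _ = 240 * (m ^ 3 * n * P.leaves) := by ring
      _ ≤ 2 ^ 8 * (m ^ 3 * n * P.leaves) :=
          mul_le_mul_of_nonneg_right (by norm_num) (by positivity)
      _ = 2 ^ 8 * m ^ 3 * n * P.leaves := by ring
  have h8 := Real.logb_le_logb_of_le (b := 2) (by norm_num) (by positivity) h6
  rw [Real.logb_mul (by positivity) (by positivity), Real.logb_mul (by positivity) (by positivity),
    Real.logb_mul (by positivity) (by positivity), Real.logb_mul (by positivity) (by positivity),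
    Real.logb_pow, Real.logb_pow, Real.logb_pow, Real.logb_self_eq_one (by norm_num)] at h8
  push_cast at h8
  have hA : l ^ 2 / (C * m * Real.logb 2 (4 * m / l) ^ 2) ≤
      l ^ 2 / (C₁ * m * Real.logb 2 (4 * m / l) ^ 2) := by
    rcases eq_or_ne (Real.logb 2 (4 * m / l)) 0 with h | h
    · rw [h]; simp
    · have hC₁R : (1 : ℝ) ≤ C₁ := by exact_mod_cast hC₁
      have hCC : (C₁ : ℝ) ≤ C := by exact_mod_cast (by omega : C₁ ≤ C)
      have h9 : 0 < Real.logb 2 (4 * m / l) ^ 2 := by positivity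
      apply div_le_div_of_nonneg_left (by positivity) (by positivity)
      gcongr
  have hlm : 0 ≤ Real.logb 2 m := Real.logb_nonneg (by norm_num) hmR
  have hln : 0 ≤ Real.logb 2 n := Real.logb_nonneg (by norm_num) hnR
  have hCR : (C : ℝ) = K + C₁ + 20 := by rw [hC]; push_cast; ring
  have hKR : (1 : ℝ) ≤ K := by exact_mod_cast hK
  have hC₁R : (1 : ℝ) ≤ C₁ := by exact_mod_cast hC₁
  have h10 : (C₁ : ℝ) * (Real.logb 2 m + 1) + 3 * Real.logb 2 m + Real.logb 2 n + 8 ≤
      C * (Real.logb 2 m + Real.logb 2 n + 1) := by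
    rw [hCR]
    nlinarith
  linarith

end Pool.Agent.H.MP_027d00_lc.SComp
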