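import Pool.Agent.H.MP_027d00_lc.strong.Base
import Pool.Agent.H.MP_027d00_lc.strong.Coll

/-!
# The moment method: a fixed set of matrices has small density at a fixed type for most `g`
-/

set_option autoImplicit false

open Finset

namespace Pool.Agent.H.MP_027d00_lc.SComp

open UComp

/-- all entries (rows) of a tuple of matrices in one list -/
private def momentEquiv (r m n : ℕ) :
    (Fin r → Mat m n) ≃ (Fin (r * m) → (Fin n → Bool)) :=
  (Equiv.curry (Fin r) (Fin m) (Fin n → Bool)).symm.trans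
    (finProdFinEquiv.arrowCongr (Equiv.refl (Fin n → Bool)))

private theorem momentEquiv_apply (r m n : ℕ) (x : Fin r → Mat m n) (k : Fin r) (i : Fin m) :
    momentEquiv r m n x (finProdFinEquiv (k, i)) = x k i := by
  simp [momentEquiv, Equiv.arrowCongr]

/-- the number of `g` with prescribed types on a tuple of matrices -/
private theorem moment_count {m n : ℕ} (r : ℕ) (x : Fin r → Mat m n) (a : Fin m → Bool) :
    ((univ.filter (fun g : (Fin n → Bool) → Bool => ∀ k, rows g (x k) = a)).card : ℝ) ≤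
      2 ^ 2 ^ n / 2 ^ (r * m) * 2 ^ (r * m - (univ.image (momentEquiv r m n x)).card) := by
  classical
  set D := univ.image (momentEquiv r m n x) with hD
  have hDR : D.card ≤ r * m := by
    have h := Finset.card_image_le (s := (univ : Finset (Fin (r * m))))
      (f := momentEquiv r m n x)
    simpa using h
  have hDM : D.card ≤ 2 ^ n := by
    have h := Finset.card_le_univ D
    simpa using h
  have hval : (2 : ℝ) ^ 2 ^ n / 2 ^ (r * m) * 2 ^ (r * m - D.card) =
      ((2 ^ (2 ^ n - D.card) : ℕ) : ℝ) := by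
    push_cast
    have h1 : (2 : ℝ) ^ 2 ^ n = 2 ^ (2 ^ n - D.card) * 2 ^ D.card := by
      rw [← pow_add, Nat.sub_add_cancel hDM]
    have h2 : (2 : ℝ) ^ (r * m) = 2 ^ (r * m - D.card) * 2 ^ D.card := by
      rw [← pow_add, Nat.sub_add_cancel hDR]
    rw [h1, h2]
    have h3 : (2 : ℝ) ^ (r * m - D.card) ≠ 0 := by positivity
    have h4 : (2 : ℝ) ^ D.card ≠ 0 := by positivity
    field_simp
  rw [hval]
  norm_cast
  rcases (univ.filter (fun g : (Fin n → Bool) → Bool => ∀ k, rows g (x k) = a)).eq_empty_or_nonempty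
    with h0 | ⟨g₀, hg₀⟩
  · rw [h0]
    simp
  · have hg₀' : ∀ k, rows g₀ (x k) = a := (Finset.mem_filter.1 hg₀).2
    have hsub : univ.filter (fun g : (Fin n → Bool) → Bool => ∀ k, rows g (x k) = a) ⊆
        univ.filter (fun g : (Fin n → Bool) → Bool => ∀ q ∈ D, g q = g₀ q) := by
      intro g hg
      have hg' : ∀ k, rows g (x k) = a := (Finset.mem_filter.1 hg).2
      refine Finset.mem_filter.2 ⟨Finset.mem_univ _, fun q hq => ?_⟩
      obtain ⟨p, -, rfl⟩ := Finset.mem_image.1 hq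
      obtain ⟨⟨k, i⟩, rfl⟩ := finProdFinEquiv.surjective p
      rw [momentEquiv_apply]
      have h1 := congrFun (hg' k) i
      have h2 := congrFun (hg₀' k) i
      unfold rows at h1 h2
      rw [h1, h2]
    refine (Finset.card_le_card hsub).trans ?_
    rw [card_prescribed]
    simp

/-- The `r`-th moment.

Proof: `(|{X ∈ u : rows g X = a}|)^r` is the number of `r`-tuples `(X¹, ..., X^r)` of elements of
`u` with `rows g X^k = a` for all `k`. Sum over `g` and exchange: for a tuple with `d` distinct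
points among the `R = r m` points `X^k_i`, the number of `g` is at most `2 ^ (M - d)`, `M = 2^n`
(`card_prescribed` if the conditions are consistent, else `0`), which is
`2^M * 2^(R - d) / 2^R`. By Cauchy-Schwarz (`Finset.sum_mul_sq_le_sq_mul_sq` or
`inner_mul_le_norm_mul_norm`), `∑_{tuples in u^r} 2^(R-d) ≤ sqrt (|u|^r) *
sqrt (∑_{all tuples} 4^(R-d)) ≤ sqrt (|u|^r) * sqrt ((M + 3 R)^R)` by `coll_sum` (reindexing
`Fin r → Fin m → Q` as `Fin (r * m) → Q`, e.g. by `finProdFinEquiv`). The statement is the square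
of this. -/
theorem moment_sq {m n : ℕ} (r : ℕ) (u : Finset (Mat m n)) (a : Fin m → Bool) :
    (∑ g : (Fin n → Bool) → Bool, ((u.filter (fun X => rows g X = a)).card : ℝ) ^ r) ^ 2 ≤
      (2 ^ 2 ^ n / 2 ^ (r * m)) ^ 2 * ((u.card : ℝ) ^ r * ((2 : ℝ) ^ n + 3 * (r * m)) ^ (r * m)) := by
  classical
  set T : Finset (Fin r → Mat m n) := Fintype.piFinset (fun _ => u) with hT
  have hTcard : T.card = u.card ^ r := by
    rw [hT, Fintype.card_piFinset_const]
  -- the power as a number of tuples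
  have hpow : ∀ g : (Fin n → Bool) → Bool,
      ((u.filter (fun X => rows g X = a)).card : ℝ) ^ r =
        ((T.filter (fun x => ∀ k, rows g (x k) = a)).card : ℝ) := by
    intro g
    have h1 : T.filter (fun x => ∀ k, rows g (x k) = a) =
        Fintype.piFinset (fun _ : Fin r => u.filter (fun X => rows g X = a)) := by
      ext x
      simp only [hT, Finset.mem_filter, Fintype.mem_piFinset]
      exact forall_and.symm
    rw [h1, Fintype.card_piFinset_const]
    push_cast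
    rfl
  have hexch : ∑ g : (Fin n → Bool) → Bool, ((u.filter (fun X => rows g X = a)).card : ℝ) ^ r =
      ∑ x ∈ T, ((univ.filter (fun g : (Fin n → Bool) → Bool =>
        ∀ k, rows g (x k) = a)).card : ℝ) := by
    simp_rw [hpow, Finset.card_filter]
    push_cast
    rw [Finset.sum_comm]
  rw [hexch]
  -- the bound for a tuple
  have hle : ∑ x ∈ T, ((univ.filter (fun g : (Fin n → Bool) → Bool =>
      ∀ k, rows g (x k) = a)).card : ℝ) ≤
      2 ^ 2 ^ n / 2 ^ (r * m) *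
        ∑ x ∈ T, (2 : ℝ) ^ (r * m - (univ.image (momentEquiv r m n x)).card) := by
    rw [Finset.mul_sum]
    exact Finset.sum_le_sum (fun x _ => moment_count r x a)
  have h0 : 0 ≤ ∑ x ∈ T, ((univ.filter (fun g : (Fin n → Bool) → Bool =>
      ∀ k, rows g (x k) = a)).card : ℝ) := Finset.sum_nonneg (fun x _ => Nat.cast_nonneg _)
  have hCS : (∑ x ∈ T, (2 : ℝ) ^ (r * m - (univ.image (momentEquiv r m n x)).card)) ^ 2 ≤
      (u.card : ℝ) ^ r * ((2 : ℝ) ^ n + 3 * (r * m)) ^ (r * m) := by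
    have h1 := sq_sum_le_card_mul_sum_sq (s := T)
      (f := fun x => (2 : ℝ) ^ (r * m - (univ.image (momentEquiv r m n x)).card))
    refine h1.trans ?_
    rw [hTcard]
    push_cast
    refine mul_le_mul_of_nonneg_left ?_ (by positivity)
    have h2 : ∑ x ∈ T, ((2 : ℝ) ^ (r * m - (univ.image (momentEquiv r m n x)).card)) ^ 2 ≤
        ∑ x : Fin r → Mat m n, (4 : ℝ) ^ (r * m - (univ.image (momentEquiv r m n x)).card) := by
      have h3 : ∀ x : Fin r → Mat m n,
          ((2 : ℝ) ^ (r * m - (univ.image (momentEquiv r m n x)).card)) ^ 2 =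
            (4 : ℝ) ^ (r * m - (univ.image (momentEquiv r m n x)).card) := by
        intro x
        rw [← pow_mul, mul_comm, pow_mul]
        norm_num
      simp_rw [h3]
      exact Finset.sum_le_sum_of_subset_of_nonneg (Finset.subset_univ _)
        (fun x _ _ => by positivity)
    refine h2.trans ?_
    have h4 := Equiv.sum_comp (momentEquiv r m n)
      (fun y : Fin (r * m) → (Fin n → Bool) => (4 : ℝ) ^ (r * m - (univ.image y).card))
    rw [h4]
    have h5 := coll_sum (Q := Fin n → Bool) (r * m)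
    have h6 : (Fintype.card (Fin n → Bool) : ℝ) = 2 ^ n := by simp
    rw [h6] at h5
    push_cast at h5
    exact h5
  calc (∑ x ∈ T, ((univ.filter (fun g : (Fin n → Bool) → Bool =>
        ∀ k, rows g (x k) = a)).card : ℝ)) ^ 2
      ≤ (2 ^ 2 ^ n / 2 ^ (r * m) *
        ∑ x ∈ T, (2 : ℝ) ^ (r * m - (univ.image (momentEquiv r m n x)).card)) ^ 2 :=
        pow_le_pow_left₀ h0 hle 2
    _ = (2 ^ 2 ^ n / 2 ^ (r * m)) ^ 2 *
        (∑ x ∈ T, (2 : ℝ) ^ (r * m - (univ.image (momentEquiv r m n x)).card)) ^ 2 := mul_pow _ _ _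
    _ ≤ _ := mul_le_mul_of_nonneg_left hCS (by positivity)

/-- For most `g`, the density of `u` at the type `a` is at most ten times the square root of the
density of `u` among all matrices.

Proof: if `u` is empty there is no such `g`. Let `M = 2^n`, `μ = |u| / M^m > 0`,
`R = r m`. Each `g` in the set has `|{X ∈ u : rows g X = a}| > 10 * sqrt μ * (M/2)^m`, so by
`moment_sq` the number `b` of these `g` satisfies
`(b * (10 sqrt μ (M/2)^m)^r)^2 ≤ (2^M / 2^R)^2 * (μ M^m)^r * (M + 3R)^R`, i.e.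
`b^2 * 100^r * μ^r * M^(2R) / 2^(2R) ≤ 2^(2M) / 2^(2R) * μ^r * M^R * M^R * (1 + 3R/M)^R`, so
`b^2 * 100^r ≤ 2^(2M) * (1 + 3 R / M)^R ≤ 2^(2M) * exp (3 R^2 / M) ≤ 2^(2M) * exp (3 r)` as
`R^2 = r * (r m^2) ≤ r M`; and `exp 3 ≤ 25`, so `b^2 * 4^r ≤ 2^(2M)`. -/
theorem moment {m n r : ℕ} (hr : r * m ^ 2 ≤ 2 ^ n) (u : Finset (Mat m n))
    (a : Fin m → Bool) :
    ((univ.filter (fun g : (Fin n → Bool) → Bool =>
      10 * Real.sqrt ((u.card : ℝ) / ((2 : ℝ) ^ n) ^ m) < dens g u a)).card : ℝ) * 2 ^ r ≤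
      2 ^ 2 ^ n := by
  classical
  rcases u.eq_empty_or_nonempty with hu | hu
  · subst hu
    have : (univ.filter (fun g : (Fin n → Bool) → Bool =>
      10 * Real.sqrt (((∅ : Finset (Mat m n)).card : ℝ) / ((2 : ℝ) ^ n) ^ m) <
        dens g (∅ : Finset (Mat m n)) a)) = ∅ := by
      refine Finset.filter_eq_empty_iff.2 (fun g _ => ?_)
      simp [dens]
    rw [this]
    simp
  set M : ℝ := (2 : ℝ) ^ n with hM
  have hM0 : 0 < M := by positivity
  set μ : ℝ := (u.card : ℝ) / M ^ m with hμ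
  have huc : (0 : ℝ) < u.card := by exact_mod_cast hu.card_pos
  have hμ0 : 0 < μ := by positivity
  set G := univ.filter (fun g : (Fin n → Bool) → Bool => 10 * Real.sqrt μ < dens g u a) with hG
  set b : ℝ := (G.card : ℝ) with hb
  have hb0 : 0 ≤ b := Nat.cast_nonneg _
  set lam : ℝ := 10 * Real.sqrt μ * (M / 2) ^ m with hlam
  have hlam0 : 0 ≤ lam := by positivity
  have h1 : b * lam ^ r ≤
      ∑ g : (Fin n → Bool) → Bool, ((u.filter (fun X => rows g X = a)).card : ℝ) ^ r := by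
    calc b * lam ^ r = ∑ g ∈ G, lam ^ r := by rw [Finset.sum_const, nsmul_eq_mul]
      _ ≤ ∑ g ∈ G, ((u.filter (fun X => rows g X = a)).card : ℝ) ^ r := by
          refine Finset.sum_le_sum (fun g hg => ?_)
          have h2 : 10 * Real.sqrt μ < dens g u a := (Finset.mem_filter.1 hg).2
          refine pow_le_pow_left₀ hlam0 ?_ r
          unfold dens at h2
          rw [lt_div_iff₀ (by positivity)] at h2
          exact h2.le
      _ ≤ _ := Finset.sum_le_sum_of_subset_of_nonneg (Finset.subset_univ _)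
          (fun g _ _ => by positivity)
  have h2 : (b * lam ^ r) ^ 2 ≤ (2 ^ 2 ^ n / 2 ^ (r * m)) ^ 2 *
      ((u.card : ℝ) ^ r * (M + 3 * (r * m)) ^ (r * m)) :=
    (pow_le_pow_left₀ (by positivity) h1 2).trans (moment_sq r u a)
  have hucμ : (u.card : ℝ) = μ * M ^ m := by
    rw [hμ, div_mul_cancel₀]
    positivity
  have hlam2 : (lam ^ r) ^ 2 = 100 ^ r * μ ^ r * (M ^ (r * m)) ^ 2 / (2 ^ (r * m)) ^ 2 := by
    have h3 : lam ^ 2 = 100 * μ * (M ^ m) ^ 2 / (2 ^ m) ^ 2 := by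
      rw [hlam, mul_pow, mul_pow, Real.sq_sqrt hμ0.le, div_pow, div_pow]
      ring
    have h4 : (lam ^ r) ^ 2 = (lam ^ 2) ^ r := by rw [← pow_mul, ← pow_mul, mul_comm]
    rw [h4, h3, div_pow, mul_pow, mul_pow]
    have hgen : ∀ N : ℝ, ((N ^ m) ^ 2) ^ r = (N ^ (r * m)) ^ 2 := fun N => by ring
    have h5 : ((M ^ m) ^ 2) ^ r = (M ^ (r * m)) ^ 2 := hgen M
    have h6 : (((2 : ℝ) ^ m) ^ 2) ^ r = (2 ^ (r * m)) ^ 2 := hgen 2
    rw [h5, h6]
  have hfac : (M + 3 * (r * m)) ^ (r * m) = M ^ (r * m) * (1 + 3 * (r * m) / M) ^ (r * m) := by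
    rw [← mul_pow]
    congr 1
    field_simp
  have hexp : (1 + 3 * ((r : ℝ) * m) / M) ^ (r * m) ≤ 25 ^ r := by
    have h3 : 1 + 3 * ((r : ℝ) * m) / M ≤ Real.exp (3 * ((r : ℝ) * m) / M) := by
      have := Real.add_one_le_exp (3 * ((r : ℝ) * m) / M)
      linarith
    have h4 : (1 + 3 * ((r : ℝ) * m) / M) ^ (r * m) ≤
        Real.exp (3 * ((r : ℝ) * m) / M) ^ (r * m) :=
      pow_le_pow_left₀ (by positivity) h3 _
    refine h4.trans ?_
    rw [← Real.exp_nat_mul]
    have h5 : ((r * m : ℕ) : ℝ) * (3 * ((r : ℝ) * m) / M) ≤ (r : ℝ) * 3 := by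
      push_cast
      rw [← mul_div_assoc, div_le_iff₀ hM0]
      have h6 : (r : ℝ) * m ^ 2 ≤ M := by
        rw [hM]
        exact_mod_cast hr
      have h7 : (0 : ℝ) ≤ r := Nat.cast_nonneg _
      nlinarith [mul_le_mul_of_nonneg_left h6 (mul_nonneg h7 (by norm_num : (0 : ℝ) ≤ 3))]
    have h8 : Real.exp (((r * m : ℕ) : ℝ) * (3 * ((r : ℝ) * m) / M)) ≤ Real.exp ((r : ℝ) * 3) :=
      Real.exp_le_exp.2 h5
    refine h8.trans ?_
    rw [Real.exp_nat_mul]
    refine pow_le_pow_left₀ (Real.exp_pos 3).le ?_ r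
    have h9 : Real.exp 3 = Real.exp 1 ^ 3 := by
      rw [← Real.exp_nat_mul]
      norm_num
    rw [h9]
    have h10 := Real.exp_one_lt_d9
    have h11 := Real.exp_pos 1
    calc Real.exp 1 ^ 3 ≤ 2.7182818286 ^ 3 := pow_le_pow_left₀ h11.le h10.le 3
      _ ≤ 25 := by norm_num
  -- combine
  have h3 : b ^ 2 * 100 ^ r ≤ (2 ^ 2 ^ n) ^ 2 * 25 ^ r := by
    have h4 : b ^ 2 * (100 ^ r * μ ^ r * (M ^ (r * m)) ^ 2 / (2 ^ (r * m)) ^ 2) ≤
        (2 ^ 2 ^ n / 2 ^ (r * m)) ^ 2 * ((μ * M ^ m) ^ r *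
          (M ^ (r * m) * (1 + 3 * ((r : ℝ) * m) / M) ^ (r * m))) := by
      rw [← hlam2, ← hucμ, ← hfac, ← mul_pow]
      exact h2
    have h5 : (μ * M ^ m) ^ r = μ ^ r * M ^ (r * m) := by
      rw [mul_pow, ← pow_mul, mul_comm m r]
    rw [h5] at h4
    set W : ℝ := μ ^ r * (M ^ (r * m)) ^ 2 / (2 ^ (r * m)) ^ 2 with hW
    have hW0 : 0 < W := div_pos (mul_pos (pow_pos hμ0 _) (pow_pos (pow_pos hM0 _) _))
      (pow_pos (pow_pos two_pos _) _)
    have h6 : b ^ 2 * (100 ^ r * μ ^ r * (M ^ (r * m)) ^ 2 / (2 ^ (r * m)) ^ 2) =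
        (b ^ 2 * 100 ^ r) * W := by
      rw [hW]; ring
    have h7 : (2 ^ 2 ^ n / 2 ^ (r * m)) ^ 2 * (μ ^ r * M ^ (r * m) *
          (M ^ (r * m) * (1 + 3 * ((r : ℝ) * m) / M) ^ (r * m))) =
        ((2 ^ 2 ^ n) ^ 2 * (1 + 3 * ((r : ℝ) * m) / M) ^ (r * m)) * W := by
      rw [hW, div_pow]; ring
    rw [h6, h7] at h4
    have h8 := le_of_mul_le_mul_right h4 hW0
    exact h8.trans (mul_le_mul_of_nonneg_left hexp (by positivity))
  have h4 : (b * 2 ^ r) ^ 2 ≤ (2 ^ 2 ^ n) ^ 2 := by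
    have h5 : (100 : ℝ) ^ r = 4 ^ r * 25 ^ r := by
      rw [← mul_pow]; norm_num
    have h6 : (0 : ℝ) < 25 ^ r := by positivity
    have h7 : (b ^ 2 * 4 ^ r) * 25 ^ r ≤ (2 ^ 2 ^ n) ^ 2 * 25 ^ r := by
      rw [h5] at h3
      linarith
    have h8 := le_of_mul_le_mul_right h7 h6
    have h9 : (b * 2 ^ r) ^ 2 = b ^ 2 * 4 ^ r := by
      rw [mul_pow, ← pow_mul, mul_comm r 2, pow_mul]
      norm_num
    rw [h9]
    exact h8
  exact le_of_sq_le_sq h4 (by positivity)

end Pool.Agent.H.MP_027d00_lc.SComp
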