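import Pool.Agent.H.MP_027d00_lc.strong.Tree

/-!
# The heavy path argument
-/

set_option autoImplicit false

open Finset

namespace Pool.Agent.H.MP_027d00_lc.SComp

open UComp

/-- If all pieces give separations of size at most `K` of heavy types, then so does the whole
rectangle, with the factor `N`. -/
theorem heavy {m n : ℕ} {g : (Fin n → Bool) → Bool} {w K : ℕ} {r : ℝ}
    (hU : ∀ S T : Finset (Mat m n), SSep g w S T → ∀ p q : ℝ, 0 < p → p ≤ 1 / 2 → 0 < q →
      q ≤ 1 / 2 → r ≤ p * q → ∀ A B : Finset (Fin m → Bool), (∀ a ∈ A, p ≤ dens g S a) →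
      (∀ b ∈ B, q ≤ dens g T b) → SepF K A B)
    {S T : Finset (Mat m n)} {N : ℕ} (hd : Dec g w S T N) :
    ∀ p q : ℝ, 0 < p → p ≤ 1 / 2 → 0 < q → q ≤ 1 / 2 → r * N ≤ p * q →
      ∀ A B : Finset (Fin m → Bool), (∀ a ∈ A, p ≤ dens g S a) →
      (∀ b ∈ B, q ≤ dens g T b) → SepF (N * K) A B := by
  classical
  induction hd with
  | unit h =>
    intro p q hp hp1 hq hq1 hr A B hA hB
    rw [Nat.one_mul]
    refine hU _ _ h p q hp hp1 hq hq1 ?_ A B hA hB
    simpa using hr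
  | @alice S S₀ S₁ T N₀ N₁ hS h₀ h₁ ih₀ ih₁ =>
    intro p q hp hp1 hq hq1 hr A B hA hB
    have hN₀ : (1 : ℝ) ≤ N₀ := by exact_mod_cast h₀.pos
    have hN₁ : (1 : ℝ) ≤ N₁ := by exact_mod_cast h₁.pos
    have hN : (0 : ℝ) < (N₀ : ℝ) + N₁ := by linarith
    push_cast at hr
    set p₀ : ℝ := p * (N₀ / (N₀ + N₁)) with hp₀
    set p₁ : ℝ := p * (N₁ / (N₀ + N₁)) with hp₁
    have e : p₀ + p₁ = p := by rw [hp₀, hp₁]; field_simp
    have hp₀0 : 0 < p₀ := by positivity
    have hp₁0 : 0 < p₁ := by positivity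
    have hr' : r ≤ p * q / (N₀ + N₁) := by
      rw [le_div_iff₀ hN]; exact hr
    have hr₀ : r * N₀ ≤ p₀ * q := by
      calc r * N₀ ≤ p * q / (N₀ + N₁) * N₀ := mul_le_mul_of_nonneg_right hr' (by linarith)
        _ = p₀ * q := by rw [hp₀]; ring
    have hr₁ : r * N₁ ≤ p₁ * q := by
      calc r * N₁ ≤ p * q / (N₀ + N₁) * N₁ := mul_le_mul_of_nonneg_right hr' (by linarith)
        _ = p₁ * q := by rw [hp₁]; ring
    have h2 := ih₀ p₀ q hp₀0 (by linarith) hq hq1 hr₀ (A.filter (fun a => p₀ ≤ dens g S₀ a)) B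
      (fun a ha => (Finset.mem_filter.1 ha).2) hB
    have h3 := ih₁ p₁ q hp₁0 (by linarith) hq hq1 hr₁ (A.filter (fun a => ¬ p₀ ≤ dens g S₀ a)) B
      (fun a ha => by
        obtain ⟨ha1, ha2⟩ := Finset.mem_filter.1 ha
        have h4 := hA a ha1
        have h5 := dens_mono g hS a
        have h6 := dens_union g S₀ S₁ a
        push Not at ha2
        linarith) hB
    have h4 := h2.union_left h3
    rw [Finset.filter_union_filter_not_eq, ← Nat.add_mul] at h4
    exact h4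
  | @bob S T T₀ T₁ N₀ N₁ hT h₀ h₁ ih₀ ih₁ =>
    intro p q hp hp1 hq hq1 hr A B hA hB
    have hN₀ : (1 : ℝ) ≤ N₀ := by exact_mod_cast h₀.pos
    have hN₁ : (1 : ℝ) ≤ N₁ := by exact_mod_cast h₁.pos
    have hN : (0 : ℝ) < (N₀ : ℝ) + N₁ := by linarith
    push_cast at hr
    set q₀ : ℝ := q * (N₀ / (N₀ + N₁)) with hq₀
    set q₁ : ℝ := q * (N₁ / (N₀ + N₁)) with hq₁
    have e : q₀ + q₁ = q := by rw [hq₀, hq₁]; field_simp
    have hq₀0 : 0 < q₀ := by positivity
    have hq₁0 : 0 < q₁ := by positivity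
    have hr' : r ≤ p * q / (N₀ + N₁) := by
      rw [le_div_iff₀ hN]; exact hr
    have hr₀ : r * N₀ ≤ p * q₀ := by
      calc r * N₀ ≤ p * q / (N₀ + N₁) * N₀ := mul_le_mul_of_nonneg_right hr' (by linarith)
        _ = p * q₀ := by rw [hq₀]; ring
    have hr₁ : r * N₁ ≤ p * q₁ := by
      calc r * N₁ ≤ p * q / (N₀ + N₁) * N₁ := mul_le_mul_of_nonneg_right hr' (by linarith)
        _ = p * q₁ := by rw [hq₁]; ring
    have h2 := ih₀ p q₀ hp hp1 hq₀0 (by linarith) hr₀ A (B.filter (fun a => q₀ ≤ dens g T₀ a))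
      hA (fun a ha => (Finset.mem_filter.1 ha).2)
    have h3 := ih₁ p q₁ hp hp1 hq₁0 (by linarith) hr₁ A (B.filter (fun a => ¬ q₀ ≤ dens g T₀ a))
      hA (fun a ha => by
        obtain ⟨ha1, ha2⟩ := Finset.mem_filter.1 ha
        have h4 := hB a ha1
        have h5 := dens_mono g hT a
        have h6 := dens_union g T₀ T₁ a
        push Not at ha2
        linarith)
    have h4 := h2.union_right h3
    rw [Finset.filter_union_filter_not_eq, ← Nat.add_mul] at h4
    exact h4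

end Pool.Agent.H.MP_027d00_lc.SComp
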