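import Mathlib

/-!
# An isoperimetric inequality for the Hamming distance on a power of a finite set
-/

set_option autoImplicit false

open Finset

namespace Pool.Agent.H.MP_027d00_lc.SComp

/-- The distance of two points with the same first coordinate. -/
private theorem dist_same {Q : Type} [DecidableEq Q] {m : ℕ} (x : Q) (Z Y : Fin m → Q) :
    hammingDist (Fin.cons x Z : Fin (m + 1) → Q) (Fin.cons x Y) = hammingDist Z Y := by
  unfold hammingDist
  rw [← Finset.card_map (Fin.succEmb m)]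
  congr 1
  ext i
  simp only [Finset.mem_filter, Finset.mem_univ, true_and, Finset.mem_map]
  refine Fin.cases ?_ (fun j => ?_) i
  · simp
  · simp

/-- The distance of two points with different first coordinates. -/
private theorem dist_diff {Q : Type} [DecidableEq Q] {m : ℕ} (x y : Q) (Z Y : Fin m → Q) :
    hammingDist (Fin.cons x Z : Fin (m + 1) → Q) (Fin.cons y Y) ≤ hammingDist Z Y + 1 := by
  have h1 := hammingDist_triangle (Fin.cons x Z : Fin (m + 1) → Q) (Fin.cons x Y) (Fin.cons y Y)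
  have h2 : hammingDist (Fin.cons x Y : Fin (m + 1) → Q) (Fin.cons y Y) ≤ 1 := by
    unfold hammingDist
    have : (univ.filter (fun i : Fin (m + 1) =>
        (Fin.cons x Y : Fin (m + 1) → Q) i ≠ (Fin.cons y Y : Fin (m + 1) → Q) i)) ⊆ {0} := by
      intro i
      simp only [Finset.mem_filter, Finset.mem_univ, true_and, Finset.mem_singleton]
      refine Fin.cases ?_ (fun j => ?_) i
      · simp
      · simp
    calc _ ≤ ({0} : Finset (Fin (m + 1))).card := Finset.card_le_card this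
      _ = 1 := by simp
  rw [dist_same] at h1
  omega

/-- The sum over the points of `Q^(m+1)`. -/
private theorem sum_cons {Q : Type} [Fintype Q] [DecidableEq Q] {m : ℕ}
    (f : (Fin (m + 1) → Q) → ℝ) :
    ∑ Z, f Z = ∑ x : Q, ∑ Z : Fin m → Q, f (Fin.cons x Z) := by
  rw [← Fintype.sum_prod_type' (fun x (Z : Fin m → Q) => f (Fin.cons x Z))]
  exact (Fintype.sum_equiv (Fin.consEquiv (fun _ => Q)) _ _ (fun p => rfl)).symm

/-- Talagrand's induction for the Hamming distance.

Proof: induction on `m`. `m = 0`: `D = 0`, `𝒴` is the singleton; both sides are `1`.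

`m + 1`: write a point as `Fin.cons x Z`. Let `S x = {Y : Fin.cons x Y ∈ 𝒴}` be the sections,
`x₀` with `|S x₀|` largest, so `S x₀` is nonempty, and `M = |Q|`, `K = (1 + θ)^2 / (4 θ)`. Let `D₀`
be the function of the induction hypothesis for `S x₀`. For each `x` choose
`E x : (Fin m → Q) → ℕ` as follows: if `S x` is nonempty and `|S x| * θ ≥ |S x₀|`, `E x` is
the function of the induction hypothesis for `S x`, otherwise `E x Z = D₀ Z + 1`. In both cases
each `Fin.cons x Z` has distance at most `E x Z` from `𝒴`, and with `r x = |S x| / |S x₀| ∈ [0,1]`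
`(∑ Z, θ ^ (E x Z)) * |S x₀| ≤ M^(2m) * K^m * min (1 / r x) θ ≤ M^(2m) K^m (1 + θ - θ * r x)`,
as `(θ r - 1) (r - 1) ≤ 0` for `r ∈ [1/θ, 1]` and `θ r ≤ 1` for `r ≤ 1/θ`. Sum over `x`:
`(∑ Z, θ ^ D Z) * |S x₀| ≤ M^(2m) K^m (M (1 + θ) - θ y)` with `y = |𝒴| / |S x₀| = ∑ x, r x`;
multiply with `y`: `(∑ Z, θ ^ D Z) * |𝒴| ≤ M^(2m) K^m * y * (M (1 + θ) - θ y)` and
`y (M (1 + θ) - θ y) ≤ M^2 (1 + θ)^2 / (4 θ)` (square completion). -/
theorem iso_exp {Q : Type} [Fintype Q] [DecidableEq Q] {θ : ℝ} (hθ : 1 ≤ θ) (m : ℕ)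
    (𝒴 : Finset (Fin m → Q)) (h : 𝒴.Nonempty) :
    ∃ D : (Fin m → Q) → ℕ, (∀ Z, ∃ Y ∈ 𝒴, hammingDist Z Y ≤ D Z) ∧
      (∑ Z, θ ^ (D Z)) * (𝒴.card : ℝ) ≤
        ((Fintype.card Q : ℝ) ^ m) ^ 2 * ((1 + θ) ^ 2 / (4 * θ)) ^ m := by
  have hθ0 : 0 < θ := by linarith
  induction m with
  | zero =>
    refine ⟨fun _ => 0, fun Z => ?_, ?_⟩
    · obtain ⟨Y, hY⟩ := h
      exact ⟨Y, hY, by rw [Subsingleton.elim Z Y]; simp⟩
    · have : 𝒴.card ≤ 1 := by
        rw [Finset.card_le_one]
        intro a _ b _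
        exact Subsingleton.elim a b
      have h1 : (𝒴.card : ℝ) ≤ 1 := by exact_mod_cast this
      simpa using h1
  | succ m ih =>
    set S : Q → Finset (Fin m → Q) := fun x =>
      univ.filter (fun Y : Fin m → Q => (Fin.cons x Y : Fin (m + 1) → Q) ∈ 𝒴) with hS
    have hcard : (𝒴.card : ℝ) = ∑ x : Q, ((S x).card : ℝ) := by
      have h1 := sum_cons (fun Z : Fin (m + 1) → Q => if Z ∈ 𝒴 then (1 : ℝ) else 0)
      have h2 : (∑ Z : Fin (m + 1) → Q, if Z ∈ 𝒴 then (1 : ℝ) else 0) = (𝒴.card : ℝ) := by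
        rw [Finset.sum_boole]
        congr 2
        ext Z
        simp
      rw [h2] at h1
      rw [h1]
      refine Finset.sum_congr rfl (fun x _ => ?_)
      rw [Finset.sum_boole]
    obtain ⟨Y₁, hY₁⟩ := h
    have hne : (univ : Finset Q).Nonempty := ⟨Y₁ 0, Finset.mem_univ _⟩
    obtain ⟨x₀, -, hx₀⟩ := Finset.exists_max_image univ (fun x => (S x).card) hne
    have hS1 : 0 < (S (Y₁ 0)).card := by
      rw [Finset.card_pos]
      refine ⟨Fin.tail Y₁, ?_⟩
      simp only [hS, Finset.mem_filter, Finset.mem_univ, true_and]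
      rw [Fin.cons_self_tail]
      exact hY₁
    have hS0 : 0 < (S x₀).card := lt_of_lt_of_le hS1 (hx₀ _ (Finset.mem_univ _))
    have hS0' : (0 : ℝ) < ((S x₀).card : ℝ) := by exact_mod_cast hS0
    set A : ℝ := ((Fintype.card Q : ℝ) ^ m) ^ 2 * ((1 + θ) ^ 2 / (4 * θ)) ^ m with hA
    have hA0 : 0 ≤ A := by positivity
    obtain ⟨D₀, hD₀, hD₀'⟩ := ih (S x₀) (Finset.card_pos.1 hS0)
    have key : ∀ x : Q, ∃ E : (Fin m → Q) → ℕ,
        (∀ Z, ∃ Y ∈ 𝒴, hammingDist (Fin.cons x Z : Fin (m + 1) → Q) Y ≤ E Z) ∧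
        (∑ Z, θ ^ (E Z)) * ((S x₀).card : ℝ) ≤
          A * (1 + θ - θ * ((S x).card / (S x₀).card : ℝ)) := by
      intro x
      have hr1 : ((S x).card / (S x₀).card : ℝ) ≤ 1 := by
        rw [div_le_one hS0']
        exact_mod_cast hx₀ x (Finset.mem_univ _)
      have hr0 : 0 ≤ ((S x).card / (S x₀).card : ℝ) := by positivity
      by_cases hx : ((S x₀).card : ℝ) ≤ (S x).card * θ
      · have hSx : (0 : ℝ) < (S x).card := by
          by_contra hcon
          have : ((S x).card : ℝ) = 0 := le_antisymm (not_lt.1 hcon) (by positivity)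
          rw [this] at hx
          linarith
        have hSx' : 0 < (S x).card := by exact_mod_cast hSx
        obtain ⟨E, hE, hE'⟩ := ih (S x) (Finset.card_pos.1 hSx')
        refine ⟨E, fun Z => ?_, ?_⟩
        · obtain ⟨Y, hY, hY'⟩ := hE Z
          refine ⟨Fin.cons x Y, ?_, ?_⟩
          · simpa [hS] using hY
          · rw [dist_same]
            exact hY'
        · obtain ⟨r, hr⟩ : ∃ r : ℝ, r = ((S x).card / (S x₀).card : ℝ) := ⟨_, rfl⟩
          have hrS : ((S x).card : ℝ) = r * (S x₀).card := by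
            rw [hr, div_mul_cancel₀ _ hS0'.ne']
          rw [← hr]
          rw [← hr] at hr1 hr0
          have hrpos : 0 < r := by
            rw [hr]
            exact div_pos hSx hS0'
          have hrθ : 1 ≤ θ * r := by
            rw [hrS] at hx
            have : (1 : ℝ) * (S x₀).card ≤ (θ * r) * (S x₀).card := by linarith
            exact le_of_mul_le_mul_right this hS0'
          -- (sum) * |S x0| * r ≤ A
          have h1 : (∑ Z, θ ^ (E Z)) * ((S x₀).card : ℝ) * r ≤ A := by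
            calc (∑ Z, θ ^ (E Z)) * ((S x₀).card : ℝ) * r
                = (∑ Z, θ ^ (E Z)) * ((S x).card : ℝ) := by rw [hrS]; ring
              _ ≤ A := hE'
          have h2 : 1 ≤ r * (1 + θ - θ * r) := by nlinarith
          have h3 : A ≤ A * (1 + θ - θ * r) * r := by nlinarith
          exact le_of_mul_le_mul_right (h1.trans h3) hrpos
      · refine ⟨fun Z => D₀ Z + 1, fun Z => ?_, ?_⟩
        · obtain ⟨Y, hY, hY'⟩ := hD₀ Z
          refine ⟨Fin.cons x₀ Y, ?_, ?_⟩
          · simpa [hS] using hY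
          · have := dist_diff x x₀ Z Y
            show _ ≤ D₀ Z + 1
            omega
        · have h1 : (∑ Z, θ ^ (D₀ Z + 1)) = θ * ∑ Z, θ ^ (D₀ Z) := by
            rw [Finset.mul_sum]
            refine Finset.sum_congr rfl (fun Z _ => ?_)
            ring
          rw [h1]
          have h2 : θ * ((S x).card / (S x₀).card : ℝ) ≤ 1 := by
            rw [← mul_div_assoc, div_le_one hS0']
            push Not at hx
            linarith
          have h3 : θ * (∑ Z, θ ^ (D₀ Z)) * ((S x₀).card : ℝ) ≤ θ * A := by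
            rw [mul_assoc]
            exact mul_le_mul_of_nonneg_left hD₀' hθ0.le
          have h4 : θ * A ≤ A * (1 + θ - θ * ((S x).card / (S x₀).card : ℝ)) := by
            nlinarith
          exact h3.trans h4
    choose E hE hE' using key
    refine ⟨fun Z => E (Z 0) (Fin.tail Z), fun Z => ?_, ?_⟩
    · obtain ⟨Y, hY, hY'⟩ := hE (Z 0) (Fin.tail Z)
      rw [Fin.cons_self_tail] at hY'
      exact ⟨Y, hY, hY'⟩
    · rw [sum_cons]
      have hsum : (∑ x : Q, ∑ Z : Fin m → Q,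
          θ ^ (E ((Fin.cons x Z : Fin (m + 1) → Q) 0)
            (Fin.tail (Fin.cons x Z : Fin (m + 1) → Q)))) =
          ∑ x : Q, ∑ Z : Fin m → Q, θ ^ (E x Z) := by
        refine Finset.sum_congr rfl (fun x _ => Finset.sum_congr rfl (fun Z _ => ?_))
        rw [Fin.cons_zero, Fin.tail_cons]
      rw [hsum]
      set T : ℝ := ∑ x : Q, ∑ Z : Fin m → Q, θ ^ (E x Z) with hT
      obtain ⟨y, hy⟩ : ∃ y : ℝ, y = (𝒴.card : ℝ) / (S x₀).card := ⟨_, rfl⟩
      have hyS : (𝒴.card : ℝ) = y * (S x₀).card := by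
        rw [hy, div_mul_cancel₀ _ hS0'.ne']
      have hy0 : 0 ≤ y := by
        rw [hy]
        exact div_nonneg (Nat.cast_nonneg _) hS0'.le
      have hysum : y = ∑ x : Q, ((S x).card / (S x₀).card : ℝ) := by
        rw [hy, hcard, Finset.sum_div]
      have h1 : T * (S x₀).card ≤ A * (Fintype.card Q * (1 + θ) - θ * y) := by
        calc T * (S x₀).card = ∑ x : Q, (∑ Z : Fin m → Q, θ ^ (E x Z)) * (S x₀).card := by
              rw [hT, Finset.sum_mul]
          _ ≤ ∑ x : Q, A * (1 + θ - θ * ((S x).card / (S x₀).card : ℝ)) :=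
              Finset.sum_le_sum (fun x _ => hE' x)
          _ = A * (Fintype.card Q * (1 + θ) - θ * y) := by
              rw [← Finset.mul_sum, Finset.sum_sub_distrib, ← Finset.mul_sum, ← hysum]
              rw [Finset.sum_const, Finset.card_univ, nsmul_eq_mul]
      have h2 : T * (𝒴.card : ℝ) ≤ A * (y * (Fintype.card Q * (1 + θ) - θ * y)) := by
        calc T * (𝒴.card : ℝ) = (T * (S x₀).card) * y := by rw [hyS]; ring
          _ ≤ (A * (Fintype.card Q * (1 + θ) - θ * y)) * y :=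
              mul_le_mul_of_nonneg_right h1 hy0
          _ = _ := by ring
      have h3 : y * (Fintype.card Q * (1 + θ) - θ * y) ≤
          (Fintype.card Q : ℝ) ^ 2 * ((1 + θ) ^ 2 / (4 * θ)) := by
        rw [← mul_div_assoc, le_div_iff₀ (by positivity : (0 : ℝ) < 4 * θ)]
        nlinarith [sq_nonneg ((Fintype.card Q : ℝ) * (1 + θ) - 2 * θ * y)]
      calc T * (𝒴.card : ℝ) ≤ A * (y * (Fintype.card Q * (1 + θ) - θ * y)) := h2
        _ ≤ A * ((Fintype.card Q : ℝ) ^ 2 * ((1 + θ) ^ 2 / (4 * θ))) :=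
            mul_le_mul_of_nonneg_left h3 hA0
        _ = _ := by rw [hA]; ring

/-- At most the fraction `exp (- s² / m) / q` of the points has distance more than `s` from a set
of density at least `q`.

Proof: if `Fintype.card Q = 0` there is no `Z` (as `m ≥ 1`). Otherwise `𝒴` is nonempty. Use
`iso_exp` with `θ = exp (2 s / m)`: if `Z` has no point of `𝒴` at distance `≤ s` then
`D Z ≥ s`, so `θ ^ D Z ≥ θ ^ s = exp (2 s² / m)`; so (number of these `Z`) `* exp (2 s² / m) *
q * M^m ≤ M^(2m) * ((1 + θ)² / (4 θ))^m`, and `(1 + θ)² / (4 θ) = cosh (s / m) ^ 2 ≤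
exp (s² / m²)` by `Real.cosh_le_exp_half_sq`. -/
theorem iso {Q : Type} [Fintype Q] [DecidableEq Q] {m : ℕ} (hm : 1 ≤ m)
    (𝒴 : Finset (Fin m → Q)) {q : ℝ} (hq : 0 < q)
    (h𝒴 : q * (Fintype.card Q : ℝ) ^ m ≤ 𝒴.card) (s : ℕ) :
    ((univ.filter (fun Z : Fin m → Q => ¬ ∃ Y ∈ 𝒴, hammingDist Z Y ≤ s)).card : ℝ) ≤
      (Fintype.card Q : ℝ) ^ m * (1 / q * Real.exp (-((s : ℝ) ^ 2 / m))) := by
  have hm0 : (0 : ℝ) < m := by exact_mod_cast hm
  rcases isEmpty_or_nonempty Q with hQ | hQ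
  · have : IsEmpty (Fin m → Q) := by
      have : Nonempty (Fin m) := ⟨⟨0, hm⟩⟩
      infer_instance
    have h0 : (univ.filter (fun Z : Fin m → Q => ¬ ∃ Y ∈ 𝒴, hammingDist Z Y ≤ s)) = ∅ := by
      ext Z
      exact isEmptyElim Z
    rw [h0]
    simp only [Finset.card_empty, Nat.cast_zero]
    positivity
  · have hM : (0 : ℝ) < (Fintype.card Q : ℝ) := by exact_mod_cast Fintype.card_pos
    have hMm : (0 : ℝ) < (Fintype.card Q : ℝ) ^ m := by positivity
    have hYpos : (0 : ℝ) < 𝒴.card := lt_of_lt_of_le (by positivity) h𝒴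
    have hYne : 𝒴.Nonempty := Finset.card_pos.1 (by exact_mod_cast hYpos)
    set θ : ℝ := Real.exp (2 * s / m) with hθdef
    have hθ : 1 ≤ θ := by
      rw [hθdef]
      exact Real.one_le_exp (by positivity)
    obtain ⟨D, hD, hD'⟩ := iso_exp hθ m 𝒴 hYne
    set B := univ.filter (fun Z : Fin m → Q => ¬ ∃ Y ∈ 𝒴, hammingDist Z Y ≤ s) with hB
    have h1 : (B.card : ℝ) * Real.exp (2 * (s : ℝ) ^ 2 / m) ≤ ∑ Z, θ ^ (D Z) := by
      calc (B.card : ℝ) * Real.exp (2 * (s : ℝ) ^ 2 / m)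
          = ∑ Z ∈ B, Real.exp (2 * (s : ℝ) ^ 2 / m) := by
            rw [Finset.sum_const, nsmul_eq_mul]
        _ ≤ ∑ Z ∈ B, θ ^ (D Z) := by
            refine Finset.sum_le_sum (fun Z hZ => ?_)
            have hZ' : s ≤ D Z := by
              by_contra hcon
              push Not at hcon
              obtain ⟨Y, hY, hY'⟩ := hD Z
              exact (Finset.mem_filter.1 hZ).2 ⟨Y, hY, by omega⟩
            calc Real.exp (2 * (s : ℝ) ^ 2 / m) = θ ^ s := by
                  rw [hθdef, ← Real.exp_nat_mul]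
                  congr 1
                  ring
              _ ≤ θ ^ (D Z) := pow_le_pow_right₀ hθ hZ'
        _ ≤ ∑ Z, θ ^ (D Z) := Finset.sum_le_sum_of_subset_of_nonneg (Finset.subset_univ _)
            (fun Z _ _ => by positivity)
    have hK : (1 + θ) ^ 2 / (4 * θ) = Real.cosh (s / m) ^ 2 := by
      have h2 : θ = Real.exp (s / m) ^ 2 := by
        rw [hθdef, ← Real.exp_nat_mul]
        congr 1
        push_cast
        ring
      have he : Real.exp (-(s / m : ℝ)) = (Real.exp (s / m))⁻¹ := Real.exp_neg _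
      rw [Real.cosh_eq, he, h2]
      have hpos : Real.exp ((s : ℝ) / m) ≠ 0 := (Real.exp_pos _).ne'
      field_simp
      ring
    have hK2 : ((1 + θ) ^ 2 / (4 * θ)) ^ m ≤ Real.exp ((s : ℝ) ^ 2 / m) := by
      rw [hK]
      have h3 := Real.cosh_le_exp_half_sq ((s : ℝ) / m)
      have h4 : Real.cosh (s / m) ^ 2 ≤ Real.exp (((s : ℝ) / m) ^ 2 / 2) ^ 2 :=
        pow_le_pow_left₀ (Real.cosh_pos _).le h3 2
      calc (Real.cosh (s / m) ^ 2) ^ m ≤ (Real.exp (((s : ℝ) / m) ^ 2 / 2) ^ 2) ^ m :=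
            pow_le_pow_left₀ (by positivity) h4 m
        _ = Real.exp ((s : ℝ) ^ 2 / m) := by
            rw [← Real.exp_nat_mul, ← Real.exp_nat_mul]
            congr 1
            push_cast
            field_simp
    have h5 : (B.card : ℝ) * Real.exp (2 * (s : ℝ) ^ 2 / m) *
        (q * (Fintype.card Q : ℝ) ^ m) ≤
        ((Fintype.card Q : ℝ) ^ m) ^ 2 * Real.exp ((s : ℝ) ^ 2 / m) := by
      calc (B.card : ℝ) * Real.exp (2 * (s : ℝ) ^ 2 / m) * (q * (Fintype.card Q : ℝ) ^ m)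
          ≤ (∑ Z, θ ^ (D Z)) * (𝒴.card : ℝ) := by
            refine mul_le_mul h1 h𝒴 (by positivity) ?_
            exact Finset.sum_nonneg (fun Z _ => by positivity)
        _ ≤ ((Fintype.card Q : ℝ) ^ m) ^ 2 * ((1 + θ) ^ 2 / (4 * θ)) ^ m := hD'
        _ ≤ _ := mul_le_mul_of_nonneg_left hK2 (by positivity)
    have h6 : Real.exp (2 * (s : ℝ) ^ 2 / m) =
        Real.exp ((s : ℝ) ^ 2 / m) * Real.exp ((s : ℝ) ^ 2 / m) := by
      rw [← Real.exp_add]
      congr 1
      ring
    have h7 : Real.exp (-((s : ℝ) ^ 2 / m)) = (Real.exp ((s : ℝ) ^ 2 / m))⁻¹ := Real.exp_neg _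
    set e := Real.exp ((s : ℝ) ^ 2 / m) with he
    have he0 : 0 < e := Real.exp_pos _
    rw [h6] at h5
    rw [h7]
    rw [show (Fintype.card Q : ℝ) ^ m * (1 / q * e⁻¹) = (Fintype.card Q : ℝ) ^ m / (q * e) by
      field_simp]
    rw [le_div_iff₀ (by positivity)]
    have h8 : (B.card : ℝ) * (q * e) * ((Fintype.card Q : ℝ) ^ m * e) ≤
        (Fintype.card Q : ℝ) ^ m * ((Fintype.card Q : ℝ) ^ m * e) := by
      nlinarith [h5]
    exact le_of_mul_le_mul_right h8 (by positivity)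

end Pool.Agent.H.MP_027d00_lc.SComp
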