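import Pool.Agent.H.MP_027d00_lc.strong.Base

/-!
# The strong composition game and monotone formulas
-/

set_option autoImplicit false

open Finset

namespace Pool.Agent.H.MP_027d00_lc.SComp

open UComp

/-- The variables of the monotone formulas: `(i, j, σ, τ)` says that the entry `(i, j)` is `σ` and
the value of the row `i` is `τ`. -/
abbrev Lit (m n : ℕ) : Type := Fin m × Fin n × Bool × Bool

/-- The assignment of Alice, who has the matrix `X` of type `a`. -/
def asgA {m n : ℕ} (a : Fin m → Bool) (X : Mat m n) : Lit m n → Bool :=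
  fun v => (X v.1 v.2.1 == v.2.2.1) && (a v.1 == v.2.2.2)

/-- The assignment of Bob, who has the matrix `Y` of type `b`. -/
def asgB {m n : ℕ} (b : Fin m → Bool) (Y : Mat m n) : Lit m n → Bool :=
  fun v => (Y v.1 v.2.1 == v.2.2.1) || (b v.1 == v.2.2.2)

/-- The conflict: `X` and `Y` differ in a row in which the types differ. -/
theorem conflict {m n : ℕ} (F : MF (Lit m n)) {a b : Fin m → Bool} {X Y : Mat m n}
    (hX : F.eval (asgA a X) = true) (hY : F.eval (asgB b Y) = false) :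
    ∃ i, X i ≠ Y i ∧ a i ≠ b i := by
  obtain ⟨⟨i, j, σ, τ⟩, h1, h2⟩ := F.conflict hX hY
  simp only [asgA, asgB, Bool.and_eq_true, beq_iff_eq, Bool.or_eq_false_iff, beq_eq_false_iff_ne,
    ne_eq] at h1 h2
  refine ⟨i, fun h => h2.1 ?_, fun h => h2.2 ?_⟩
  · rw [← h]; exact h1.1
  · rw [← h]; exact h1.2

/-- Separation by a monotone formula with at most `c` leaves. -/
def SSep {m n : ℕ} (g : (Fin n → Bool) → Bool) (c : ℕ) (S T : Finset (Mat m n)) : Prop :=
  S = ∅ ∨ T = ∅ ∨ ∃ F : MF (Lit m n), F.size ≤ c ∧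
    (∀ X ∈ S, F.eval (asgA (rows g X) X) = true) ∧ ∀ Y ∈ T, F.eval (asgB (rows g Y) Y) = false

theorem SSep.mono {m n : ℕ} {g : (Fin n → Bool) → Bool} {c d : ℕ} {S T S' T' : Finset (Mat m n)}
    (hcd : c ≤ d) (hS : S' ⊆ S) (hT : T' ⊆ T) (h : SSep g c S T) : SSep g d S' T' := by
  rcases h with h | h | ⟨F, hF, h1, h2⟩
  · left; subst h; exact Finset.subset_empty.1 hS
  · right; left; subst h; exact Finset.subset_empty.1 hT
  · right; right
    exact ⟨F, hF.trans hcd, fun X hX => h1 X (hS hX), fun Y hY => h2 Y (hT hY)⟩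

theorem SSep.union_left {m n : ℕ} {g : (Fin n → Bool) → Bool} {c d : ℕ}
    {S S' T : Finset (Mat m n)} (h : SSep g c S T) (h' : SSep g d S' T) :
    SSep g (c + d) (S ∪ S') T := by
  rcases h with h | h | ⟨F, hF, h1, h2⟩
  · subst h; rw [Finset.empty_union]
    exact h'.mono (by omega) (Finset.Subset.refl _) (Finset.Subset.refl _)
  · exact Or.inr (Or.inl h)
  rcases h' with h | h | ⟨F', hF', h1', h2'⟩
  · subst h; rw [Finset.union_empty]
    exact Or.inr (Or.inr ⟨F, by omega, h1, h2⟩)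
  · exact Or.inr (Or.inl h)
  refine Or.inr (Or.inr ⟨.or F F', by simp only [MF.size]; omega, ?_, ?_⟩)
  · intro X hX
    rcases Finset.mem_union.1 hX with h | h
    · simp [MF.eval, h1 X h]
    · simp [MF.eval, h1' X h]
  · intro Y hY
    simp [MF.eval, h2 Y hY, h2' Y hY]

theorem SSep.union_right {m n : ℕ} {g : (Fin n → Bool) → Bool} {c d : ℕ}
    {S T T' : Finset (Mat m n)} (h : SSep g c S T) (h' : SSep g d S T') :
    SSep g (c + d) S (T ∪ T') := by
  rcases h with h | h | ⟨F, hF, h1, h2⟩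
  · exact Or.inl h
  · subst h; rw [Finset.empty_union]
    exact h'.mono (by omega) (Finset.Subset.refl _) (Finset.Subset.refl _)
  rcases h' with h | h | ⟨F', hF', h1', h2'⟩
  · exact Or.inl h
  · subst h; rw [Finset.union_empty]
    exact Or.inr (Or.inr ⟨F, by omega, h1, h2⟩)
  refine Or.inr (Or.inr ⟨.and F F', by simp only [MF.size]; omega, ?_, ?_⟩)
  · intro X hX
    simp [MF.eval, h1 X hX, h1' X hX]
  · intro Y hY
    rcases Finset.mem_union.1 hY with h | h
    · simp [MF.eval, h2 Y h]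
    · simp [MF.eval, h2' Y h]

/-- A valid output on a rectangle gives a variable. -/
theorem SSep.leaf {m n : ℕ} {g : (Fin n → Bool) → Bool} {S T : Finset (Mat m n)}
    (o : Fin m × Fin n)
    (h : ∀ X ∈ S, ∀ Y ∈ T, X o.1 o.2 ≠ Y o.1 o.2 ∧ g (X o.1) ≠ g (Y o.1)) : SSep g 1 S T := by
  rcases S.eq_empty_or_nonempty with hS | ⟨X₀, hX₀⟩
  · exact Or.inl hS
  rcases T.eq_empty_or_nonempty with hT | ⟨Y₀, hY₀⟩
  · exact Or.inr (Or.inl hT)
  refine Or.inr (Or.inr ⟨.var (o.1, o.2, X₀ o.1 o.2, g (X₀ o.1)), le_rfl, ?_, ?_⟩)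
  · intro X hX
    have h1 := h X hX Y₀ hY₀
    have h2 := h X₀ hX₀ Y₀ hY₀
    have e1 : X o.1 o.2 = X₀ o.1 o.2 := by
      cases e1 : X o.1 o.2 <;> cases e2 : X₀ o.1 o.2 <;> cases e3 : Y₀ o.1 o.2 <;> simp_all
    have e2 : g (X o.1) = g (X₀ o.1) := by
      cases e1 : g (X o.1) <;> cases e2 : g (X₀ o.1) <;> cases e3 : g (Y₀ o.1) <;> simp_all
    simp [MF.eval, asgA, rows, e1, e2]
  · intro Y hY
    have h2 := h X₀ hX₀ Y hY
    simp only [MF.eval, asgB, rows, Bool.or_eq_false_iff, beq_eq_false_iff_ne, ne_eq]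
    exact ⟨fun h => h2.1 h.symm, fun h => h2.2 h.symm⟩

end Pool.Agent.H.MP_027d00_lc.SComp
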