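import Pool.Agent.H.MP_027d00_lc.strong.Amp
import Pool.Agent.H.MP_027d00_lc.strong.Iso

/-!
# Patterns: separation from a family of conflicting sets
-/

set_option autoImplicit false

open Finset

namespace Pool.Agent.H.MP_027d00_lc.SComp

open UComp

/-- The partial vectors with at most `s` entries. -/
def pats (m s : ℕ) : Finset (Fin m → Option Bool) :=
  univ.filter (fun π => (univ.filter (fun i => π i ≠ none)).card ≤ s)

/-- There are few patterns.

Proof: `|pats m s| * y^s ≤ ∑ π, y ^ |dom π| = ∏ i, (1 + y + y) = (1 + 2y)^m ≤ exp (2 y m)`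
(`Finset.prod_univ_sum`, `Fintype.piFinset_univ`, `Fintype.sum_option`; `y ^ |dom π| =
∏ i, (if π i = none then 1 else y)`, `Finset.prod_ite`/`Finset.prod_pow_boole`). -/
theorem pats_card (m s : ℕ) {y : ℝ} (hy : 0 < y) (hy1 : y ≤ 1) :
    ((pats m s).card : ℝ) * y ^ s ≤ Real.exp (2 * y * m) := by
  classical
  have h1 : ∑ π : Fin m → Option Bool, ∏ i, (if π i = none then (1 : ℝ) else y) =
      (1 + 2 * y) ^ m := by
    have h2 := Finset.prod_univ_sum (fun _ : Fin m => (Finset.univ : Finset (Option Bool)))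
      (fun _ o => if o = none then (1 : ℝ) else y)
    rw [Fintype.piFinset_univ] at h2
    rw [← h2]
    have h3 : ∑ o : Option Bool, (if o = none then (1 : ℝ) else y) = 1 + 2 * y := by
      rw [Fintype.sum_option]
      simp
    rw [h3, Finset.prod_const, Finset.card_univ, Fintype.card_fin]
  have h4 : ∀ π : Fin m → Option Bool, ∏ i, (if π i = none then (1 : ℝ) else y) =
      y ^ (univ.filter (fun i => π i ≠ none)).card := by
    intro π
    rw [Finset.prod_ite, Finset.prod_const_one, one_mul, Finset.prod_const]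
  calc ((pats m s).card : ℝ) * y ^ s = ∑ _π ∈ pats m s, y ^ s := by
        rw [Finset.sum_const, nsmul_eq_mul]
    _ ≤ ∑ π ∈ pats m s, ∏ i, (if π i = none then (1 : ℝ) else y) := by
        refine Finset.sum_le_sum fun π hπ => ?_
        rw [h4]
        exact pow_le_pow_of_le_one hy.le hy1 (Finset.mem_filter.1 hπ).2
    _ ≤ ∑ π : Fin m → Option Bool, ∏ i, (if π i = none then (1 : ℝ) else y) := by
        refine Finset.sum_le_sum_of_subset_of_nonneg (Finset.subset_univ _) fun π _ _ => ?_
        rw [h4]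
        positivity
    _ = (1 + 2 * y) ^ m := h1
    _ ≤ Real.exp (2 * y) ^ m := by
        refine pow_le_pow_left₀ (by positivity) ?_ m
        have := Real.add_one_le_exp (2 * y)
        linarith
    _ = Real.exp (2 * y * m) := by
        rw [← Real.exp_nat_mul]
        congr 1
        ring

/-- Matching a set of patterns. -/
theorem comp_match {m s : ℕ} (P : Finset (Fin m → Option Bool)) (hP : P ⊆ pats m s) :
    Comp ((pats m s).card * s)
      (fun x : Fin m → Bool => decide (∃ π ∈ P, decide (∀ i ∈ univ.filter (fun i => π i ≠ none),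
        (x i == (π i).getD false) = true) = true)) := by
  classical
  have h1 : ∀ π ∈ P, Comp s (fun x : Fin m → Bool =>
      decide (∀ i ∈ univ.filter (fun i => π i ≠ none), (x i == (π i).getD false) = true)) := by
    intro π hπ
    have h2 := Comp.finset_and (V := Fin m) (s := 1) (univ.filter (fun i => π i ≠ none))
      (fun i x => x i == (π i).getD false) (fun i _ => Comp.lit i _)
    have h3 := h2.mono (t := s) (by
      rw [mul_one]
      exact (Finset.mem_filter.1 (hP hπ)).2)
    convert h3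
  have h2 := Comp.finset_or P (fun π x => decide (∀ i ∈ univ.filter (fun i => π i ≠ none),
    (x i == (π i).getD false) = true)) h1
  have h3 := h2.mono (Nat.mul_le_mul_right _ (Finset.card_le_card hP))
  convert h3

/-- The separation lemma.

Proof: if `A` is empty take `t = 0` and a constant. Otherwise `p ≤ 1` as `|𝒳 a| ≤ (2^n)^m`. For a
matrix `Z` and a vector `b` call `b` near if there is `Y ∈ 𝒴 b` with `hammingDist Z Y ≤ s` (Hamming
distance of the vectors of rows); for `b ∈ B` near choose such a `Y = Y (Z, b)` and let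
`π (Z, b) i = some (b i)` if `Z i ≠ Y i` and `none` otherwise, an element of `pats m s`. Let
`P Z ⊆ pats m s` be the set of these patterns over all near `b ∈ B`, and let `h Z x = false` iff
`x` matches some `π ∈ P Z` (for all `i`, `π i = none` or `π i = some (x i)`). Matching one
pattern is a conjunction of at most `s` literals, so `Comp ((pats m s).card * s) (h Z)`
(`Comp.finset_and`, `Comp.finset_or`, `Comp.not`, `Comp.mono`). Let `Φ x` be the average over all
matrices `Z` of `ind (h Z x)`; it is `Rnd ((pats m s).card * s)`.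

If `a ∈ A` and `Z ∈ 𝒳 a`, then `h Z a = true`: for near `b` there is by `hc` an `i` with
`Z i ≠ Y i`, `a i ≠ b i`, so `π (Z, b) i = some (b i) ≠ some (a i)`. So `Φ a ≥ p`. If `b ∈ B` and
`h Z b = true` then `b` is not near (`b` matches `π (Z, b)`), so by `iso`
`Φ b ≤ δ := 1 / q * exp (- s² / m)`, and `12 δ ≤ p`. Conclude by `amp`. -/
theorem unit_sep {m n s : ℕ} (hm : 1 ≤ m) (A B : Finset (Fin m → Bool))
    (𝒳 𝒴 : (Fin m → Bool) → Finset (Mat m n)) {p q : ℝ} (hp : 0 < p) (hq : 0 < q)
    (hX : ∀ a ∈ A, p * ((2 : ℝ) ^ n) ^ m ≤ (𝒳 a).card)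
    (hY : ∀ b ∈ B, q * ((2 : ℝ) ^ n) ^ m ≤ (𝒴 b).card)
    (hc : ∀ a ∈ A, ∀ b ∈ B, ∀ X ∈ 𝒳 a, ∀ Y ∈ 𝒴 b, ∃ i, X i ≠ Y i ∧ a i ≠ b i)
    (hs : 12 * Real.exp (-((s : ℝ) ^ 2 / m)) ≤ p * q) :
    ∃ t : ℕ, (t : ℝ) * p ≤ 3 ∧ SepF (216 * m ^ 3 * (t * ((pats m s).card * s))) A B := by
  classical
  rcases A.eq_empty_or_nonempty with hA | ⟨a₀, ha₀⟩
  · refine ⟨0, by norm_num, fun _ => false, Comp.const _ false, ?_, fun _ _ => rfl⟩
    intro a ha
    rw [hA] at ha
    exact absurd ha (Finset.notMem_empty a)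
  have hM : (0 : ℝ) < ((2 : ℝ) ^ n) ^ m := by positivity
  have hcardM : ((Finset.univ : Finset (Mat m n)).card : ℝ) = ((2 : ℝ) ^ n) ^ m := by
    rw [Finset.card_univ]
    simp only [Mat, Fintype.card_fun, Fintype.card_bool, Fintype.card_fin]
    push_cast
    rfl
  have hp1 : p ≤ 1 := by
    have h1 := hX a₀ ha₀
    have h2 : ((𝒳 a₀).card : ℝ) ≤ ((2 : ℝ) ^ n) ^ m := by
      rw [← hcardM]
      exact_mod_cast Finset.card_le_card (Finset.subset_univ _)
    by_contra hcon
    push Not at hcon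
    nlinarith
  -- the choice of a near matrix
  have hch : ∀ (Z : Mat m n) (b : Fin m → Bool), ∃ Y : Mat m n,
      (∃ Y ∈ 𝒴 b, hammingDist Z Y ≤ s) → Y ∈ 𝒴 b ∧ hammingDist Z Y ≤ s := by
    intro Z b
    by_cases h : ∃ Y ∈ 𝒴 b, hammingDist Z Y ≤ s
    · obtain ⟨Y, hY1, hY2⟩ := h
      exact ⟨Y, fun _ => ⟨hY1, hY2⟩⟩
    · exact ⟨Z, fun h' => absurd h' h⟩
  choose Yc hYc using hch
  set near : Mat m n → (Fin m → Bool) → Prop := fun Z b => ∃ Y ∈ 𝒴 b, hammingDist Z Y ≤ s
    with hnear
  set pt : Mat m n → (Fin m → Bool) → (Fin m → Option Bool) :=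
    fun Z b i => if Z i ≠ Yc Z b i then some (b i) else none with hpt
  set PP : Mat m n → Finset (Fin m → Option Bool) :=
    fun Z => (B.filter (fun b => near Z b)).image (pt Z) with hPP
  have hPsub : ∀ Z, PP Z ⊆ pats m s := by
    intro Z π hπ
    rw [hPP] at hπ
    obtain ⟨b, hb, rfl⟩ := Finset.mem_image.1 hπ
    have hb2 := (hYc Z b (Finset.mem_filter.1 hb).2).2
    rw [pats, Finset.mem_filter]
    refine ⟨Finset.mem_univ _, le_trans (le_of_eq ?_) hb2⟩
    rw [hammingDist]
    congr 1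
    ext i
    simp only [hpt, Finset.mem_filter, Finset.mem_univ, true_and]
    by_cases h : Z i = Yc Z b i <;> simp [h]
  set H : Mat m n → (Fin m → Bool) → Bool := fun Z x =>
    !(decide (∃ π ∈ PP Z, decide (∀ i ∈ univ.filter (fun i => π i ≠ none),
        (x i == (π i).getD false) = true) = true)) with hH
  have hHc : ∀ Z, Comp ((pats m s).card * s) (H Z) := fun Z => (comp_match _ (hPsub Z)).not
  set W : ℝ := 1 / ((2 : ℝ) ^ n) ^ m with hW
  set Φ : (Fin m → Bool) → ℝ := fun x => ∑ Z : Mat m n, W * MP_027d00_lc.ind (H Z x) with hΦ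
  have hR : Rnd ((pats m s).card * s) Φ := by
    refine ⟨Mat m n, inferInstance, fun _ => W, H, fun _ => by positivity, ?_, hHc,
      fun x => rfl⟩
    rw [Finset.sum_const, nsmul_eq_mul, hcardM, hW]
    field_simp
  have hΦ' : ∀ x, Φ x = W * ((univ.filter (fun Z : Mat m n => H Z x = true)).card : ℝ) := by
    intro x
    simp only [hΦ]
    rw [← Finset.mul_sum]
    congr 1
    rw [Finset.card_filter]
    push_cast
    refine Finset.sum_congr rfl fun Z _ => ?_
    simp [MP_027d00_lc.ind]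
  -- the two bounds
  have hΦA : ∀ a ∈ A, p ≤ Φ a := by
    intro a ha
    have h1 : 𝒳 a ⊆ univ.filter (fun Z : Mat m n => H Z a = true) := by
      intro Z hZ
      rw [Finset.mem_filter]
      refine ⟨Finset.mem_univ _, ?_⟩
      simp only [hH, Bool.not_eq_true', decide_eq_false_iff_not]
      rintro ⟨π, hπ, hm'⟩
      rw [decide_eq_true_eq] at hm'
      rw [hPP] at hπ
      obtain ⟨b, hb, rfl⟩ := Finset.mem_image.1 hπ
      rw [Finset.mem_filter] at hb
      have hy := hYc Z b hb.2
      obtain ⟨i, hi1, hi2⟩ := hc a ha b hb.1 Z hZ (Yc Z b) hy.1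
      have h3 := hm' i (by simp [hpt, hi1])
      simp only [hpt, ne_eq, hi1, not_false_eq_true, if_true, Option.getD_some,
        beq_iff_eq] at h3
      exact hi2 h3
    have h2 : ((𝒳 a).card : ℝ) ≤ ((univ.filter (fun Z : Mat m n => H Z a = true)).card : ℝ) := by
      exact_mod_cast Finset.card_le_card h1
    rw [hΦ', hW]
    rw [one_div, inv_mul_eq_div, le_div_iff₀ hM]
    exact (hX a ha).trans h2
  have hΦB : ∀ b ∈ B, Φ b ≤ 1 / q * Real.exp (-((s : ℝ) ^ 2 / m)) := by
    intro b hb
    have h1 : univ.filter (fun Z : Mat m n => H Z b = true) ⊆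
        univ.filter (fun Z : Fin m → (Fin n → Bool) => ¬ ∃ Y ∈ 𝒴 b, hammingDist Z Y ≤ s) := by
      intro Z hZ
      rw [Finset.mem_filter] at hZ ⊢
      refine ⟨Finset.mem_univ _, fun hn => ?_⟩
      have h2 := hZ.2
      simp only [hH, Bool.not_eq_true', decide_eq_false_iff_not] at h2
      apply h2
      refine ⟨pt Z b, ?_, ?_⟩
      · rw [hPP]
        exact Finset.mem_image.2 ⟨b, Finset.mem_filter.2 ⟨hb, hn⟩, rfl⟩
      · rw [decide_eq_true_eq]
        intro i hi
        rw [Finset.mem_filter] at hi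
        have h3 : Z i ≠ Yc Z b i := by
          intro he
          exact hi.2 (by simp [hpt, he])
        simp [hpt, h3]
    have h2 : ((univ.filter (fun Z : Mat m n => H Z b = true)).card : ℝ) ≤
        ((univ.filter (fun Z : Fin m → (Fin n → Bool) =>
          ¬ ∃ Y ∈ 𝒴 b, hammingDist Z Y ≤ s)).card : ℝ) := by
      exact_mod_cast Finset.card_le_card h1
    have hQ : (Fintype.card (Fin n → Bool) : ℝ) = 2 ^ n := by
      simp
    have h3 := iso (Q := Fin n → Bool) hm (𝒴 b) hq (by rw [hQ]; exact hY b hb) s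
    rw [hQ] at h3
    rw [hΦ', hW, one_div, inv_mul_eq_div, div_le_iff₀ hM]
    calc _ ≤ _ := h2
      _ ≤ _ := h3
      _ = _ := by ring
  refine amp hm hR A B hp hp1 (δ := 1 / q * Real.exp (-((s : ℝ) ^ 2 / m))) ?_ hΦA hΦB
  have : 12 * (1 / q * Real.exp (-((s : ℝ) ^ 2 / m))) =
      12 * Real.exp (-((s : ℝ) ^ 2 / m)) / q := by ring
  rw [this, div_le_iff₀ hq]
  exact hs

end Pool.Agent.H.MP_027d00_lc.SComp
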