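import Pool.Agent.H.MP_027d00_lc.strong.Heavy
import Pool.Agent.H.MP_027d00_lc.strong.Pattern
import Pool.Agent.H.MP_027d00_lc.strong.Good

/-!
# The explicit bound for good inner functions
-/

set_option autoImplicit false

open Finset

namespace Pool.Agent.H.MP_027d00_lc.SComp

open UComp

theorem SepF.empty_left {m : ℕ} (s : ℕ) (B : Finset (Fin m → Bool)) : SepF s ∅ B :=
  ⟨fun _ => false, Comp.const s false, fun a ha => absurd ha (Finset.notMem_empty a),
    fun _ _ => rfl⟩

theorem SepF.empty_right {m : ℕ} (s : ℕ) (A : Finset (Fin m → Bool)) : SepF s A ∅ :=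
  ⟨fun _ => true, Comp.const s true, fun _ _ => rfl,
    fun b hb => absurd hb (Finset.notMem_empty b)⟩

theorem dens_empty {m n : ℕ} (g : (Fin n → Bool) → Bool) (a : Fin m → Bool) :
    dens g (∅ : Finset (Mat m n)) a = 0 := by
  simp [dens]

theorem dens_le_of {m n : ℕ} {g : (Fin n → Bool) → Bool} {S T : Finset (Mat m n)}
    {a : Fin m → Bool} (h : ∀ X ∈ S, rows g X = a → X ∈ T) : dens g S a ≤ dens g T a := by
  unfold dens
  have : (S.filter (fun X => rows g X = a)).card ≤ (T.filter (fun X => rows g X = a)).card := by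
    apply Finset.card_le_card
    intro X hX
    rw [Finset.mem_filter] at hX ⊢
    exact ⟨h X hX.1 hX.2, hX.2⟩
  gcongr

/-- A set that is heavy at a type for a good `g` has large density. -/
theorem density_ge {m n : ℕ} {g : (Fin n → Bool) → Bool} {S : Finset (Mat m n)}
    {a : Fin m → Bool} {p : ℝ} (hp : 0 < p) (h1 : p ≤ dens g S a)
    (h2 : dens g S a ≤ 10 * Real.sqrt ((S.card : ℝ) / ((2 : ℝ) ^ n) ^ m)) :
    (p / 10) ^ 2 * ((2 : ℝ) ^ n) ^ m ≤ S.card := by
  have h3 : p / 10 ≤ Real.sqrt ((S.card : ℝ) / ((2 : ℝ) ^ n) ^ m) := by linarith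
  have h4 : (p / 10) ^ 2 ≤ (S.card : ℝ) / ((2 : ℝ) ^ n) ^ m := by
    calc (p / 10) ^ 2 ≤ Real.sqrt ((S.card : ℝ) / ((2 : ℝ) ^ n) ^ m) ^ 2 :=
          pow_le_pow_left₀ (by positivity) h3 2
      _ = (S.card : ℝ) / ((2 : ℝ) ^ n) ^ m := Real.sq_sqrt (by positivity)
  rwa [le_div_iff₀ (by positivity)] at h4

/-- The separation of the types that are heavy in a small piece. -/
theorem unit_good {m n w : ℕ} (hm : 1 ≤ m) {g : (Fin n → Bool) → Bool} (hG : Good m w g)
    {r : ℝ} (hr : 0 < r) {t₀ : ℕ} (ht₀ : 75 / r ^ 2 ≤ t₀) (s : ℕ)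
    (hs : 12 * Real.exp (-((s : ℝ) ^ 2 / m)) ≤ (r / 100) ^ 2)
    (S T : Finset (Mat m n)) (h : SSep g w S T) (p q : ℝ) (hp : 0 < p) (_hp1 : p ≤ 1 / 2)
    (hq : 0 < q) (hq1 : q ≤ 1 / 2) (hpq : r ≤ p * q) (A B : Finset (Fin m → Bool))
    (hA : ∀ a ∈ A, p ≤ dens g S a) (hB : ∀ b ∈ B, q ≤ dens g T b) :
    SepF (216 * m ^ 3 * (t₀ * ((pats m s).card * s))) A B := by
  rcases h with h | h | ⟨F, hF, h1, h2⟩
  · have : A = ∅ := by
      rw [Finset.eq_empty_iff_forall_notMem]
      intro a ha
      have := hA a ha
      rw [h, dens_empty] at this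
      linarith
    rw [this]
    exact SepF.empty_left _ _
  · have : B = ∅ := by
      rw [Finset.eq_empty_iff_forall_notMem]
      intro a ha
      have := hB a ha
      rw [h, dens_empty] at this
      linarith
    rw [this]
    exact SepF.empty_right _ _
  · have hX : ∀ a ∈ A, (p / 10) ^ 2 * ((2 : ℝ) ^ n) ^ m ≤ (setA F a).card := by
      intro a ha
      refine density_ge (g := g) (a := a) hp ((hA a ha).trans (dens_le_of ?_)) (hG.densA F hF a)
      intro X hX hXa
      rw [setA, Finset.mem_filter]
      refine ⟨Finset.mem_univ _, ?_⟩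
      rw [← hXa]
      exact h1 X hX
    have hY : ∀ b ∈ B, (q / 10) ^ 2 * ((2 : ℝ) ^ n) ^ m ≤ (setB F b).card := by
      intro b hb
      refine density_ge (g := g) (a := b) hq ((hB b hb).trans (dens_le_of ?_)) (hG.densB F hF b)
      intro X hX hXa
      rw [setB, Finset.mem_filter]
      refine ⟨Finset.mem_univ _, ?_⟩
      rw [← hXa]
      exact h2 X hX
    obtain ⟨t, ht, hsep⟩ := unit_sep hm A B (setA F) (setB F) (p := (p / 10) ^ 2)
      (q := (q / 10) ^ 2) (by positivity) (by positivity) hX hY (by
        intro a _ b _ X hX Y hY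
        rw [setA, Finset.mem_filter] at hX
        rw [setB, Finset.mem_filter] at hY
        exact conflict F hX.2 hY.2) (s := s) (by
        refine hs.trans ?_
        have : (p / 10) ^ 2 * (q / 10) ^ 2 = (p * q / 100) ^ 2 := by ring
        rw [this]
        exact pow_le_pow_left₀ (by positivity) (by linarith) 2)
    refine hsep.mono ?_ (Finset.Subset.refl _) (Finset.Subset.refl _)
    refine Nat.mul_le_mul_left _ (Nat.mul_le_mul_right _ ?_)
    have h3 : 2 * r ≤ p := by nlinarith
    have h4 : (t : ℝ) ≤ t₀ := by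
      refine le_trans ?_ ht₀
      rw [le_div_iff₀ (by positivity)]
      have h5 : (2 * r) ^ 2 ≤ p ^ 2 := pow_le_pow_left₀ (by positivity) h3 2
      have h6 : (t : ℝ) * (2 * r) ^ 2 ≤ t * p ^ 2 :=
        mul_le_mul_of_nonneg_left h5 (by positivity)
      nlinarith
    exact_mod_cast h4

/-- A non-constant function has a sensitive edge. -/
theorem exists_edge {m : ℕ} {f : (Fin m → Bool) → Bool} (hf : ∃ a b, f a = true ∧ f b = false) :
    ∃ (a b : Fin m → Bool) (i : Fin m), f a = true ∧ f b = false ∧ b i ≠ a i ∧
      ∀ j, j ≠ i → b j = a j := by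
  classical
  obtain ⟨a, b, ha, hb⟩ := hf
  by_contra hcon
  push Not at hcon
  have key : ∀ s : Finset (Fin m), f (fun i => if i ∈ s then b i else a i) = true := by
    intro s
    induction s using Finset.induction_on with
    | empty => simpa using ha
    | insert i s hi ih =>
      by_contra hne
      have hfalse : f (fun j => if j ∈ insert i s then b j else a j) = false := by
        simpa using hne
      by_cases hab : b i = a i
      · apply hne
        rw [← ih]
        congr 1
        funext j
        by_cases hj : j = i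
        · subst hj; simp [hi, hab]
        · simp [hj]
      · obtain ⟨j, hj, hj'⟩ := hcon _ _ i ih hfalse (by simpa [hi] using hab)
        exact hj' (by simp [hj])
  have := key Finset.univ
  simp only [Finset.mem_univ, if_true] at this
  have hb' : f (fun i => b i) = false := hb
  rw [hb'] at this
  exact absurd this (by simp)

/-- For a good `g` the whole game has no small separation. -/
theorem root_not_small {m n w : ℕ} (hm : 1 ≤ m) {g : (Fin n → Bool) → Bool} (hG : Good m w g)
    {f : (Fin m → Bool) → Bool} (hf : ∃ a b, f a = true ∧ f b = false) :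
    ¬ SSep g w (univ.filter (fun X : Mat m n => f (rows g X) = true))
      (univ.filter (fun X : Mat m n => f (rows g X) = false)) := by
  classical
  intro h
  have hsur : ∀ c : Bool, ∃ x, g x = c := by
    intro c
    have h1 := hG.balanced c
    have hmR : (1 : ℝ) ≤ m := by exact_mod_cast hm
    have h2 : 1 / (2 * (m : ℝ)) ≤ 1 / 2 := by
      apply one_div_le_one_div_of_le (by norm_num)
      linarith
    have h3 : (0 : ℝ) < (1 - 1 / (2 * (m : ℝ))) * (2 ^ n / 2) := by
      have : (0 : ℝ) < 1 - 1 / (2 * (m : ℝ)) := by linarith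
      positivity
    have h4 : (0 : ℝ) < ((univ.filter (fun x => g x = c)).card : ℝ) := lt_of_lt_of_le h3 h1
    have h5 : 0 < (univ.filter (fun x => g x = c)).card := by exact_mod_cast h4
    obtain ⟨x, hx⟩ := Finset.card_pos.1 h5
    exact ⟨x, (Finset.mem_filter.1 hx).2⟩
  choose pt hpt using hsur
  obtain ⟨a, b, i, ha, hb, hab, hj⟩ := exists_edge hf
  have hrow : ∀ c : Fin m → Bool, rows g (fun j => pt (c j)) = c := by
    intro c; funext j; exact hpt (c j)
  rcases h with h | h | ⟨F, hF, h1, h2⟩
  · have : (fun j => pt (a j)) ∈ (∅ : Finset (Mat m n)) := by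
      rw [← h, Finset.mem_filter]
      exact ⟨Finset.mem_univ _, by rw [hrow]; exact ha⟩
    exact absurd this (Finset.notMem_empty _)
  · have : (fun j => pt (b j)) ∈ (∅ : Finset (Mat m n)) := by
      rw [← h, Finset.mem_filter]
      exact ⟨Finset.mem_univ _, by rw [hrow]; exact hb⟩
    exact absurd this (Finset.notMem_empty _)
  · refine hG.hard F hF a (fun j => pt (a j)) i ?_
    intro x
    have hr : ∀ c : Fin m → Bool, (∀ j, j ≠ i → c j = a j) → g x = c i →
        rows g (Function.update (fun j => pt (a j)) i x) = c := by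
      intro c hc hx
      funext j
      by_cases hji : j = i
      · subst hji; simp [rows, hx]
      · simp only [rows, Function.update_of_ne hji, hpt]
        exact (hc j hji).symm
    by_cases hx : g x = a i
    · have e := hr a (fun _ _ => rfl) hx
      have h3 := h1 (Function.update (fun j => pt (a j)) i x) (by
        rw [Finset.mem_filter]
        exact ⟨Finset.mem_univ _, by rw [e]; exact ha⟩)
      rw [e] at h3
      rw [h3, hx]
      simp
    · have hxb : g x = b i := by
        cases e1 : g x <;> cases e2 : a i <;> cases e3 : b i <;> simp_all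
      have e := hr b hj hxb
      have h3 := h2 (Function.update (fun j => pt (a j)) i x) (by
        rw [Finset.mem_filter]
        exact ⟨Finset.mem_univ _, by rw [e]; exact hb⟩)
      rw [e] at h3
      have h4 : F.eval (asgA a (Function.update (fun j => pt (a j)) i x)) = false := by
        by_contra hne
        have hne' : F.eval (asgA a (Function.update (fun j => pt (a j)) i x)) = true := by
          simpa using hne
        have := F.eval_mono (y := asgB b (Function.update (fun j => pt (a j)) i x)) (by
          intro v hv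
          simp only [asgA, asgB, Bool.and_eq_true, Bool.or_eq_true] at hv ⊢
          exact Or.inl hv.1) hne'
        rw [h3] at this
        exact absurd this (by simp)
      rw [h4]
      symm
      simpa using hx

/-- The explicit bound. -/
theorem main_explicit {m n w : ℕ} (hm : 1 ≤ m) (hw : 1 ≤ w) {g : (Fin n → Bool) → Bool}
    (hG : Good m w g) {f : (Fin m → Bool) → Bool} (hf : ∃ a b, f a = true ∧ f b = false)
    {P : Prot (Mat m n) (Mat m n) (Fin m × Fin n)} (hP : StrongSolves f g P) :
    ∃ N : ℕ, 1 ≤ N ∧ w * N ≤ 6 * P.leaves ∧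
      ∀ s : ℕ, 12 * Real.exp (-((s : ℝ) ^ 2 / m)) ≤ (1 / (400 * (N : ℝ))) ^ 2 →
        fsize f ≤ N * (216 * m ^ 3 * (1200 * N ^ 2 * ((pats m s).card * s))) := by
  classical
  set S : Finset (Mat m n) := univ.filter (fun X : Mat m n => f (rows g X) = true) with hS
  set T : Finset (Mat m n) := univ.filter (fun X : Mat m n => f (rows g X) = false) with hT
  rcases dec_of_prot (g := g) hw P S T (by
    intro X hX Y hY
    rw [hS, Finset.mem_filter] at hX
    rw [hT, Finset.mem_filter] at hY
    exact hP X Y hX.2 hY.2) with h | ⟨N, hd, hN⟩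
  · exact absurd h (root_not_small hm hG hf)
  refine ⟨N, hd.pos, hN, fun s hs => ?_⟩
  have hNR : (1 : ℝ) ≤ N := by exact_mod_cast hd.pos
  have hsep := heavy (r := 1 / (4 * (N : ℝ)))
    (K := 216 * m ^ 3 * (1200 * N ^ 2 * ((pats m s).card * s)))
    (fun S' T' h' p q hp hp1 hq hq1 hpq A B hA hB =>
      unit_good hm hG (r := 1 / (4 * (N : ℝ))) (by positivity) (t₀ := 1200 * N ^ 2) (by
        have : (75 : ℝ) / (1 / (4 * (N : ℝ))) ^ 2 = 1200 * N ^ 2 := by field_simp; norm_num
        rw [this]; push_cast; exact le_rfl) s (by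
        refine hs.trans (le_of_eq ?_)
        congr 1
        field_simp
        norm_num) S' T' h' p q hp hp1 hq hq1 hpq A B hA hB) hd
    (1 / 2) (1 / 2) (by norm_num) le_rfl (by norm_num) le_rfl (by
      have : 1 / (4 * (N : ℝ)) * N = 1 / 4 := by field_simp
      rw [this]; norm_num) (univ.filter (fun a => f a = true)) (univ.filter (fun b => f b = false))
    (by
      intro a ha
      have hfa := (Finset.mem_filter.1 ha).2
      have := dens_root hm hG.balanced f a
      rw [hfa] at this
      exact this)
    (by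
      intro b hb
      have hfb := (Finset.mem_filter.1 hb).2
      have := dens_root hm hG.balanced f b
      rw [hfb] at this
      exact this)
  obtain ⟨h, hc, h1, h2⟩ := hsep
  have e : h = f := by
    funext a
    cases hfa : f a with
    | true => exact h1 a (by simp [hfa])
    | false => exact h2 a (by simp [hfa])
  rw [e] at hc
  exact fsize_le hc

end Pool.Agent.H.MP_027d00_lc.SComp
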