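import Pool.Agent.H.MP_027d00_lc.ucomp.Hyb

/-!
# Product measures of sets of matrices
-/

set_option autoImplicit false

open Finset

namespace Pool.Agent.H.MP_027d00_lc.SComp

open UComp

/-- The probability of `S` under the product of the distributions `μ (t i)`. -/
noncomputable def pr {m n : ℕ} (μ : Bool → (Fin n → Bool) → ℝ) (t : Fin m → Bool)
    (S : Finset (Mat m n)) : ℝ := ∑ X ∈ S, W μ t X

/-- The measure of `v` under the `m`-th power of `ν`. -/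
noncomputable def mea {Q : Type} {m : ℕ} (ν : Q → ℝ) (v : Finset (Fin m → Q)) : ℝ :=
  ∑ Z ∈ v, ∏ i, ν (Z i)

/-- The average of the two distributions. -/
noncomputable def nu {n : ℕ} (μ : Bool → (Fin n → Bool) → ℝ) (x : Fin n → Bool) : ℝ :=
  (μ false x + μ true x) / 2

theorem pr_nonneg {m n : ℕ} {μ : Bool → (Fin n → Bool) → ℝ} (h0 : ∀ b x, 0 ≤ μ b x)
    (t : Fin m → Bool) (S : Finset (Mat m n)) : 0 ≤ pr μ t S :=
  Finset.sum_nonneg fun X _ => W_nonneg h0 t X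

theorem pr_mono {m n : ℕ} {μ : Bool → (Fin n → Bool) → ℝ} (h0 : ∀ b x, 0 ≤ μ b x)
    (t : Fin m → Bool) {S T : Finset (Mat m n)} (h : S ⊆ T) : pr μ t S ≤ pr μ t T :=
  Finset.sum_le_sum_of_subset_of_nonneg h fun X _ _ => W_nonneg h0 t X

theorem pr_univ {m n : ℕ} {μ : Bool → (Fin n → Bool) → ℝ} (h1 : ∀ b, ∑ x, μ b x = 1)
    (t : Fin m → Bool) : pr μ t (univ : Finset (Mat m n)) = 1 := W_sum h1 t

/-- Proof: `∑ X ∈ S ∪ T ≤ ∑ X ∈ S + ∑ X ∈ T` for nonnegative terms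
(`Finset.sum_union_inter`). -/
theorem pr_union {m n : ℕ} {μ : Bool → (Fin n → Bool) → ℝ} (h0 : ∀ b x, 0 ≤ μ b x)
    (t : Fin m → Bool) (S T : Finset (Mat m n)) : pr μ t (S ∪ T) ≤ pr μ t S + pr μ t T := by
  classical
  unfold pr
  have h1 := Finset.sum_union_inter (s₁ := S) (s₂ := T) (f := fun X => W μ t X)
  have h2 : 0 ≤ ∑ X ∈ S ∩ T, W μ t X := Finset.sum_nonneg fun X _ => W_nonneg h0 t X
  have h3 : ∑ X ∈ S ∪ T, W μ t X + ∑ X ∈ S ∩ T, W μ t X =
      ∑ X ∈ S, W μ t X + ∑ X ∈ T, W μ t X := by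
    convert h1
  linarith

/-- Proof: the terms with `W μ t X ≠ 0` have `rows g X = t` (`W_supp`), so
`pr μ t S = ∑ X ∈ S.filter (fun X => rows g X = t), W μ t X`, and this set is a subset of `T`. -/
theorem pr_le_of {m n : ℕ} {μ : Bool → (Fin n → Bool) → ℝ} {g : (Fin n → Bool) → Bool}
    (h0 : ∀ b x, 0 ≤ μ b x) (hs : ∀ b x, μ b x ≠ 0 → g x = b) {t : Fin m → Bool}
    {S T : Finset (Mat m n)} (h : ∀ X ∈ S, rows g X = t → X ∈ T) : pr μ t S ≤ pr μ t T := by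
  classical
  unfold pr
  rw [← Finset.sum_filter_ne_zero (s := S)]
  refine Finset.sum_le_sum_of_subset_of_nonneg ?_ fun X _ _ => W_nonneg h0 t X
  intro X hX
  rw [Finset.mem_filter] at hX
  exact h X hX.1 (W_supp hs hX.2)

/-- Proof: `∏ i, (μ false (Z i) + μ true (Z i)) / 2 = (∑ t : Fin m → Bool, ∏ i, μ (t i) (Z i)) /
2 ^ m` (`Finset.prod_univ_sum` or `Fintype.sum_pow`-like expansion, `Fintype.piFinset`). -/
theorem mea_nu {m n : ℕ} (μ : Bool → (Fin n → Bool) → ℝ) (S : Finset (Mat m n)) :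
    mea (nu μ) S = (∑ t : Fin m → Bool, pr μ t S) / 2 ^ m := by
  classical
  unfold mea pr W
  rw [Finset.sum_comm, Finset.sum_div]
  refine Finset.sum_congr rfl fun X _ => ?_
  have h1 : ∏ i, (∑ b : Bool, μ b (X i)) = ∑ t : Fin m → Bool, ∏ i, μ (t i) (X i) := by
    rw [Finset.prod_univ_sum, Fintype.piFinset_univ]
  rw [← h1]
  have h2 : ∀ i, nu μ (X i) = (∑ b : Bool, μ b (X i)) / 2 := by
    intro i
    unfold nu
    rw [Fintype.sum_bool, add_comm]
  simp only [h2]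
  rw [Finset.prod_div_distrib, Finset.prod_const, Finset.card_univ, Fintype.card_fin]

end Pool.Agent.H.MP_027d00_lc.SComp
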