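import Pool.Agent.H.MP_027d00_lc.strong.Star

/-!
# The averaged one-dimensional inequality and the reverse Minkowski inequality
-/

set_option autoImplicit false

open Finset

namespace Pool.Agent.H.MP_027d00_lc.SComp

/-- The averaged inequality.

Proof: let `M = card Q`, `H = (∑ x, h x) / M > 0`, `y x = h x / H`, so `∑ x, y x = M`. By `star`
`∑ x, (θ + (1-θ) y x)^(-θ) + ∑ x, (y x)^θ ≤ 2 M`, so by `4 a b ≤ (a + b)^2` the product of
the two sums is at most `M^2`; and `(θ + (1-θ) y x)^(-θ) = H^θ * (θ H + (1-θ) h x)^(-θ)`,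
`(y x)^θ = (h x)^θ * H^(-θ)` (`Real.mul_rpow`, `Real.div_rpow`). -/
theorem one_dim {Q : Type} [Fintype Q] {θ : ℝ} (hθ : 0 < θ) (hθ1 : θ ≤ 1 / 2) (h : Q → ℝ)
    (h0 : ∀ x, 0 ≤ h x) (hpos : ∃ x, 0 < h x) :
    (∑ x, (θ * ((∑ z, h z) / Fintype.card Q) + (1 - θ) * h x) ^ (-θ)) * ∑ x, (h x) ^ θ ≤
      (Fintype.card Q : ℝ) ^ 2 := by
  obtain ⟨x0, hx0⟩ := hpos
  set M : ℝ := (Fintype.card Q : ℝ) with hM
  have hM0 : 0 < M := by
    have : 0 < Fintype.card Q := Fintype.card_pos_iff.2 ⟨x0⟩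
    rw [hM]
    exact Nat.cast_pos.2 this
  have hsum : 0 < ∑ z, h z :=
    Finset.sum_pos' (fun x _ => h0 x) ⟨x0, Finset.mem_univ _, hx0⟩
  set H : ℝ := (∑ z, h z) / M with hH
  have hH0 : 0 < H := div_pos hsum hM0
  set A : ℝ := ∑ x, (θ + (1 - θ) * (h x / H)) ^ (-θ) with hA
  set B : ℝ := ∑ x, (h x / H) ^ θ with hB
  have hy0 : ∀ x, 0 ≤ h x / H := fun x => div_nonneg (h0 x) hH0.le
  have hbase : ∀ x, 0 ≤ θ + (1 - θ) * (h x / H) := fun x => by
    have := hy0 x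
    have h1 : 0 ≤ 1 - θ := by linarith
    positivity
  have hA0 : 0 ≤ A := Finset.sum_nonneg fun x _ => Real.rpow_nonneg (hbase x) _
  have hB0 : 0 ≤ B := Finset.sum_nonneg fun x _ => Real.rpow_nonneg (hy0 x) _
  have hAB : A + B ≤ 2 * M := by
    have h1 : A + B = ∑ x, ((θ + (1 - θ) * (h x / H)) ^ (-θ) + (h x / H) ^ θ) := by
      rw [hA, hB, Finset.sum_add_distrib]
    have h2 : ∑ x, ((θ + (1 - θ) * (h x / H)) ^ (-θ) + (h x / H) ^ θ) ≤
        ∑ x : Q, (2 + θ ^ 2 * (h x / H - 1)) :=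
      Finset.sum_le_sum fun x _ => star hθ hθ1 (hy0 x)
    have h3 : ∑ x : Q, (2 + θ ^ 2 * (h x / H - 1)) = 2 * M := by
      rw [Finset.sum_add_distrib, ← Finset.mul_sum, Finset.sum_sub_distrib, ← Finset.sum_div,
        Finset.sum_const, Finset.sum_const, Finset.card_univ]
      have : (∑ z, h z) / H = M := by
        rw [hH]; field_simp
      rw [this]
      simp only [nsmul_eq_mul, mul_one]
      rw [← hM]; ring
    rw [h1]; linarith
  have hAB2 : A * B ≤ M ^ 2 := by nlinarith [sq_nonneg (A - B)]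
  have e1 : ∑ x, (θ * H + (1 - θ) * h x) ^ (-θ) = H ^ (-θ) * A := by
    rw [hA, Finset.mul_sum]
    refine Finset.sum_congr rfl fun x _ => ?_
    rw [← Real.mul_rpow hH0.le (hbase x)]
    congr 1
    field_simp
  have e2 : ∑ x, (h x) ^ θ = H ^ θ * B := by
    rw [hB, Finset.mul_sum]
    refine Finset.sum_congr rfl fun x _ => ?_
    rw [← Real.mul_rpow hH0.le (hy0 x)]
    congr 1
    field_simp
  rw [e1, e2]
  have e3 : H ^ (-θ) * H ^ θ = 1 := by
    rw [← Real.rpow_add hH0]; simp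
  calc H ^ (-θ) * A * (H ^ θ * B) = (H ^ (-θ) * H ^ θ) * (A * B) := by ring
    _ = A * B := by rw [e3, one_mul]
    _ ≤ M ^ 2 := hAB2

/-- Jensen's inequality for `x ^ (-θ)` on `(0, ∞)`. -/
theorem jensen_neg_rpow {J : Type} [Fintype J] {θ : ℝ} (hθ : 0 < θ) (a r : J → ℝ)
    (ha : ∀ j, 0 ≤ a j) (ha1 : ∑ j, a j = 1) (hr : ∀ j, 0 < r j) :
    (∑ j, a j * r j) ^ (-θ) ≤ ∑ j, a j * (r j) ^ (-θ) := by
  have hlog : ∑ j, a j * Real.log (r j) ≤ Real.log (∑ j, a j * r j) := by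
    have := strictConcaveOn_log_Ioi.concaveOn.le_map_sum (t := Finset.univ) (w := a) (p := r)
      (fun j _ => ha j) ha1 (fun j _ => hr j)
    simpa [smul_eq_mul] using this
  have hpos : 0 < ∑ j, a j * r j := by
    have hne : ∃ j, 0 < a j := by
      by_contra hcon
      push Not at hcon
      have : ∑ j, a j = 0 := Finset.sum_eq_zero fun j _ => le_antisymm (hcon j) (ha j)
      rw [this] at ha1
      exact zero_ne_one ha1
    obtain ⟨j, hj⟩ := hne
    exact Finset.sum_pos' (fun i _ => mul_nonneg (ha i) (hr i).le)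
      ⟨j, Finset.mem_univ _, mul_pos hj (hr j)⟩
  have hexp : Real.exp (∑ j, a j * (-θ * Real.log (r j))) ≤
      ∑ j, a j * Real.exp (-θ * Real.log (r j)) := by
    have := convexOn_exp.map_sum_le (t := Finset.univ) (w := a)
      (p := fun j => -θ * Real.log (r j)) (fun j _ => ha j) ha1 (fun j _ => Set.mem_univ _)
    simpa [smul_eq_mul] using this
  have e1 : (∑ j, a j * r j) ^ (-θ) = Real.exp (-θ * Real.log (∑ j, a j * r j)) := by
    rw [Real.rpow_def_of_pos hpos, mul_comm]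
  have e2 : ∀ j, (r j) ^ (-θ) = Real.exp (-θ * Real.log (r j)) := by
    intro j
    rw [Real.rpow_def_of_pos (hr j), mul_comm]
  rw [e1]
  simp only [e2]
  refine le_trans (Real.exp_le_exp.2 ?_) hexp
  have e3 : ∑ j, a j * (-θ * Real.log (r j)) = -θ * ∑ j, a j * Real.log (r j) := by
    rw [Finset.mul_sum]
    refine Finset.sum_congr rfl fun j _ => ?_
    ring
  rw [e3]
  nlinarith

/-- Superadditivity of the negative moments (reverse Minkowski).

Proof: let `s = ∑ j, w j * h j > 0`. For each `Z`, by convexity of `x ^ (-θ)` on `(0, ∞)` (Jensen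
over the `j` with `w j * h j > 0`, whose weights `w j * h j / s` sum to `1`; the other `j` have
`h j = 0`, so `t j Z = 0`, or `w j = 0`):
`(∑ j, w j * t j Z)^(-θ) = s^(-θ) * (∑ j, (w j h j / s) * (t j Z / h j))^(-θ) ≤
s^(-θ) * ∑ j, (w j h j / s) * (t j Z / h j)^(-θ)`. Sum over `Z` with `∑ Z, (t j Z)^(-θ) ≤
N * (h j)^(-θ)`. -/
theorem rev_minkowski {J Ω : Type} [Fintype J] [Fintype Ω] {θ N : ℝ} (hθ : 0 < θ)
    (w h : J → ℝ) (t : J → Ω → ℝ) (hw : ∀ j, 0 ≤ w j) (hh : ∀ j, 0 ≤ h j)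
    (ht : ∀ j, 0 < h j → ∀ Z, 0 < t j Z) (ht0 : ∀ j, h j = 0 → ∀ Z, t j Z = 0)
    (hN : ∀ j, 0 < h j → ∑ Z, (t j Z) ^ (-θ) ≤ N * (h j) ^ (-θ))
    (hs : 0 < ∑ j, w j * h j) :
    ∑ Z, (∑ j, w j * t j Z) ^ (-θ) ≤ N * (∑ j, w j * h j) ^ (-θ) := by
  classical
  set s : ℝ := ∑ j, w j * h j with hsdef
  set a : J → ℝ := fun j => w j * h j / s with ha
  set r : Ω → J → ℝ := fun Z j => if h j = 0 then 1 else t j Z / h j with hr
  have ha0 : ∀ j, 0 ≤ a j := fun j => div_nonneg (mul_nonneg (hw j) (hh j)) hs.le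
  have ha1 : ∑ j, a j = 1 := by
    rw [ha, ← Finset.sum_div, ← hsdef, div_self hs.ne']
  have hr0 : ∀ Z j, 0 < r Z j := by
    intro Z j
    rw [hr]
    dsimp only
    split_ifs with hj
    · exact one_pos
    · have hj' : 0 < h j := lt_of_le_of_ne (hh j) (Ne.symm hj)
      exact div_pos (ht j hj' Z) hj'
  have key : ∀ Z, (∑ j, w j * t j Z) = s * ∑ j, a j * r Z j := by
    intro Z
    rw [Finset.mul_sum]
    refine Finset.sum_congr rfl fun j _ => ?_
    rw [ha, hr]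
    dsimp only
    split_ifs with hj
    · rw [ht0 j hj Z, hj]; simp
    · field_simp
  have hsum0 : ∀ Z, 0 ≤ ∑ j, a j * r Z j := fun Z =>
    Finset.sum_nonneg fun j _ => mul_nonneg (ha0 j) (hr0 Z j).le
  have step : ∀ Z, (∑ j, w j * t j Z) ^ (-θ) ≤ s ^ (-θ) * ∑ j, a j * (r Z j) ^ (-θ) := by
    intro Z
    rw [key Z, Real.mul_rpow hs.le (hsum0 Z)]
    exact mul_le_mul_of_nonneg_left (jensen_neg_rpow hθ a (r Z) ha0 ha1 (hr0 Z))
      (Real.rpow_nonneg hs.le _)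
  have hcol : ∀ j, a j * ∑ Z, (r Z j) ^ (-θ) ≤ a j * N := by
    intro j
    by_cases hj : h j = 0
    · have : a j = 0 := by rw [ha]; simp [hj]
      rw [this]; simp
    · have hj' : 0 < h j := lt_of_le_of_ne (hh j) (Ne.symm hj)
      refine mul_le_mul_of_nonneg_left ?_ (ha0 j)
      have e1 : ∀ Z, (r Z j) ^ (-θ) = (t j Z) ^ (-θ) * (h j) ^ θ := by
        intro Z
        rw [hr]
        dsimp only
        rw [if_neg hj, Real.div_rpow (ht j hj' Z).le hj'.le, Real.rpow_neg hj'.le, div_inv_eq_mul]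
      simp only [e1]
      rw [← Finset.sum_mul]
      have e2 : N * (h j) ^ (-θ) * (h j) ^ θ = N := by
        rw [mul_assoc, ← Real.rpow_add hj']; simp
      calc (∑ Z, (t j Z) ^ (-θ)) * (h j) ^ θ ≤ N * (h j) ^ (-θ) * (h j) ^ θ :=
            mul_le_mul_of_nonneg_right (hN j hj') (Real.rpow_nonneg hj'.le _)
        _ = N := e2
  calc ∑ Z, (∑ j, w j * t j Z) ^ (-θ) ≤ ∑ Z, s ^ (-θ) * ∑ j, a j * (r Z j) ^ (-θ) :=
        Finset.sum_le_sum fun Z _ => step Z
    _ = s ^ (-θ) * ∑ j, a j * ∑ Z, (r Z j) ^ (-θ) := by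
        rw [← Finset.mul_sum, Finset.sum_comm]
        congr 1
        refine Finset.sum_congr rfl fun j _ => ?_
        rw [Finset.mul_sum]
    _ ≤ s ^ (-θ) * ∑ j, a j * N := by
        refine mul_le_mul_of_nonneg_left ?_ (Real.rpow_nonneg hs.le _)
        exact Finset.sum_le_sum fun j _ => hcol j
    _ = N * s ^ (-θ) := by
        rw [← Finset.sum_mul, ha1, one_mul, mul_comm]

end Pool.Agent.H.MP_027d00_lc.SComp
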