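import Mathlib

/-!
# The value of the race
-/

set_option autoImplicit false

namespace Pool.Agent.H.MP_027d00_lc.SComp

/-- The value after `t` steps, as a function of `P x`, `M x` and `c`. -/
noncomputable def raceV (P M c : ℝ) : ℕ → ℝ
  | 0 => 0
  | t + 1 => P / 2 + (1 - (P + M + c) / 2) * raceV P M c t

private theorem RaceV_nonneg {P M c : ℝ} (hP : 0 ≤ P) (hD : P + M + c ≤ 2) (t : ℕ) :
    0 ≤ raceV P M c t := by
  induction t with
  | zero => exact le_rfl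
  | succ t ih =>
    have h1 : 0 ≤ 1 - (P + M + c) / 2 := by linarith
    have h2 := mul_nonneg h1 ih
    show 0 ≤ P / 2 + (1 - (P + M + c) / 2) * raceV P M c t
    linarith

private theorem RaceV_mul_le {P M c : ℝ} (hP : 0 ≤ P) (hD : P + M + c ≤ 2) (t : ℕ) :
    (P + M + c) * raceV P M c t ≤ P := by
  induction t with
  | zero =>
    show (P + M + c) * 0 ≤ P
    rw [mul_zero]
    exact hP
  | succ t ih =>
    have h1 : 0 ≤ 1 - (P + M + c) / 2 := by linarith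
    have h2 := mul_le_mul_of_nonneg_left ih h1
    show (P + M + c) * (P / 2 + (1 - (P + M + c) / 2) * raceV P M c t) ≤ P
    nlinarith

private theorem RaceV_closed {P M c : ℝ} (hD : 0 < P + M + c) (t : ℕ) :
    raceV P M c t = P / (P + M + c) * (1 - (1 - (P + M + c) / 2) ^ t) := by
  induction t with
  | zero =>
    show (0 : ℝ) = _
    rw [pow_zero, sub_self, mul_zero]
  | succ t ih =>
    show P / 2 + (1 - (P + M + c) / 2) * raceV P M c t = _
    rw [ih, pow_succ]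
    field_simp
    ring

private theorem RaceV_zero {M c : ℝ} (t : ℕ) : raceV 0 M c t = 0 := by
  induction t with
  | zero => rfl
  | succ t ih =>
    show (0 : ℝ) / 2 + (1 - (0 + M + c) / 2) * raceV 0 M c t = 0
    rw [ih]
    ring

/-- The value on an accepted input. Proof: let `D = P + M + c`, `0 < D ≤ 2`. By induction
`raceV P M c t = (P / D) * (1 - (1 - D / 2) ^ t)`. Since `P ≤ D` and `0 ≤ 1 - D / 2 ≤ 1 - P / 2 ≤
exp (- P / 2)`, we get `raceV ≥ P / D - exp (- t * P / 2)` (`Real.exp_nat_mul`,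
`Real.add_one_le_exp`). Now `M + c ≤ (1 - ε / 2) * P`: indeed `M ≤ (1 - ε / 2) * ((1 + ε) * M)` as
`(1 - ε / 2) * (1 + ε) ≥ 1`, and `c = (1 - ε / 2) * c'`. So `D ≤ (2 - ε / 2) * P` and
`P / D ≥ 1 / (2 - ε / 2) ≥ 1 / 2 + ε / 8`. Finally `P ≥ τ / 2`. -/
theorem raceV_ge {P M c c' ε τ : ℝ} (hM : 0 ≤ M) (hPM : P + M ≤ 1) (hc' : 0 ≤ c')
    (hε : 0 < ε) (hε1 : ε ≤ 1 / 2) (hτ : 0 < τ) (hc : c = c' * (1 - ε / 2)) (hc1 : c ≤ 1)
    (h : (1 + ε) * M + c' + τ / 2 ≤ P) (t : ℕ) :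
    1 / 2 + ε / 8 - Real.exp (-(t * τ / 4)) ≤ raceV P M c t := by
  have hεM : 0 ≤ ε * M := mul_nonneg hε.le hM
  have hPτ : τ / 2 ≤ P := by nlinarith
  have hP : 0 < P := by linarith
  have hc0 : 0 ≤ c := by
    rw [hc]
    exact mul_nonneg hc' (by linarith)
  have hD0 : 0 < P + M + c := by linarith
  have hD2 : P + M + c ≤ 2 := by linarith
  rw [RaceV_closed hD0]
  -- the main term
  have hMle : M ≤ (1 - ε / 2) * ((1 + ε) * M) := by nlinarith [mul_nonneg hεM (by linarith : 0 ≤ 1 - ε)]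
  have hsum : M + c ≤ (1 - ε / 2) * P := by
    have h1 : (1 - ε / 2) * ((1 + ε) * M + c') ≤ (1 - ε / 2) * P :=
      mul_le_mul_of_nonneg_left (by linarith) (by linarith)
    rw [hc]
    nlinarith
  have hmain : 1 / 2 + ε / 8 ≤ P / (P + M + c) := by
    rw [le_div_iff₀ hD0]
    have h1 : P + M + c ≤ (2 - ε / 2) * P := by linarith
    have h2 := mul_le_mul_of_nonneg_left h1 (by linarith : (0:ℝ) ≤ 1 / 2 + ε / 8)
    nlinarith [mul_nonneg (mul_nonneg hε.le hε.le) hP.le]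
  -- the error term
  have hq0 : 0 ≤ 1 - (P + M + c) / 2 := by linarith
  have hq1 : 1 - (P + M + c) / 2 ≤ Real.exp (-(τ / 4)) := by
    have h1 := Real.add_one_le_exp (-(τ / 4))
    linarith
  have hpow : (1 - (P + M + c) / 2) ^ t ≤ Real.exp (-(t * τ / 4)) := by
    refine (pow_le_pow_left₀ hq0 hq1 t).trans (le_of_eq ?_)
    rw [← Real.exp_nat_mul]
    congr 1
    ring
  have hr1 : P / (P + M + c) ≤ 1 := by
    rw [div_le_one hD0]
    linarith
  have hr0 : 0 ≤ P / (P + M + c) := div_nonneg hP.le hD0.le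
  have hpow0 : 0 ≤ (1 - (P + M + c) / 2) ^ t := pow_nonneg hq0 t
  have h3 : P / (P + M + c) * (1 - (P + M + c) / 2) ^ t ≤ 1 * Real.exp (-(t * τ / 4)) :=
    mul_le_mul hr1 hpow hpow0 zero_le_one
  rw [mul_sub, mul_one]
  linarith

/-- The value on a rejected input. Proof: with `D = P + M + c` (`0 ≤ D ≤ 2`), by induction
`D * raceV P M c t ≤ P` and `0 ≤ raceV P M c t` (and `raceV P M c t = 0` if `P = 0`). If `P > 0`:
`D ≥ (2 + ε / 4) * P`, by cases. If `c' - τ / 2 ≤ (1 + ε) * P` then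
`D ≥ P + ((1 + ε) * P - c' + τ / 2) + c' * (1 - ε / 2) = (2 + ε) * P + τ / 2 - c' * ε / 2` and
`c' ≤ (1 + ε) * P + τ / 2`, so `D ≥ (2 + ε - ε / 2 * (1 + ε)) * P ≥ (2 + ε / 4) * P`. Otherwise
`c' > (1 + ε) * P`, so `D ≥ P + c' * (1 - ε / 2) ≥ (1 + (1 + ε) * (1 - ε / 2)) * P`. So
`raceV P M c t ≤ 1 / (2 + ε / 4) ≤ 1 / 2 - ε / 18`. -/
theorem raceV_le {P M c c' ε τ : ℝ} (hP : 0 ≤ P) (hM : 0 ≤ M) (hPM : P + M ≤ 1) (hc' : 0 ≤ c')
    (hε : 0 < ε) (hε1 : ε ≤ 1 / 2) (hτ : 0 < τ) (hc : c = c' * (1 - ε / 2)) (hc1 : c ≤ 1)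
    (h : (1 + ε) * P ≤ M + c' - τ / 2) (t : ℕ) :
    raceV P M c t ≤ 1 / 2 - ε / 18 := by
  rcases hP.eq_or_lt with hP0 | hP0
  · rw [← hP0, RaceV_zero]
    linarith
  have hD2 : P + M + c ≤ 2 := by linarith
  have hv0 := RaceV_nonneg (M := M) hP hD2 t
  have hv1 := RaceV_mul_le (M := M) hP hD2 t
  have hε2 : ε * ε ≤ ε * (1 / 2) := mul_le_mul_of_nonneg_left hε1 hε.le
  have hεP : 0 ≤ P * (ε * (1 / 2) - ε * ε) := mul_nonneg hP (by linarith)
  have hD : (2 + ε / 4) * P ≤ P + M + c := by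
    rcases le_or_gt (c' - τ / 2) ((1 + ε) * P) with h1 | h1
    · have h2 : c' * (ε / 2) ≤ ((1 + ε) * P + τ / 2) * (ε / 2) :=
        mul_le_mul_of_nonneg_right (by linarith) (by linarith)
      have h3 : 0 ≤ τ * (1 - ε / 2) := mul_nonneg hτ.le (by linarith)
      rw [hc]
      nlinarith
    · have h2 : (1 + ε) * P * (1 - ε / 2) ≤ c' * (1 - ε / 2) :=
        mul_le_mul_of_nonneg_right (by linarith) (by linarith)
      rw [hc]
      nlinarith
  have h4 : (2 + ε / 4) * P * raceV P M c t ≤ P :=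
    (mul_le_mul_of_nonneg_right hD hv0).trans hv1
  have h5 : (2 + ε / 4) * raceV P M c t ≤ 1 := by
    have h6 : P * ((2 + ε / 4) * raceV P M c t) ≤ P * 1 := by linarith
    exact le_of_mul_le_mul_left h6 hP0
  have h7 : 1 ≤ (2 + ε / 4) * (1 / 2 - ε / 18) := by nlinarith
  have h8 : (2 + ε / 4) * raceV P M c t ≤ (2 + ε / 4) * (1 / 2 - ε / 18) := h5.trans h7
  exact le_of_mul_le_mul_left h8 (by linarith)

end Pool.Agent.H.MP_027d00_lc.SComp
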