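import Pool.Agent.H.MP_027d00_lc.ucomp.Amp
import Pool.Agent.H.MP_027d00_lc.strong.RaceV

/-!
# Amplification by a race
-/

set_option autoImplicit false

open Finset

namespace Pool.Agent.H.MP_027d00_lc.SComp

open UComp

/-- A convex combination of functions of formula size at most `s`, each of which has a sign; `P` is
the part with the sign `true` and `M` is the part with the sign `false`. -/
def Rnd2 {V : Type} (s : ℕ) (P M : (V → Bool) → ℝ) : Prop :=
  ∃ (ι : Type) (_ : Fintype ι) (q : ι → ℝ) (f : ι → (V → Bool) → Bool) (c : ι → Bool),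
    (∀ i, 0 ≤ q i) ∧ ∑ i, q i = 1 ∧ (∀ i, Comp s (f i)) ∧
      (∀ x, P x = ∑ i, q i * (if c i = true then ind (f i x) else 0)) ∧
      ∀ x, M x = ∑ i, q i * (if c i = true then 0 else ind (f i x))

/-- Proof: negate the signs. -/
theorem Rnd2.swap {V : Type} {s : ℕ} {P M : (V → Bool) → ℝ} (h : Rnd2 s P M) : Rnd2 s M P := by
  obtain ⟨ι, _, q, f, c, hq, hs, hf, hP, hM⟩ := h
  refine ⟨ι, inferInstance, q, f, fun i => !(c i), hq, hs, hf, fun x => ?_, fun x => ?_⟩
  · rw [hM x]
    refine Finset.sum_congr rfl fun i _ => ?_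
    cases hci : c i <;> simp [hci]
  · rw [hP x]
    refine Finset.sum_congr rfl fun i _ => ?_
    cases hci : c i <;> simp [hci]

/-- Proof: `ind` takes values in `[0, 1]` and `P x + M x = ∑ i, q i * ind (f i x) ≤ ∑ i, q i`. -/
theorem Rnd2.mem {V : Type} {s : ℕ} {P M : (V → Bool) → ℝ} (h : Rnd2 s P M) (x : V → Bool) :
    0 ≤ P x ∧ 0 ≤ M x ∧ P x + M x ≤ 1 := by
  obtain ⟨ι, _, q, f, c, hq, hs, hf, hP, hM⟩ := h
  rw [hP x, hM x]
  refine ⟨Finset.sum_nonneg fun i _ => ?_, Finset.sum_nonneg fun i _ => ?_, ?_⟩
  · refine mul_nonneg (hq i) ?_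
    split_ifs
    · exact ind_nonneg _
    · exact le_rfl
  · refine mul_nonneg (hq i) ?_
    split_ifs
    · exact le_rfl
    · exact ind_nonneg _
  · rw [← Finset.sum_add_distrib, ← hs]
    refine Finset.sum_le_sum fun i _ => ?_
    have h1 := mul_le_mul_of_nonneg_left (ind_le_one (f i x)) (hq i)
    split_ifs <;> linarith

private theorem ind_andNot (a b : Bool) : ind (!a && b) = (1 - ind a) * ind b := by
  cases a <;> cases b <;> simp [ind]

/-- One step of the race: with the probability `q i / 2` the function `f i` is taken; if its sign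
is `true`, the answer is `f i x || A x`, otherwise it is `!(f i x) && A x`; with the probability
`c / 2` the answer is `false`; with the probability `(1 - c) / 2` the answer is `A x`.

Proof: let `ι, q, f, sg` be from `h` and `ι', p', f'` from `hA : Rnd t A`. Use the index type
`(ι × ι') ⊕ (Unit ⊕ ι')` with the weights `q i * p' j / 2`, `c / 2`, `(1 - c) * p' j / 2` and the
functions `if sg i then f i x || f' j x else !(f i x) && f' j x`, `false`, `f' j x`. Their sizes
are at most `s + t`. The value is computed with `ind (a || b) = ind a + ind b - ind a * ind b`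
(`UComp.ind_or`), `ind (!a && b) = (1 - ind a) * ind b`. -/
theorem Rnd2.step {V : Type} {s t : ℕ} {P M A : (V → Bool) → ℝ} (h : Rnd2 s P M) (hA : Rnd t A)
    {c : ℝ} (hc : 0 ≤ c) (hc1 : c ≤ 1) :
    Rnd (s + t) (fun x => P x / 2 + (1 - (P x + M x + c) / 2) * A x) := by
  obtain ⟨ι, _, q, f, sg, hq, hs, hf, hP, hM⟩ := h
  obtain ⟨ι', _, p', f', hp', hs', hf', hA'⟩ := hA
  refine ⟨(ι × ι') ⊕ (Unit ⊕ ι'), inferInstance,
    Sum.elim (fun i => q i.1 * p' i.2 / 2) (Sum.elim (fun _ => c / 2) fun j => (1 - c) * p' j / 2),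
    Sum.elim (fun i x => if sg i.1 = true then f i.1 x || f' i.2 x else !(f i.1 x) && f' i.2 x)
      (Sum.elim (fun _ _ => false) f'), ?_, ?_, ?_, ?_⟩
  · rintro (⟨i, j⟩ | _ | j)
    · have := mul_nonneg (hq i) (hp' j)
      simp only [Sum.elim_inl]
      linarith
    · simp only [Sum.elim_inl, Sum.elim_inr]
      linarith
    · have := mul_nonneg (sub_nonneg.2 hc1) (hp' j)
      simp only [Sum.elim_inr]
      linarith
  · rw [Fintype.sum_sum_type, Fintype.sum_sum_type, Fintype.sum_prod_type]
    simp only [Sum.elim_inl, Sum.elim_inr, Finset.univ_unique, Finset.sum_singleton]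
    have h1 : ∀ i : ι, ∑ j : ι', q i * p' j / 2 = q i / 2 := by
      intro i
      rw [← Finset.sum_div, ← Finset.mul_sum, hs', mul_one]
    rw [Finset.sum_congr rfl (fun i _ => h1 i), ← Finset.sum_div, hs, ← Finset.sum_div,
      ← Finset.mul_sum, hs']
    ring
  · rintro (⟨i, j⟩ | _ | j)
    · simp only [Sum.elim_inl]
      split_ifs
      · exact (hf i).or (hf' j)
      · exact (hf i).not.and (hf' j)
    · exact Comp.const _ false
    · exact (hf' j).mono (Nat.le_add_left _ _)
  · intro x
    rw [Fintype.sum_sum_type, Fintype.sum_sum_type, Fintype.sum_prod_type]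
    simp only [Sum.elim_inl, Sum.elim_inr, Finset.univ_unique, Finset.sum_singleton]
    have h1 : ∀ i : ι, ∑ j : ι', q i * p' j / 2 *
        ind (if sg i = true then f i x || f' j x else !(f i x) && f' j x) =
        q i * (if sg i = true then ind (f i x) else 0) / 2 +
          (q i / 2 - q i * (if sg i = true then ind (f i x) else 0) / 2 -
            q i * (if sg i = true then 0 else ind (f i x)) / 2) * A x := by
      intro i
      have h2 : ∀ j : ι', q i * p' j / 2 *
          ind (if sg i = true then f i x || f' j x else !(f i x) && f' j x) =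
          q i * (if sg i = true then ind (f i x) else 0) / 2 * p' j +
          (q i / 2 - q i * (if sg i = true then ind (f i x) else 0) / 2 -
            q i * (if sg i = true then 0 else ind (f i x)) / 2) * (p' j * ind (f' j x)) := by
        intro j
        split_ifs
        · rw [ind_or]
          ring
        · rw [ind_andNot]
          ring
      rw [Finset.sum_congr rfl (fun j _ => h2 j), Finset.sum_add_distrib, ← Finset.mul_sum,
        ← Finset.mul_sum, hs', ← hA' x, mul_one]
    have h3 : ∀ j : ι', (1 - c) * p' j / 2 * ind (f' j x) =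
        (1 - c) / 2 * (p' j * ind (f' j x)) := fun j => by ring
    rw [Finset.sum_congr rfl (fun i _ => h1 i), Finset.sum_add_distrib, ← Finset.sum_mul,
      Finset.sum_sub_distrib, Finset.sum_sub_distrib, ← Finset.sum_div, ← Finset.sum_div,
      ← Finset.sum_div, hs, ← hP x, ← hM x, Finset.sum_congr rfl (fun j _ => h3 j),
      ← Finset.mul_sum, ← hA' x, ind_false]
    ring

/-- Proof: induction on `t` with `Rnd2.step`; at the start the constant function `false`
(`ind false = 0`). -/
theorem Rnd2.race {V : Type} {s : ℕ} {P M : (V → Bool) → ℝ} (h : Rnd2 s P M) {c : ℝ}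
    (hc : 0 ≤ c) (hc1 : c ≤ 1) (t : ℕ) : Rnd (t * s) (fun x => raceV (P x) (M x) c t) := by
  induction t with
  | zero =>
    refine ⟨Unit, inferInstance, fun _ => 1, fun _ _ => false, fun _ => zero_le_one, by simp,
      fun _ => Comp.const _ false, fun x => by simp [ind, raceV]⟩
  | succ t ih =>
    have h1 := h.step ih hc hc1
    have e : (fun x => raceV (P x) (M x) c (t + 1)) =
        fun x => P x / 2 + (1 - (P x + M x + c) / 2) * raceV (P x) (M x) c t := by
      funext x
      rfl
    rw [e]
    exact h1.mono (by rw [add_mul, one_mul, add_comm])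

end Pool.Agent.H.MP_027d00_lc.SComp
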