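import Mathlib

/-!
# The one-dimensional reverse hypercontractive inequality
-/

set_option autoImplicit false

open Finset

namespace Pool.Agent.H.MP_027d00_lc.SComp

theorem star_log_le {u : ℝ} (hu : 1 ≤ u) : Real.log u ≤ (u - u⁻¹) / 2 := by
  have h1 := Real.self_le_sinh_iff.2 (Real.log_nonneg hu)
  rwa [Real.sinh_log (by linarith)] at h1

/-- the numerical inequality -/
theorem star_num {θ : ℝ} (hθ : 0 < θ) (hθ1 : θ ≤ 1 / 2) :
    0 ≤ (2 + θ) * Real.log (1 + θ / 2) - (2 - θ) * Real.log (1 - θ / 2) +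
      (1 - θ) * Real.log (1 - θ) - Real.log (1 + θ) := by
  have h1 : θ + θ ^ 2 / 4 - θ ^ 3 / 16 ≤ (2 + θ) * Real.log (1 + θ / 2) := by
    have h := Real.le_log_one_add_of_nonneg (show 0 ≤ θ / 2 by linarith)
    have h2 : (2 + θ) * (2 * (θ / 2) / (θ / 2 + 2)) ≤ (2 + θ) * Real.log (1 + θ / 2) :=
      mul_le_mul_of_nonneg_left h (by linarith)
    refine le_trans ?_ h2
    have h3 : (2 + θ) * (2 * (θ / 2) / (θ / 2 + 2)) = (2 + θ) * (2 * θ) / (θ + 4) := by
      have h4 : θ / 2 + 2 = (θ + 4) / 2 := by ring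
      rw [h4]
      have h5 : θ + 4 ≠ 0 := by linarith
      field_simp
    rw [h3, le_div_iff₀ (by linarith)]
    nlinarith [pow_pos hθ 2, pow_pos hθ 3, pow_pos hθ 4]
  have h2 : θ - θ ^ 2 / 2 ≤ -((2 - θ) * Real.log (1 - θ / 2)) := by
    have h := Real.log_le_sub_one_of_pos (show 0 < 1 - θ / 2 by linarith)
    nlinarith
  have h3 : -θ + θ ^ 2 / 2 ≤ (1 - θ) * Real.log (1 - θ) := by
    have h0 : 0 < 1 - θ := by linarith
    have h := star_log_le (u := (1 - θ)⁻¹) (by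
      rw [one_le_inv₀ h0]
      linarith)
    rw [Real.log_inv, inv_inv] at h
    have h4 : (1 - θ) * (-Real.log (1 - θ)) ≤ (1 - θ) * (((1 - θ)⁻¹ - (1 - θ)) / 2) :=
      mul_le_mul_of_nonneg_left h h0.le
    have h5 : (1 - θ) * (((1 - θ)⁻¹ - (1 - θ)) / 2) = θ - θ ^ 2 / 2 := by
      field_simp
      ring
    linarith
  have h4 : -θ + θ ^ 2 / 3 ≤ -Real.log (1 + θ) := by
    have h := star_log_le (u := 1 + θ) (by linarith)
    have h5 : (1 + θ - (1 + θ)⁻¹) / 2 ≤ θ - θ ^ 2 / 3 := by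
      have h6 : (1 + θ - (1 + θ)⁻¹) / 2 = (2 * θ + θ ^ 2) / (2 * (1 + θ)) := by
        field_simp
        ring
      rw [h6, div_le_iff₀ (by linarith)]
      nlinarith [pow_pos hθ 2, pow_pos hθ 3]
    linarith
  nlinarith [pow_pos hθ 2, pow_pos hθ 3]

/-- the inequality for the second derivative, in logarithmic form -/
theorem star_log {θ y : ℝ} (hθ : 0 < θ) (hθ1 : θ ≤ 1 / 2) (hy : 0 < y) :
    Real.log (1 - θ) + Real.log (1 + θ) + (2 - θ) * Real.log y ≤
      (2 + θ) * Real.log (θ + (1 - θ) * y) := by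
  have hw0 : 0 < 2 + θ := by linarith
  have h2 : 0 < 2 - θ := by linarith
  have h3 : 0 < 1 - θ := by linarith
  have hp1 : 0 < 1 + θ / 2 := by linarith
  have hp3 : 0 < 1 - θ / 2 := by linarith
  have hp2 : 0 < (1 - θ) * (1 + θ / 2) / (1 - θ / 2) * y := by positivity
  have h := Real.geom_mean_le_arith_mean2_weighted (w₁ := 2 * θ / (2 + θ))
    (w₂ := (2 - θ) / (2 + θ)) (p₁ := 1 + θ / 2)
    (p₂ := (1 - θ) * (1 + θ / 2) / (1 - θ / 2) * y) (by positivity) (by positivity) hp1.le hp2.le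
    (by field_simp; ring)
  have e : 2 * θ / (2 + θ) * (1 + θ / 2) +
      (2 - θ) / (2 + θ) * ((1 - θ) * (1 + θ / 2) / (1 - θ / 2) * y) = θ + (1 - θ) * y := by
    field_simp
  rw [e] at h
  have h4 := Real.log_le_log (by positivity) h
  rw [Real.log_mul (by positivity) (by positivity), Real.log_rpow hp1, Real.log_rpow hp2,
    Real.log_mul (by positivity) hy.ne', Real.log_div (by positivity) hp3.ne',
    Real.log_mul h3.ne' hp1.ne'] at h4
  have h5 := mul_le_mul_of_nonneg_left h4 hw0.le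
  have h6 := star_num hθ hθ1
  have e2 : (2 + θ) * (2 * θ / (2 + θ) * Real.log (1 + θ / 2) +
      (2 - θ) / (2 + θ) * (Real.log (1 - θ) + Real.log (1 + θ / 2) - Real.log (1 - θ / 2) +
        Real.log y)) = 2 * θ * Real.log (1 + θ / 2) +
      (2 - θ) * (Real.log (1 - θ) + Real.log (1 + θ / 2) - Real.log (1 - θ / 2) +
        Real.log y) := by
    field_simp
  rw [e2] at h5
  refine le_trans ?_ h5
  nlinarith

/-- the inequality for the second derivative -/
theorem star_snd {θ y : ℝ} (hθ : 0 < θ) (hθ1 : θ ≤ 1 / 2) (hy : 0 < y) :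
    0 ≤ θ * (1 - θ) * y ^ (θ - 2) -
      θ * (1 - θ) ^ 2 * (1 + θ) * (θ + (1 - θ) * y) ^ (-θ - 2) := by
  have h3 : 0 < 1 - θ := by linarith
  have hz : 0 < θ + (1 - θ) * y := by positivity
  have h := star_log hθ hθ1 hy
  have h1 : (1 - θ) * (1 + θ) * (θ + (1 - θ) * y) ^ (-θ - 2) ≤ y ^ (θ - 2) := by
    rw [← Real.log_le_log_iff (by positivity) (by positivity),
      Real.log_mul (by positivity) (by positivity), Real.log_mul h3.ne' (by positivity),
      Real.log_rpow hz, Real.log_rpow hy]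
    nlinarith
  have h2 := mul_le_mul_of_nonneg_left h1 (show 0 ≤ θ * (1 - θ) by positivity)
  nlinarith

/-- The tangent line inequality.

Proof: `F y = 2 + θ^2 (y - 1) - y^θ - (θ + (1-θ) y)^(-θ)` satisfies `F 1 = 0`, `F' 1 = 0` and
`F'' y = θ (1-θ) (y^(θ-2) - (1+θ)(1-θ) (θ + (1-θ) y)^(-θ-2))` for `y > 0`, and `F'' ≥ 0`, i.e.
`(1 - θ^2) y^(2-θ) ≤ (θ + (1-θ) y)^(2+θ)` for `y > 0`. So `F'` is increasing, so `F` decreases on
`(0, 1]` and increases on `[1, ∞)` (and `F` is continuous at `0`), so `F ≥ 0`.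

The inequality for `F''`: take logarithms. By weighted AM-GM (concavity of `log`) with the weights
`w = 2θ/(2+θ)` and `1 - w = (2-θ)/(2+θ)`,
`log (θ + (1-θ) y) ≥ w log (θ/w) + (1-w) log ((1-θ) y/(1-w))`, `θ/w = 1 + θ/2`,
`(1-θ)/(1-w) = (1-θ)(1+θ/2)/(1-θ/2)`. So it is enough that
`(2+θ) log (1+θ/2) - (2-θ) log (1-θ/2) + (1-θ) log (1-θ) - log (1+θ) ≥ 0`; with
`(1+x) log (1+x) ≥ x + x^2/2 - x^3/6`, `- (1-x) log (1-x) ≥ x - x^2/2 - x^3/2` (both for `x = θ/2`,
doubled), `(1-θ) log (1-θ) ≥ -θ + θ^2/2`, `- log (1+θ) ≥ -θ + θ^2/2 - θ^3/3` the sum is at least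
`θ^2 - θ^3/2 ≥ 0`. -/
theorem star {θ y : ℝ} (hθ : 0 < θ) (hθ1 : θ ≤ 1 / 2) (hy : 0 ≤ y) :
    (θ + (1 - θ) * y) ^ (-θ) + y ^ θ ≤ 2 + θ ^ 2 * (y - 1) := by
  have h3 : 0 < 1 - θ := by linarith
  set F : ℝ → ℝ := fun y => 2 + θ ^ 2 * (y - 1) - y ^ θ - (θ + (1 - θ) * y) ^ (-θ) with hF
  set F₁ : ℝ → ℝ := fun y => θ ^ 2 - θ * y ^ (θ - 1) +
    θ * (1 - θ) * (θ + (1 - θ) * y) ^ (-θ - 1) with hF₁
  have hlin : ∀ x : ℝ, HasDerivAt (fun y => θ + (1 - θ) * y) (1 - θ) x := fun x => by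
    simpa using ((hasDerivAt_id x).const_mul (1 - θ)).const_add θ
  have hz : ∀ x : ℝ, 0 ≤ x → 0 < θ + (1 - θ) * x := fun x hx => by positivity
  have hd1 : ∀ x : ℝ, 0 < x → HasDerivAt F (F₁ x) x := by
    intro x hx
    have a1 : HasDerivAt (fun y : ℝ => 2 + θ ^ 2 * (y - 1)) (θ ^ 2) x := by
      simpa using (((hasDerivAt_id x).sub_const 1).const_mul (θ ^ 2)).const_add 2
    have a2 : HasDerivAt (fun y : ℝ => y ^ θ) (θ * x ^ (θ - 1)) x :=
      Real.hasDerivAt_rpow_const (Or.inl hx.ne')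
    have a3 := (hlin x).rpow_const (p := -θ) (Or.inl (hz x hx.le).ne')
    have a4 := (a1.sub a2).sub a3
    refine a4.congr_deriv ?_
    rw [hF₁]
    ring
  have hd2 : ∀ x : ℝ, 0 < x → HasDerivAt F₁ (θ * (1 - θ) * x ^ (θ - 2) -
      θ * (1 - θ) ^ 2 * (1 + θ) * (θ + (1 - θ) * x) ^ (-θ - 2)) x := by
    intro x hx
    have a2 : HasDerivAt (fun y : ℝ => y ^ (θ - 1)) ((θ - 1) * x ^ (θ - 1 - 1)) x :=
      Real.hasDerivAt_rpow_const (Or.inl hx.ne')
    have a3 := (hlin x).rpow_const (p := -θ - 1) (Or.inl (hz x hx.le).ne')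
    have a4 := ((a2.const_mul θ).const_sub (θ ^ 2)).add (a3.const_mul (θ * (1 - θ)))
    refine a4.congr_deriv ?_
    have e1 : θ - 1 - 1 = θ - 2 := by ring
    have e2 : -θ - 1 - 1 = -θ - 2 := by ring
    rw [e1, e2]
    ring
  have hconv : ConvexOn ℝ (Set.Ici 0) F := by
    refine convexOn_of_hasDerivWithinAt2_nonneg (convex_Ici 0) (f' := F₁)
      (f'' := fun x => θ * (1 - θ) * x ^ (θ - 2) -
      θ * (1 - θ) ^ 2 * (1 + θ) * (θ + (1 - θ) * x) ^ (-θ - 2)) ?_ ?_ ?_ ?_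
    · rw [hF]
      refine ContinuousOn.sub (ContinuousOn.sub (by fun_prop) ?_) ?_
      · exact (Real.continuous_rpow_const hθ.le).continuousOn
      · refine ContinuousOn.rpow_const (by fun_prop) (fun x hx => Or.inl (hz x hx).ne')
    · intro x hx
      rw [interior_Ici] at hx
      exact (hd1 x hx).hasDerivWithinAt
    · intro x hx
      rw [interior_Ici] at hx
      exact (hd2 x hx).hasDerivWithinAt
    · intro x hx
      rw [interior_Ici] at hx
      exact star_snd hθ hθ1 hx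
  have hF1 : F 1 = 0 := by
    rw [hF]
    simp
    norm_num
  have hd10 : HasDerivAt F 0 1 := by
    have h := hd1 1 one_pos
    have e : F₁ 1 = 0 := by
      rw [hF₁]
      simp
      ring
    rwa [e] at h
  have hmain : 0 ≤ F y := by
    rcases lt_trichotomy y 1 with h | h | h
    · have h1 := hconv.slope_le_of_hasDerivAt (x := y) (y := 1) hy (by norm_num) h hd10
      rw [slope_def_field, hF1, div_le_iff₀ (by linarith)] at h1
      linarith
    · rw [h, hF1]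
    · have h1 := hconv.le_slope_of_hasDerivAt (x := 1) (y := y) (by norm_num) hy h hd10
      rw [slope_def_field, hF1, le_div_iff₀ (by linarith)] at h1
      linarith
  have : F y = 2 + θ ^ 2 * (y - 1) - y ^ θ - (θ + (1 - θ) * y) ^ (-θ) := rfl
  linarith

end Pool.Agent.H.MP_027d00_lc.SComp
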