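import Pool.Agent.H.MP_027d00_lc.strong.RH
import Pool.Agent.H.MP_027d00_lc.strong.Mea

/-!
# The resampling probability for products of any distribution
-/

set_option autoImplicit false

open Finset

namespace Pool.Agent.H.MP_027d00_lc.SComp

variable {Q : Type} [Fintype Q] [DecidableEq Q]

/-- The probability of `κ`: each coordinate is marked with probability `θ`, and gets a value with
the distribution `ν`. -/
noncomputable def wtw (θ : ℝ) (ν : Q → ℝ) {m : ℕ} (κ : Fin m → Bool × Q) : ℝ :=
  ∏ i, (if (κ i).1 = true then θ else 1 - θ) * ν (κ i).2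

/-- The probability that the point obtained from `Z` by resampling each coordinate with
probability `θ` lies in `v`. -/
noncomputable def TTw (θ : ℝ) (ν : Q → ℝ) {m : ℕ} (v : Finset (Fin m → Q)) (Z : Fin m → Q) : ℝ :=
  ∑ κ : Fin m → Bool × Q, wtw θ ν κ * (if mix κ Z ∈ v then 1 else 0)

end Pool.Agent.H.MP_027d00_lc.SComp
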