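import Pool.Agent.H.MP_027d00_lc.strong.KW

/-!
# Decomposition of a protocol tree into small pieces
-/

set_option autoImplicit false

open Finset

namespace Pool.Agent.H.MP_027d00_lc.SComp

open UComp

/-- The rectangle `S × T` is split into `N` rectangles with separations of size at most `w`. -/
inductive Dec {m n : ℕ} (g : (Fin n → Bool) → Bool) (w : ℕ) :
    Finset (Mat m n) → Finset (Mat m n) → ℕ → Prop
  | unit {S T : Finset (Mat m n)} (h : SSep g w S T) : Dec g w S T 1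
  | alice {S S₀ S₁ T : Finset (Mat m n)} {N₀ N₁ : ℕ} (hS : S ⊆ S₀ ∪ S₁)
      (h₀ : Dec g w S₀ T N₀) (h₁ : Dec g w S₁ T N₁) : Dec g w S T (N₀ + N₁)
  | bob {S T T₀ T₁ : Finset (Mat m n)} {N₀ N₁ : ℕ} (hT : T ⊆ T₀ ∪ T₁)
      (h₀ : Dec g w S T₀ N₀) (h₁ : Dec g w S T₁ N₁) : Dec g w S T (N₀ + N₁)

theorem Dec.pos {m n : ℕ} {g : (Fin n → Bool) → Bool} {w : ℕ} {S T : Finset (Mat m n)} {N : ℕ}
    (h : Dec g w S T N) : 1 ≤ N := by
  induction h with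
  | unit h => exact le_rfl
  | alice hS h₀ h₁ ih₀ ih₁ => omega
  | bob hT h₀ h₁ ih₀ ih₁ => omega

/-- The conclusion of the tree induction for a protocol with `l` leaves. -/
def St {m n : ℕ} (g : (Fin n → Bool) → Bool) (w l : ℕ) (S T : Finset (Mat m n)) : Prop :=
  (∃ c, SSep g c S T ∧ c ≤ w ∧ c ≤ l) ∨
  ∃ (c N : ℕ) (S' T' : Finset (Mat m n)), S' ⊆ S ∧ T' ⊆ T ∧ Dec g w S' T' N ∧
    SSep g c (S \ S') T ∧ SSep g c S (T \ T') ∧ c ≤ w ∧ c ≤ l ∧ w * (N + 4) + 6 * c ≤ 6 * l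

theorem SSep.self_diff {m n : ℕ} {g : (Fin n → Bool) → Bool} (c : ℕ) (S T : Finset (Mat m n)) :
    SSep g c (S \ S) T := Or.inl (Finset.sdiff_self S)

theorem SSep.diff_self {m n : ℕ} {g : (Fin n → Bool) → Bool} (c : ℕ) (S T : Finset (Mat m n)) :
    SSep g c S (T \ T) := Or.inr (Or.inl (Finset.sdiff_self T))

/-- Closing an open node. -/
theorem Dec.close {m n : ℕ} {g : (Fin n → Bool) → Bool} {w c N : ℕ} {S T S' T' : Finset (Mat m n)}
    (hd : Dec g w S' T' N) (hcw : c ≤ w) (h1 : SSep g c (S \ S') T)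
    (h2 : SSep g c S (T \ T')) (hS : S' ⊆ S) : Dec g w S T (N + 2) := by
  have d1 : Dec g w S' T (N + 1) := by
    refine Dec.bob (T₀ := T') (T₁ := T \ T') ?_ hd
      (Dec.unit (h2.mono hcw hS (Finset.Subset.refl _)))
    rw [Finset.union_sdiff_self_eq_union]
    exact Finset.subset_union_right
  have d2 : Dec g w S T (N + 1 + 1) := by
    refine Dec.alice (S₀ := S') (S₁ := S \ S') ?_ d1
      (Dec.unit (h1.mono hcw (Finset.Subset.refl _) (Finset.Subset.refl _)))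
    rw [Finset.union_sdiff_self_eq_union]
    exact Finset.subset_union_right
  exact d2

/-- One open and one closed child, at a node of Alice. -/
theorem St.alice_mixed {m n : ℕ} {g : (Fin n → Bool) → Bool} {w l₀ l₁ : ℕ}
    {S₀ S₁ T : Finset (Mat m n)} {c N c₁ : ℕ} {S' T' : Finset (Mat m n)}
    (hS : S' ⊆ S₀) (hT : T' ⊆ T) (hd : Dec g w S' T' N) (h1 : SSep g c (S₀ \ S') T)
    (h2 : SSep g c S₀ (T \ T')) (hcw : c ≤ w) (hcl : c ≤ l₀) (hN : w * (N + 4) + 6 * c ≤ 6 * l₀)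
    (h' : SSep g c₁ S₁ T) (hc₁w : c₁ ≤ w) (hc₁ : c₁ ≤ l₁) : St g w (l₀ + l₁) (S₀ ∪ S₁) T := by
  by_cases hw : c + c₁ ≤ w
  · refine Or.inr ⟨c + c₁, N, S', T', hS.trans Finset.subset_union_left, hT, hd, ?_, ?_, hw,
      by omega, by omega⟩
    · refine (h1.union_left h').mono le_rfl ?_ (Finset.Subset.refl _)
      intro X hX
      simp only [Finset.mem_sdiff, Finset.mem_union] at hX ⊢
      tauto
    · exact h2.union_left (h'.mono le_rfl (Finset.Subset.refl _) Finset.sdiff_subset)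
  · refine Or.inr ⟨0, N + 2 + 1, S₀ ∪ S₁, T, Finset.Subset.refl _, Finset.Subset.refl _,
      Dec.alice (Finset.Subset.refl _) (hd.close hcw h1 h2 hS)
        (Dec.unit (h'.mono hc₁w (Finset.Subset.refl _) (Finset.Subset.refl _))),
      SSep.self_diff _ _ _, SSep.diff_self _ _ _, Nat.zero_le _, Nat.zero_le _, ?_⟩
    have e : w * (N + 2 + 1 + 4) = w * (N + 4) + 3 * w := by ring
    omega

/-- One open and one closed child, at a node of Bob. -/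
theorem St.bob_mixed {m n : ℕ} {g : (Fin n → Bool) → Bool} {w l₀ l₁ : ℕ}
    {S T₀ T₁ : Finset (Mat m n)} {c N c₁ : ℕ} {S' T' : Finset (Mat m n)}
    (hS : S' ⊆ S) (hT : T' ⊆ T₀) (hd : Dec g w S' T' N) (h1 : SSep g c (S \ S') T₀)
    (h2 : SSep g c S (T₀ \ T')) (hcw : c ≤ w) (hcl : c ≤ l₀) (hN : w * (N + 4) + 6 * c ≤ 6 * l₀)
    (h' : SSep g c₁ S T₁) (hc₁w : c₁ ≤ w) (hc₁ : c₁ ≤ l₁) : St g w (l₀ + l₁) S (T₀ ∪ T₁) := by
  by_cases hw : c + c₁ ≤ w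
  · refine Or.inr ⟨c + c₁, N, S', T', hS, hT.trans Finset.subset_union_left, hd, ?_, ?_, hw,
      by omega, by omega⟩
    · exact h1.union_right (h'.mono le_rfl Finset.sdiff_subset (Finset.Subset.refl _))
    · refine (h2.union_right h').mono le_rfl (Finset.Subset.refl _) ?_
      intro X hX
      simp only [Finset.mem_sdiff, Finset.mem_union] at hX ⊢
      tauto
  · refine Or.inr ⟨0, N + 2 + 1, S, T₀ ∪ T₁, Finset.Subset.refl _, Finset.Subset.refl _,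
      Dec.bob (Finset.Subset.refl _) (hd.close hcw h1 h2 hS)
        (Dec.unit (h'.mono hc₁w (Finset.Subset.refl _) (Finset.Subset.refl _))),
      SSep.self_diff _ _ _, SSep.diff_self _ _ _, Nat.zero_le _, Nat.zero_le _, ?_⟩
    have e : w * (N + 2 + 1 + 4) = w * (N + 4) + 3 * w := by ring
    omega

theorem St.alice {m n : ℕ} {g : (Fin n → Bool) → Bool} {w l₀ l₁ : ℕ}
    {S₀ S₁ T : Finset (Mat m n)} (h₀ : St g w l₀ S₀ T) (h₁ : St g w l₁ S₁ T) :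
    St g w (l₀ + l₁) (S₀ ∪ S₁) T := by
  rcases h₀ with ⟨c₀, s₀, hw₀, hl₀⟩ | ⟨c₀, N₀, S₀', T₀', hS₀, hT₀, d₀, s₀, t₀, hw₀, hl₀, hN₀⟩
  · rcases h₁ with ⟨c₁, s₁, hw₁, hl₁⟩ | ⟨c₁, N₁, S₁', T₁', hS₁, hT₁, d₁, s₁, t₁, hw₁, hl₁, hN₁⟩
    · by_cases hw : c₀ + c₁ ≤ w
      · exact Or.inl ⟨c₀ + c₁, s₀.union_left s₁, hw, by omega⟩
      · refine Or.inr ⟨0, 1 + 1, S₀ ∪ S₁, T, Finset.Subset.refl _, Finset.Subset.refl _,
          Dec.alice (Finset.Subset.refl _)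
            (Dec.unit (s₀.mono hw₀ (Finset.Subset.refl _) (Finset.Subset.refl _)))
            (Dec.unit (s₁.mono hw₁ (Finset.Subset.refl _) (Finset.Subset.refl _))),
          SSep.self_diff _ _ _, SSep.diff_self _ _ _, Nat.zero_le _, Nat.zero_le _, ?_⟩
        omega
    · rw [Finset.union_comm, Nat.add_comm]
      exact St.alice_mixed hS₁ hT₁ d₁ s₁ t₁ hw₁ hl₁ hN₁ s₀ hw₀ hl₀
  · rcases h₁ with ⟨c₁, s₁, hw₁, hl₁⟩ | ⟨c₁, N₁, S₁', T₁', hS₁, hT₁, d₁, s₁, t₁, hw₁, hl₁, hN₁⟩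
    · exact St.alice_mixed hS₀ hT₀ d₀ s₀ t₀ hw₀ hl₀ hN₀ s₁ hw₁ hl₁
    · refine Or.inr ⟨0, (N₀ + 2) + (N₁ + 2), S₀ ∪ S₁, T, Finset.Subset.refl _,
        Finset.Subset.refl _, Dec.alice (Finset.Subset.refl _) (d₀.close hw₀ s₀ t₀ hS₀)
          (d₁.close hw₁ s₁ t₁ hS₁),
        SSep.self_diff _ _ _, SSep.diff_self _ _ _, Nat.zero_le _, Nat.zero_le _, ?_⟩
      have e : w * ((N₀ + 2) + (N₁ + 2) + 4) = w * (N₀ + 4) + w * (N₁ + 4) := by ring
      omega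

theorem St.bob {m n : ℕ} {g : (Fin n → Bool) → Bool} {w l₀ l₁ : ℕ}
    {S T₀ T₁ : Finset (Mat m n)} (h₀ : St g w l₀ S T₀) (h₁ : St g w l₁ S T₁) :
    St g w (l₀ + l₁) S (T₀ ∪ T₁) := by
  rcases h₀ with ⟨c₀, s₀, hw₀, hl₀⟩ | ⟨c₀, N₀, S₀', T₀', hS₀, hT₀, d₀, s₀, t₀, hw₀, hl₀, hN₀⟩
  · rcases h₁ with ⟨c₁, s₁, hw₁, hl₁⟩ | ⟨c₁, N₁, S₁', T₁', hS₁, hT₁, d₁, s₁, t₁, hw₁, hl₁, hN₁⟩
    · by_cases hw : c₀ + c₁ ≤ w
      · exact Or.inl ⟨c₀ + c₁, s₀.union_right s₁, hw, by omega⟩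
      · refine Or.inr ⟨0, 1 + 1, S, T₀ ∪ T₁, Finset.Subset.refl _, Finset.Subset.refl _,
          Dec.bob (Finset.Subset.refl _)
            (Dec.unit (s₀.mono hw₀ (Finset.Subset.refl _) (Finset.Subset.refl _)))
            (Dec.unit (s₁.mono hw₁ (Finset.Subset.refl _) (Finset.Subset.refl _))),
          SSep.self_diff _ _ _, SSep.diff_self _ _ _, Nat.zero_le _, Nat.zero_le _, ?_⟩
        omega
    · rw [Finset.union_comm, Nat.add_comm]
      exact St.bob_mixed hS₁ hT₁ d₁ s₁ t₁ hw₁ hl₁ hN₁ s₀ hw₀ hl₀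
  · rcases h₁ with ⟨c₁, s₁, hw₁, hl₁⟩ | ⟨c₁, N₁, S₁', T₁', hS₁, hT₁, d₁, s₁, t₁, hw₁, hl₁, hN₁⟩
    · exact St.bob_mixed hS₀ hT₀ d₀ s₀ t₀ hw₀ hl₀ hN₀ s₁ hw₁ hl₁
    · refine Or.inr ⟨0, (N₀ + 2) + (N₁ + 2), S, T₀ ∪ T₁, Finset.Subset.refl _,
        Finset.Subset.refl _, Dec.bob (Finset.Subset.refl _) (d₀.close hw₀ s₀ t₀ hS₀)
          (d₁.close hw₁ s₁ t₁ hS₁),
        SSep.self_diff _ _ _, SSep.diff_self _ _ _, Nat.zero_le _, Nat.zero_le _, ?_⟩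
      have e : w * ((N₀ + 2) + (N₁ + 2) + 4) = w * (N₀ + 4) + w * (N₁ + 4) := by ring
      omega

/-- The induction over the protocol. -/
theorem st_of_prot {m n : ℕ} {g : (Fin n → Bool) → Bool} {w : ℕ} (hw : 1 ≤ w)
    (P : Prot (Mat m n) (Mat m n) (Fin m × Fin n)) :
    ∀ S T : Finset (Mat m n),
      (∀ X ∈ S, ∀ Y ∈ T, X (P.run X Y).1 (P.run X Y).2 ≠ Y (P.run X Y).1 (P.run X Y).2 ∧
        g (X (P.run X Y).1) ≠ g (Y (P.run X Y).1)) → St g w P.leaves S T := by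
  induction P with
  | out o =>
    intro S T h
    exact Or.inl ⟨1, SSep.leaf o h, hw, le_rfl⟩
  | alice q P₀ P₁ ih₀ ih₁ =>
    intro S T h
    have e : S = S.filter (fun X => q X = false) ∪ S.filter (fun X => q X = true) := by
      ext X
      cases hq : q X <;> simp [hq]
    rw [e]
    refine St.alice (ih₀ _ _ ?_) (ih₁ _ _ ?_)
    · intro X hX Y hY
      rw [Finset.mem_filter] at hX
      simpa [Prot.run, hX.2] using h X hX.1 Y hY
    · intro X hX Y hY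
      rw [Finset.mem_filter] at hX
      simpa [Prot.run, hX.2] using h X hX.1 Y hY
  | bob q P₀ P₁ ih₀ ih₁ =>
    intro S T h
    have e : T = T.filter (fun X => q X = false) ∪ T.filter (fun X => q X = true) := by
      ext X
      cases hq : q X <;> simp [hq]
    rw [e]
    refine St.bob (ih₀ _ _ ?_) (ih₁ _ _ ?_)
    · intro X hX Y hY
      rw [Finset.mem_filter] at hY
      simpa [Prot.run, hY.2] using h X hX Y hY.1
    · intro X hX Y hY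
      rw [Finset.mem_filter] at hY
      simpa [Prot.run, hY.2] using h X hX Y hY.1

/-- The root: either one small separation or few pieces. -/
theorem dec_of_prot {m n : ℕ} {g : (Fin n → Bool) → Bool} {w : ℕ} (hw : 1 ≤ w)
    (P : Prot (Mat m n) (Mat m n) (Fin m × Fin n)) (S T : Finset (Mat m n))
    (h : ∀ X ∈ S, ∀ Y ∈ T, X (P.run X Y).1 (P.run X Y).2 ≠ Y (P.run X Y).1 (P.run X Y).2 ∧
        g (X (P.run X Y).1) ≠ g (Y (P.run X Y).1)) :
    SSep g w S T ∨ ∃ N, Dec g w S T N ∧ w * N ≤ 6 * P.leaves := by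
  rcases st_of_prot hw P S T h with ⟨c, s, hcw, _⟩ |
    ⟨c, N, S', T', hS, hT, d, s, t, hcw, hcl, hN⟩
  · exact Or.inl (s.mono hcw (Finset.Subset.refl _) (Finset.Subset.refl _))
  · refine Or.inr ⟨N + 2, d.close hcw s t hS, ?_⟩
    have e : w * (N + 4) = w * (N + 2) + 2 * w := by ring
    omega

end Pool.Agent.H.MP_027d00_lc.SComp
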